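import Pool.Agent.N530.LS.Stm

/-!
# A1: lattice points in discs
-/

set_option autoImplicit false

namespace Pool.Agent.N530.LS

open Filter Topology MeasureTheory Pointwise Submodule

theorem lv_coord1 (ω₁ ω₂ : ℂ) (x y : ℝ) :
    ((x * ω₁ + y * ω₂) * (starRingEnd ℂ) ω₂).im = x * (ω₁ * (starRingEnd ℂ) ω₂).im := by
  simp [Complex.mul_im]
  ring

theorem lv_coord2 (ω₁ ω₂ : ℂ) (x y : ℝ) :
    ((x * ω₁ + y * ω₂) * (starRingEnd ℂ) ω₁).im = - y * (ω₁ * (starRingEnd ℂ) ω₂).im := by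
  simp [Complex.mul_im]
  ring

theorem lv_bd1 (ω₁ ω₂ : ℂ) (x y : ℝ) :
    |x| * |(ω₁ * (starRingEnd ℂ) ω₂).im| ≤ ‖(x * ω₁ + y * ω₂)‖ * ‖ω₂‖ := by
  rw [← abs_mul, ← lv_coord1 ω₁ ω₂ x y]
  refine (Complex.abs_im_le_norm _).trans ?_
  rw [norm_mul, RCLike.norm_conj]

theorem lv_bd2 (ω₁ ω₂ : ℂ) (x y : ℝ) :
    |y| * |(ω₁ * (starRingEnd ℂ) ω₂).im| ≤ ‖(x * ω₁ + y * ω₂)‖ * ‖ω₁‖ := by
  rw [← abs_mul]
  have h := lv_coord2 ω₁ ω₂ x y
  have h2 : |y * (ω₁ * (starRingEnd ℂ) ω₂).im| =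
      |((x * ω₁ + y * ω₂) * (starRingEnd ℂ) ω₁).im| := by
    rw [h, neg_mul, abs_neg]
  rw [h2]
  refine (Complex.abs_im_le_norm _).trans ?_
  rw [norm_mul, RCLike.norm_conj]

/-- the unit disc in coordinates -/
def dsc (ω₁ ω₂ : ℂ) : Set (Fin 2 → ℝ) := {x | ‖(x 0 : ℂ) * ω₁ + (x 1 : ℂ) * ω₂‖ ≤ 1}

theorem dsc_convex (ω₁ ω₂ : ℂ) : Convex ℝ (dsc ω₁ ω₂) := by
  intro x hx y hy a b ha hb hab
  unfold dsc at *
  simp only [Set.mem_ofPred_eq, Pi.add_apply, Pi.smul_apply, smul_eq_mul] at *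
  push_cast
  have h : ((a : ℂ) * x 0 + b * y 0) * ω₁ + ((a : ℂ) * x 1 + b * y 1) * ω₂ =
      a * ((x 0 : ℂ) * ω₁ + (x 1 : ℂ) * ω₂) + b * ((y 0 : ℂ) * ω₁ + (y 1 : ℂ) * ω₂) := by ring
  rw [h]
  refine (norm_add_le _ _).trans ?_
  rw [norm_mul, norm_mul, Complex.norm_real, Complex.norm_real, Real.norm_of_nonneg ha,
    Real.norm_of_nonneg hb]
  nlinarith

theorem dsc_bounded (ω₁ ω₂ : ℂ) (h : Ind ω₁ ω₂) : Bornology.IsBounded (dsc ω₁ ω₂) := by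
  unfold Ind at h
  have hD : 0 < |(ω₁ * (starRingEnd ℂ) ω₂).im| := abs_pos.mpr h
  rw [isBounded_iff_forall_norm_le]
  refine ⟨(‖ω₁‖ + ‖ω₂‖) / |(ω₁ * (starRingEnd ℂ) ω₂).im|, fun x hx => ?_⟩
  unfold dsc at hx
  rw [Set.mem_ofPred_eq] at hx
  rw [pi_norm_le_iff_of_nonneg (by positivity)]
  have h1 := lv_bd1 ω₁ ω₂ (x 0) (x 1)
  have h2 := lv_bd2 ω₁ ω₂ (x 0) (x 1)
  have h3 : ‖(x 0 : ℂ) * ω₁ + (x 1 : ℂ) * ω₂‖ * ‖ω₂‖ ≤ ‖ω₁‖ + ‖ω₂‖ := by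
    nlinarith [norm_nonneg ω₁, norm_nonneg ω₂]
  have h4 : ‖(x 0 : ℂ) * ω₁ + (x 1 : ℂ) * ω₂‖ * ‖ω₁‖ ≤ ‖ω₁‖ + ‖ω₂‖ := by
    nlinarith [norm_nonneg ω₁, norm_nonneg ω₂]
  intro i
  rw [le_div_iff₀ hD]
  fin_cases i
  · exact h1.trans h3
  · exact h2.trans h4

theorem dsc_closed (ω₁ ω₂ : ℂ) : IsClosed (dsc ω₁ ω₂) := by
  unfold dsc
  apply isClosed_le
  · fun_prop
  · fun_prop

theorem dsc_volume (ω₁ ω₂ : ℂ) (h : Ind ω₁ ω₂) : 0 < volume.real (dsc ω₁ ω₂) := by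
  have h1 : volume (dsc ω₁ ω₂) ≠ ⊤ := (dsc_bounded ω₁ ω₂ h).measure_lt_top.ne
  rw [Measure.real, ENNReal.toReal_pos_iff]
  refine ⟨?_, lt_top_iff_ne_top.mpr h1⟩
  have h2 : {x : Fin 2 → ℝ | ‖(x 0 : ℂ) * ω₁ + (x 1 : ℂ) * ω₂‖ < 1} ⊆ dsc ω₁ ω₂ := by
    intro x hx
    rw [Set.mem_ofPred_eq] at hx
    exact hx.le
  refine lt_of_lt_of_le ?_ (measure_mono h2)
  apply IsOpen.measure_pos
  · apply isOpen_lt
    · fun_prop
    · fun_prop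
  · exact ⟨0, by simp⟩

theorem lv_finite (ω₁ ω₂ : ℂ) (h : Ind ω₁ ω₂) (z₀ : ℂ) (R : ℝ) :
    {v : ℤ × ℤ | ‖z₀ + lv ω₁ ω₂ v‖ ≤ R}.Finite := by
  unfold Ind at h
  have hD : 0 < |(ω₁ * (starRingEnd ℂ) ω₂).im| := abs_pos.mpr h
  set D := |(ω₁ * (starRingEnd ℂ) ω₂).im|
  obtain ⟨M, hM⟩ := exists_nat_gt ((R + ‖z₀‖) * (‖ω₁‖ + ‖ω₂‖) / D)
  refine Set.Finite.subset (Set.finite_Icc ((-M, -M) : ℤ × ℤ) (M, M)) ?_
  intro v hv
  rw [Set.mem_ofPred_eq] at hv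
  have h0 : ‖(v.1 : ℂ) * ω₁ + (v.2 : ℂ) * ω₂‖ ≤ R + ‖z₀‖ := by
    have : (v.1 : ℂ) * ω₁ + (v.2 : ℂ) * ω₂ = (z₀ + lv ω₁ ω₂ v) - z₀ := by
      unfold lv; ring
    rw [this]
    exact (norm_sub_le _ _).trans (by linarith)
  have hR : 0 ≤ R + ‖z₀‖ := le_trans (norm_nonneg _) h0
  have h1 := lv_bd1 ω₁ ω₂ (v.1 : ℝ) (v.2 : ℝ)
  have h2 := lv_bd2 ω₁ ω₂ (v.1 : ℝ) (v.2 : ℝ)
  push_cast at h1 h2
  have h3 : |(v.1 : ℝ)| < M := by
    refine lt_of_le_of_lt ?_ hM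
    rw [le_div_iff₀ hD]
    refine h1.trans ?_
    nlinarith [norm_nonneg ω₁, norm_nonneg ω₂, mul_le_mul_of_nonneg_right h0 (norm_nonneg ω₂),
      mul_nonneg hR (norm_nonneg ω₁)]
  have h4 : |(v.2 : ℝ)| < M := by
    refine lt_of_le_of_lt ?_ hM
    rw [le_div_iff₀ hD]
    refine h2.trans ?_
    nlinarith [norm_nonneg ω₁, norm_nonneg ω₂, mul_le_mul_of_nonneg_right h0 (norm_nonneg ω₁),
      mul_nonneg hR (norm_nonneg ω₂)]
  rw [abs_lt] at h3 h4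
  have h5 : -(M : ℤ) < v.1 := by exact_mod_cast h3.1
  have h6 : v.1 < (M : ℤ) := by exact_mod_cast h3.2
  have h7 : -(M : ℤ) < v.2 := by exact_mod_cast h4.1
  have h8 : v.2 < (M : ℤ) := by exact_mod_cast h4.2
  rw [Set.mem_Icc, Prod.le_def, Prod.le_def]
  exact ⟨⟨h5.le, h7.le⟩, ⟨h6.le, h8.le⟩⟩

theorem ncard_base (ω₁ ω₂ : ℂ) (R : ℝ) (hR : 0 < R) :
    Nat.card ↑(dsc ω₁ ω₂ ∩ R⁻¹ • (span ℤ (Set.range (Pi.basisFun ℝ (Fin 2))) :
      Set (Fin 2 → ℝ))) = Set.ncard {v : ℤ × ℤ | ‖lv ω₁ ω₂ v‖ ≤ R} := by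
  rw [Nat.card_coe_set_eq]
  symm
  apply Set.ncard_congr (fun (v : ℤ × ℤ) _ => (R⁻¹ • ![(v.1 : ℝ), (v.2 : ℝ)] : Fin 2 → ℝ))
  · intro v hv
    rw [Set.mem_ofPred_eq] at hv
    refine ⟨?_, ?_⟩
    · unfold dsc
      rw [Set.mem_ofPred_eq]
      have : ((((R⁻¹ • ![(v.1 : ℝ), (v.2 : ℝ)] : Fin 2 → ℝ) 0 : ℝ) : ℂ)) * ω₁ +
          ((((R⁻¹ • ![(v.1 : ℝ), (v.2 : ℝ)] : Fin 2 → ℝ) 1 : ℝ) : ℂ)) * ω₂ =
          ((R⁻¹ : ℝ) : ℂ) * lv ω₁ ω₂ v := by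
        simp [lv]
        ring
      rw [this, norm_mul, Complex.norm_real, Real.norm_of_nonneg (by positivity)]
      rw [inv_mul_le_iff₀ hR, mul_one]
      exact hv
    · apply Set.smul_mem_smul_set
      rw [SetLike.mem_coe, Module.Basis.mem_span_iff_repr_mem]
      intro i
      fin_cases i
      · exact ⟨v.1, by simp⟩
      · exact ⟨v.2, by simp⟩
  · intro v w _ _ h
    have h0 := congrFun h 0
    have h1 := congrFun h 1
    have hR' : R⁻¹ ≠ 0 := by positivity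
    simp only [Pi.smul_apply, smul_eq_mul] at h0 h1
    have h2 := mul_left_cancel₀ hR' h0
    have h3 := mul_left_cancel₀ hR' h1
    simp only [Matrix.cons_val_zero, Matrix.cons_val_one] at h2 h3
    apply Prod.ext
    · exact_mod_cast h2
    · exact_mod_cast h3
  · rintro _ ⟨hx, y, hy, rfl⟩
    rw [SetLike.mem_coe, Module.Basis.mem_span_iff_repr_mem] at hy
    obtain ⟨a, ha⟩ := hy 0
    obtain ⟨b, hb⟩ := hy 1
    simp only [Pi.basisFun_repr, algebraMap_int_eq, eq_intCast] at ha hb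
    refine ⟨(a, b), ?_, ?_⟩
    · rw [Set.mem_ofPred_eq]
      unfold dsc at hx
      rw [Set.mem_ofPred_eq] at hx
      have : ((((R⁻¹ • y : Fin 2 → ℝ) 0 : ℝ) : ℂ)) * ω₁ +
          ((((R⁻¹ • y : Fin 2 → ℝ) 1 : ℝ) : ℂ)) * ω₂ =
          ((R⁻¹ : ℝ) : ℂ) * lv ω₁ ω₂ (a, b) := by
        simp [lv, ← ha, ← hb]
        ring
      change ‖((((R⁻¹ • y : Fin 2 → ℝ) 0 : ℝ) : ℂ)) * ω₁ +
          ((((R⁻¹ • y : Fin 2 → ℝ) 1 : ℝ) : ℂ)) * ω₂‖ ≤ 1 at hx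
      rw [this, norm_mul, Complex.norm_real, Real.norm_of_nonneg (by positivity),
        inv_mul_le_iff₀ hR, mul_one] at hx
      exact hx
    · have : (![(a : ℝ), (b : ℝ)] : Fin 2 → ℝ) = y := by
        ext i
        fin_cases i
        · exact ha
        · exact hb
      simp only [this]

theorem tendsto_base (ω₁ ω₂ : ℂ) (h : Ind ω₁ ω₂) :
    Tendsto (fun R : ℝ => (Set.ncard {v : ℤ × ℤ | ‖lv ω₁ ω₂ v‖ ≤ R} : ℝ) / R ^ 2) atTop
      (𝓝 (volume.real (dsc ω₁ ω₂))) := by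
  have h1 := tendsto_card_div_pow_atTop_volume' (dsc ω₁ ω₂) (dsc_bounded ω₁ ω₂ h)
    (dsc_closed ω₁ ω₂).measurableSet ((dsc_convex ω₁ ω₂).addHaar_frontier volume) (by
      intro x y hx hxy
      rintro _ ⟨z, hz, rfl⟩
      refine ⟨(x / y) • z, ?_, ?_⟩
      · have hy : 0 < y := lt_of_lt_of_le hx hxy
        have h0 : (0 : Fin 2 → ℝ) ∈ dsc ω₁ ω₂ := by simp [dsc]
        have := (dsc_convex ω₁ ω₂) hz h0 (a := x / y) (b := 1 - x / y) (by positivity)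
          (by rw [sub_nonneg, div_le_one hy]; exact hxy) (by ring)
        simpa using this
      · have hy : 0 < y := lt_of_lt_of_le hx hxy
        simp only [smul_smul]
        congr 1
        field_simp)
  refine Tendsto.congr' ?_ h1
  filter_upwards [eventually_gt_atTop 0] with R hR
  rw [ncard_base ω₁ ω₂ R hR]
  simp

theorem stmA1 : StmA1 := by
  intro ω₁ ω₂ h
  refine ⟨_, dsc_volume ω₁ ω₂ h, ?_⟩
  intro N hN r s z₀
  refine ⟨lv_finite ω₁ ω₂ h z₀, ?_⟩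
  set κ := volume.real (dsc ω₁ ω₂)
  have hN' : (0 : ℝ) < N := by exact_mod_cast hN
  set z₁ := z₀ + lv ω₁ ω₂ (r, s) with hz₁
  set f : ℝ → ℝ := fun R => (Set.ncard {v : ℤ × ℤ | ‖lv ω₁ ω₂ v‖ ≤ R} : ℝ) with hf
  have hb : Tendsto (fun R => f R / R ^ 2) atTop (𝓝 κ) := tendsto_base ω₁ ω₂ h
  -- the residue class
  have hset : ∀ R : ℝ, Set.ncard {v : ℤ × ℤ | (N : ℤ) ∣ v.1 - r ∧ (N : ℤ) ∣ v.2 - s ∧
      ‖z₀ + lv ω₁ ω₂ v‖ ≤ R} = Set.ncard {w : ℤ × ℤ | ‖z₁ + N * lv ω₁ ω₂ w‖ ≤ R} := by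
    intro R
    symm
    apply Set.ncard_congr (fun (w : ℤ × ℤ) _ => ((r + N * w.1, s + N * w.2) : ℤ × ℤ))
    · intro w hw
      refine ⟨⟨w.1, by ring⟩, ⟨w.2, by ring⟩, ?_⟩
      rw [Set.mem_ofPred_eq] at hw
      have : z₀ + lv ω₁ ω₂ (r + N * w.1, s + N * w.2) = z₁ + N * lv ω₁ ω₂ w := by
        rw [hz₁]
        unfold lv
        push_cast
        ring
      rw [this]
      exact hw
    · intro v w _ _ hvw
      have hNZ : (N : ℤ) ≠ 0 := by exact_mod_cast hN.ne'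
      have h1 := congrArg Prod.fst hvw
      have h2 := congrArg Prod.snd hvw
      simp only at h1 h2
      exact Prod.ext (mul_left_cancel₀ hNZ (add_left_cancel h1))
        (mul_left_cancel₀ hNZ (add_left_cancel h2))
    · rintro v ⟨⟨a, ha⟩, ⟨b, hb⟩, hv⟩
      refine ⟨(a, b), ?_, ?_⟩
      · rw [Set.mem_ofPred_eq]
        have h1 : z₁ + N * lv ω₁ ω₂ (a, b) = z₀ + lv ω₁ ω₂ v := by
          have e1 : (v.1 : ℂ) = r + N * a := by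
            have : v.1 = r + N * a := by linarith
            rw [this]; push_cast; ring
          have e2 : (v.2 : ℂ) = s + N * b := by
            have : v.2 = s + N * b := by linarith
            rw [this]; push_cast; ring
          rw [hz₁]
          unfold lv
          simp only [e1, e2]
          ring
        rw [h1]
        exact hv
      · simp only
        exact Prod.ext (by linarith) (by linarith)
  have hfin : ∀ R : ℝ, {v : ℤ × ℤ | ‖lv ω₁ ω₂ v‖ ≤ R}.Finite := by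
    intro R
    have := lv_finite ω₁ ω₂ h 0 R
    simpa using this
  have hfin' : ∀ R : ℝ, {w : ℤ × ℤ | ‖z₁ + N * lv ω₁ ω₂ w‖ ≤ R}.Finite := by
    intro R
    refine (hfin ((R + ‖z₁‖) / N)).subset ?_
    intro w hw
    rw [Set.mem_ofPred_eq] at *
    rw [le_div_iff₀ hN']
    have e : ‖(N : ℂ) * lv ω₁ ω₂ w‖ ≤ R + ‖z₁‖ := by
      have : (N : ℂ) * lv ω₁ ω₂ w = (z₁ + N * lv ω₁ ω₂ w) - z₁ := by ring
      rw [this]
      exact (norm_sub_le _ _).trans (by linarith)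
    rw [norm_mul, Complex.norm_natCast] at e
    linarith
  have hup : ∀ R : ℝ, (Set.ncard {v : ℤ × ℤ | (N : ℤ) ∣ v.1 - r ∧ (N : ℤ) ∣ v.2 - s ∧
      ‖z₀ + lv ω₁ ω₂ v‖ ≤ R} : ℝ) ≤ f ((R + ‖z₁‖) / N) := by
    intro R
    rw [hset R, hf]
    simp only [Nat.cast_le]
    apply Set.ncard_le_ncard _ (hfin _)
    intro w hw
    rw [Set.mem_ofPred_eq] at *
    rw [le_div_iff₀ hN']
    have e : ‖(N : ℂ) * lv ω₁ ω₂ w‖ ≤ R + ‖z₁‖ := by
      have : (N : ℂ) * lv ω₁ ω₂ w = (z₁ + N * lv ω₁ ω₂ w) - z₁ := by ring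
      rw [this]
      exact (norm_sub_le _ _).trans (by linarith)
    rw [norm_mul, Complex.norm_natCast] at e
    linarith
  have hlow : ∀ R : ℝ, f ((R - ‖z₁‖) / N) ≤ (Set.ncard {v : ℤ × ℤ | (N : ℤ) ∣ v.1 - r ∧
      (N : ℤ) ∣ v.2 - s ∧ ‖z₀ + lv ω₁ ω₂ v‖ ≤ R} : ℝ) := by
    intro R
    rw [hset R, hf]
    simp only [Nat.cast_le]
    apply Set.ncard_le_ncard _ (hfin' _)
    intro w hw
    rw [Set.mem_ofPred_eq] at *
    rw [le_div_iff₀ hN'] at hw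
    refine (norm_add_le _ _).trans ?_
    rw [norm_mul, Complex.norm_natCast]
    linarith
  -- limits
  have hlim : ∀ c : ℝ, Tendsto (fun R : ℝ => f ((R + c) / N) / R ^ 2) atTop
      (𝓝 (κ / (N : ℝ) ^ 2)) := by
    intro c
    have h1 : Tendsto (fun R : ℝ => (R + c) / N) atTop atTop :=
      (tendsto_atTop_add_const_right _ _ tendsto_id).atTop_div_const hN'
    have h2 := hb.comp h1
    have h3 : Tendsto (fun R : ℝ => (R + c) / R) atTop (𝓝 1) := by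
      have h4 : Tendsto (fun R : ℝ => 1 + c / R) atTop (𝓝 (1 + 0)) :=
        tendsto_const_nhds.add (tendsto_const_nhds.div_atTop tendsto_id)
      rw [add_zero] at h4
      refine h4.congr' ?_
      filter_upwards [eventually_gt_atTop 0] with R hR
      field_simp
    have h5 : Tendsto (fun R : ℝ => (f ((R + c) / N) / ((R + c) / N) ^ 2) *
        (((R + c) / R) ^ 2 / (N : ℝ) ^ 2)) atTop (𝓝 (κ * (1 ^ 2 / (N : ℝ) ^ 2))) :=
      h2.mul ((h3.pow 2).div_const _)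
    have h6 : κ * (1 ^ 2 / (N : ℝ) ^ 2) = κ / (N : ℝ) ^ 2 := by ring
    rw [h6] at h5
    refine h5.congr' ?_
    filter_upwards [eventually_gt_atTop (max 0 (-c))] with R hR
    have hR0 : 0 < R := lt_of_le_of_lt (le_max_left _ _) hR
    have hRc : 0 < R + c := by
      have := lt_of_le_of_lt (le_max_right _ _) hR
      linarith
    field_simp
  refine tendsto_of_tendsto_of_tendsto_of_le_of_le' (hlim (-‖z₁‖)) (hlim ‖z₁‖) ?_ ?_
  · filter_upwards [eventually_gt_atTop 0] with R hR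
    apply div_le_div_of_nonneg_right _ (by positivity)
    have := hlow R
    rwa [sub_eq_add_neg] at this
  · filter_upwards [eventually_gt_atTop 0] with R hR
    exact div_le_div_of_nonneg_right (hup R) (by positivity)

end Pool.Agent.N530.LS
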