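import Pool.Agent.N530.LS.Stm
import Pool.Agent.H927R2.RD.T13
import Pool.Agent.H927R2.RD.T14
import Pool.Agent.H927R2.RD.T15a

/-!
# A2: the embedding theorem of Cassels, with units

The proof follows `Pool.Agent.H927R2.RD.T15.core`.
-/

set_option autoImplicit false

namespace Pool.Agent.N530.LS

open Pool.Agent.H927R2.RD

/-- infinitely many primes divide values of a non-constant integer polynomial -/
theorem schur (f : Polynomial ℤ) (hf : 0 < f.natDegree) (B : ℕ) :
    ∃ p : ℕ, p.Prime ∧ B < p ∧ ∃ a : ℤ, (p : ℤ) ∣ f.eval a := by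
  have hinf : ∀ c : ℤ, {x : ℤ | f.eval x = c}.Finite := by
    intro c
    have h0 : f - Polynomial.C c ≠ 0 := by
      intro h
      have : f = Polynomial.C c := sub_eq_zero.mp h
      rw [this, Polynomial.natDegree_C] at hf
      exact lt_irrefl _ hf
    refine ((f - Polynomial.C c).roots.toFinset.finite_toSet).subset ?_
    intro x hx
    simp only [Set.mem_ofPred_eq] at hx
    simp only [Multiset.mem_toFinset, Finset.mem_coe]
    rw [Polynomial.mem_roots h0, Polynomial.IsRoot, Polynomial.eval_sub, Polynomial.eval_C, hx,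
      sub_self]
  obtain ⟨m, hm⟩ : ∃ m : ℤ, f.eval m ≠ 0 := by
    obtain ⟨m, hm⟩ := (hinf 0).exists_notMem
    exact ⟨m, hm⟩
  set c := f.eval m with hc
  set N : ℤ := (B.factorial : ℤ) with hN
  have hN0 : N ≠ 0 := by
    rw [hN]; exact_mod_cast B.factorial_ne_zero
  obtain ⟨x, hx⟩ : ∃ x : ℤ, f.eval (m + c * N * x) ≠ c ∧ f.eval (m + c * N * x) ≠ -c := by
    have h1 : ((fun x : ℤ => m + c * N * x) ⁻¹' ({x : ℤ | f.eval x = c} ∪
        {x : ℤ | f.eval x = -c})).Finite := by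
      apply Set.Finite.preimage _ ((hinf c).union (hinf (-c)))
      intro a _ b _ hab
      exact mul_left_cancel₀ (mul_ne_zero hm hN0) (add_left_cancel hab)
    obtain ⟨x, hx⟩ := h1.exists_notMem
    refine ⟨x, fun h => hx (Or.inl h), fun h => hx (Or.inr h)⟩
  obtain ⟨k, hk⟩ : ∃ k : ℤ, f.eval (m + c * N * x) = c * (1 + N * k) := by
    obtain ⟨k, hk⟩ := Polynomial.sub_dvd_eval_sub (m + c * N * x) m f
    refine ⟨x * k, ?_⟩
    rw [← hc] at hk
    linear_combination hk
  have h1 : (1 + N * k).natAbs ≠ 1 := by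
    intro h
    rcases Int.natAbs_eq_iff.mp h with h2 | h2
    · apply hx.1
      rw [hk, h2]; simp
    · apply hx.2
      rw [hk, h2]; simp
  by_cases h0 : 1 + N * k = 0
  · obtain ⟨p, hBp, hp⟩ := Nat.exists_infinite_primes (B + 1)
    refine ⟨p, hp, hBp, m + c * N * x, ?_⟩
    rw [hk, h0, mul_zero]
    exact dvd_zero _
  · obtain ⟨p, hp, hpd⟩ := Nat.exists_prime_and_dvd h1
    have hpd' : (p : ℤ) ∣ 1 + N * k := Int.natCast_dvd.mpr hpd
    refine ⟨p, hp, ?_, m + c * N * x, ?_⟩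
    · by_contra hcon
      push Not at hcon
      have h2 : p ∣ B.factorial := (hp.dvd_factorial).mpr hcon
      have h3 : (p : ℤ) ∣ N := by rw [hN]; exact_mod_cast h2
      have h4 : (p : ℤ) ∣ 1 := by
        have := dvd_sub hpd' (Dvd.dvd.mul_right h3 k)
        simpa using this
      have h5 : p ∣ 1 := by exact_mod_cast h4
      exact hp.one_lt.ne' (Nat.dvd_one.mp h5)
    · rw [hk]
      exact Dvd.dvd.mul_left hpd' _

/-- the core: a simple root modulo `p` gives the embedding, with integrality -/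
theorem core2 {s : Finset ℂ} {r : ℕ} {t : Fin r → ℂ} {θ : ℂ}
    {P : Polynomial (MvPolynomial (Fin r) ℤ)} {g : MvPolynomial (Fin r) ℤ}
    (ht : AlgebraicIndependent ℚ t) (hg : g ≠ 0)
    (hθ : IsIntegral (IntermediateField.adjoin ℚ (Set.range t)) θ)
    (hP : P.map (toAdj t) = Polynomial.C (toAdj t g) *
        minpoly (IntermediateField.adjoin ℚ (Set.range t)) θ)
    (hs : ∀ x ∈ s, x ∈ IntermediateField.adjoin (IntermediateField.adjoin ℚ (Set.range t)) {θ})
    (q : ℂ → MvPolynomial (Fin r) ℤ) (Q : ℂ → Polynomial (MvPolynomial (Fin r) ℤ))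
    (hQ : ∀ x ∈ s, x * ((toAdj t (q x) : IntermediateField.adjoin ℚ (Set.range t)) : ℂ) =
      Polynomial.aeval θ ((Q x).map (toAdj t)))
    (a : Fin r → ℤ) {p : ℕ} [Fact p.Prime] {b : ℤ}
    (hqa : ∀ x ∈ s, ¬ (p : ℤ) ∣ MvPolynomial.eval a (q x))
    (hb : (p : ℤ) ∣ (P.map (MvPolynomial.eval a)).eval b)
    (hb' : ¬ (p : ℤ) ∣ (Polynomial.derivative (P.map (MvPolynomial.eval a))).eval b)
    (t' : Fin r → ℤ_[p]) (ht' : AlgebraicIndependent ℚ (fun i => (t' i : ℚ_[p])))
    (ht'a : ∀ i, (PadicInt.toZMod (t' i) : ZMod p) = (a i : ZMod p)) :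
    ∃ σ : Subfield.closure (s : Set ℂ) →+* ℚ_[p],
      ∀ x : Subfield.closure (s : Set ℂ), (x : ℂ) ∈ s → ‖σ x‖ ≤ 1 := by
  classical
  set φ : MvPolynomial (Fin r) ℤ →+* ℤ_[p] := MvPolynomial.eval₂Hom (Int.castRingHom ℤ_[p]) t'
    with hφ
  set F : Polynomial ℤ_[p] := P.map φ with hF
  have hcomp : (PadicInt.toZMod (p := p)).comp φ =
      (Int.castRingHom (ZMod p)).comp (MvPolynomial.eval a) := by
    apply MvPolynomial.ringHom_ext
    · intro n
      simp [hφ]
    · intro i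
      simp [hφ, ht'a]
  have hred : ∀ Q : Polynomial (MvPolynomial (Fin r) ℤ),
      PadicInt.toZMod ((Q.map φ).eval (b : ℤ_[p])) =
        (((Q.map (MvPolynomial.eval a)).eval b : ℤ) : ZMod p) := by
    intro Q
    have h1 : PadicInt.toZMod ((Q.map φ).eval (b : ℤ_[p])) =
        ((Q.map φ).map PadicInt.toZMod).eval (PadicInt.toZMod (b : ℤ_[p])) := by
      rw [Polynomial.eval_map_apply]
    have h2 : (((Q.map (MvPolynomial.eval a)).eval b : ℤ) : ZMod p) =
        ((Q.map (MvPolynomial.eval a)).map (Int.castRingHom (ZMod p))).eval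
          ((Int.castRingHom (ZMod p)) b) := by
      rw [Polynomial.eval_map_apply]; rfl
    rw [h1, h2, Polynomial.map_map, Polynomial.map_map, hcomp]
    simp
  have hunit : ∀ x ∈ s, ‖φ (q x)‖ = 1 := by
    intro x hx
    have h1 : PadicInt.toZMod (φ (q x)) ≠ 0 := by
      have := congrArg (fun f : MvPolynomial (Fin r) ℤ →+* ZMod p => f (q x)) hcomp
      simp only [RingHom.comp_apply] at this
      rw [this, Ne, eq_intCast, ZMod.intCast_zmod_eq_zero_iff_dvd]
      exact hqa x hx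
    by_contra hne
    apply h1
    have h2 : φ (q x) ∈ RingHom.ker (PadicInt.toZMod (p := p)) := by
      rw [PadicInt.ker_toZMod, IsLocalRing.mem_maximalIdeal, PadicInt.mem_nonunits]
      exact lt_of_le_of_ne (PadicInt.norm_le_one _) hne
    exact h2
  have hroot0 : ‖F.eval (b : ℤ_[p])‖ < 1 := by
    have h1 : PadicInt.toZMod (F.eval (b : ℤ_[p])) = 0 := by
      rw [hF, hred, ZMod.intCast_zmod_eq_zero_iff_dvd]
      exact hb
    have h2 : F.eval (b : ℤ_[p]) ∈ RingHom.ker (PadicInt.toZMod (p := p)) := h1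
    rw [PadicInt.ker_toZMod, IsLocalRing.mem_maximalIdeal, PadicInt.mem_nonunits] at h2
    exact h2
  have hder1 : ‖F.derivative.eval (b : ℤ_[p])‖ = 1 := by
    have h1 : PadicInt.toZMod (F.derivative.eval (b : ℤ_[p])) ≠ 0 := by
      rw [hF, Polynomial.derivative_map, hred, ← Polynomial.derivative_map, Ne,
        ZMod.intCast_zmod_eq_zero_iff_dvd]
      exact hb'
    by_contra hne
    apply h1
    have h2 : F.derivative.eval (b : ℤ_[p]) ∈ RingHom.ker (PadicInt.toZMod (p := p)) := by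
      rw [PadicInt.ker_toZMod, IsLocalRing.mem_maximalIdeal, PadicInt.mem_nonunits]
      exact lt_of_le_of_ne (PadicInt.norm_le_one _) hne
    exact h2
  obtain ⟨z, hz, -⟩ := hensels_lemma (p := p) (F := F) (a := (b : ℤ_[p])) (by
    rw [Polynomial.coe_aeval_eq_eval]
    show ‖F.eval (b : ℤ_[p])‖ < ‖F.derivative.eval (b : ℤ_[p])‖ ^ 2
    rw [hder1]
    simpa using hroot0)
  rw [Polynomial.coe_aeval_eq_eval] at hz
  -- the field embedding
  set K := IntermediateField.adjoin ℚ (Set.range t) with hK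
  let ψ : K →+* ℚ_[p] := (T15.psi ht ht' : K →+* ℚ_[p])
  have hψ : ∀ g' : MvPolynomial (Fin r) ℤ, ψ (toAdj t g') = ((φ g' : ℤ_[p]) : ℚ_[p]) := by
    intro g'
    have h1 := T15.psi_toAdj ht ht' g'
    rw [show ψ (toAdj t g') = T15.psi ht ht' (toAdj t g') from rfl, h1]
    have h2 : (PadicInt.Coe.ringHom (p := p)).comp φ =
        MvPolynomial.eval₂Hom (Int.castRingHom ℚ_[p]) (fun i => (t' i : ℚ_[p])) := by
      apply MvPolynomial.ringHom_ext
      · intro n
        simp [hφ]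
      · intro i
        simp [hφ] <;> rfl
    exact (congrArg (fun f : MvPolynomial (Fin r) ℤ →+* ℚ_[p] => f g') h2).symm
  have hmapQ : ∀ R : Polynomial (MvPolynomial (Fin r) ℤ),
      (R.map (toAdj t)).map ψ = (R.map φ).map (PadicInt.Coe.ringHom (p := p)) := by
    intro R
    have hh : ψ.comp (toAdj t) = (PadicInt.Coe.ringHom (p := p)).comp φ := RingHom.ext hψ
    rw [Polynomial.map_map, Polynomial.map_map, hh]
  have hmin : ((minpoly K θ).map ψ).eval (z : ℚ_[p]) = 0 := by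
    have h1 : (P.map (toAdj t)).map ψ = F.map (PadicInt.Coe.ringHom (p := p)) := hmapQ P
    have h2 : ((P.map (toAdj t)).map ψ).eval (z : ℚ_[p]) = 0 := by
      rw [h1]
      have : (z : ℚ_[p]) = PadicInt.Coe.ringHom z := rfl
      rw [this, Polynomial.eval_map_apply, hz, map_zero]
    rw [hP, Polynomial.map_mul, Polynomial.map_C, Polynomial.eval_mul, Polynomial.eval_C] at h2
    have h3 : ψ (toAdj t g) ≠ 0 := by
      rw [Ne, map_eq_zero]
      intro h0
      exact hg (T15.toAdj_injective ht (by rw [h0, map_zero]))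
    exact (mul_eq_zero.1 h2).resolve_left h3
  let _ : Algebra K ℚ_[p] := ψ.toAlgebra
  have hmem : (z : ℚ_[p]) ∈ (minpoly K θ).aroots ℚ_[p] := by
    rw [Polynomial.mem_aroots]
    refine ⟨minpoly.ne_zero hθ, ?_⟩
    rw [Polynomial.aeval_def, Polynomial.eval₂_eq_eval_map]
    exact hmin
  let χ : IntermediateField.adjoin K {θ} →ₐ[K] ℚ_[p] :=
    (IntermediateField.algHomAdjoinIntegralEquiv K hθ).symm ⟨(z : ℚ_[p]), hmem⟩
  have hχ : χ (IntermediateField.AdjoinSimple.gen K θ) = (z : ℚ_[p]) :=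
    IntermediateField.algHomAdjoinIntegralEquiv_symm_apply_gen K hθ ⟨(z : ℚ_[p]), hmem⟩
  have hle : Subfield.closure (s : Set ℂ) ≤ (IntermediateField.adjoin K {θ}).toSubfield := by
    rw [Subfield.closure_le]
    intro x hx
    exact hs x hx
  refine ⟨(χ : IntermediateField.adjoin K {θ} →+* ℚ_[p]).comp (Subfield.inclusion hle), ?_⟩
  intro x hx
  set X : IntermediateField.adjoin K {θ} := Subfield.inclusion hle x with hX
  have hXx : (X : ℂ) = x := rfl
  have e1 : X * algebraMap K _ (toAdj t (q x)) =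
      Polynomial.aeval (IntermediateField.AdjoinSimple.gen K θ) ((Q x).map (toAdj t)) := by
    apply (algebraMap (IntermediateField.adjoin K {θ}) ℂ).injective
    rw [map_mul, ← Polynomial.aeval_algebraMap_apply]
    exact hQ x hx
  have e2 := congrArg χ e1
  rw [map_mul, AlgHom.commutes, ← Polynomial.aeval_algHom_apply, hχ] at e2
  have e3 : algebraMap K ℚ_[p] (toAdj t (q x)) = ((φ (q x) : ℤ_[p]) : ℚ_[p]) := hψ _
  have e4 : Polynomial.aeval (z : ℚ_[p]) ((Q x).map (toAdj t)) =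
      ((((Q x).map φ).eval z : ℤ_[p]) : ℚ_[p]) := by
    rw [Polynomial.aeval_def, Polynomial.eval₂_eq_eval_map]
    have : (((Q x).map (toAdj t)).map (algebraMap K ℚ_[p])) =
        ((Q x).map φ).map (PadicInt.Coe.ringHom (p := p)) := hmapQ (Q x)
    rw [this]
    have h2 : (z : ℚ_[p]) = PadicInt.Coe.ringHom z := rfl
    rw [h2, Polynomial.eval_map_apply]
    rfl
  rw [e3, e4] at e2
  have e5 := congrArg norm e2
  rw [norm_mul] at e5
  have e6 : ‖((φ (q x) : ℤ_[p]) : ℚ_[p])‖ = 1 := hunit x hx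
  have e7 : ‖((((Q x).map φ).eval z : ℤ_[p]) : ℚ_[p])‖ ≤ 1 := PadicInt.norm_le_one _
  rw [e6, mul_one] at e5
  change ‖χ X‖ ≤ 1
  rw [e5]
  exact e7

/-- presentation with denominators -/
theorem exists_denoms {r : ℕ} {t : Fin r → ℂ} {θ : ℂ} (ht : AlgebraicIndependent ℚ t)
    (hθ : IsIntegral (IntermediateField.adjoin ℚ (Set.range t)) θ) (x : ℂ)
    (hx : x ∈ IntermediateField.adjoin (IntermediateField.adjoin ℚ (Set.range t)) {θ}) :
    ∃ (q : MvPolynomial (Fin r) ℤ) (Q : Polynomial (MvPolynomial (Fin r) ℤ)), q ≠ 0 ∧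
      x * ((toAdj t q : IntermediateField.adjoin ℚ (Set.range t)) : ℂ) =
      Polynomial.aeval θ (Q.map (toAdj t)) := by
  set F := IntermediateField.adjoin ℚ (Set.range t) with hF
  let _ : Algebra (MvPolynomial (Fin r) ℤ) F := (toAdj t).toAlgebra
  have hinj : Function.Injective (algebraMap (MvPolynomial (Fin r) ℤ) F) :=
    T14.toAdj_injective t ht
  have : FaithfulSMul (MvPolynomial (Fin r) ℤ) F :=
    (faithfulSMul_iff_algebraMap_injective _ _).mpr hinj
  have : IsFractionRing (MvPolynomial (Fin r) ℤ) F :=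
    IsFractionRing.of_field _ _ (T14.toAdj_surj t)
  have hx' : x ∈ (IntermediateField.adjoin F {θ}).toSubalgebra := hx
  rw [IntermediateField.adjoin_simple_toSubalgebra_of_isAlgebraic hθ.isAlgebraic,
    Algebra.adjoin_singleton_eq_range_aeval] at hx'
  obtain ⟨f, hf⟩ := hx'
  obtain ⟨b, hb, h⟩ := IsLocalization.integerNormalization_spec
    (nonZeroDivisors (MvPolynomial (Fin r) ℤ)) f
  refine ⟨b, IsLocalization.integerNormalization (nonZeroDivisors (MvPolynomial (Fin r) ℤ)) f,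
    mem_nonZeroDivisors_iff_ne_zero.mp hb, ?_⟩
  · have h2 := congrArg (Polynomial.aeval θ) h
    rw [Algebra.smul_def] at h2
    have h3 : (algebraMap (MvPolynomial (Fin r) ℤ) (Polynomial F)) b =
        Polynomial.C (toAdj t b) := rfl
    rw [h3, map_mul, Polynomial.aeval_C] at h2
    refine Eq.trans ?_ h2.symm
    rw [mul_comm]
    congr 1
    exact hf.symm

theorem cassels_int (s : Finset ℂ) (B : ℕ) : ∃ (p : ℕ) (_ : Fact p.Prime), B < p ∧
    ∃ σ : Subfield.closure (s : Set ℂ) →+* ℚ_[p],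
      ∀ x : Subfield.closure (s : Set ℂ), (x : ℂ) ∈ s → ‖σ x‖ ≤ 1 := by
  classical
  obtain ⟨r, t, θ, P, u, v, g, h, ht, hg, hh, hθ, hP, hbez, hs⟩ := exists_presentation s
  have hden := fun x (hx : x ∈ s) => exists_denoms ht hθ x (hs x hx)
  choose! q Q hq hQ using hden
  obtain ⟨a, ha⟩ := T15.exists_eval_ne (g * h * ∏ x ∈ s, q x)
    (mul_ne_zero (mul_ne_zero hg hh) (Finset.prod_ne_zero_iff.mpr hq))
  rw [map_mul, map_mul, map_prod] at ha
  have hga : MvPolynomial.eval a g ≠ 0 := left_ne_zero_of_mul (left_ne_zero_of_mul ha)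
  have hha : MvPolynomial.eval a h ≠ 0 := right_ne_zero_of_mul (left_ne_zero_of_mul ha)
  have hqa : ∏ x ∈ s, MvPolynomial.eval a (q x) ≠ 0 := right_ne_zero_of_mul ha
  have hinj := T15.toAdj_injective ht
  have hgt : toAdj t g ≠ 0 := by
    intro h0
    exact hg (hinj (by rw [h0, map_zero]))
  have hnat : P.natDegree = (minpoly (IntermediateField.adjoin ℚ (Set.range t)) θ).natDegree := by
    rw [← Polynomial.natDegree_map_eq_of_injective hinj, hP, Polynomial.natDegree_C_mul hgt]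
  have hlead : P.leadingCoeff = g := by
    apply hinj
    rw [← Polynomial.leadingCoeff_map_of_injective hinj, hP, Polynomial.leadingCoeff_mul,
      Polynomial.leadingCoeff_C, (minpoly.monic hθ).leadingCoeff, mul_one]
  have hdeg : 0 < (P.map (MvPolynomial.eval a)).natDegree := by
    rw [Polynomial.natDegree_map_of_leadingCoeff_ne_zero _ (by rw [hlead]; exact hga), hnat]
    exact minpoly.natDegree_pos hθ
  have hb : u.map (MvPolynomial.eval a) * P.map (MvPolynomial.eval a) +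
      v.map (MvPolynomial.eval a) * Polynomial.derivative (P.map (MvPolynomial.eval a)) =
      Polynomial.C (MvPolynomial.eval a h) := by
    rw [Polynomial.derivative_map, ← Polynomial.map_mul, ← Polynomial.map_mul,
      ← Polynomial.map_add, hbez, Polynomial.map_C]
  set D : ℤ := MvPolynomial.eval a h * ∏ x ∈ s, MvPolynomial.eval a (q x) with hD
  have hD0 : D ≠ 0 := mul_ne_zero hha hqa
  obtain ⟨p, hp, hpB, b, hpb⟩ := schur _ hdeg (B + D.natAbs)
  have hpD : ¬ (p : ℤ) ∣ D := by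
    intro hd
    have h1 := Nat.le_of_dvd (Int.natAbs_pos.mpr hD0) (Int.natCast_dvd.mp hd)
    omega
  have hpf : Fact p.Prime := ⟨hp⟩
  obtain ⟨t', ht', ht'a⟩ := exists_indep p r a
  refine ⟨p, hpf, by omega, core2 ht hg hθ hP hs q Q hQ a ?_ hpb ?_ t' ht' ht'a⟩
  · intro x hx hd
    exact hpD (Dvd.dvd.mul_left (hd.trans
      (Finset.dvd_prod_of_mem (fun x => MvPolynomial.eval a (q x)) hx)) _)
  · intro hd
    apply hpD
    apply Dvd.dvd.mul_right
    have h1 := congrArg (Polynomial.eval b) hb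
    rw [Polynomial.eval_add, Polynomial.eval_mul, Polynomial.eval_mul, Polynomial.eval_C] at h1
    rw [← h1]
    exact dvd_add (Dvd.dvd.mul_left hpb _) (Dvd.dvd.mul_left hd _)

theorem norm_one_of_inv {p : ℕ} [Fact p.Prime] {K : Type} [Field K] (σ : K →+* ℚ_[p]) (X : K)
    (hX : X ≠ 0) (h1 : ‖σ X‖ ≤ 1) (h2 : ‖σ X⁻¹‖ ≤ 1) : ‖σ X‖ = 1 := by
  rw [map_inv₀, norm_inv] at h2
  have h3 : 0 < ‖σ X‖ := by
    rw [norm_pos_iff]
    exact (map_ne_zero σ).mpr hX
  apply le_antisymm h1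
  rwa [inv_le_one₀ h3] at h2

theorem cassels_unit (k k' : Subfield ℂ) (hle : k ≤ k') {p : ℕ} [Fact p.Prime]
    (σ : k' →+* ℚ_[p]) (s : Set ℂ)
    (hσ : ∀ (x : ℂ) (hx : x ∈ k'), x ∈ s ∨ x⁻¹ ∈ s → ‖σ ⟨x, hx⟩‖ ≤ 1) :
    ∀ (x : ℂ) (hx : x ∈ k), x ∈ s → x ≠ 0 → ‖σ ⟨x, hle hx⟩‖ = 1 := by
  intro x hx hxs hx0
  apply norm_one_of_inv
  · intro h
    exact hx0 (congrArg Subtype.val h)
  · exact hσ x (hle hx) (Or.inl hxs)
  · have h := hσ x⁻¹ (k'.inv_mem (hle hx)) (Or.inr (by rwa [inv_inv]))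
    exact h

theorem stmA2 : StmA2 := by
  classical
  intro s B
  obtain ⟨p, hp, hBp, σ, hσ⟩ := cassels_int (s ∪ s.image (fun x => x⁻¹)) B
  have hle : Subfield.closure (s : Set ℂ) ≤
      Subfield.closure ((s ∪ s.image (fun x => x⁻¹) : Finset ℂ) : Set ℂ) := by
    apply Subfield.closure_mono
    intro x hx
    exact Finset.mem_coe.mpr (Finset.mem_union_left _ (Finset.mem_coe.mp hx))
  have key := cassels_unit (Subfield.closure (s : Set ℂ))
    (Subfield.closure ((s ∪ s.image (fun x => x⁻¹) : Finset ℂ) : Set ℂ)) hle σ (s : Set ℂ)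
    (by
      rintro x hx (h | h)
      · exact hσ ⟨x, hx⟩ (Finset.mem_union_left _ h)
      · apply hσ ⟨x, hx⟩
        apply Finset.mem_union_right
        rw [Finset.mem_image]
        exact ⟨x⁻¹, h, inv_inv x⟩)
  refine ⟨p, hp, hBp, σ.comp (Subfield.inclusion hle), ?_⟩
  rintro ⟨x, hx⟩ hxs hx0
  exact key x hx hxs hx0

end Pool.Agent.N530.LS
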