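import Pool.Agent.N530.LS.Stm

/-!
# A3: the number of non-squares `(X² - 4) (Y² - 4)` modulo `p`
-/

set_option autoImplicit false

namespace Pool.Agent.N530.LS

open Finset

section

variable (p : ℕ) [hp : Fact p.Prime]

/-- the character values -/
private noncomputable def fA3 (x : ZMod p) : ℤ := quadraticChar (ZMod p) (x ^ 2 - 4)

private theorem two_ne (h : 23 ≤ p) : (2 : ZMod p) ≠ 0 := by
  intro h2
  have : (p : ℕ) ∣ 2 := by
    rw [← ZMod.natCast_eq_zero_iff]
    exact_mod_cast h2
  have := Nat.le_of_dvd (by norm_num) this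
  omega

private theorem sum_fA3 (h : 23 ≤ p) : ∑ x : ZMod p, fA3 p x = -1 := by
  have h2 := two_ne p h
  have h4 : (4 : ZMod p) ≠ 0 := by
    have : (4 : ZMod p) = 2 * 2 := by norm_num
    rw [this]
    exact mul_ne_zero h2 h2
  have hchar : ringChar (ZMod p) ≠ 2 := by
    rw [ZMod.ringChar_zmod_n]
    omega
  have hne : quadraticChar (ZMod p) ≠ 1 := quadraticChar_ne_one hchar
  have hJ := jacobiSum_nontrivial_inv (R := ℤ) hne
  have hinv : (quadraticChar (ZMod p))⁻¹ = quadraticChar (ZMod p) :=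
    (quadraticChar_isQuadratic (ZMod p)).inv
  rw [hinv, jacobiSum] at hJ
  have h3 : ∑ x : ZMod p, fA3 p x = ∑ y : ZMod p, fA3 p (4 * y - 2) := by
    symm
    exact Equiv.sum_comp (⟨fun y => 4 * y - 2, fun x => (x + 2) / 4, fun y => by
      field_simp; ring, fun x => by field_simp; ring⟩ : ZMod p ≃ ZMod p) (fA3 p)
  rw [h3]
  have h5 : ∀ y : ZMod p, fA3 p (4 * y - 2) =
      quadraticChar (ZMod p) (-1) * (quadraticChar (ZMod p) y * quadraticChar (ZMod p) (1 - y)) := by
    intro y
    unfold fA3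
    have h6 : (4 * y - 2) ^ 2 - 4 = (4 : ZMod p) ^ 2 * ((-1) * (y * (1 - y))) := by ring
    rw [h6, map_mul, map_mul, map_mul, quadraticChar_sq_one' h4, one_mul]
  simp only [h5]
  rw [← Finset.mul_sum, hJ]
  have h7 : quadraticChar (ZMod p) (-1) * quadraticChar (ZMod p) (-1) = 1 := by
    rw [← map_mul]
    simp
  linarith [h7]

private theorem sum_fA3_sq (h : 23 ≤ p) : ∑ x : ZMod p, fA3 p x ^ 2 = p - 2 := by
  have h2 := two_ne p h
  have h1 : ∀ x : ZMod p, fA3 p x ^ 2 = 1 - (if x ∈ ({2, -2} : Finset (ZMod p)) then 1 else 0) := by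
    intro x
    unfold fA3
    have h3 : x ^ 2 - 4 = (x - 2) * (x + 2) := by ring
    by_cases hx : x ^ 2 - 4 = 0
    · have : x ∈ ({2, -2} : Finset (ZMod p)) := by
        rw [h3] at hx
        rcases mul_eq_zero.mp hx with h | h
        · rw [sub_eq_zero] at h
          simp [h]
        · have : x = -2 := by linear_combination h
          simp [this]
      simp [hx, this]
    · have : x ∉ ({2, -2} : Finset (ZMod p)) := by
        intro hx'
        apply hx
        rw [Finset.mem_insert, Finset.mem_singleton] at hx'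
        rcases hx' with rfl | rfl
        · ring
        · ring
      rw [quadraticChar_sq_one hx, if_neg this]
      norm_num
  simp only [h1, Finset.sum_sub_distrib, Finset.sum_const, Finset.card_univ, ZMod.card]
  rw [Finset.sum_ite_mem, Finset.univ_inter, Finset.sum_const, Finset.card_pair]
  · simp
  · intro h3
    have h4 : (2 : ZMod p) * 2 = 0 := by linear_combination h3
    rcases mul_eq_zero.mp h4 with h | h <;> exact h2 h

end

theorem stmA3 : StmA3 := by
  classical
  intro p hp h
  have h1 := sum_fA3 p h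
  have h2 := sum_fA3_sq p h
  set N := Nat.card {v : ZMod p × ZMod p // ¬ IsSquare ((v.1 ^ 2 - 4) * (v.2 ^ 2 - 4))} with hN
  have h3 : (2 * N : ℤ) = (p - 2) ^ 2 - 1 := by
    have h4 : (2 * N : ℤ) = ∑ v : ZMod p × ZMod p,
        (fA3 p v.1 ^ 2 * fA3 p v.2 ^ 2 - fA3 p v.1 * fA3 p v.2) := by
      rw [hN, Nat.card_eq_fintype_card, Fintype.card_subtype, Finset.card_filter]
      push_cast
      rw [Finset.mul_sum]
      apply Finset.sum_congr rfl
      intro v _
      have h5 : fA3 p v.1 * fA3 p v.2 =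
          quadraticChar (ZMod p) ((v.1 ^ 2 - 4) * (v.2 ^ 2 - 4)) := by
        unfold fA3
        rw [map_mul]
      rw [← mul_pow, h5]
      by_cases h6 : IsSquare ((v.1 ^ 2 - 4) * (v.2 ^ 2 - 4))
      · rw [if_neg (not_not.mpr h6)]
        by_cases h7 : (v.1 ^ 2 - 4) * (v.2 ^ 2 - 4) = 0
        · rw [h7]; simp
        · rw [(quadraticChar_one_iff_isSquare h7).mpr h6]; simp
      · rw [if_pos h6, quadraticChar_neg_one_iff_not_isSquare.mpr h6]
        norm_num
    rw [h4, Fintype.sum_prod_type]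
    simp only [Finset.sum_sub_distrib, ← Finset.mul_sum, ← Finset.sum_mul, h1, h2]
    ring
  have h5 : (23 : ℤ) ≤ p := by exact_mod_cast h
  have h6 : (p : ℤ) ^ 2 ≤ 5 * N := by nlinarith
  exact_mod_cast h6

end Pool.Agent.N530.LS
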