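import Pool.Agent.N530.LS.A4a

/-!
# A4: the counting principle
-/

set_option autoImplicit false

namespace Pool.Agent.N530.LS

open Filter Topology

/-- the number of lattice points of a set in a disc -/
noncomputable def cnt (ω₁ ω₂ : ℂ) (B : Set (ℤ × ℤ)) (z₀ : ℂ) (R : ℝ) : ℝ :=
  (Set.ncard {v : ℤ × ℤ | v ∈ B ∧ ‖z₀ + lv ω₁ ω₂ v‖ ≤ R} : ℝ)

/-- the conclusion of A1 -/
def CondA1 (ω₁ ω₂ : ℂ) (κ : ℝ) : Prop := ∀ (N : ℕ), 0 < N → ∀ (r s : ℤ) (z₀ : ℂ),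
    (∀ R : ℝ, {v : ℤ × ℤ | ‖z₀ + lv ω₁ ω₂ v‖ ≤ R}.Finite) ∧
    Tendsto (fun R : ℝ => (Set.ncard {v : ℤ × ℤ | (N : ℤ) ∣ v.1 - r ∧ (N : ℤ) ∣ v.2 - s ∧
      ‖z₀ + lv ω₁ ω₂ v‖ ≤ R} : ℝ) / R ^ 2) atTop (𝓝 (κ / (N : ℝ) ^ 2))

theorem CondA1.fin {ω₁ ω₂ : ℂ} {κ : ℝ} (h : CondA1 ω₁ ω₂ κ) (z₀ : ℂ) (R : ℝ) :
    {v : ℤ × ℤ | ‖z₀ + lv ω₁ ω₂ v‖ ≤ R}.Finite := (h 1 one_pos 0 0 z₀).1 R

theorem CondA1.fin' {ω₁ ω₂ : ℂ} {κ : ℝ} (h : CondA1 ω₁ ω₂ κ) (B : Set (ℤ × ℤ)) (z₀ : ℂ)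
    (R : ℝ) : {v : ℤ × ℤ | v ∈ B ∧ ‖z₀ + lv ω₁ ω₂ v‖ ≤ R}.Finite :=
  (h.fin z₀ R).subset fun _ hv => hv.2

theorem tendsto_shift (f : ℝ → ℝ) (L c : ℝ) (h : Tendsto (fun R => f R / R ^ 2) atTop (𝓝 L)) :
    Tendsto (fun R => f (R + c) / R ^ 2) atTop (𝓝 L) := by
  have h1 : Tendsto (fun R : ℝ => R + c) atTop atTop :=
    tendsto_atTop_add_const_right _ _ tendsto_id
  have h2 := h.comp h1
  have h3 : Tendsto (fun R : ℝ => (R + c) / R) atTop (𝓝 1) := by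
    have h4 : Tendsto (fun R : ℝ => 1 + c / R) atTop (𝓝 (1 + 0)) :=
      tendsto_const_nhds.add (tendsto_const_nhds.div_atTop tendsto_id)
    rw [add_zero] at h4
    refine h4.congr' ?_
    filter_upwards [eventually_gt_atTop 0] with R hR
    field_simp
  have h5 := h2.mul (h3.pow 2)
  rw [one_pow, mul_one] at h5
  refine h5.congr' ?_
  filter_upwards [eventually_gt_atTop (max 0 (-c))] with R hR
  have hR0 : 0 < R := lt_of_le_of_lt (le_max_left _ _) hR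
  have hRc : 0 < R + c := by
    have := lt_of_le_of_lt (le_max_right _ _) hR
    linarith
  simp only [Function.comp_apply]
  field_simp

theorem tendsto_scale (f : ℝ → ℝ) (L a : ℝ) (ha : 0 < a)
    (h : Tendsto (fun R => f R / R ^ 2) atTop (𝓝 L)) :
    Tendsto (fun R => f (R / a) / R ^ 2) atTop (𝓝 (L / a ^ 2)) := by
  have h1 : Tendsto (fun R : ℝ => R / a) atTop atTop := tendsto_id.atTop_div_const ha
  have h2 := (h.comp h1).div_const (a ^ 2)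
  refine h2.congr' ?_
  filter_upwards [eventually_gt_atTop 0] with R hR
  simp only [Function.comp_apply]
  field_simp

theorem cnt_univ {ω₁ ω₂ : ℂ} {κ : ℝ} (h : CondA1 ω₁ ω₂ κ) (z₀ : ℂ) :
    Tendsto (fun R => cnt ω₁ ω₂ Set.univ z₀ R / R ^ 2) atTop (𝓝 κ) := by
  have h1 := (h 1 one_pos 0 0 z₀).2
  simpa [cnt] using h1

theorem cnt_mono {ω₁ ω₂ : ℂ} {κ : ℝ} (h : CondA1 ω₁ ω₂ κ) {B C : Set (ℤ × ℤ)} (hBC : B ⊆ C)
    (z₀ : ℂ) (R : ℝ) : cnt ω₁ ω₂ B z₀ R ≤ cnt ω₁ ω₂ C z₀ R := by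
  unfold cnt
  rw [Nat.cast_le]
  exact Set.ncard_le_ncard (fun v hv => ⟨hBC hv.1, hv.2⟩) (h.fin' C z₀ R)

theorem cnt_nonneg (ω₁ ω₂ : ℂ) (B : Set (ℤ × ℤ)) (z₀ : ℂ) (R : ℝ) : 0 ≤ cnt ω₁ ω₂ B z₀ R :=
  Nat.cast_nonneg _

/-- residue classes -/
theorem cnt_class {ω₁ ω₂ : ℂ} {κ : ℝ} (h : CondA1 ω₁ ω₂ κ) (p : ℕ) [NeZero p]
    (C : Finset (ZMod p × ZMod p)) (z₀ : ℂ) :
    Tendsto (fun R => cnt ω₁ ω₂ {v | ((v.1 : ZMod p), (v.2 : ZMod p)) ∈ C} z₀ R / R ^ 2) atTop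
      (𝓝 (C.card * (κ / (p : ℝ) ^ 2))) := by
  classical
  have hp : 0 < p := Nat.pos_of_ne_zero (NeZero.ne p)
  have h1 : Tendsto (fun R => ∑ c ∈ C, cnt ω₁ ω₂ {v | ((v.1 : ZMod p), (v.2 : ZMod p)) = c} z₀ R /
      R ^ 2) atTop (𝓝 (∑ c ∈ C, κ / (p : ℝ) ^ 2)) := by
    apply tendsto_finsetSum
    intro c _
    have h2 := (h p hp (c.1.val : ℤ) (c.2.val : ℤ) z₀).2
    refine h2.congr ?_
    intro R
    unfold cnt
    congr 3
    ext v
    simp only [Set.mem_ofPred_eq, Prod.ext_iff]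
    have e1 : ∀ (x : ℤ) (y : ZMod p), (p : ℤ) ∣ x - (y.val : ℤ) ↔ (x : ZMod p) = y := by
      intro x y
      rw [← ZMod.intCast_zmod_eq_zero_iff_dvd, Int.cast_sub, sub_eq_zero]
      simp
    rw [e1, e1]
    tauto
  rw [Finset.sum_const, nsmul_eq_mul] at h1
  refine h1.congr ?_
  intro R
  rw [← Finset.sum_div]
  congr 1
  unfold cnt
  rw [← Nat.cast_sum]
  congr 1
  have hfin := h.fin z₀ R
  have e2 : ∀ B : Set (ℤ × ℤ), Set.ncard {v : ℤ × ℤ | v ∈ B ∧ ‖z₀ + lv ω₁ ω₂ v‖ ≤ R} =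
      (hfin.toFinset.filter (fun v => v ∈ B)).card := by
    intro B
    rw [← Set.ncard_coe_finset]
    congr 1
    ext v
    simp [and_comm]
  rw [e2, Finset.sum_congr rfl (fun c _ => e2 {v | ((v.1 : ZMod p), (v.2 : ZMod p)) = c})]
  simp only [Set.mem_ofPred_eq]
  rw [Finset.card_eq_sum_card_fiberwise (f := fun v : ℤ × ℤ => ((v.1 : ZMod p), (v.2 : ZMod p)))
    (t := C)]
  · apply Finset.sum_congr rfl
    intro c hc
    congr 1
    ext v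
    simp only [Finset.mem_filter]
    constructor
    · rintro ⟨h3, h4⟩
      exact ⟨⟨h3, h4 ▸ hc⟩, h4⟩
    · rintro ⟨⟨h3, _⟩, h4⟩
      exact ⟨h3, h4⟩
  · intro v hv
    simp only [Finset.coe_filter, Set.mem_ofPred_eq] at hv
    exact hv.2

/-- sets with disjoint translates have density zero -/
theorem cnt_overlap {ω₁ ω₂ : ℂ} {κ : ℝ} (h : CondA1 ω₁ ω₂ κ) (B : Set (ℤ × ℤ)) (w : ℤ × ℤ)
    (hw : ∀ v ∈ B, ∀ m : ℤ, m ≠ 0 → v + m • w ∉ B) (z₀ : ℂ) :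
    Tendsto (fun R => cnt ω₁ ω₂ B z₀ R / R ^ 2) atTop (𝓝 0) := by
  classical
  have key : ∀ (M : ℕ) (R : ℝ), M * cnt ω₁ ω₂ B z₀ R ≤
      cnt ω₁ ω₂ Set.univ z₀ (R + M * ‖lv ω₁ ω₂ w‖) := by
    intro M R
    unfold cnt
    rw [← Nat.cast_mul, Nat.cast_le]
    have hf1 := h.fin' B z₀ R
    have hf2 := h.fin' Set.univ z₀ (R + M * ‖lv ω₁ ω₂ w‖)
    rw [Set.ncard_eq_toFinset_card _ hf1, Set.ncard_eq_toFinset_card _ hf2]
    rw [mul_comm]
    have e : (hf1.toFinset.card) * M = (hf1.toFinset ×ˢ Finset.range M).card := by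
      rw [Finset.card_product, Finset.card_range]
    rw [e]
    apply Finset.card_le_card_of_injOn (fun x => x.1 + (x.2 : ℤ) • w)
    · rintro ⟨v, m⟩ hx
      simp only [Finset.coe_product, Set.Finite.coe_toFinset, Set.mem_prod, Set.mem_ofPred_eq,
        Finset.coe_range, Set.mem_Iio] at hx ⊢
      refine ⟨Set.mem_univ _, ?_⟩
      have e1 : z₀ + lv ω₁ ω₂ (v + (m : ℤ) • w) = (z₀ + lv ω₁ ω₂ v) + m * lv ω₁ ω₂ w := by
        unfold lv
        simp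
        ring
      rw [e1]
      refine (norm_add_le _ _).trans ?_
      rw [norm_mul, Complex.norm_natCast]
      have e2 : (m : ℝ) ≤ M := by exact_mod_cast hx.2.le
      have := mul_le_mul_of_nonneg_right e2 (norm_nonneg (lv ω₁ ω₂ w))
      linarith [hx.1.2]
    · rintro ⟨v, m⟩ hx ⟨v', m'⟩ hx' heq
      simp only [Finset.coe_product, Set.Finite.coe_toFinset, Set.mem_prod, Set.mem_ofPred_eq,
        Finset.coe_range, Set.mem_Iio] at hx hx' heq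
      by_cases hm : m = m'
      · subst hm
        have : v = v' := add_right_cancel heq
        rw [this]
      · exfalso
        have h1 : ((m : ℤ) - m') ≠ 0 := by
          intro h0
          apply hm
          have : (m : ℤ) = m' := by linarith
          exact_mod_cast this
        apply hw v hx.1.1 _ h1
        have : v + ((m : ℤ) - m') • w = v' := by
          rw [sub_smul]
          rw [← add_sub_assoc, heq]
          simp
        rw [this]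
        exact hx'.1.1
  rw [tendsto_order]
  constructor
  · intro a ha
    filter_upwards with R
    exact lt_of_lt_of_le ha (div_nonneg (cnt_nonneg _ _ _ _ _) (by positivity))
  · intro ε hε
    obtain ⟨M, hM⟩ := exists_nat_gt (max 1 ((κ + 1) / ε))
    have hM0 : (0 : ℝ) < M := lt_trans one_pos (lt_of_le_of_lt (le_max_left _ _) hM)
    have hM1 : (κ + 1) / ε < M := lt_of_le_of_lt (le_max_right _ _) hM
    have h1 := tendsto_shift _ κ (M * ‖lv ω₁ ω₂ w‖) (cnt_univ h z₀)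
    have h2 := (tendsto_order.mp h1).2 (κ + 1) (by linarith)
    filter_upwards [h2, eventually_gt_atTop 0] with R hR hR0
    have h3 := key M R
    have h4 : M * (cnt ω₁ ω₂ B z₀ R / R ^ 2) < κ + 1 := by
      refine lt_of_le_of_lt ?_ hR
      rw [← mul_div_assoc]
      exact div_le_div_of_nonneg_right h3 (by positivity)
    rw [div_lt_iff₀ hε] at hM1
    nlinarith

theorem cnt_notin {ω₁ ω₂ : ℂ} {κ : ℝ} (h : CondA1 ω₁ ω₂ κ) (P : Set (ℤ × ℤ))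
    (hP : Tendsto (fun R : ℝ =>
      (Set.ncard {v : ℤ × ℤ | v ∉ P ∧ ‖lv ω₁ ω₂ v‖ ≤ R} : ℝ) / R ^ 2) atTop (𝓝 0)) (z₀ : ℂ) :
    Tendsto (fun R => cnt ω₁ ω₂ Pᶜ z₀ R / R ^ 2) atTop (𝓝 0) := by
  have h1 := tendsto_shift _ 0 ‖z₀‖ hP
  refine tendsto_of_tendsto_of_tendsto_of_le_of_le tendsto_const_nhds h1 ?_ ?_
  · intro R
    exact div_nonneg (cnt_nonneg _ _ _ _ _) (by positivity)
  · intro R
    simp only
    apply div_le_div_of_nonneg_right _ (by positivity)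
    unfold cnt
    rw [Nat.cast_le]
    have hfin : {v : ℤ × ℤ | v ∉ P ∧ ‖lv ω₁ ω₂ v‖ ≤ R + ‖z₀‖}.Finite := by
      have := h.fin' Pᶜ 0 (R + ‖z₀‖)
      simpa using this
    apply Set.ncard_le_ncard _ hfin
    intro v hv
    refine ⟨hv.1, ?_⟩
    have : lv ω₁ ω₂ v = (z₀ + lv ω₁ ω₂ v) - z₀ := by ring
    rw [this]
    exact (norm_sub_le _ _).trans (by linarith [hv.2])

/-- affine change of variables -/
theorem card_affine (p : ℕ) [Fact p.Prime] (x₀ x₁ x₂ y₀ y₁ y₂ : ZMod p)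
    (hd : x₁ * y₂ - x₂ * y₁ ≠ 0) (q : ZMod p × ZMod p → Prop) :
    Nat.card {v : ZMod p × ZMod p // q v} =
    Nat.card {v : ZMod p × ZMod p // q (x₀ + (x₁ * v.1 + x₂ * v.2), y₀ + (y₁ * v.1 + y₂ * v.2))} := by
  classical
  have hinj : Function.Injective (fun v : ZMod p × ZMod p =>
      ((x₀ + (x₁ * v.1 + x₂ * v.2), y₀ + (y₁ * v.1 + y₂ * v.2)) : ZMod p × ZMod p)) := by
    intro v w hvw
    rw [Prod.ext_iff] at hvw
    obtain ⟨h1, h2⟩ := hvw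
    simp only at h1 h2
    have h3 := add_left_cancel h1
    have h4 := add_left_cancel h2
    have e1 : (x₁ * y₂ - x₂ * y₁) * v.1 = (x₁ * y₂ - x₂ * y₁) * w.1 := by
      linear_combination y₂ * h3 - x₂ * h4
    have e2 : (x₁ * y₂ - x₂ * y₁) * v.2 = (x₁ * y₂ - x₂ * y₁) * w.2 := by
      linear_combination x₁ * h4 - y₁ * h3
    exact Prod.ext (mul_left_cancel₀ hd e1) (mul_left_cancel₀ hd e2)
  have hbij := Finite.injective_iff_bijective.mp hinj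
  symm
  exact Nat.card_congr ((Equiv.ofBijective _ hbij).subtypeEquiv fun v => by simp)

end Pool.Agent.N530.LS
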