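import Pool.Agent.N530.LS.Stm

/-!
# A4, first part: a local ring with residue field `ZMod p` inside `ℂ`
-/

set_option autoImplicit false

namespace Pool.Agent.N530.LS

open Filter Topology

/-- closure of a conjugation-stable set is conjugation-stable -/
theorem closure_conj (s : Set ℂ) (hs : ∀ x ∈ s, (starRingEnd ℂ) x ∈ s) :
    ∀ x ∈ Subfield.closure s, (starRingEnd ℂ) x ∈ Subfield.closure s := by
  have h : Subfield.closure s ≤ (Subfield.closure s).comap (starRingEnd ℂ) := by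
    rw [Subfield.closure_le]
    intro x hx
    exact Subfield.subset_closure (hs x hx)
  exact h

theorem package (h2 : StmA2) (s₀ : Finset ℂ) : ∃ (p : ℕ) (_ : Fact p.Prime) (k : Subfield ℂ)
    (S : Subring ℂ) (ρ : S →+* ZMod p), 23 ≤ p ∧ (∀ x ∈ k, (starRingEnd ℂ) x ∈ k) ∧
    (∀ x ∈ S, x ∈ k) ∧ (∀ x ∈ s₀, x ∈ S ∧ (starRingEnd ℂ) x ∈ S) ∧
    (∀ x, x ∈ s₀ → ∀ hS : x ∈ S, x ≠ 0 → ρ ⟨x, hS⟩ ≠ 0) ∧
    (∀ x ∈ k, x ^ 2 ∈ S → x ∈ S) := by
  classical
  set s : Finset ℂ := s₀ ∪ s₀.image (starRingEnd ℂ) with hs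
  have hsconj : ∀ x ∈ (s : Set ℂ), (starRingEnd ℂ) x ∈ (s : Set ℂ) := by
    intro x hx
    rw [Finset.mem_coe, hs, Finset.mem_union, Finset.mem_image] at hx ⊢
    rcases hx with hx | ⟨y, hy, rfl⟩
    · right
      exact ⟨x, hx, rfl⟩
    · left
      simpa using hy
  set k := Subfield.closure (s : Set ℂ) with hk
  obtain ⟨p, hp, hBp, σ, hσ⟩ := h2 s 22
  have hnorm : ∀ x : k, (x : ℂ) ∈ s → ‖σ x‖ ≤ 1 := by
    intro x hx
    by_cases h0 : (x : ℂ) = 0
    · have : x = 0 := Subtype.ext h0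
      rw [this]
      simp
    · exact (hσ x hx h0).le
  set S₁ : Subring k := (PadicInt.subring p).comap σ with hS₁
  set S : Subring ℂ := S₁.map k.subtype with hSdef
  have hmem : ∀ x : ℂ, x ∈ S ↔ ∃ hx : x ∈ k, ‖σ ⟨x, hx⟩‖ ≤ 1 := by
    intro x
    rw [hSdef, Subring.mem_map]
    constructor
    · rintro ⟨y, hy, rfl⟩
      exact ⟨y.2, hy⟩
    · rintro ⟨hx, h⟩
      exact ⟨⟨x, hx⟩, h, rfl⟩
  let g : S →+* ℤ_[p] :=
    { toFun := fun x => ⟨σ ⟨x.1, ((hmem x.1).mp x.2).choose⟩, ((hmem x.1).mp x.2).choose_spec⟩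
      map_one' := by
        apply Subtype.ext
        change σ (1 : k) = 1
        exact map_one σ
      map_zero' := by
        apply Subtype.ext
        change σ (0 : k) = 0
        exact map_zero σ
      map_mul' := by
        intro x y
        apply Subtype.ext
        change σ _ = σ _ * σ _
        rw [← map_mul]
        rfl
      map_add' := by
        intro x y
        apply Subtype.ext
        change σ _ = σ _ + σ _
        rw [← map_add]
        rfl }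
  refine ⟨p, hp, k, S, (PadicInt.toZMod).comp g, by omega, closure_conj _ hsconj, ?_, ?_, ?_, ?_⟩
  · intro x hx
    exact ((hmem x).mp hx).choose
  · intro x hx
    have h1 : x ∈ s := by
      rw [hs, Finset.mem_union]; exact Or.inl hx
    have h2 : (starRingEnd ℂ) x ∈ s := by
      rw [hs, Finset.mem_union]; exact Or.inr (Finset.mem_image_of_mem _ hx)
    refine ⟨(hmem _).mpr ⟨Subfield.subset_closure h1, hnorm _ h1⟩,
      (hmem _).mpr ⟨Subfield.subset_closure h2, hnorm _ h2⟩⟩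
  · intro x hx hS hx0
    have h1 : x ∈ s := by
      rw [hs, Finset.mem_union]; exact Or.inl hx
    have h2 : ‖σ ⟨x, Subfield.subset_closure h1⟩‖ = 1 := hσ _ h1 hx0
    rw [RingHom.comp_apply]
    intro h3
    have h4 : g ⟨x, hS⟩ ∈ RingHom.ker (PadicInt.toZMod : ℤ_[p] →+* ZMod p) := h3
    rw [PadicInt.ker_toZMod, IsLocalRing.mem_maximalIdeal, mem_nonunits_iff,
      PadicInt.isUnit_iff] at h4
    apply h4
    exact h2
  · intro x hx hx2
    rw [hmem] at hx2 ⊢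
    obtain ⟨h1, h3⟩ := hx2
    refine ⟨hx, ?_⟩
    have h4 : σ ⟨x ^ 2, h1⟩ = σ ⟨x, hx⟩ ^ 2 := by
      rw [← map_pow]
      rfl
    rw [h4, norm_pow] at h3
    by_contra h5
    push Not at h5
    have : 1 < ‖σ ⟨x, hx⟩‖ ^ 2 := one_lt_pow₀ h5 (by norm_num)
    linarith

/-! ## uu -/

theorem uu_ge_two (t : ℂ) : 2 ≤ uu t := by
  unfold uu
  have h1 : ‖(4 : ℂ)‖ ≤ ‖t ^ 2‖ + ‖t ^ 2 - 4‖ := by
    have : (4 : ℂ) = t ^ 2 - (t ^ 2 - 4) := by ring
    nth_rewrite 1 [this]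
    exact norm_sub_le _ _
  rw [norm_pow] at h1
  have h2 : ‖(4 : ℂ)‖ = 4 := by norm_num
  linarith

theorem uu_le (t : ℂ) : uu t ≤ ‖t‖ ^ 2 + 2 := by
  unfold uu
  have h1 : ‖t ^ 2 - 4‖ ≤ ‖t‖ ^ 2 + 4 := by
    refine (norm_sub_le _ _).trans ?_
    rw [norm_pow]
    have h2 : ‖(4 : ℂ)‖ = 4 := by norm_num
    linarith
  linarith

theorem nsq_eq (t : ℂ) : ((‖t‖ ^ 2 : ℝ) : ℂ) = t * (starRingEnd ℂ) t := by
  rw [Complex.mul_conj, Complex.normSq_eq_norm_sq]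

theorem s_sq (t : ℂ) : ((‖t ^ 2 - 4‖ : ℝ) : ℂ) ^ 2 =
    (t ^ 2 - 4) * ((starRingEnd ℂ) t ^ 2 - 4) := by
  have h := nsq_eq (t ^ 2 - 4)
  have h4 : (starRingEnd ℂ) (4 : ℂ) = 4 := map_ofNat _ 4
  rw [map_sub, map_pow, h4] at h
  rw [← h]
  push_cast
  ring

/-- `uu t > 2` if `|t² - 4|` is not in `k` -/
theorem uu_gt_two (k : Subfield ℂ) (hk : ∀ x ∈ k, (starRingEnd ℂ) x ∈ k) (t : ℂ) (ht : t ∈ k)
    (hs : ((‖t ^ 2 - 4‖ : ℝ) : ℂ) ∉ k) : 2 < uu t := by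
  rcases (uu_ge_two t).lt_or_eq with h | h
  · exact h
  · exfalso
    apply hs
    have h1 : ‖t ^ 2 - 4‖ = 4 - ‖t‖ ^ 2 := by
      unfold uu at h
      linarith
    rw [h1]
    push_cast
    have h2 := nsq_eq t
    push_cast at h2
    rw [h2]
    exact k.sub_mem (ofNat_mem k 4) (k.mul_mem ht (hk t ht))

/-- `uu` is at most four to one -/
theorem uu_four (k : Subfield ℂ) (hk : ∀ x ∈ k, (starRingEnd ℂ) x ∈ k) (t t' : ℂ) (ht : t ∈ k)
    (ht' : t' ∈ k) (hs : ((‖t ^ 2 - 4‖ : ℝ) : ℂ) ∉ k) (h : uu t = uu t') :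
    t' = t ∨ t' = -t ∨ t' = (starRingEnd ℂ) t ∨ t' = -(starRingEnd ℂ) t := by
  set u : ℂ := ((uu t : ℝ) : ℂ) with hu
  have key : ∀ w : ℂ, ((uu w : ℝ) : ℂ) = u → u ^ 2 - u * (w * (starRingEnd ℂ) w) +
      (w ^ 2 + (starRingEnd ℂ) w ^ 2) - 4 = 0 := by
    intro w hw
    have h1 := s_sq w
    have h2 := nsq_eq w
    have h3 : ((‖w ^ 2 - 4‖ : ℝ) : ℂ) = 2 * u - w * (starRingEnd ℂ) w := by
      rw [← hw, ← h2]
      unfold uu
      push_cast
      ring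
    rw [h3] at h1
    linear_combination (1 / 4) * h1
  have e1 := key t rfl
  have e2 := key t' (by rw [← h])
  have hut : u ∉ k := by
    intro hu'
    apply hs
    have h3 : ((‖t ^ 2 - 4‖ : ℝ) : ℂ) = 2 * u - t * (starRingEnd ℂ) t := by
      rw [hu, ← nsq_eq t]
      unfold uu
      push_cast
      ring
    rw [h3]
    exact k.sub_mem (k.mul_mem (ofNat_mem k 2) hu') (k.mul_mem ht (hk t ht))
  have e3 : t * (starRingEnd ℂ) t = t' * (starRingEnd ℂ) t' := by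
    by_contra hne
    apply hut
    have hne' : t' * (starRingEnd ℂ) t' - t * (starRingEnd ℂ) t ≠ 0 := by
      intro h0
      exact hne (by linear_combination -h0)
    have h4 : u = ((t' ^ 2 + (starRingEnd ℂ) t' ^ 2) - (t ^ 2 + (starRingEnd ℂ) t ^ 2)) /
        (t' * (starRingEnd ℂ) t' - t * (starRingEnd ℂ) t) := by
      rw [eq_div_iff hne']
      linear_combination e1 - e2
    rw [h4]
    exact k.div_mem (k.sub_mem (k.add_mem (k.pow_mem ht' 2) (k.pow_mem (hk _ ht') 2))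
      (k.add_mem (k.pow_mem ht 2) (k.pow_mem (hk _ ht) 2)))
      (k.sub_mem (k.mul_mem ht' (hk _ ht')) (k.mul_mem ht (hk _ ht)))
  have e4 : t ^ 2 + (starRingEnd ℂ) t ^ 2 = t' ^ 2 + (starRingEnd ℂ) t' ^ 2 := by
    rw [e3] at e1
    linear_combination e1 - e2
  -- t'² is a root of (X - t²) (X - conj t²)
  have e5 : (t' ^ 2 - t ^ 2) * (t' ^ 2 - (starRingEnd ℂ) t ^ 2) = 0 := by
    have e6 : t ^ 2 * (starRingEnd ℂ) t ^ 2 = t' ^ 2 * (starRingEnd ℂ) t' ^ 2 := by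
      have : (t * (starRingEnd ℂ) t) ^ 2 = (t' * (starRingEnd ℂ) t') ^ 2 := by rw [e3]
      linear_combination this
    linear_combination (-t' ^ 2) * e4 + e6
  rcases mul_eq_zero.mp e5 with h5 | h5
  · have h6 : (t' - t) * (t' + t) = 0 := by linear_combination h5
    rcases mul_eq_zero.mp h6 with h7 | h7
    · left; linear_combination h7
    · right; left; linear_combination h7
  · have h6 : (t' - (starRingEnd ℂ) t) * (t' + (starRingEnd ℂ) t) = 0 := by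
      linear_combination h5
    rcases mul_eq_zero.mp h6 with h7 | h7
    · right; right; left; linear_combination h7
    · right; right; right; linear_combination h7

theorem card_le_four (k : Subfield ℂ) (hk : ∀ x ∈ k, (starRingEnd ℂ) x ∈ k) (W : Finset ℂ)
    (hW : ∀ t ∈ W, t ∈ k ∧ ((‖t ^ 2 - 4‖ : ℝ) : ℂ) ∉ k) :
    W.card ≤ 4 * (W.image uu).card := by
  classical
  apply Finset.card_le_mul_card_image
  intro b hb
  rw [Finset.mem_image] at hb
  obtain ⟨t, ht, rfl⟩ := hb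
  have : (W.filter fun a => uu a = uu t) ⊆
      ({t, -t, (starRingEnd ℂ) t, -(starRingEnd ℂ) t} : Finset ℂ) := by
    intro a ha
    rw [Finset.mem_filter] at ha
    have := uu_four k hk t a (hW t ht).1 (hW a ha.1).1 (hW t ht).2 ha.2.symm
    simp only [Finset.mem_insert, Finset.mem_singleton]
    exact this
  refine (Finset.card_le_card this).trans ?_
  exact Finset.card_le_four

/-- if `|t² - 4|` is in `k` then the reduction is a square -/
theorem red_sq (p : ℕ) [Fact p.Prime] (k : Subfield ℂ) (S : Subring ℂ) (ρ : S →+* ZMod p)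
    (hint : ∀ x ∈ k, x ^ 2 ∈ S → x ∈ S) (t : ℂ) (ht : t ∈ S) (ht' : (starRingEnd ℂ) t ∈ S)
    (hs : ((‖t ^ 2 - 4‖ : ℝ) : ℂ) ∈ k) :
    IsSquare ((ρ ⟨t, ht⟩ ^ 2 - 4) * (ρ ⟨(starRingEnd ℂ) t, ht'⟩ ^ 2 - 4)) := by
  set s : ℂ := ((‖t ^ 2 - 4‖ : ℝ) : ℂ) with hsd
  have h4 : (4 : ℂ) ∈ S := ofNat_mem S 4
  have h1 : s ^ 2 ∈ S := by
    rw [hsd, s_sq]
    exact S.mul_mem (S.sub_mem (S.pow_mem ht 2) h4) (S.sub_mem (S.pow_mem ht' 2) h4)
  have h2 : s ∈ S := hint s hs h1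
  refine ⟨ρ ⟨s, h2⟩, ?_⟩
  have h3 : ((⟨t, ht⟩ : S) ^ 2 - 4) * ((⟨(starRingEnd ℂ) t, ht'⟩ : S) ^ 2 - 4) =
      (⟨s, h2⟩ : S) * ⟨s, h2⟩ := by
    apply Subtype.ext
    change (t ^ 2 - 4) * ((starRingEnd ℂ) t ^ 2 - 4) = s * s
    rw [← s_sq, sq]
  have h5 := congrArg ρ h3
  simp only [map_mul, map_sub, map_pow, map_ofNat] at h5
  exact h5

end Pool.Agent.N530.LS
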