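import Pool.Agent.N530.LS.A4

/-!
# A4: the counting principle, proof
-/

set_option autoImplicit false

namespace Pool.Agent.N530.LS

open Filter Topology

theorem lv_inj {ω₁ ω₂ : ℂ} (h : Ind ω₁ ω₂) : Function.Injective (lv ω₁ ω₂) := by
  intro v w hvw
  have hD : (ω₁ * (starRingEnd ℂ) ω₂).im ≠ 0 := h
  have e1 : ∀ x : ℤ × ℤ, (lv ω₁ ω₂ x * (starRingEnd ℂ) ω₂).im =
      x.1 * (ω₁ * (starRingEnd ℂ) ω₂).im := by
    intro x
    unfold lv
    simp [Complex.mul_im]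
    ring
  have e2 : ∀ x : ℤ × ℤ, (lv ω₁ ω₂ x * (starRingEnd ℂ) ω₁).im =
      -x.2 * (ω₁ * (starRingEnd ℂ) ω₂).im := by
    intro x
    unfold lv
    simp [Complex.mul_im]
    ring
  have h1 : (v.1 : ℝ) * (ω₁ * (starRingEnd ℂ) ω₂).im = w.1 * (ω₁ * (starRingEnd ℂ) ω₂).im := by
    rw [← e1 v, ← e1 w, hvw]
  have h2 : -(v.2 : ℝ) * (ω₁ * (starRingEnd ℂ) ω₂).im =
      -w.2 * (ω₁ * (starRingEnd ℂ) ω₂).im := by
    rw [← e2 v, ← e2 w, hvw]
  have h3 := mul_right_cancel₀ hD h1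
  have h4 := mul_right_cancel₀ hD h2
  apply Prod.ext
  · exact_mod_cast h3
  · have : (v.2 : ℝ) = w.2 := by linarith
    exact_mod_cast this

theorem lv_add (ω₁ ω₂ : ℂ) (v w : ℤ × ℤ) : lv ω₁ ω₂ (v + w) = lv ω₁ ω₂ v + lv ω₁ ω₂ w := by
  unfold lv
  simp
  ring

theorem lv_sub (ω₁ ω₂ : ℂ) (v w : ℤ × ℤ) : lv ω₁ ω₂ (v - w) = lv ω₁ ω₂ v - lv ω₁ ω₂ w := by
  unfold lv
  simp
  ring

theorem lv_smul (ω₁ ω₂ : ℂ) (m : ℤ) (w : ℤ × ℤ) : lv ω₁ ω₂ (m • w) = m * lv ω₁ ω₂ w := by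
  unfold lv
  simp
  ring

/-- the classes for one coset -/
theorem classes {ω₁ ω₂ : ℂ} (h3 : StmA3) (p : ℕ) [hp : Fact p.Prime] (hp23 : 23 ≤ p)
    (k : Subfield ℂ) (S : Subring ℂ) (ρ : S →+* ZMod p)
    (hint : ∀ x ∈ k, x ^ 2 ∈ S → x ∈ S) (t₀ a : ℂ) (ht : t₀ ∈ S) (ht' : (starRingEnd ℂ) t₀ ∈ S)
    (ha : a ∈ S) (ha' : (starRingEnd ℂ) a ∈ S) (ha0 : ρ ⟨a, ha⟩ ≠ 0)
    (ha0' : ρ ⟨(starRingEnd ℂ) a, ha'⟩ ≠ 0)
    (h1 : ω₁ ∈ S) (h1' : (starRingEnd ℂ) ω₁ ∈ S)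
    (h2 : ω₂ ∈ S) (h2' : (starRingEnd ℂ) ω₂ ∈ S)
    (hD : ω₁ * (starRingEnd ℂ) ω₂ - ω₂ * (starRingEnd ℂ) ω₁ ∈ S) (hD0 : ρ ⟨_, hD⟩ ≠ 0) :
    ∃ C : Finset (ZMod p × ZMod p), p ^ 2 ≤ 5 * C.card ∧
      ∀ v : ℤ × ℤ, ((v.1 : ZMod p), (v.2 : ZMod p)) ∈ C →
        t₀ + a * lv ω₁ ω₂ v ∈ S ∧
        ((‖(t₀ + a * lv ω₁ ω₂ v) ^ 2 - 4‖ : ℝ) : ℂ) ∉ k := by
  classical
  set A := ρ ⟨a, ha⟩ with hA
  set A' := ρ ⟨(starRingEnd ℂ) a, ha'⟩ with hA'
  set X₀ := ρ ⟨t₀, ht⟩ with hX₀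
  set Y₀ := ρ ⟨(starRingEnd ℂ) t₀, ht'⟩ with hY₀
  set W₁ := ρ ⟨ω₁, h1⟩ with hW₁
  set W₂ := ρ ⟨ω₂, h2⟩ with hW₂
  set W₁' := ρ ⟨(starRingEnd ℂ) ω₁, h1'⟩ with hW₁'
  set W₂' := ρ ⟨(starRingEnd ℂ) ω₂, h2'⟩ with hW₂'
  have hdet : (A * W₁) * (A' * W₂') - (A * W₂) * (A' * W₁') ≠ 0 := by
    have e : (A * W₁) * (A' * W₂') - (A * W₂) * (A' * W₁') = A * A' * (W₁ * W₂' - W₂ * W₁') := by
      ring
    rw [e]
    refine mul_ne_zero (mul_ne_zero ha0 ha0') ?_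
    have e2 : W₁ * W₂' - W₂ * W₁' = ρ ⟨_, hD⟩ := by
      rw [hW₁, hW₂, hW₁', hW₂', ← map_mul, ← map_mul, ← map_sub]
      rfl
    rw [e2]
    exact hD0
  let q : ZMod p × ZMod p → Prop := fun c =>
    ¬ IsSquare ((c.1 ^ 2 - 4) * (c.2 ^ 2 - 4))
  have hcard := card_affine p X₀ (A * W₁) (A * W₂) Y₀ (A' * W₁') (A' * W₂') hdet q
  refine ⟨Finset.univ.filter (fun v : ZMod p × ZMod p =>
    q (X₀ + (A * W₁ * v.1 + A * W₂ * v.2), Y₀ + (A' * W₁' * v.1 + A' * W₂' * v.2))), ?_, ?_⟩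
  · have h4 := h3 p hp23
    have h5 : (Finset.univ.filter (fun v : ZMod p × ZMod p =>
        q (X₀ + (A * W₁ * v.1 + A * W₂ * v.2), Y₀ + (A' * W₁' * v.1 + A' * W₂' * v.2)))).card =
        Nat.card {v : ZMod p × ZMod p // q v} := by
      rw [hcard, Nat.card_eq_fintype_card, Fintype.card_subtype]
    rw [h5]
    exact h4
  · intro v hv
    rw [Finset.mem_filter] at hv
    have hv := hv.2
    have hmem : t₀ + a * lv ω₁ ω₂ v ∈ S := by
      unfold lv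
      exact S.add_mem ht (S.mul_mem ha (S.add_mem (S.mul_mem (intCast_mem S _) h1)
        (S.mul_mem (intCast_mem S _) h2)))
    have hconj : (starRingEnd ℂ) (t₀ + a * lv ω₁ ω₂ v) = (starRingEnd ℂ) t₀ +
        (starRingEnd ℂ) a * (v.1 * (starRingEnd ℂ) ω₁ + v.2 * (starRingEnd ℂ) ω₂) := by
      unfold lv
      simp
    have hmem' : (starRingEnd ℂ) (t₀ + a * lv ω₁ ω₂ v) ∈ S := by
      rw [hconj]
      exact S.add_mem ht' (S.mul_mem ha' (S.add_mem (S.mul_mem (intCast_mem S _) h1')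
        (S.mul_mem (intCast_mem S _) h2')))
    refine ⟨hmem, fun hk => hv ?_⟩
    have h6 := red_sq p k S ρ hint (t₀ + a * lv ω₁ ω₂ v) hmem hmem' hk
    have h7 : ρ ⟨t₀ + a * lv ω₁ ω₂ v, hmem⟩ = X₀ + (A * W₁ * v.1 + A * W₂ * v.2) := by
      have : (⟨t₀ + a * lv ω₁ ω₂ v, hmem⟩ : S) = ⟨t₀, ht⟩ + (⟨a, ha⟩ * ⟨ω₁, h1⟩ * (v.1 : S) +
          ⟨a, ha⟩ * ⟨ω₂, h2⟩ * (v.2 : S)) := by
        apply Subtype.ext
        simp only [lv, Subring.coe_add, Subring.coe_mul]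
        push_cast
        ring
      rw [this]
      simp only [map_add, map_mul, map_intCast, ← hX₀, ← hA, ← hW₁, ← hW₂]
    have h8 : ρ ⟨(starRingEnd ℂ) (t₀ + a * lv ω₁ ω₂ v), hmem'⟩ =
        Y₀ + (A' * W₁' * v.1 + A' * W₂' * v.2) := by
      have : (⟨(starRingEnd ℂ) (t₀ + a * lv ω₁ ω₂ v), hmem'⟩ : S) = ⟨(starRingEnd ℂ) t₀, ht'⟩ +
          (⟨(starRingEnd ℂ) a, ha'⟩ * ⟨(starRingEnd ℂ) ω₁, h1'⟩ * (v.1 : S) +
          ⟨(starRingEnd ℂ) a, ha'⟩ * ⟨(starRingEnd ℂ) ω₂, h2'⟩ * (v.2 : S)) := by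
        apply Subtype.ext
        simp only [Subring.coe_add, Subring.coe_mul]
        rw [hconj]
        push_cast
        ring
      rw [this]
      simp only [map_add, map_mul, map_intCast, ← hY₀, ← hA', ← hW₁', ← hW₂']
    rw [h7, h8] at h6
    exact h6

theorem stmA4 (h1 : StmA1) (h2 : StmA2) (h3 : StmA3) : StmA4 := by
  classical
  intro ω₁ ω₂ hind Tr C hQG
  obtain ⟨κ, hκ, hA1⟩ := h1 ω₁ ω₂ hind
  have hA1 : CondA1 ω₁ ω₂ κ := hA1
  refine ⟨20 * C / κ, ?_⟩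
  intro J a t₀ P ha hTr hP hinc
  -- the local ring
  set D : ℂ := ω₁ * (starRingEnd ℂ) ω₂ - ω₂ * (starRingEnd ℂ) ω₁ with hD
  obtain ⟨p, hp, k, S, ρ, hp23, hkc, hSk, hs, hunit, hint⟩ := package h2
    ({ω₁, ω₂, D} ∪ (J.image a ∪ J.image (fun j => (starRingEnd ℂ) (a j))) ∪ J.image t₀)
  have hD0 : D ≠ 0 := by
    intro h0
    have h5 : D.im = 0 := by rw [h0]; rfl
    apply hind
    rw [hD] at h5
    simp [Complex.mul_im] at h5 ⊢
    linarith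
  have hmω₁ := hs ω₁ (by simp)
  have hmω₂ := hs ω₂ (by simp)
  have hmD := hs D (by simp)
  have hma : ∀ j ∈ J, a j ∈ S ∧ (starRingEnd ℂ) (a j) ∈ S := fun j hj =>
    hs (a j) (by
      rw [Finset.mem_union, Finset.mem_union, Finset.mem_union]
      exact Or.inl (Or.inr (Or.inl (Finset.mem_image_of_mem _ hj))))
  have hmt : ∀ j ∈ J, t₀ j ∈ S ∧ (starRingEnd ℂ) (t₀ j) ∈ S := fun j hj =>
    hs (t₀ j) (by
      rw [Finset.mem_union]
      exact Or.inr (Finset.mem_image_of_mem _ hj))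
  have hcl : ∀ j ∈ J, ∃ Cj : Finset (ZMod p × ZMod p), p ^ 2 ≤ 5 * Cj.card ∧
      ∀ v : ℤ × ℤ, ((v.1 : ZMod p), (v.2 : ZMod p)) ∈ Cj →
        t₀ j + a j * lv ω₁ ω₂ v ∈ S ∧
        ((‖(t₀ j + a j * lv ω₁ ω₂ v) ^ 2 - 4‖ : ℝ) : ℂ) ∉ k := by
    intro j hj
    refine classes h3 p hp23 k S ρ hint (t₀ j) (a j) (hmt j hj).1 (hmt j hj).2 (hma j hj).1
      (hma j hj).2 ?_ ?_ hmω₁.1 hmω₁.2 hmω₂.1 hmω₂.2 hmD.1 ?_
    · exact hunit _ (by
        rw [Finset.mem_union, Finset.mem_union, Finset.mem_union]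
        exact Or.inl (Or.inr (Or.inl (Finset.mem_image_of_mem _ hj)))) _ (ha j hj)
    · refine hunit _ (by
        rw [Finset.mem_union, Finset.mem_union, Finset.mem_union]
        exact Or.inl (Or.inr (Or.inr (Finset.mem_image_of_mem _ hj)))) _ ?_
      simpa using ha j hj
    · exact hunit D (by simp) hmD.1 hD0
  choose! Cl hCl1 hCl2 using hcl
  -- notation
  set tj : ℕ → ℤ × ℤ → ℂ := fun j v => t₀ j + a j * lv ω₁ ω₂ v with htj
  set z : ℕ → ℂ := fun j => t₀ j / a j with hz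
  have hnorm : ∀ j ∈ J, ∀ v, ‖tj j v‖ = ‖a j‖ * ‖z j + lv ω₁ ω₂ v‖ := by
    intro j hj v
    rw [← norm_mul]
    congr 1
    have := ha j hj
    simp only [htj, hz]
    field_simp
  have htinj : ∀ j ∈ J, Function.Injective (tj j) := by
    intro j hj v w hvw
    simp only [htj] at hvw
    exact lv_inj hind (mul_left_cancel₀ (ha j hj) (add_left_cancel hvw))
  let Q : ℕ → Set (ℤ × ℤ) := fun j => {v | ((v.1 : ZMod p), (v.2 : ZMod p)) ∈ Cl j}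
  let B : ℕ → ℕ → Set (ℤ × ℤ) := fun j i => {v | ∃ v', tj i v' = tj j v}
  -- densities
  have hdQ : ∀ j ∈ J, Tendsto (fun R => cnt ω₁ ω₂ (Q j) (z j) (R / ‖a j‖) / R ^ 2) atTop
      (𝓝 ((Cl j).card * (κ / (p : ℝ) ^ 2) / ‖a j‖ ^ 2)) := by
    intro j hj
    have : NeZero p := ⟨hp.out.ne_zero⟩
    exact tendsto_scale _ _ _ (norm_pos_iff.mpr (ha j hj)) (cnt_class hA1 p (Cl j) (z j))
  have hdP : ∀ j ∈ J, Tendsto (fun R => cnt ω₁ ω₂ (P j)ᶜ (z j) (R / ‖a j‖) / R ^ 2) atTop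
      (𝓝 0) := by
    intro j hj
    have := tendsto_scale _ _ _ (norm_pos_iff.mpr (ha j hj)) (cnt_notin hA1 (P j) (hP j hj) (z j))
    rwa [zero_div] at this
  have hdB : ∀ j ∈ J, ∀ i ∈ J, j ≠ i → Tendsto (fun R =>
      cnt ω₁ ω₂ (B j i) (z j) (R / ‖a j‖) / R ^ 2) atTop (𝓝 0) := by
    intro j hj i hi hji
    obtain ⟨w, hw⟩ := hinc j hj i hi hji
    have := tendsto_scale _ _ _ (norm_pos_iff.mpr (ha j hj)) (cnt_overlap hA1 (B j i) w (by
      rintro v ⟨v', hv'⟩ m hm ⟨v'', hv''⟩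
      apply hw m hm (v'' - v')
      simp only [htj] at hv' hv''
      rw [lv_sub]
      rw [lv_add, lv_smul] at hv''
      linear_combination hv' - hv'') (z j))
    rwa [zero_div] at this
  -- the main function
  set F : ℝ → ℝ := fun R => ∑ j ∈ J, (cnt ω₁ ω₂ (Q j) (z j) (R / ‖a j‖) / R ^ 2 -
    cnt ω₁ ω₂ (P j)ᶜ (z j) (R / ‖a j‖) / R ^ 2 -
    ∑ i ∈ J.erase j, cnt ω₁ ω₂ (B j i) (z j) (R / ‖a j‖) / R ^ 2) with hF
  set L : ℝ := ∑ j ∈ J, ((Cl j).card * (κ / (p : ℝ) ^ 2) / ‖a j‖ ^ 2) with hL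
  have hFL : Tendsto F atTop (𝓝 L) := by
    have h5 : Tendsto F atTop (𝓝 (∑ j ∈ J, ((Cl j).card * (κ / (p : ℝ) ^ 2) / ‖a j‖ ^ 2 - 0 -
        ∑ i ∈ J.erase j, 0))) := by
      apply tendsto_finsetSum
      intro j hj
      refine ((hdQ j hj).sub (hdP j hj)).sub ?_
      apply tendsto_finsetSum
      intro i hi
      rw [Finset.mem_erase] at hi
      exact hdB j hj i hi.2 (Ne.symm hi.1)
    simpa [hL] using h5
  have hpos : (0 : ℝ) < p := by exact_mod_cast hp.out.pos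
  have hLS : κ / 5 * ∑ j ∈ J, 1 / ‖a j‖ ^ 2 ≤ L := by
    rw [hL, Finset.mul_sum]
    apply Finset.sum_le_sum
    intro j hj
    have h6 : (p : ℝ) ^ 2 ≤ 5 * (Cl j).card := by exact_mod_cast hCl1 j hj
    have h7 : 0 < ‖a j‖ := norm_pos_iff.mpr (ha j hj)
    have h8 : κ / 5 ≤ (Cl j).card * (κ / (p : ℝ) ^ 2) := by
      rw [← mul_div_assoc, le_div_iff₀ (by positivity)]
      nlinarith
    have h9 := mul_le_mul_of_nonneg_right h8 (by positivity : 0 ≤ 1 / ‖a j‖ ^ 2)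
    calc κ / 5 * (1 / ‖a j‖ ^ 2) ≤ (Cl j).card * (κ / (p : ℝ) ^ 2) * (1 / ‖a j‖ ^ 2) := h9
      _ = _ := by ring
  -- the comparison with the length set
  have hcomp : ∀ n : ℕ, (Us Tr n).Finite → ((Us Tr n).ncard : ℝ) ≤ C * Real.exp n →
      0 < 2 * Real.cosh n - 2 →
      F (Real.sqrt (2 * Real.cosh n - 2)) ≤ 4 * C * (Real.exp n / (2 * Real.cosh n - 2)) := by
    intro n hfin hle hn0
    set R := Real.sqrt (2 * Real.cosh n - 2) with hR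
    have hR2 : R ^ 2 = 2 * Real.cosh n - 2 := Real.sq_sqrt hn0.le
    have hRpos : 0 < R := Real.sqrt_pos.mpr hn0
    -- the finite sets
    let G : ℕ → Finset (ℤ × ℤ) := fun j => ((hA1.fin (z j) (R / ‖a j‖)).toFinset).filter
      (fun v => v ∈ Q j ∧ v ∈ P j ∧ ∀ i ∈ J, i ≠ j → v ∉ B j i)
    have hGmem : ∀ j v, v ∈ G j ↔ ‖z j + lv ω₁ ω₂ v‖ ≤ R / ‖a j‖ ∧ v ∈ Q j ∧ v ∈ P j ∧
        ∀ i ∈ J, i ≠ j → v ∉ B j i := by
      intro j v
      simp [G]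
    have hGcard : ∀ j ∈ J, cnt ω₁ ω₂ (Q j) (z j) (R / ‖a j‖) -
        cnt ω₁ ω₂ (P j)ᶜ (z j) (R / ‖a j‖) -
        ∑ i ∈ J.erase j, cnt ω₁ ω₂ (B j i) (z j) (R / ‖a j‖) ≤ (G j).card := by
      intro j hj
      obtain ⟨fX, hfX⟩ : ∃ fX : Set (ℤ × ℤ) → Finset (ℤ × ℤ), ∀ X v,
          v ∈ fX X ↔ v ∈ X ∧ ‖z j + lv ω₁ ω₂ v‖ ≤ R / ‖a j‖ :=
        ⟨fun X => (hA1.fin' X (z j) (R / ‖a j‖)).toFinset, fun X v => by simp⟩
      have e2 : ∀ X : Set (ℤ × ℤ), cnt ω₁ ω₂ X (z j) (R / ‖a j‖) = ((fX X).card : ℝ) := by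
        intro X
        unfold cnt
        rw [← Set.ncard_coe_finset]
        congr 2
        ext v
        rw [Finset.mem_coe, hfX]
        rfl
      simp only [e2]
      have hsub : fX (Q j) ⊆ (G j) ∪ fX (P j)ᶜ ∪ (J.erase j).biUnion (fun i => fX (B j i)) := by
        intro v hv
        rw [hfX] at hv
        rw [Finset.mem_union, Finset.mem_union, Finset.mem_biUnion]
        by_cases hvP : v ∈ P j
        · by_cases hvB : ∃ i ∈ J, i ≠ j ∧ v ∈ B j i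
          · obtain ⟨i, hi, hij, hvi⟩ := hvB
            right
            exact ⟨i, Finset.mem_erase.mpr ⟨hij, hi⟩, (hfX _ _).mpr ⟨hvi, hv.2⟩⟩
          · push Not at hvB
            left; left
            rw [hGmem]
            exact ⟨hv.2, hv.1, hvP, hvB⟩
        · left; right
          exact (hfX _ _).mpr ⟨hvP, hv.2⟩
      have hc1 := Finset.card_le_card hsub
      have hc2 := hc1.trans (Finset.card_union_le _ _)
      have hc3 := hc2.trans (Nat.add_le_add (Finset.card_union_le _ _) Finset.card_biUnion_le)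
      have hc4 : ((fX (Q j)).card : ℝ) ≤ (G j).card + ((fX (P j)ᶜ).card : ℝ) +
          ∑ i ∈ J.erase j, ((fX (B j i)).card : ℝ) := by
        exact_mod_cast hc3
      linarith
    -- the traces
    let W : Finset ℂ := J.biUnion (fun j => (G j).image (tj j))
    have hWcard : W.card = ∑ j ∈ J, (G j).card := by
      rw [Finset.card_biUnion]
      · apply Finset.sum_congr rfl
        intro j hj
        exact Finset.card_image_of_injective _ (htinj j hj)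
      · intro j hj i hi hji
        rw [Function.onFun, Finset.disjoint_left]
        intro t ht ht'
        rw [Finset.mem_image] at ht ht'
        obtain ⟨v, hv, hvt⟩ := ht
        obtain ⟨v', hv', hvt'⟩ := ht'
        apply ((hGmem j v).mp hv).2.2.2 i hi (Ne.symm hji)
        exact ⟨v', hvt'.trans hvt.symm⟩
    have hW : ∀ t ∈ W, t ∈ Tr ∧ ‖t‖ ≤ R ∧ t ∈ k ∧ ((‖t ^ 2 - 4‖ : ℝ) : ℂ) ∉ k := by
      intro t ht
      rw [Finset.mem_biUnion] at ht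
      obtain ⟨j, hj, ht⟩ := ht
      rw [Finset.mem_image] at ht
      obtain ⟨v, hv, rfl⟩ := ht
      rw [hGmem] at hv
      have hcl := hCl2 j hj v hv.2.1
      refine ⟨hTr j hj v hv.2.2.1, ?_, hSk _ hcl.1, hcl.2⟩
      rw [hnorm j hj v]
      have h7 : 0 < ‖a j‖ := norm_pos_iff.mpr (ha j hj)
      have := hv.1
      rw [le_div_iff₀ h7] at this
      linarith
    have hcard4 := card_le_four k hkc W (fun t ht => ⟨(hW t ht).2.2.1, (hW t ht).2.2.2⟩)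
    have himg : ((W.image uu : Finset ℝ) : Set ℝ) ⊆ Us Tr n := by
      intro u hu
      rw [Finset.mem_coe, Finset.mem_image] at hu
      obtain ⟨t, ht, rfl⟩ := hu
      obtain ⟨h5, h6, h7, h8⟩ := hW t ht
      refine ⟨t, h5, rfl, uu_gt_two k hkc t h7 h8, ?_⟩
      have h9 := uu_le t
      have h10 : ‖t‖ ^ 2 ≤ R ^ 2 := by
        have := norm_nonneg t
        nlinarith
      linarith
    have hcardU : (W.image uu).card ≤ (Us Tr n).ncard := by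
      rw [← Set.ncard_coe_finset]
      exact Set.ncard_le_ncard himg hfin
    have hfinal : (∑ j ∈ J, ((G j).card : ℝ)) ≤ 4 * (C * Real.exp n) := by
      have h5 : ((∑ j ∈ J, (G j).card : ℕ) : ℝ) ≤ 4 * ((Us Tr n).ncard : ℝ) := by
        rw [← hWcard]
        exact_mod_cast hcard4.trans (Nat.mul_le_mul_left 4 hcardU)
      push_cast at h5
      linarith
    have hFle : F R * R ^ 2 ≤ ∑ j ∈ J, ((G j).card : ℝ) := by
      rw [hF]
      simp only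
      rw [Finset.sum_mul]
      apply Finset.sum_le_sum
      intro j hj
      refine le_trans (le_of_eq ?_) (hGcard j hj)
      rw [sub_mul, sub_mul, Finset.sum_mul]
      have hR0 : R ^ 2 ≠ 0 := by positivity
      congr 1
      · congr 1
        · exact div_mul_cancel₀ _ hR0
        · exact div_mul_cancel₀ _ hR0
      · apply Finset.sum_congr rfl
        intro i _
        exact div_mul_cancel₀ _ hR0
    have h11 : F R * R ^ 2 ≤ 4 * (C * Real.exp n) := hFle.trans hfinal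
    rw [hR2] at h11
    rw [← mul_div_assoc, le_div_iff₀ hn0]
    linarith
  -- limits
  have hlim1 : Tendsto (fun n : ℕ => 2 * Real.cosh (n : ℝ) - 2) atTop atTop := by
    have h5 : Tendsto (fun n : ℕ => Real.exp (n : ℝ) - 2) atTop atTop :=
      tendsto_atTop_add_const_right _ _ (Real.tendsto_exp_atTop.comp tendsto_natCast_atTop_atTop)
    refine tendsto_atTop_mono ?_ h5
    intro n
    rw [Real.cosh_eq]
    have := Real.exp_pos (-(n : ℝ))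
    linarith
  have hlim2 : Tendsto (fun n : ℕ => F (Real.sqrt (2 * Real.cosh (n : ℝ) - 2))) atTop (𝓝 L) :=
    hFL.comp (Real.tendsto_sqrt_atTop.comp hlim1)
  have hlim3 : Tendsto (fun n : ℕ => 4 * C * (Real.exp (n : ℝ) / (2 * Real.cosh (n : ℝ) - 2)))
      atTop (𝓝 (4 * C * 1)) := by
    apply Tendsto.const_mul
    have h5 : Tendsto (fun x : ℝ => Real.exp (-x)) atTop (𝓝 0) := Real.tendsto_exp_neg_atTop_nhds_zero
    have h6 : Tendsto (fun n : ℕ => Real.exp (-(n : ℝ))) atTop (𝓝 0) :=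
      h5.comp tendsto_natCast_atTop_atTop
    have h7 : Tendsto (fun n : ℕ => 1 / (1 + Real.exp (-(n : ℝ)) * Real.exp (-(n : ℝ)) -
        2 * Real.exp (-(n : ℝ)))) atTop (𝓝 (1 / (1 + 0 * 0 - 2 * 0))) := by
      apply Tendsto.div tendsto_const_nhds
      · exact (tendsto_const_nhds.add (h6.mul h6)).sub (tendsto_const_nhds.mul h6)
      · norm_num
    have h8 : (1 : ℝ) / (1 + 0 * 0 - 2 * 0) = 1 := by norm_num
    rw [h8] at h7
    refine h7.congr ?_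
    intro n
    have h9 : 2 * Real.cosh (n : ℝ) - 2 = Real.exp (n : ℝ) * (1 + Real.exp (-(n : ℝ)) *
        Real.exp (-(n : ℝ)) - 2 * Real.exp (-(n : ℝ))) := by
      rw [Real.cosh_eq]
      have h10 : Real.exp (n : ℝ) * Real.exp (-(n : ℝ)) = 1 := by
        rw [← Real.exp_add]; simp
      linear_combination (2 - Real.exp (-(n : ℝ))) * h10
    rw [h9, div_mul_cancel_left₀ (Real.exp_ne_zero _), one_div]
  have hL4 : L ≤ 4 * C := by
    by_contra hcon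
    push Not at hcon
    rw [← mul_one (4 * C)] at hcon
    have h5 : ∀ᶠ n : ℕ in atTop, 4 * C * (Real.exp (n : ℝ) / (2 * Real.cosh (n : ℝ) - 2)) <
        F (Real.sqrt (2 * Real.cosh (n : ℝ) - 2)) := hlim3.eventually_lt hlim2 hcon
    have h6 : ∀ᶠ n : ℕ in atTop, 0 < 2 * Real.cosh (n : ℝ) - 2 :=
      hlim1.eventually_gt_atTop 0
    obtain ⟨n, hn, hn5, hn6⟩ := (hQG.and_eventually (h5.and h6)).exists
    exact absurd (hcomp n hn.1 hn.2 hn6) (not_le.mpr hn5)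
  have h12 := hLS.trans hL4
  rw [le_div_iff₀ hκ]
  linarith

end Pool.Agent.N530.LS
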