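import Pool.Agent.N530.LS.Defs

/-!
# The action of `SL(2, ℂ)` on hyperbolic 3-space
-/

set_option autoImplicit false

namespace Pool.Agent.N530.LS

open Matrix Complex

/-- the determinant condition in coordinates -/
theorem det_eq (A : SL2C) : A 0 0 * A 1 1 - A 0 1 * A 1 0 = 1 := by
  have h := A.2
  rw [Matrix.det_fin_two] at h
  exact h

theorem dn_pos (A : SL2C) (p : H3) : 0 < dn A p.1 := by
  have hd := det_eq A
  have ht := p.2
  unfold dn
  by_cases hc : A 1 0 = 0
  · have he : A 1 1 ≠ 0 := by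
      intro h
      rw [hc, h] at hd
      simp at hd
    rw [hc]
    simp only [zero_mul, zero_add, norm_zero, ne_eq, OfNat.ofNat_ne_zero, not_false_eq_true,
      zero_pow, add_zero]
    positivity
  · have : 0 < ‖A 1 0‖ := norm_pos_iff.mpr hc
    positivity

/-- the action -/
noncomputable def act (A : SL2C) (p : H3) : H3 :=
  ⟨(nz A p.1, p.1.2 / dn A p.1), div_pos p.2 (dn_pos A p)⟩

/-- the Hermitian matrix of a point -/
noncomputable def hm (p : H3) : Matrix (Fin 2) (Fin 2) ℂ :=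
  !![(((‖p.1.1‖ ^ 2 + p.1.2 ^ 2) / p.1.2 : ℝ) : ℂ), p.1.1 / (p.1.2 : ℂ);
    (starRingEnd ℂ) p.1.1 / (p.1.2 : ℂ), 1 / (p.1.2 : ℂ)]

theorem hm_inj {p q : H3} (h : hm p = hm q) : p = q := by
  have h1 := congrFun (congrFun h 1) 1
  have h2 := congrFun (congrFun h 0) 1
  simp only [hm, of_apply, cons_val', cons_val_one, cons_val_zero, cons_val_fin_one] at h1 h2
  have hp : (p.1.2 : ℂ) ≠ 0 := by exact_mod_cast p.2.ne'
  have hq : (q.1.2 : ℂ) ≠ 0 := by exact_mod_cast q.2.ne'
  have h3 : (p.1.2 : ℂ) = q.1.2 := by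
    field_simp at h1
    exact h1.symm
  rw [h3] at h2
  have h4 : p.1.1 = q.1.1 := by
    field_simp at h2
    exact h2
  apply Subtype.ext
  apply Prod.ext h4
  exact_mod_cast h3

theorem hm_det (p : H3) : (hm p).det = 1 := by
  have hp : (p.1.2 : ℂ) ≠ 0 := by exact_mod_cast p.2.ne'
  rw [Matrix.det_fin_two]
  simp only [hm, of_apply, cons_val', cons_val_one, cons_val_zero, cons_val_fin_one]
  have h : ((‖p.1.1‖ : ℂ)) ^ 2 = p.1.1 * (starRingEnd ℂ) p.1.1 := by
    rw [Complex.mul_conj, Complex.normSq_eq_norm_sq]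
    push_cast
    ring
  push_cast
  field_simp
  rw [h]
  ring

theorem ext_of_entries {M N : Matrix (Fin 2) (Fin 2) ℂ} (h11 : M 1 1 = N 1 1)
    (h01 : M 0 1 = N 0 1) (h10 : M 1 0 = N 1 0) (hM : M.det = 1) (hN : N.det = 1)
    (hne : M 1 1 ≠ 0) : M = N := by
  rw [Matrix.det_fin_two] at hM hN
  have h00 : M 0 0 = N 0 0 := by
    have : M 0 0 * M 1 1 = N 0 0 * M 1 1 := by
      rw [h11] at hM ⊢
      rw [h01, h10] at hM
      linear_combination hM - hN
    exact mul_right_cancel₀ hne this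
  ext i j
  fin_cases i <;> fin_cases j <;> simp_all

/-- the main formula -/
theorem hm_act (A : SL2C) (p : H3) :
    hm (act A p) = (A : Matrix (Fin 2) (Fin 2) ℂ) * hm p *
      (A : Matrix (Fin 2) (Fin 2) ℂ)ᴴ := by
  have hp : (p.1.2 : ℂ) ≠ 0 := by exact_mod_cast p.2.ne'
  have hdn : ((dn A p.1 : ℝ) : ℂ) ≠ 0 := by exact_mod_cast (dn_pos A p).ne'
  have hns : ∀ z : ℂ, ((‖z‖ : ℂ)) ^ 2 = z * (starRingEnd ℂ) z := by
    intro z
    rw [Complex.mul_conj, Complex.normSq_eq_norm_sq]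
    push_cast
    ring
  have hdn' : ((dn A p.1 : ℝ) : ℂ) = (A 1 0 * p.1.1 + A 1 1) *
      ((starRingEnd ℂ) (A 1 0) * (starRingEnd ℂ) p.1.1 + (starRingEnd ℂ) (A 1 1)) +
      A 1 0 * (starRingEnd ℂ) (A 1 0) * (p.1.2 : ℂ) ^ 2 := by
    unfold dn
    push_cast
    rw [hns, hns, map_add, map_mul]
  have e11 : ((A : Matrix (Fin 2) (Fin 2) ℂ) * hm p * (A : Matrix (Fin 2) (Fin 2) ℂ)ᴴ) 1 1 =
      ((dn A p.1 : ℝ) : ℂ) / (p.1.2 : ℂ) := by
    rw [hdn']
    simp only [Matrix.mul_apply, Fin.sum_univ_two, hm, of_apply, cons_val', cons_val_one,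
      cons_val_zero, cons_val_fin_one, conjTranspose_apply, RCLike.star_def]
    push_cast
    rw [hns]
    field_simp
    ring
  have e01 : ((A : Matrix (Fin 2) (Fin 2) ℂ) * hm p * (A : Matrix (Fin 2) (Fin 2) ℂ)ᴴ) 0 1 =
      ((A 0 0 * p.1.1 + A 0 1) * ((starRingEnd ℂ) (A 1 0) * (starRingEnd ℂ) p.1.1 +
        (starRingEnd ℂ) (A 1 1)) + A 0 0 * (starRingEnd ℂ) (A 1 0) * (p.1.2 : ℂ) ^ 2) /
        (p.1.2 : ℂ) := by
    simp only [Matrix.mul_apply, Fin.sum_univ_two, hm, of_apply, cons_val', cons_val_one,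
      cons_val_zero, cons_val_fin_one, conjTranspose_apply, RCLike.star_def]
    push_cast
    rw [hns]
    field_simp
    ring
  have e10 : ((A : Matrix (Fin 2) (Fin 2) ℂ) * hm p * (A : Matrix (Fin 2) (Fin 2) ℂ)ᴴ) 1 0 =
      (((starRingEnd ℂ) (A 0 0) * (starRingEnd ℂ) p.1.1 + (starRingEnd ℂ) (A 0 1)) *
        (A 1 0 * p.1.1 + A 1 1) + (starRingEnd ℂ) (A 0 0) * A 1 0 * (p.1.2 : ℂ) ^ 2) /
        (p.1.2 : ℂ) := by
    simp only [Matrix.mul_apply, Fin.sum_univ_two, hm, of_apply, cons_val', cons_val_one,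
      cons_val_zero, cons_val_fin_one, conjTranspose_apply, RCLike.star_def]
    push_cast
    rw [hns]
    field_simp
    ring
  have hval : ((act A p).1.2 : ℂ) = (p.1.2 : ℂ) / ((dn A p.1 : ℝ) : ℂ) := by
    simp only [act]
    push_cast
    rfl
  have hvz : (act A p).1.1 = ((A 0 0 * p.1.1 + A 0 1) * ((starRingEnd ℂ) (A 1 0) *
      (starRingEnd ℂ) p.1.1 + (starRingEnd ℂ) (A 1 1)) +
        A 0 0 * (starRingEnd ℂ) (A 1 0) * (p.1.2 : ℂ) ^ 2) / ((dn A p.1 : ℝ) : ℂ) := by
    simp only [act, nz, map_add, map_mul]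
  apply ext_of_entries
  · rw [e11]
    simp only [hm, of_apply, cons_val', cons_val_one, cons_val_fin_one]
    rw [hval]
    field_simp
  · rw [e01]
    simp only [hm, of_apply, cons_val', cons_val_one, cons_val_zero, cons_val_fin_one]
    rw [hval, hvz]
    field_simp
  · rw [e10]
    simp only [hm, of_apply, cons_val', cons_val_one, cons_val_zero, cons_val_fin_one]
    rw [hval, hvz, map_div₀, Complex.conj_ofReal]
    simp only [map_add, map_mul, map_pow, Complex.conj_conj, Complex.conj_ofReal]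
    field_simp
  · exact hm_det _
  · rw [Matrix.det_mul, Matrix.det_mul, hm_det, Matrix.det_conjTranspose, A.2]
    simp
  · simp only [hm, of_apply, cons_val', cons_val_one, cons_val_fin_one]
    rw [hval]
    exact div_ne_zero one_ne_zero (div_ne_zero hp hdn)

theorem act_one (p : H3) : act 1 p = p := by
  apply hm_inj
  rw [hm_act]
  simp

theorem act_mul (A B : SL2C) (p : H3) : act (A * B) p = act A (act B p) := by
  apply hm_inj
  rw [hm_act, hm_act, hm_act]
  simp only [Matrix.SpecialLinearGroup.coe_mul, Matrix.conjTranspose_mul, Matrix.mul_assoc]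

/-- the action as a homomorphism to permutations -/
noncomputable def pi : SL2C →* Equiv.Perm H3 where
  toFun A :=
    { toFun := act A
      invFun := act A⁻¹
      left_inv := fun p => by rw [← act_mul, inv_mul_cancel, act_one]
      right_inv := fun p => by rw [← act_mul, mul_inv_cancel, act_one] }
  map_one' := by
    ext1 p
    exact act_one p
  map_mul' A B := by
    ext1 p
    exact act_mul A B p

@[simp] theorem pi_apply (A : SL2C) (p : H3) : pi A p = act A p := rfl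

theorem pi_fst (A : SL2C) (p : H3) : (pi A p).1.1 = nz A p.1 := rfl

theorem pi_snd (A : SL2C) (p : H3) : (pi A p).1.2 = p.1.2 / dn A p.1 := rfl

/-- the polarised determinant -/
theorem dl_eq (x y : H3) : ((dl x y + 2 : ℝ) : ℂ) = hm x 0 0 * hm y 1 1 + hm x 1 1 * hm y 0 0 -
    hm x 0 1 * hm y 1 0 - hm x 1 0 * hm y 0 1 := by
  have hx : (x.1.2 : ℂ) ≠ 0 := by exact_mod_cast x.2.ne'
  have hy : (y.1.2 : ℂ) ≠ 0 := by exact_mod_cast y.2.ne'
  have hns : ∀ z : ℂ, ((‖z‖ : ℂ)) ^ 2 = z * (starRingEnd ℂ) z := by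
    intro z
    rw [Complex.mul_conj, Complex.normSq_eq_norm_sq]
    push_cast
    ring
  simp only [hm, of_apply, cons_val', cons_val_one, cons_val_zero, cons_val_fin_one, dl]
  push_cast
  rw [hns, hns, hns, map_sub]
  field_simp
  ring

theorem polar (M N A : Matrix (Fin 2) (Fin 2) ℂ) (hA : A.det = 1) :
    (A * M * Aᴴ) 0 0 * (A * N * Aᴴ) 1 1 + (A * M * Aᴴ) 1 1 * (A * N * Aᴴ) 0 0 -
      (A * M * Aᴴ) 0 1 * (A * N * Aᴴ) 1 0 - (A * M * Aᴴ) 1 0 * (A * N * Aᴴ) 0 1 =
    M 0 0 * N 1 1 + M 1 1 * N 0 0 - M 0 1 * N 1 0 - M 1 0 * N 0 1 := by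
  have h : ∀ M N : Matrix (Fin 2) (Fin 2) ℂ, M 0 0 * N 1 1 + M 1 1 * N 0 0 - M 0 1 * N 1 0 -
      M 1 0 * N 0 1 = (M + N).det - M.det - N.det := by
    intro M N
    rw [Matrix.det_fin_two, Matrix.det_fin_two, Matrix.det_fin_two]
    simp only [Matrix.add_apply]
    ring
  rw [h, h, ← Matrix.add_mul, ← Matrix.mul_add]
  simp only [Matrix.det_mul, Matrix.det_conjTranspose, hA]
  simp

/-- the action preserves the distance -/
theorem dl_act (A : SL2C) (x y : H3) : dl (act A x) (act A y) = dl x y := by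
  have h1 := dl_eq (act A x) (act A y)
  rw [hm_act, hm_act, polar _ _ _ A.2, ← dl_eq] at h1
  have h2 : dl (act A x) (act A y) + 2 = dl x y + 2 := by exact_mod_cast h1
  linarith

/-- the base point -/
def pj : H3 := ⟨(0, 1), one_pos⟩

theorem hm_pj : hm pj = 1 := by
  ext i j
  fin_cases i <;> fin_cases j <;> simp [hm, pj]

/-- displacement of the base point and the Frobenius norm -/
theorem fro_eq (A : SL2C) : fro A = 2 + dl (act A pj) pj := by
  have hns : ∀ z : ℂ, ((‖z‖ : ℂ)) ^ 2 = z * (starRingEnd ℂ) z := by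
    intro z
    rw [Complex.mul_conj, Complex.normSq_eq_norm_sq]
    push_cast
    ring
  have h1 := dl_eq (act A pj) pj
  rw [hm_act, hm_pj] at h1
  have h2 : ((dl (act A pj) pj + 2 : ℝ) : ℂ) = ((fro A : ℝ) : ℂ) := by
    rw [h1]
    simp only [fro, Matrix.mul_one, Matrix.mul_apply, Fin.sum_univ_two, conjTranspose_apply,
      RCLike.star_def, Matrix.one_apply]
    push_cast
    rw [hns, hns, hns, hns]
    simp
    ring
  have h3 : dl (act A pj) pj + 2 = fro A := by exact_mod_cast h2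
  linarith

/-- the upper triangular matrix moving the base point to `p` -/
noncomputable def up (p : H3) : SL2C :=
  ⟨!![(Real.sqrt p.1.2 : ℂ), p.1.1 / (Real.sqrt p.1.2 : ℂ); 0, 1 / (Real.sqrt p.1.2 : ℂ)], by
    have h : (Real.sqrt p.1.2 : ℂ) ≠ 0 := by
      exact_mod_cast (Real.sqrt_pos.mpr p.2).ne'
    rw [Matrix.det_fin_two]
    simp
    field_simp⟩

theorem up_pj (p : H3) : act (up p) pj = p := by
  have h0 : 0 < Real.sqrt p.1.2 := Real.sqrt_pos.mpr p.2
  have h : (Real.sqrt p.1.2 : ℂ) ≠ 0 := by exact_mod_cast h0.ne'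
  have hs : Real.sqrt p.1.2 ^ 2 = p.1.2 := Real.sq_sqrt p.2.le
  have hd : dn (up p) pj.1 = 1 / p.1.2 := by
    simp only [dn, up, pj]
    simp only [of_apply, cons_val', cons_val_one, cons_val_zero, cons_val_fin_one, zero_mul,
      zero_add, norm_zero]
    rw [norm_div, norm_one, Complex.norm_real, Real.norm_of_nonneg h0.le, div_pow, hs]
    simp
  apply Subtype.ext
  apply Prod.ext
  · change nz (up p) pj.1 = p.1.1
    unfold nz
    rw [hd]
    simp only [up, pj, of_apply, cons_val', cons_val_one, cons_val_zero, cons_val_fin_one,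
      zero_mul, mul_zero, zero_add, map_zero, map_div₀, map_one, Complex.conj_ofReal, add_zero]
    have h2 : (p.1.2 : ℂ) = (Real.sqrt p.1.2 : ℂ) ^ 2 := by
      rw [← Complex.ofReal_pow, hs]
    push_cast
    rw [h2]
    field_simp
  · change pj.1.2 / dn (up p) pj.1 = p.1.2
    rw [hd]
    simp [pj]

theorem act_transitive (x y : H3) : ∃ A : SL2C, act A x = y :=
  ⟨up y * (up x)⁻¹, by
    have h : act (up x)⁻¹ x = pj := by
      have h1 : act (up x)⁻¹ (act (up x) pj) = pj := by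
        rw [← act_mul, inv_mul_cancel, act_one]
      rwa [up_pj] at h1
    rw [act_mul, h, up_pj]⟩

/-- `dl` is nonnegative and symmetric, and vanishes only on the diagonal -/
theorem dl_nonneg (x y : H3) : 0 ≤ dl x y := by
  unfold dl
  have hx := x.2
  have hy := y.2
  positivity

theorem dl_comm (x y : H3) : dl x y = dl y x := by
  unfold dl
  rw [norm_sub_rev, mul_comm x.1.2]
  ring

theorem dl_eq_zero {x y : H3} (h : dl x y = 0) : x = y := by
  unfold dl at h
  have hx := x.2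
  have hy := y.2
  rw [div_eq_zero_iff] at h
  rcases h with h | h
  · have h3 := sq_nonneg ‖x.1.1 - y.1.1‖
    have h4 := sq_nonneg (x.1.2 - y.1.2)
    have h1 : ‖x.1.1 - y.1.1‖ ^ 2 = 0 := by linarith
    have h2 : (x.1.2 - y.1.2) ^ 2 = 0 := by linarith
    apply Subtype.ext
    apply Prod.ext
    · exact sub_eq_zero.mp (norm_eq_zero.mp ((pow_eq_zero_iff two_ne_zero).mp h1))
    · exact sub_eq_zero.mp ((pow_eq_zero_iff two_ne_zero).mp h2)
  · have : 0 < x.1.2 * y.1.2 := by positivity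
    linarith

end Pool.Agent.N530.LS
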