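import Pool.Agent.N530.LS.Bc

/-!
# B1: complex multiplication of the cusp lattice
-/

set_option autoImplicit false

namespace Pool.Agent.N530.LS

open Filter Topology

theorem stmB1 (h4 : StmA4) : StmB1 := by
  classical
  intro G ω₁ ω₂ hG
  by_contra hno
  push Not at hno
  obtain ⟨hind, hT1, hT2, hneg, hstab, ⟨A, hA, hc⟩, C, hQG⟩ := hG
  obtain ⟨C', hC'⟩ := h4.gen hind hQG
  set c := A 1 0 with hcdef
  have hω₁ := hind.ne_zero₁
  have hτ := hind.div_im
  set τ := ω₂ / ω₁ with hτdef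
  have hω₂ : ω₂ = τ * ω₁ := by rw [hτdef]; field_simp
  set K : ℝ := ‖ω₁‖ + ‖ω₂‖ with hK
  have hKpos : 0 < K := by
    have := norm_pos_iff.mpr hω₁
    positivity
  -- integral relations
  have hreal : ∀ a b : ℤ, (a : ℂ) + b * τ = 0 → a = 0 ∧ b = 0 := by
    intro a b h
    have h1 := congrArg Complex.im h
    simp [Complex.add_im, Complex.mul_im] at h1
    rcases h1 with h1 | h1
    · subst h1
      simp at h
      exact ⟨h, rfl⟩
    · exact absurd h1 hτ
  have hbound : ∀ u : Finset ℕ, ∑ q ∈ u, Set.indicator {p : ℕ | p.Prime}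
      (fun n : ℕ => (1 : ℝ) / n) q ≤ 2 * K ^ 2 * ‖c‖ ^ 4 * C' := by
    intro u
    set u' := u.filter Nat.Prime with hu'
    set J : Finset (Σ _ : ℕ, ℕ) := u'.sigma (fun q => Finset.Ioo 0 q) with hJ
    have hJmem : ∀ j ∈ J, j.1.Prime ∧ 0 < j.2 ∧ j.2 < j.1 := by
      intro j hj
      rw [hJ, Finset.mem_sigma, hu', Finset.mem_filter, Finset.mem_Ioo] at hj
      exact ⟨hj.1.2, hj.2.1, hj.2.2⟩
    let x : (Σ _ : ℕ, ℕ) → ℂ := fun j => lv ω₁ ω₂ ((j.2 : ℤ), (j.1 : ℤ))
    have hx0 : ∀ j ∈ J, x j ≠ 0 := by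
      intro j hj h0
      have := lv_eq_zero hind h0
      have h1 := (hJmem j hj).2.1
      rw [Prod.ext_iff] at this
      have h2 : ((j.2 : ℕ) : ℤ) = 0 := this.1
      omega
    have hsum := hC' (Σ _ : ℕ, ℕ) J (fun j => -(c ^ 2) * x j) (fun _ => 2)
      (fun _ => Set.univ) ?_ ?_ (fun _ _ => dens_univ ω₁ ω₂) ?_
    · -- the lower bound
      have h1 : ∀ q ∈ u', (1 : ℝ) / q ≤ 2 * K ^ 2 * ‖c‖ ^ 4 *
          ∑ r ∈ Finset.Ioo 0 q, 1 / ‖-(c ^ 2) * x ⟨q, r⟩‖ ^ 2 := by
        intro q hq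
        rw [hu', Finset.mem_filter] at hq
        have hq2 : (2 : ℝ) ≤ q := by exact_mod_cast hq.2.two_le
        have hc' : 0 < ‖c‖ := norm_pos_iff.mpr hc
        have h2 : ∀ r ∈ Finset.Ioo 0 q, 1 / (‖c‖ ^ 4 * K ^ 2 * q ^ 2) ≤
            1 / ‖-(c ^ 2) * x ⟨q, r⟩‖ ^ 2 := by
          intro r hr
          have hjJ : (⟨q, r⟩ : Σ _ : ℕ, ℕ) ∈ J := by
            rw [hJ, Finset.mem_sigma, hu', Finset.mem_filter]
            exact ⟨⟨hq.1, hq.2⟩, hr⟩
          have h3 : 0 < ‖x ⟨q, r⟩‖ := norm_pos_iff.mpr (hx0 _ hjJ)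
          rw [norm_mul, norm_neg, norm_pow]
          apply one_div_le_one_div_of_le (by positivity)
          have h4 : ‖x ⟨q, r⟩‖ ≤ K * q := by
            simp only [x, lv]
            refine (norm_add_le _ _).trans ?_
            rw [norm_mul, norm_mul]
            rw [Finset.mem_Ioo] at hr
            have h5 : (r : ℝ) ≤ q := by exact_mod_cast hr.2.le
            simp only [Int.cast_natCast, Complex.norm_natCast]
            rw [hK]
            nlinarith [norm_nonneg ω₁, norm_nonneg ω₂]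
          have h5 : ‖x ⟨q, r⟩‖ ^ 2 ≤ (K * q) ^ 2 := by
            apply pow_le_pow_left₀ (norm_nonneg _) h4
          calc (‖c‖ ^ 2 * ‖x ⟨q, r⟩‖) ^ 2 = ‖c‖ ^ 4 * ‖x ⟨q, r⟩‖ ^ 2 := by ring
            _ ≤ ‖c‖ ^ 4 * (K * q) ^ 2 := by
              apply mul_le_mul_of_nonneg_left h5 (by positivity)
            _ = _ := by ring
        have h6 := Finset.sum_le_sum h2
        rw [Finset.sum_const, Nat.card_Ioo, nsmul_eq_mul] at h6
        have h7 : ((q - 0 - 1 : ℕ) : ℝ) = q - 1 := by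
          rw [Nat.sub_zero, Nat.cast_sub hq.2.one_lt.le]
          simp
        rw [h7] at h6
        have h8 := mul_le_mul_of_nonneg_left h6 (by positivity : 0 ≤ 2 * K ^ 2 * ‖c‖ ^ 4)
        refine le_trans ?_ h8
        rw [mul_one_div, div_le_iff₀ (by linarith), mul_div_assoc', div_mul_eq_mul_div,
          le_div_iff₀ (by positivity)]
        have h9 : 0 < ‖c‖ ^ 4 * K ^ 2 * q := by positivity
        nlinarith
      calc ∑ q ∈ u, Set.indicator {p : ℕ | p.Prime} (fun n : ℕ => (1 : ℝ) / n) q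
          = ∑ q ∈ u', (1 : ℝ) / q := by
            rw [hu', Finset.sum_filter]
            apply Finset.sum_congr rfl
            intro q _
            rw [Set.indicator_apply]
            rfl
        _ ≤ ∑ q ∈ u', 2 * K ^ 2 * ‖c‖ ^ 4 *
            ∑ r ∈ Finset.Ioo 0 q, 1 / ‖-(c ^ 2) * x ⟨q, r⟩‖ ^ 2 := Finset.sum_le_sum h1
        _ = 2 * K ^ 2 * ‖c‖ ^ 4 * ∑ j ∈ J, 1 / ‖-(c ^ 2) * x j‖ ^ 2 := by
            rw [← Finset.mul_sum, hJ, Finset.sum_sigma]
        _ ≤ _ := mul_le_mul_of_nonneg_left hsum (by positivity)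
    · intro j hj
      exact mul_ne_zero (neg_ne_zero.mpr (pow_ne_zero 2 hc)) (hx0 j hj)
    · intro j hj v _
      have hmem : A * T (x j) * A⁻¹ * T (lv ω₁ ω₂ v) ∈ G :=
        G.mul_mem (G.mul_mem (G.mul_mem hA (T_lv_mem hT1 hT2 _)) (G.inv_mem hA))
          (T_lv_mem hT1 hT2 v)
      have := mem_trc hmem
      rw [trc_comm_T] at this
      have e : (2 : ℂ) + -(c ^ 2) * x j * lv ω₁ ω₂ v = 2 - A 1 0 ^ 2 * x j * lv ω₁ ω₂ v := by
        rw [← hcdef]; ring
      rw [e]
      exact this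
    · intro i hi j hj hij
      by_contra hcon
      push Not at hcon
      obtain ⟨m₁, hm₁, v₁, hv₁⟩ := hcon (1, 0)
      obtain ⟨m₂, hm₂, v₂, hv₂⟩ := hcon (0, 1)
      obtain ⟨hiq, hi0, hiq'⟩ := hJmem i hi
      obtain ⟨hjq, hj0, hjq'⟩ := hJmem j hj
      have hxj := hx0 j hj
      have hxi := hx0 i hi
      have hc2 : -(c ^ 2) ≠ 0 := neg_ne_zero.mpr (pow_ne_zero 2 hc)
      have e1 : x i * (m₁ * ω₁) = x j * lv ω₁ ω₂ v₁ := by
        have := hv₁
        rw [mul_assoc, mul_assoc] at this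
        have := mul_left_cancel₀ hc2 this
        rw [← this]
        simp [lv]
      have e2 : x i * (m₂ * ω₂) = x j * lv ω₁ ω₂ v₂ := by
        have := hv₂
        rw [mul_assoc, mul_assoc] at this
        have := mul_left_cancel₀ hc2 this
        rw [← this]
        simp [lv]
      -- in terms of τ
      have e3 : lv ω₁ ω₂ v₁ = ω₁ * (v₁.1 + v₁.2 * τ) := by
        unfold lv; rw [hω₂]; ring
      have e4 : lv ω₁ ω₂ v₂ = ω₁ * (v₂.1 + v₂.2 * τ) := by
        unfold lv; rw [hω₂]; ring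
      have e5 : x i * m₁ = x j * (v₁.1 + v₁.2 * τ) := by
        apply mul_right_cancel₀ hω₁
        rw [e3] at e1
        linear_combination e1
      have e6 : x i * (m₂ * τ) = x j * (v₂.1 + v₂.2 * τ) := by
        apply mul_right_cancel₀ hω₁
        rw [e4, hω₂] at e2
        linear_combination e2
      have e7 : (m₂ * τ : ℂ) * (v₁.1 + v₁.2 * τ) = m₁ * (v₂.1 + v₂.2 * τ) := by
        apply mul_left_cancel₀ hxj
        linear_combination (m₂ * τ) * (-e5) + (m₁ : ℂ) * e6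
      have e8 : ((m₂ * v₁.2 : ℤ) : ℂ) * τ ^ 2 + ((m₂ * v₁.1 - m₁ * v₂.2 : ℤ) : ℂ) * τ +
          ((-(m₁ * v₂.1) : ℤ) : ℂ) = 0 := by
        push_cast
        linear_combination e7
      have e9 : m₂ * v₁.2 = 0 := by
        by_contra h0
        exact hno _ _ _ h0 e8
      have e10 : v₁.2 = 0 := by
        rcases mul_eq_zero.mp e9 with h | h
        · exact absurd h hm₂
        · exact h
      rw [e10] at e5
      -- x i * m₁ = x j * v₁.1
      have e11 : ((j.2 * v₁.1 - i.2 * m₁ : ℤ) : ℂ) + ((j.1 * v₁.1 - i.1 * m₁ : ℤ) : ℂ) * τ = 0 := by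
        apply mul_left_cancel₀ hω₁
        simp only [x, lv] at e5
        rw [hω₂] at e5
        push_cast
        simp only [Int.cast_natCast] at e5
        push_cast at e5
        linear_combination -e5
      obtain ⟨e12, e13⟩ := hreal _ _ e11
      have e14 : (i.2 : ℤ) * j.1 = j.2 * i.1 := by
        apply mul_left_cancel₀ hm₁
        have e15 : (j.2 : ℤ) * v₁.1 = i.2 * m₁ := by linarith
        have e16 : (j.1 : ℤ) * v₁.1 = i.1 * m₁ := by linarith
        calc m₁ * ((i.2 : ℤ) * j.1) = (i.2 * m₁) * j.1 := by ring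
          _ = (j.2 * v₁.1) * j.1 := by rw [e15]
          _ = j.2 * (j.1 * v₁.1) := by ring
          _ = j.2 * (i.1 * m₁) := by rw [e16]
          _ = m₁ * (j.2 * i.1) := by ring
      have e15 : i.2 * j.1 = j.2 * i.1 := by exact_mod_cast e14
      have e16 : i.1 ∣ i.2 * j.1 := ⟨j.2, by rw [e15, mul_comm]⟩
      rcases (hiq.dvd_mul).mp e16 with h | h
      · exact absurd (Nat.le_of_dvd hi0 h) (not_le.mpr hiq')
      · have e17 : i.1 = j.1 := (Nat.prime_dvd_prime_iff_eq hiq hjq).mp h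
        apply hij
        have e18 : i.2 = j.2 := by
          rw [e17] at e15
          exact Nat.eq_of_mul_eq_mul_right hjq.pos e15
        obtain ⟨i1, i2⟩ := i
        obtain ⟨j1, j2⟩ := j
        simp only at e17 e18
        rw [e17, e18]
  exact not_summable_one_div_on_primes (summable_of_sum_le (fun n => by
    apply Set.indicator_nonneg
    intro x _
    positivity) hbound)

end Pool.Agent.N530.LS
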