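import Pool.Agent.N530.LS.Bc

/-!
# B2: differences of cusps lie in the field
-/

set_option autoImplicit false

namespace Pool.Agent.N530.LS

open Filter Topology

theorem lv_mem_Kd {d : ℕ} {τ : ℂ} (hτ : τ ∈ Kd d) (v : ℤ × ℤ) : lv 1 τ v ∈ Kd d := by
  unfold lv
  exact (Kd d).add_mem ((Kd d).mul_mem (intCast_mem _ _) (Kd d).one_mem)
    ((Kd d).mul_mem (intCast_mem _ _) hτ)

theorem stmB2 (h4 : StmA4) : StmB2 := by
  classical
  intro G τ d hd hτ hG A hA B hB hc hc'
  by_contra hx₀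
  obtain ⟨hind, hT1, hT2, -, -, -, C, hQG⟩ := hG
  obtain ⟨C', hC'⟩ := h4.gen hind hQG
  set x₀ := A 0 0 / A 1 0 + B 1 1 / B 1 0 with hx₀def
  set y₀ := B 0 0 / B 1 0 + A 1 1 / A 1 0 with hy₀def
  set q := A 1 0 * B 1 0 with hq
  have hq0 : q ≠ 0 := mul_ne_zero hc hc'
  set K : ℝ := 1 + ‖τ‖ + ‖x₀‖ with hK
  have hKpos : 0 < K := by positivity
  have hbound : ∀ u : Finset ℕ, ∑ m ∈ u, (1 : ℝ) / m ≤ ‖q‖ ^ 2 * K ^ 2 * C' := by
    intro u
    set J : Finset (Σ _ : ℕ, ℕ) := u.sigma (fun m => Finset.range m) with hJ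
    let x : (Σ _ : ℕ, ℕ) → ℂ := fun j => lv 1 τ ((j.1 : ℤ), (j.2 : ℤ))
    have hx : ∀ j, x j + x₀ ≠ 0 := by
      intro j h0
      apply hx₀
      have : x₀ = - x j := by linear_combination h0
      rw [this]
      exact (Kd d).neg_mem (lv_mem_Kd hτ _)
    have hsum := hC' (Σ _ : ℕ, ℕ) J (fun j => q * (x j + x₀))
      (fun j => q * (x j + x₀) * y₀ - (A 1 0 / B 1 0 + B 1 0 / A 1 0))
      (fun _ => Set.univ) ?_ ?_ (fun _ _ => dens_univ 1 τ) ?_
    · have h1 : ∀ m ∈ u, (1 : ℝ) / m ≤ ‖q‖ ^ 2 * K ^ 2 *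
          ∑ n ∈ Finset.range m, 1 / ‖q * (x ⟨m, n⟩ + x₀)‖ ^ 2 := by
        intro m hm
        rcases Nat.eq_zero_or_pos m with rfl | hm0
        · simp
        have hm1 : (1 : ℝ) ≤ m := by exact_mod_cast hm0
        have hq' : 0 < ‖q‖ := norm_pos_iff.mpr hq0
        have h2 : ∀ n ∈ Finset.range m, 1 / (‖q‖ ^ 2 * K ^ 2 * m ^ 2) ≤
            1 / ‖q * (x ⟨m, n⟩ + x₀)‖ ^ 2 := by
          intro n hn
          have h3 : 0 < ‖x ⟨m, n⟩ + x₀‖ := norm_pos_iff.mpr (hx _)
          rw [norm_mul q]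
          apply one_div_le_one_div_of_le (by positivity)
          have h4 : ‖x ⟨m, n⟩ + x₀‖ ≤ K * m := by
            simp only [x, lv]
            refine (norm_add_le _ _).trans ?_
            refine (add_le_add_left (norm_add_le _ _) _).trans ?_
            rw [norm_mul, norm_mul]
            rw [Finset.mem_range] at hn
            have h5 : (n : ℝ) ≤ m := by exact_mod_cast hn.le
            simp only [Int.cast_natCast, Complex.norm_natCast, norm_one]
            rw [hK]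
            nlinarith [norm_nonneg τ, norm_nonneg x₀]
          have h5 : ‖x ⟨m, n⟩ + x₀‖ ^ 2 ≤ (K * m) ^ 2 := by
            apply pow_le_pow_left₀ (norm_nonneg _) h4
          calc (‖q‖ * ‖x ⟨m, n⟩ + x₀‖) ^ 2 = ‖q‖ ^ 2 * ‖x ⟨m, n⟩ + x₀‖ ^ 2 := by ring
            _ ≤ ‖q‖ ^ 2 * (K * m) ^ 2 := by
              apply mul_le_mul_of_nonneg_left h5 (by positivity)
            _ = _ := by ring
        have h6 := Finset.sum_le_sum h2
        rw [Finset.sum_const, Finset.card_range, nsmul_eq_mul] at h6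
        have h8 := mul_le_mul_of_nonneg_left h6 (by positivity : 0 ≤ ‖q‖ ^ 2 * K ^ 2)
        refine le_trans (le_of_eq ?_) h8
        field_simp
      calc ∑ m ∈ u, (1 : ℝ) / m
          ≤ ∑ m ∈ u, ‖q‖ ^ 2 * K ^ 2 *
            ∑ n ∈ Finset.range m, 1 / ‖q * (x ⟨m, n⟩ + x₀)‖ ^ 2 := Finset.sum_le_sum h1
        _ = ‖q‖ ^ 2 * K ^ 2 * ∑ j ∈ J, 1 / ‖q * (x j + x₀)‖ ^ 2 := by
            rw [← Finset.mul_sum, hJ, Finset.sum_sigma]
        _ ≤ _ := mul_le_mul_of_nonneg_left hsum (by positivity)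
    · intro j hj
      exact mul_ne_zero hq0 (hx j)
    · intro j hj v _
      have hmem : T (x j) * A * T (lv 1 τ v) * B ∈ G :=
        G.mul_mem (G.mul_mem (G.mul_mem (T_lv_mem hT1 hT2 _) hA) (T_lv_mem hT1 hT2 v)) hB
      have := mem_trc hmem
      rw [trc_T_T A B hc hc'] at this
      have e : q * (x j + x₀) * y₀ - (A 1 0 / B 1 0 + B 1 0 / A 1 0) +
          q * (x j + x₀) * lv 1 τ v = A 1 0 * B 1 0 * (x j + x₀) *
          (lv 1 τ v + y₀) - (A 1 0 / B 1 0 + B 1 0 / A 1 0) := by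
        rw [← hq]; ring
      rw [e]
      exact this
    · intro i hi j hj hij
      refine ⟨(1, 0), fun m hm v hv => hij ?_⟩
      have e1 : (x i + x₀) * m = (x j + x₀) * lv 1 τ v := by
        apply mul_left_cancel₀ hq0
        have e0 : lv 1 τ (1, 0) = 1 := by simp [lv]
        rw [e0] at hv
        linear_combination hv
      have e2 : x₀ * (m - lv 1 τ v) = x j * lv 1 τ v - x i * m := by
        linear_combination e1
      have e3 : (m : ℂ) - lv 1 τ v = 0 := by
        by_contra h0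
        apply hx₀
        have : x₀ = (x j * lv 1 τ v - x i * m) / (m - lv 1 τ v) := by
          rw [eq_div_iff h0, e2]
        rw [this]
        exact (Kd d).div_mem ((Kd d).sub_mem ((Kd d).mul_mem (lv_mem_Kd hτ _) (lv_mem_Kd hτ _))
          ((Kd d).mul_mem (lv_mem_Kd hτ _) (intCast_mem _ _)))
          ((Kd d).sub_mem (intCast_mem _ _) (lv_mem_Kd hτ _))
      have e4 : lv 1 τ v = m := by linear_combination -e3
      rw [e4] at e1
      have hm' : (m : ℂ) ≠ 0 := by exact_mod_cast hm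
      have e5 : x i = x j := by
        have := mul_right_cancel₀ hm' e1
        linear_combination this
      have e6 := lv_inj hind e5
      rw [Prod.ext_iff] at e6
      obtain ⟨e7, e8⟩ := e6
      simp only [Nat.cast_inj] at e7 e8
      obtain ⟨i1, i2⟩ := i
      obtain ⟨j1, j2⟩ := j
      simp only at e7 e8
      rw [e7, e8]
  exact Real.not_summable_one_div_natCast (summable_of_sum_le (fun n => by positivity) hbound)

end Pool.Agent.N530.LS
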