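import Pool.Agent.N530.LS.Bc

/-!
# B3: rationality after conjugation
-/

set_option autoImplicit false
set_option linter.unusedSimpArgs false

namespace Pool.Agent.N530.LS

open Filter Topology

theorem mem_cj {B : SL2C} {G : Subgroup SL2C} {X : SL2C} : X ∈ cj B G ↔ B⁻¹ * X * B ∈ G := by
  unfold cj
  rw [Subgroup.mem_map]
  constructor
  · rintro ⟨A, hA, rfl⟩
    have : B⁻¹ * (MulAut.conj B).toMonoidHom A * B = A := by
      simp [MulAut.conj_apply, mul_assoc]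
    rw [this]
    exact hA
  · intro h
    refine ⟨_, h, ?_⟩
    simp [MulAut.conj_apply, mul_assoc]

theorem conj_mem_cj {B : SL2C} {G : Subgroup SL2C} {A : SL2C} (h : A ∈ G) :
    B * A * B⁻¹ ∈ cj B G := by
  rw [mem_cj]
  simpa [mul_assoc] using h

theorem trc_mul_comm (A B : SL2C) : trc (A * B) = trc (B * A) := by
  unfold trc
  rw [mul00, mul11, mul00, mul11]
  ring

theorem trc_cj (B : SL2C) (G : Subgroup SL2C) :
    trc '' (cj B G : Set SL2C) = trc '' (G : Set SL2C) := by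
  ext t
  constructor
  · rintro ⟨X, hX, rfl⟩
    refine ⟨_, mem_cj.mp hX, ?_⟩
    rw [trc_mul_comm, ← mul_assoc, mul_inv_cancel, one_mul]
  · rintro ⟨A, hA, rfl⟩
    refine ⟨_, conj_mem_cj (B := B) hA, ?_⟩
    rw [trc_mul_comm, ← mul_assoc, inv_mul_cancel, one_mul]

theorem cj_entries (B A : SL2C) (hB : B 1 0 = 0) :
    (B * A * B⁻¹) 1 0 = (B 1 1) ^ 2 * A 1 0 ∧
    (B * A * B⁻¹) 0 0 = A 0 0 + B 0 1 * B 1 1 * A 1 0 := by
  have hd := det_eq B
  rw [hB, mul_zero, sub_zero] at hd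
  constructor
  · simp only [mul00, mul01, mul10, mul11, inv00, inv01, inv10, inv11, hB]
    ring
  · simp only [mul00, mul01, mul10, mul11, inv00, inv01, inv10, inv11, hB]
    linear_combination A 0 0 * hd

theorem Good.cj {G : Subgroup SL2C} {ω₁ ω₂ : ℂ} (h : Good G ω₁ ω₂) (B : SL2C)
    (hB : B 1 0 = 0) : Good (cj B G) ((B 0 0) ^ 2 * ω₁) ((B 0 0) ^ 2 * ω₂) := by
  have hd := det_eq B
  rw [hB, mul_zero, sub_zero] at hd
  have hB0 : B 0 0 ≠ 0 := left_ne_zero_of_mul_eq_one hd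
  have hB1 : B 1 1 ≠ 0 := right_ne_zero_of_mul_eq_one hd
  have hT : ∀ x, T x ∈ G → T ((B 0 0) ^ 2 * x) ∈ LS.cj B G := by
    intro x hx
    have : T ((B 0 0) ^ 2 * x) = B * T x * B⁻¹ := by
      apply ext2
      · simp only [mul00, mul01, mul10, mul11, inv00, inv01, inv10, inv11, hB, T00, T01, T10, T11]
        linear_combination -hd
      · simp only [mul00, mul01, mul10, mul11, inv00, inv01, inv10, inv11, hB, T00, T01, T10, T11]
        ring
      · simp only [mul00, mul01, mul10, mul11, inv00, inv01, inv10, inv11, hB, T00, T01, T10, T11]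
        ring
      · simp only [mul00, mul01, mul10, mul11, inv00, inv01, inv10, inv11, hB, T00, T01, T10, T11]
        linear_combination -hd
    rw [this]
    exact conj_mem_cj hx
  obtain ⟨hind, hT1, hT2, hneg, hstab, ⟨A₀, hA₀, hc₀⟩, C, hQG⟩ := h
  refine ⟨?_, hT _ hT1, hT _ hT2, ?_, ?_, ?_, C, ?_⟩
  · unfold Ind at *
    have e : (B 0 0) ^ 2 * ω₁ * (starRingEnd ℂ) ((B 0 0) ^ 2 * ω₂) =
        ((Complex.normSq (B 0 0)) ^ 2 : ℝ) * (ω₁ * (starRingEnd ℂ) ω₂) := by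
      rw [map_mul, map_pow]
      push_cast
      rw [← Complex.mul_conj]
      ring
    rw [e, Complex.im_ofReal_mul]
    refine mul_ne_zero (pow_ne_zero 2 ?_) hind
    rwa [Ne, Complex.normSq_eq_zero]
  · rw [mem_cj]
    simpa using hneg
  · intro X hX hX0
    rw [mem_cj] at hX
    have hXeq : X = B * (B⁻¹ * X * B) * B⁻¹ := by simp [mul_assoc]
    obtain ⟨e1, e2⟩ := cj_entries B (B⁻¹ * X * B) hB
    rw [← hXeq] at e1 e2
    rw [hX0] at e1
    have e3 : (B⁻¹ * X * B) 1 0 = 0 := by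
      rcases mul_eq_zero.mp e1.symm with h | h
      · exact absurd h (pow_ne_zero 2 hB1)
      · exact h
    have e4 := hstab _ hX e3
    rw [e2, e3, mul_zero, add_zero]
    exact e4
  · refine ⟨_, conj_mem_cj (B := B) hA₀, ?_⟩
    rw [(cj_entries B A₀ hB).1]
    exact mul_ne_zero (pow_ne_zero 2 hB1) hc₀
  · rw [trc_cj]
    exact hQG

theorem sqrtI_mem (d : ℕ) : ((Real.sqrt (d : ℝ) : ℂ) * Complex.I) ∈ Kd d :=
  Subfield.subset_closure rfl

theorem sqrtI_sq (d : ℕ) : ((Real.sqrt (d : ℝ) : ℂ) * Complex.I) ^ 2 = -(d : ℂ) := by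
  rw [mul_pow, Complex.I_sq]
  have : ((Real.sqrt (d : ℝ) : ℂ)) ^ 2 = (d : ℂ) := by
    rw [← Complex.ofReal_pow, Real.sq_sqrt (Nat.cast_nonneg d)]
    simp
  rw [this]
  ring

theorem cm_field {τ : ℂ} (hτ : τ.im ≠ 0) {α β γ : ℤ} (hα : α ≠ 0)
    (h : (α : ℂ) * τ ^ 2 + β * τ + γ = 0) : ∃ d : ℕ, 0 < d ∧ τ ∈ Kd d := by
  set z : ℂ := 2 * α * τ + β with hz
  have hz2 : z ^ 2 = ((β ^ 2 - 4 * α * γ : ℤ) : ℂ) := by
    rw [hz]
    push_cast
    linear_combination 4 * α * h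
  have hzim : z.im ≠ 0 := by
    rw [hz]
    simp [Complex.add_im, Complex.mul_im, hτ, hα]
  set e : ℤ := β ^ 2 - 4 * α * γ with he
  have he0 : e < 0 := by
    by_contra hcon
    push Not at hcon
    apply hzim
    have h1 : z ^ 2 = ((Real.sqrt e : ℝ) : ℂ) ^ 2 := by
      rw [hz2, ← Complex.ofReal_pow, Real.sq_sqrt (by exact_mod_cast hcon)]
      simp
    have h2 : (z - (Real.sqrt e : ℝ)) * (z + (Real.sqrt e : ℝ)) = 0 := by
      linear_combination h1
    rcases mul_eq_zero.mp h2 with h3 | h3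
    · have : z = (Real.sqrt e : ℝ) := by linear_combination h3
      rw [this]; simp
    · have : z = -(Real.sqrt e : ℝ) := by linear_combination h3
      rw [this]; simp
  obtain ⟨n, hn⟩ := Int.eq_ofNat_of_zero_le (by omega : 0 ≤ -e)
  have hn' : e = -(n : ℤ) := by omega
  refine ⟨n, by omega, ?_⟩
  have hK : z ∈ Kd n := by
    have h1 : z ^ 2 = ((Real.sqrt (n : ℝ) : ℂ) * Complex.I) ^ 2 := by
      rw [sqrtI_sq, hz2, hn']
      push_cast
      ring
    have h2 : (z - (Real.sqrt (n : ℝ) : ℂ) * Complex.I) *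
        (z + (Real.sqrt (n : ℝ) : ℂ) * Complex.I) = 0 := by
      linear_combination h1
    rcases mul_eq_zero.mp h2 with h3 | h3
    · have : z = (Real.sqrt (n : ℝ) : ℂ) * Complex.I := by linear_combination h3
      rw [this]
      exact sqrtI_mem _
    · have : z = -((Real.sqrt (n : ℝ) : ℂ) * Complex.I) := by linear_combination h3
      rw [this]
      exact Subfield.neg_mem _ (sqrtI_mem _)
  have h5 : τ = (z - β) / (2 * α) := by
    rw [hz]
    have : (α : ℂ) ≠ 0 := by exact_mod_cast hα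
    field_simp
    ring
  rw [h5]
  exact Subfield.div_mem _ (Subfield.sub_mem _ hK (intCast_mem _ _))
    (Subfield.mul_mem _ (ofNat_mem _ 2) (intCast_mem _ _))

theorem stmB3 (h1 : StmB1) (h2 : StmB2) : StmB3 := by
  intro G ω₁ ω₂ hG
  obtain ⟨α, β, γ, hα, hrel⟩ := h1 G ω₁ ω₂ hG
  have hind := hG.1
  obtain ⟨d, hd, hτ⟩ := cm_field hind.div_im hα hrel
  obtain ⟨A₀, hA₀, hc₀⟩ := hG.2.2.2.2.2.1
  have hω₁ := hind.ne_zero₁
  obtain ⟨μ, hμ⟩ : ∃ μ : ℂ, μ ^ 2 = 1 / ω₁ := IsAlgClosed.exists_pow_nat_eq _ two_pos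
  have hμ0 : μ ≠ 0 := by
    rintro rfl
    rw [zero_pow two_ne_zero, eq_comm, one_div, inv_eq_zero] at hμ
    exact hω₁ hμ
  set B : SL2C := mk2 μ (-A₀ 0 0 * μ / A₀ 1 0) 0 μ⁻¹ (by field_simp; ring) with hB
  have hB10 : B 1 0 = 0 := rfl
  have hgood := hG.cj B hB10
  have e1 : (B 0 0) ^ 2 * ω₁ = 1 := by
    rw [hB, mk2_00, hμ]; field_simp
  have e2 : (B 0 0) ^ 2 * ω₂ = ω₂ / ω₁ := by
    rw [hB, mk2_00, hμ]; field_simp
  rw [e1, e2] at hgood
  set G' := cj B G with hG'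
  set τ := ω₂ / ω₁ with hτdef
  refine ⟨d, B, τ, hd, hτ, hgood, ?_⟩
  have key := h2 G' τ d hd hτ hgood
  -- the element with a₀ = 0
  set A₁ := B * A₀ * B⁻¹ with hA₁
  have hA₁m : A₁ ∈ G' := conj_mem_cj hA₀
  obtain ⟨e3, e4⟩ := cj_entries B A₀ hB10
  have hA₁c : A₁ 1 0 ≠ 0 := by
    rw [hA₁, e3]
    apply mul_ne_zero _ hc₀
    rw [hB, mk2_11]
    exact pow_ne_zero 2 (inv_ne_zero hμ0)
  have hA₁a : A₁ 0 0 = 0 := by
    rw [hA₁, e4, hB, mk2_01, mk2_11]
    field_simp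
    ring
  have hE : ∀ X ∈ G', X 1 0 ≠ 0 → X 1 1 / X 1 0 ∈ Kd d := by
    intro X hX hc
    have := key A₁ hA₁m X hX hA₁c hc
    rwa [hA₁a, zero_div, zero_add] at this
  have hAc : ∀ X ∈ G', X 1 0 ≠ 0 → X 0 0 / X 1 0 ∈ Kd d := by
    intro X hX hc
    have h5 := key X hX X hX hc hc
    have h6 := hE X hX hc
    have := (Kd d).sub_mem h5 h6
    rwa [add_sub_cancel_right] at this
  intro X hX
  by_cases hc : X 1 0 = 0
  · have hdX := det_eq X
    rw [hc, mul_zero, sub_zero] at hdX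
    have hXe : X 1 1 ≠ 0 := right_ne_zero_of_mul_eq_one hdX
    have ha : X 0 0 ∈ Kd d := by
      rcases hgood.2.2.2.2.1 X hX hc with h | h
      · rw [h]; exact (Kd d).one_mem
      · rw [h]; exact (Kd d).neg_mem (Kd d).one_mem
    have he : X 1 1 ∈ Kd d := by
      have : X 1 1 = (X 0 0)⁻¹ := by
        rw [eq_comm, inv_eq_iff_eq_inv]
        exact eq_inv_of_mul_eq_one_left hdX
      rw [this]
      exact (Kd d).inv_mem ha
    have hb : X 0 1 ∈ Kd d := by
      have h5 : (X * A₁) 1 0 = X 1 1 * A₁ 1 0 := by rw [mul10, hc]; ring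
      have h6 : (X * A₁) 0 0 = X 0 1 * A₁ 1 0 := by rw [mul00, hA₁a]; ring
      have h7 := hAc (X * A₁) (G'.mul_mem hX hA₁m) (by rw [h5]; exact mul_ne_zero hXe hA₁c)
      rw [h5, h6, mul_div_mul_right _ _ hA₁c] at h7
      have := (Kd d).mul_mem h7 he
      rwa [div_mul_cancel₀ _ hXe] at this
    refine ⟨1, one_ne_zero, by simpa using (Kd d).one_mem, ?_⟩
    intro i j
    rw [div_one]
    fin_cases i <;> fin_cases j
    · exact ha
    · exact hb
    · change X 1 0 ∈ Kd d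
      rw [hc]; exact (Kd d).zero_mem
    · exact he
  · -- X 1 0 ≠ 0
    have ha := hAc X hX hc
    have he := hE X hX hc
    have hdX := det_eq X
    obtain ⟨x, hxK, hxT, hxne⟩ : ∃ x : ℂ, x ∈ Kd d ∧ T x ∈ G' ∧
        X 0 0 / X 1 0 + x + X 1 1 / X 1 0 ≠ 0 := by
      by_cases h0 : X 0 0 / X 1 0 + 0 + X 1 1 / X 1 0 = 0
      · refine ⟨1, (Kd d).one_mem, hgood.2.1, ?_⟩
        intro h1
        have : (1 : ℂ) = 0 := by linear_combination h1 - h0
        exact one_ne_zero this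
      · exact ⟨0, (Kd d).zero_mem, by rw [T_zero]; exact G'.one_mem, h0⟩
    set z := X 0 0 / X 1 0 + x + X 1 1 / X 1 0 with hz
    have hzK : z ∈ Kd d := (Kd d).add_mem ((Kd d).add_mem ha hxK) he
    have h5 : (X * T x * X) 1 0 = (X 1 0) ^ 2 * z := by
      rw [hz]
      simp only [mul00, mul01, mul10, mul11, T00, T01, T10, T11]
      field_simp
      ring
    have h6 : (X * T x * X) 0 0 = X 0 0 / X 1 0 * ((X 1 0) ^ 2 * z) - 1 := by
      rw [hz]
      simp only [mul00, mul01, mul10, mul11, T00, T01, T10, T11]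
      field_simp
      linear_combination -hdX
    have h7 := hAc (X * T x * X) (G'.mul_mem (G'.mul_mem hX hxT) hX) (by
      rw [h5]; exact mul_ne_zero (pow_ne_zero 2 hc) hxne)
    rw [h5, h6] at h7
    have h8 : 1 / (X 1 0) ^ 2 ∈ Kd d := by
      have h9 := (Kd d).mul_mem ((Kd d).sub_mem ha h7) hzK
      have h10 : (X 0 0 / X 1 0 - (X 0 0 / X 1 0 * ((X 1 0) ^ 2 * z) - 1) / ((X 1 0) ^ 2 * z)) * z =
          1 / (X 1 0) ^ 2 := by
        field_simp
        ring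
      rwa [h10] at h9
    have h9 : (X 1 0) ^ 2 ∈ Kd d := by
      have := (Kd d).inv_mem h8
      simpa using this
    refine ⟨X 1 0, hc, h9, ?_⟩
    intro i j
    fin_cases i <;> fin_cases j
    · exact ha
    · change X 0 1 / X 1 0 ∈ Kd d
      have : X 0 1 / X 1 0 = (X 0 0 / X 1 0) * (X 1 1 / X 1 0) - 1 / (X 1 0) ^ 2 := by
        field_simp
        linear_combination -hdX
      rw [this]
      exact (Kd d).sub_mem ((Kd d).mul_mem ha he) h8
    · change X 1 0 / X 1 0 ∈ Kd d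
      rw [div_self hc]; exact (Kd d).one_mem
    · exact he

end Pool.Agent.N530.LS
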