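import Pool.Agent.N530.LS.Geo1
import Pool.Agent.N530.LS.A4b

/-!
# Common lemmas for the parts B, C, D
-/

set_option autoImplicit false

namespace Pool.Agent.N530.LS

open Filter Topology

/-- A4 for arbitrary index types -/
theorem StmA4.gen (h4 : StmA4) {ω₁ ω₂ : ℂ} (hind : Ind ω₁ ω₂) {Tr : Set ℂ} {C : ℝ}
    (hQG : QG Tr C) :
  ∃ C' : ℝ, ∀ (ι : Type) (J : Finset ι) (a t₀ : ι → ℂ) (P : ι → Set (ℤ × ℤ)),
    (∀ j ∈ J, a j ≠ 0) →
    (∀ j ∈ J, ∀ v ∈ P j, t₀ j + a j * lv ω₁ ω₂ v ∈ Tr) →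
    (∀ j ∈ J, Tendsto (fun R : ℝ =>
      (Set.ncard {v : ℤ × ℤ | v ∉ P j ∧ ‖lv ω₁ ω₂ v‖ ≤ R} : ℝ) / R ^ 2) atTop (𝓝 0)) →
    (∀ i ∈ J, ∀ j ∈ J, i ≠ j → ∃ w : ℤ × ℤ, ∀ m : ℤ, m ≠ 0 → ∀ v : ℤ × ℤ,
      a i * (m * lv ω₁ ω₂ w) ≠ a j * lv ω₁ ω₂ v) →
    ∑ j ∈ J, 1 / ‖a j‖ ^ 2 ≤ C' := by
  classical
  obtain ⟨C', hC'⟩ := h4 ω₁ ω₂ hind Tr C hQG
  refine ⟨C', ?_⟩
  intro ι J a t₀ P h1 h2 h3 h5
  rcases J.eq_empty_or_nonempty with rfl | ⟨j₀, hj₀⟩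
  · have := hC' ∅ (fun _ => 0) (fun _ => 0) (fun _ => ∅) (by simp) (by simp) (by simp) (by simp)
    simpa using this
  · set e := J.equivFin with he
    let g : ℕ → ι := fun k => if h : k < J.card then (e.symm ⟨k, h⟩ : ι) else j₀
    have hg : ∀ k ∈ Finset.range J.card, g k ∈ J := by
      intro k hk
      rw [Finset.mem_range] at hk
      simp only [g, hk, dif_pos]
      exact (e.symm ⟨k, hk⟩).2
    have hginj : ∀ k ∈ Finset.range J.card, ∀ l ∈ Finset.range J.card, g k = g l → k = l := by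
      intro k hk l hl hkl
      rw [Finset.mem_range] at hk hl
      simp only [g, hk, hl, dif_pos] at hkl
      have := e.symm.injective (Subtype.ext hkl)
      simpa using this
    have hgsurj : (Finset.range J.card).image g = J := by
      apply Finset.Subset.antisymm
      · intro x hx
        rw [Finset.mem_image] at hx
        obtain ⟨k, hk, rfl⟩ := hx
        exact hg k hk
      · intro x hx
        rw [Finset.mem_image]
        refine ⟨(e ⟨x, hx⟩ : ℕ), Finset.mem_range.mpr (e ⟨x, hx⟩).2, ?_⟩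
        simp [g]
    have := hC' (Finset.range J.card) (fun k => a (g k)) (fun k => t₀ (g k)) (fun k => P (g k))
      (fun k hk => h1 _ (hg k hk)) (fun k hk => h2 _ (hg k hk)) (fun k hk => h3 _ (hg k hk))
      (fun k hk l hl hkl => h5 _ (hg k hk) _ (hg l hl) (fun h => hkl (hginj k hk l hl h)))
    rw [← Finset.sum_image (f := fun x => 1 / ‖a x‖ ^ 2) (g := g)
      (fun k hk l hl hkl => hginj k hk l hl hkl), hgsurj] at this
    exact this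

@[simp] theorem T00 (x : ℂ) : T x 0 0 = 1 := rfl
@[simp] theorem T01 (x : ℂ) : T x 0 1 = x := rfl
@[simp] theorem T10 (x : ℂ) : T x 1 0 = 0 := rfl
@[simp] theorem T11 (x : ℂ) : T x 1 1 = 1 := rfl

theorem T_add (x y : ℂ) : T (x + y) = T x * T y := by
  apply ext2 <;> simp only [mul00, mul01, mul10, mul11, T00, T01, T10, T11] <;> ring

theorem T_zero : T 0 = 1 := by
  apply ext2 <;> simp

theorem T_neg (x : ℂ) : T (-x) = (T x)⁻¹ := by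
  rw [eq_comm, inv_eq_iff_mul_eq_one, ← T_add, add_neg_cancel, T_zero]

theorem T_natCast_mul (m : ℕ) (x : ℂ) : T (m * x) = T x ^ m := by
  induction m with
  | zero => simp [T_zero]
  | succ m ih =>
    rw [pow_succ, ← ih, ← T_add]
    congr 1
    push_cast
    ring

theorem T_intCast_mul (m : ℤ) (x : ℂ) : T (m * x) = T x ^ m := by
  rcases Int.eq_nat_or_neg m with ⟨n, rfl | rfl⟩
  · rw [zpow_natCast, ← T_natCast_mul]
    simp
  · rw [zpow_neg, zpow_natCast, ← T_natCast_mul, ← T_neg]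
    congr 1
    push_cast
    ring

theorem T_lv_mem {G : Subgroup SL2C} {ω₁ ω₂ : ℂ} (h1 : T ω₁ ∈ G) (h2 : T ω₂ ∈ G)
    (v : ℤ × ℤ) : T (lv ω₁ ω₂ v) ∈ G := by
  unfold lv
  rw [T_add, T_intCast_mul, T_intCast_mul]
  exact G.mul_mem (G.zpow_mem h1 _) (G.zpow_mem h2 _)

theorem trc_comm_T (A : SL2C) (x y : ℂ) :
    trc (A * T x * A⁻¹ * T y) = 2 - (A 1 0) ^ 2 * x * y := by
  have h := det_eq A
  unfold trc
  simp only [mul00, mul01, mul10, mul11, T00, T01, T10, T11, inv00, inv01, inv10, inv11]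
  linear_combination 2 * h

theorem trc_T_T (A B : SL2C) (hc : A 1 0 ≠ 0) (hc' : B 1 0 ≠ 0) (x y : ℂ) :
    trc (T x * A * T y * B) = A 1 0 * B 1 0 * (x + (A 0 0 / A 1 0 + B 1 1 / B 1 0)) *
      (y + (B 0 0 / B 1 0 + A 1 1 / A 1 0)) - (A 1 0 / B 1 0 + B 1 0 / A 1 0) := by
  have h := det_eq A
  have h' := det_eq B
  unfold trc
  simp only [mul00, mul01, mul10, mul11, T00, T01, T10, T11]
  field_simp
  linear_combination (-(B 1 0) ^ 2) * h - (A 1 0) ^ 2 * h'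

theorem mem_trc {G : Subgroup SL2C} {A : SL2C} (h : A ∈ G) : trc A ∈ trc '' (G : Set SL2C) :=
  ⟨A, h, rfl⟩

theorem Good.T_mem {G : Subgroup SL2C} {ω₁ ω₂ : ℂ} (h : Good G ω₁ ω₂) (v : ℤ × ℤ) :
    T (lv ω₁ ω₂ v) ∈ G := T_lv_mem h.2.1 h.2.2.1 v

theorem dens_univ (ω₁ ω₂ : ℂ) : Tendsto (fun R : ℝ =>
    (Set.ncard {v : ℤ × ℤ | v ∉ (Set.univ : Set (ℤ × ℤ)) ∧ ‖lv ω₁ ω₂ v‖ ≤ R} : ℝ) / R ^ 2) atTop
    (𝓝 0) := by
  simp

theorem Ind.ne_zero₁ {ω₁ ω₂ : ℂ} (h : Ind ω₁ ω₂) : ω₁ ≠ 0 := by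
  rintro rfl
  apply h
  simp

theorem Ind.ne_zero₂ {ω₁ ω₂ : ℂ} (h : Ind ω₁ ω₂) : ω₂ ≠ 0 := by
  rintro rfl
  apply h
  simp

theorem Ind.div_im {ω₁ ω₂ : ℂ} (h : Ind ω₁ ω₂) : (ω₂ / ω₁).im ≠ 0 := by
  intro h0
  apply h
  have h1 := h.ne_zero₁
  have h2 : ω₂ = (ω₂ / ω₁) * ω₁ := by field_simp
  have h3 : ω₁ * (starRingEnd ℂ) ω₂ = (starRingEnd ℂ) (ω₂ / ω₁) * (Complex.normSq ω₁ : ℂ) := by
    nth_rewrite 1 [h2]
    rw [map_mul, ← Complex.mul_conj]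
    ring
  rw [h3, Complex.mul_im, Complex.conj_im, h0, Complex.ofReal_im]
  simp

theorem lv_eq_zero {ω₁ ω₂ : ℂ} (h : Ind ω₁ ω₂) {v : ℤ × ℤ} (hv : lv ω₁ ω₂ v = 0) : v = 0 := by
  apply lv_inj h
  rw [hv]
  simp [lv]

end Pool.Agent.N530.LS
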