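import Pool.Agent.N530.LS.Stm

/-!
# C1: divisors in classes
-/

set_option autoImplicit false

namespace Pool.Agent.N530.LS

open Filter Topology

theorem tendsto_natDiv (f : ℕ → ℝ) (L : ℝ) (n : ℕ) (hn : 0 < n)
    (h : Tendsto (fun X : ℕ => f X / X) atTop (𝓝 L)) :
    Tendsto (fun X : ℕ => f (X / n) / X) atTop (𝓝 (L / n)) := by
  have h1 : Tendsto (fun X : ℕ => X / n) atTop atTop :=
    Nat.tendsto_div_const_atTop hn.ne'
  have h2 := h.comp h1
  have h3 : Tendsto (fun X : ℕ => (((X / n : ℕ) : ℝ)) / X) atTop (𝓝 (1 / n)) := by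
    have h4 := (tendsto_nat_floor_mul_div_atTop (R := ℝ) (a := 1 / n) (by positivity)).comp
      (tendsto_natCast_atTop_atTop (R := ℝ))
    refine h4.congr ?_
    intro X
    simp only [Function.comp_apply]
    congr 2
    rw [one_div_mul_eq_div]
    exact Nat.floor_div_eq_div X n
  have h5 := h2.mul h3
  have e : L * (1 / (n : ℝ)) = L / n := by ring
  rw [e] at h5
  refine h5.congr' ?_
  filter_upwards [eventually_ge_atTop n] with X hX
  simp only [Function.comp_apply]
  have h6 : 0 < X / n := Nat.div_pos hX hn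
  have h7 : ((X / n : ℕ) : ℝ) ≠ 0 := by exact_mod_cast h6.ne'
  have h8 : (X : ℝ) ≠ 0 := by
    have : 0 < X := lt_of_lt_of_le hn hX
    exact_mod_cast this.ne'
  field_simp

section

variable {P G : Type} [CommGroup G] (N : P → ℕ) (c : P → G)

/-- the norm -/
def nrm (s : Multiset P) : ℕ := (s.map N).prod

/-- the class -/
def cls (s : Multiset P) : G := (s.map c).prod

theorem nrm_pos {N : P → ℕ} (hN : ∀ p, 2 ≤ N p) (s : Multiset P) : 0 < nrm N s := by
  unfold nrm
  apply Nat.pos_of_ne_zero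
  apply Multiset.prod_ne_zero
  rw [Multiset.mem_map]
  rintro ⟨p, -, hp⟩
  have := hN p
  omega

theorem nrm_cons (p : P) (s : Multiset P) : nrm N (p ::ₘ s) = N p * nrm N s := by
  simp [nrm]

theorem cls_cons (p : P) (s : Multiset P) : cls c (p ::ₘ s) = c p * cls c s := by
  simp [cls]

theorem cls_add (s t : Multiset P) : cls c (s + t) = cls c s * cls c t := by
  simp [cls]

/-- counting -/
noncomputable def ctm (A : Set (Multiset P)) (X : ℕ) : ℝ :=
  (Set.ncard {s : Multiset P | s ∈ A ∧ nrm N s ≤ X} : ℝ)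

variable {N c}

theorem ctm_nonneg (A : Set (Multiset P)) (X : ℕ) : 0 ≤ ctm N A X := Nat.cast_nonneg _

theorem ctm_fin (hfin : ∀ X : ℕ, {s : Multiset P | nrm N s ≤ X}.Finite) (A : Set (Multiset P))
    (X : ℕ) : {s : Multiset P | s ∈ A ∧ nrm N s ≤ X}.Finite :=
  (hfin X).subset fun _ hs => hs.2

theorem ctm_mono (hfin : ∀ X : ℕ, {s : Multiset P | nrm N s ≤ X}.Finite)
    {A B : Set (Multiset P)} (h : A ⊆ B) (X : ℕ) : ctm N A X ≤ ctm N B X := by
  unfold ctm
  rw [Nat.cast_le]
  exact Set.ncard_le_ncard (fun s hs => ⟨h hs.1, hs.2⟩) (ctm_fin hfin B X)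

theorem ctm_union (hfin : ∀ X : ℕ, {s : Multiset P | nrm N s ≤ X}.Finite)
    (A B : Set (Multiset P)) (X : ℕ) : ctm N (A ∪ B) X ≤ ctm N A X + ctm N B X := by
  unfold ctm
  rw [← Nat.cast_add, Nat.cast_le]
  refine le_trans (Set.ncard_le_ncard ?_
    ((ctm_fin hfin A X).union (ctm_fin hfin B X))) (Set.ncard_union_le _ _)
  rintro s ⟨hs | hs, h2⟩
  · exact Or.inl ⟨hs, h2⟩
  · exact Or.inr ⟨hs, h2⟩

theorem ctm_biUnion (hfin : ∀ X : ℕ, {s : Multiset P | nrm N s ≤ X}.Finite) {ι : Type}
    (J : Finset ι) (A : ι → Set (Multiset P)) (X : ℕ) :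
    ctm N (⋃ i ∈ J, A i) X ≤ ∑ i ∈ J, ctm N (A i) X := by
  classical
  induction J using Finset.induction_on with
  | empty => simp [ctm]
  | insert i J hi ih =>
    rw [Finset.sum_insert hi, Finset.set_biUnion_insert]
    refine (ctm_union hfin _ _ X).trans ?_
    linarith

/-- step 0: multisets avoiding a finite set of primes -/
theorem step0 (hN : ∀ p, 2 ≤ N p)
    (hfin : ∀ X : ℕ, {s : Multiset P | nrm N s ≤ X}.Finite) {ρ : ℝ}
    (hρ : ∀ g : G, Tendsto (fun X : ℕ => ctm N {s | cls c s = g} X / X) atTop (𝓝 ρ))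
    (Q : Finset P) : ∀ g : G, Tendsto (fun X : ℕ =>
      ctm N {s | (∀ p ∈ Q, p ∉ s) ∧ cls c s = g} X / X) atTop
      (𝓝 (ρ * ∏ p ∈ Q, (1 - 1 / (N p : ℝ)))) := by
  classical
  induction Q using Finset.induction_on with
  | empty =>
    intro g
    simpa using hρ g
  | insert q Q hq ih =>
    intro g
    have hNq : 0 < N q := lt_of_lt_of_le two_pos (hN q)
    have key : ∀ X : ℕ, ctm N {s | (∀ p ∈ insert q Q, p ∉ s) ∧ cls c s = g} X =
        ctm N {s | (∀ p ∈ Q, p ∉ s) ∧ cls c s = g} X -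
        ctm N {s | (∀ p ∈ Q, p ∉ s) ∧ cls c s = (c q)⁻¹ * g} (X / N q) := by
      intro X
      rw [eq_sub_iff_add_eq]
      unfold ctm
      rw [← Nat.cast_add, Nat.cast_inj]
      have himg : Set.ncard {s : Multiset P | s ∈ {s | (∀ p ∈ Q, p ∉ s) ∧
          cls c s = (c q)⁻¹ * g} ∧ nrm N s ≤ X / N q} =
          Set.ncard ((fun s => q ::ₘ s) '' {s : Multiset P | s ∈ {s | (∀ p ∈ Q, p ∉ s) ∧
          cls c s = (c q)⁻¹ * g} ∧ nrm N s ≤ X / N q}) := by
        rw [Set.ncard_image_of_injective _ (fun s t h => (Multiset.cons_inj_right q).mp h)]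
      rw [himg, ← Set.ncard_union_eq ?_ (ctm_fin hfin _ X) ((ctm_fin hfin _ _).image _)]
      · congr 1
        ext s
        simp only [Set.mem_union, Set.mem_ofPred_eq, Set.mem_image, Finset.mem_insert]
        constructor
        · rintro (⟨⟨h1, h2⟩, h3⟩ | ⟨s', ⟨⟨h1, h2⟩, h3⟩, rfl⟩)
          · exact ⟨⟨fun p hp => h1 p (Or.inr hp), h2⟩, h3⟩
          · refine ⟨⟨fun p hp => ?_, ?_⟩, ?_⟩
            · rw [Multiset.mem_cons]
              push Not
              refine ⟨?_, h1 p hp⟩
              rintro rfl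
              exact hq hp
            · rw [cls_cons, h2]; simp
            · rw [nrm_cons, mul_comm]
              exact (Nat.le_div_iff_mul_le hNq).mp h3
        · rintro ⟨⟨h1, h2⟩, h3⟩
          by_cases hqs : q ∈ s
          · right
            obtain ⟨s', rfl⟩ := Multiset.exists_cons_of_mem hqs
            refine ⟨s', ⟨⟨fun p hp hps => h1 p hp (Multiset.mem_cons_of_mem hps), ?_⟩, ?_⟩, rfl⟩
            · rw [cls_cons] at h2
              rw [← h2]; simp
            · rw [nrm_cons, mul_comm] at h3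
              exact (Nat.le_div_iff_mul_le hNq).mpr h3
          · left
            refine ⟨⟨fun p hp => ?_, h2⟩, h3⟩
            rcases hp with rfl | hp
            · exact hqs
            · exact h1 p hp
      · rw [Set.disjoint_left]
        rintro s ⟨⟨h1, -⟩, -⟩ ⟨s', -, rfl⟩
        exact h1 q (Finset.mem_insert_self _ _) (Multiset.mem_cons_self _ _)
    have h1 := (ih g).sub (tendsto_natDiv _ _ (N q) hNq (ih ((c q)⁻¹ * g)))
    have e : ρ * ∏ p ∈ Q, (1 - 1 / (N p : ℝ)) - (ρ * ∏ p ∈ Q, (1 - 1 / (N p : ℝ))) / (N q : ℝ) =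
        ρ * ∏ p ∈ insert q Q, (1 - 1 / (N p : ℝ)) := by
      rw [Finset.prod_insert hq]
      ring
    rw [e] at h1
    refine h1.congr ?_
    intro X
    rw [key X, sub_div]

/-- total count -/
theorem total [Finite G] (hfin : ∀ X : ℕ, {s : Multiset P | nrm N s ≤ X}.Finite) (Q : Finset P)
    {L : ℝ} (h : ∀ g : G, Tendsto (fun X : ℕ =>
      ctm N {s | (∀ p ∈ Q, p ∉ s) ∧ cls c s = g} X / X) atTop (𝓝 L)) :
    Tendsto (fun X : ℕ => ctm N {s | (∀ p ∈ Q, p ∉ s)} X / X) atTop (𝓝 (Nat.card G * L)) := by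
  classical
  have := Fintype.ofFinite G
  have h1 : Tendsto (fun X : ℕ => ∑ g : G,
      ctm N {s | (∀ p ∈ Q, p ∉ s) ∧ cls c s = g} X / X) atTop (𝓝 (∑ _g : G, L)) :=
    tendsto_finsetSum _ fun g _ => h g
  rw [Finset.sum_const, Finset.card_univ, nsmul_eq_mul, ← Nat.card_eq_fintype_card] at h1
  refine h1.congr ?_
  intro X
  rw [← Finset.sum_div]
  congr 1
  unfold ctm
  rw [← Nat.cast_sum, Nat.cast_inj]
  have hf := ctm_fin hfin {s | ∀ p ∈ Q, p ∉ s} X
  rw [Set.ncard_eq_toFinset_card _ hf,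
    Finset.card_eq_sum_card_fiberwise (f := fun s => cls c s) (t := Finset.univ)
      (fun _ _ => Finset.mem_coe.mpr (Finset.mem_univ _))]
  apply Finset.sum_congr rfl
  intro g _
  rw [← Set.ncard_coe_finset]
  congr 1
  ext s
  simp only [Set.mem_ofPred_eq, Finset.coe_filter, Set.Finite.mem_toFinset]
  tauto

open scoped Classical in
/-- step 1: the classes with many primes generate -/
theorem step1 [Finite G] (hN : ∀ p, 2 ≤ N p)
    (hfin : ∀ X : ℕ, {s : Multiset P | nrm N s ≤ X}.Finite) {ρ : ℝ} (hρ0 : 0 < ρ)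
    (hρ : ∀ g : G, Tendsto (fun X : ℕ => ctm N {s | cls c s = g} X / X) atTop (𝓝 ρ)) :
    Subgroup.closure {b : G | ¬ Summable (fun p : P => if c p = b then 1 / (N p : ℝ) else 0)} =
      ⊤ := by
  classical
  have := Fintype.ofFinite G
  by_contra hH
  set H := Subgroup.closure {b : G | ¬ Summable (fun p : P => if c p = b then 1 / (N p : ℝ)
    else 0)} with hHdef
  obtain ⟨g, hg⟩ : ∃ g : G, g ∉ H := by
    by_contra hcon
    push Not at hcon
    exact hH ((Subgroup.eq_top_iff' H).mpr hcon)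
  -- the sum over the primes outside H
  set f : P → ℝ := fun p => if c p ∈ H then 0 else 1 / (N p : ℝ) with hf
  have hfnn : ∀ p, 0 ≤ f p := by
    intro p
    simp only [hf]
    split_ifs
    · exact le_refl _
    · positivity
  have hfs : Summable f := by
    have h1 : ∀ b : G, b ∉ H → Summable (fun p : P => if c p = b then 1 / (N p : ℝ) else 0) := by
      intro b hb
      by_contra hcon
      exact hb (Subgroup.subset_closure hcon)
    have h2 : Summable (fun p : P => ∑ b : G, if b ∈ H then 0 else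
        (if c p = b then 1 / (N p : ℝ) else 0)) := by
      apply summable_sum
      intro b _
      by_cases hb : b ∈ H
      · simp only [hb, if_true]
        exact summable_zero
      · simp only [hb, if_false]
        exact h1 b hb
    refine h2.congr ?_
    intro p
    rw [Finset.sum_eq_single (c p)]
    · simp [hf]
    · intro b _ hb
      split_ifs with h3 h4
      · rfl
      · exact absurd h4.symm hb
      · rfl
    · intro h; exact absurd (Finset.mem_univ _) h
  -- total count bound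
  obtain ⟨C, hC0, hC⟩ : ∃ C : ℝ, 0 < C ∧ ∀ X : ℕ, ctm N Set.univ X ≤ C * X := by
    have h1 := total hfin ∅ (L := ρ) (fun g => by simpa using hρ g)
    obtain ⟨C, hC⟩ := h1.bddAbove_range
    refine ⟨max C 1, lt_of_lt_of_le one_pos (le_max_right _ _), fun X => ?_⟩
    rcases Nat.eq_zero_or_pos X with rfl | hX
    · simp only [ctm, Nat.cast_zero, mul_zero]
      have : {s : Multiset P | s ∈ Set.univ ∧ nrm N s ≤ 0} = ∅ := by
        ext s
        have := nrm_pos hN s
        simp only [Set.mem_ofPred_eq, Set.mem_univ, true_and, Set.mem_empty_iff_false, iff_false]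
        omega
      rw [this]
      simp
    · have hX' : (0 : ℝ) < X := by exact_mod_cast hX
      have h2 := hC ⟨X, rfl⟩
      simp only at h2
      rw [div_le_iff₀ hX'] at h2
      have h3 : ctm N {s : Multiset P | ∀ p ∈ (∅ : Finset P), p ∉ s} X = ctm N Set.univ X := by
        congr 1
        ext s
        simp
      rw [h3] at h2
      refine h2.trans ?_
      exact mul_le_mul_of_nonneg_right (le_max_left _ _) hX'.le
  set S := ∑' p, f p with hS
  set δ := ρ * Real.exp (-(2 * S)) / (2 * C) with hδ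
  have hδ0 : 0 < δ := by positivity
  obtain ⟨Q₁, hQ₁⟩ := summable_iff_vanishing_norm.mp hfs δ hδ0
  set Q := Q₁.filter (fun p => c p ∉ H) with hQ
  -- lower bound for the product
  have hE : Real.exp (-(2 * S)) ≤ ∏ p ∈ Q, (1 - 1 / (N p : ℝ)) := by
    have h1 : ∀ p ∈ Q, Real.exp (-(2 * f p)) ≤ 1 - 1 / (N p : ℝ) := by
      intro p hp
      rw [hQ, Finset.mem_filter] at hp
      have h2 : f p = 1 / (N p : ℝ) := by simp [hf, hp.2]
      rw [h2]
      have h3 : (2 : ℝ) ≤ N p := by exact_mod_cast hN p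
      set x : ℝ := 1 / (N p : ℝ) with hx
      have hx0 : 0 < x := by positivity
      have hx1 : x ≤ 1 / 2 := by
        rw [hx]
        exact one_div_le_one_div_of_le (by norm_num) h3
      -- exp(-2x) ≤ 1/(1+2x) ≤ 1 - x
      have h4 : 1 + 2 * x ≤ Real.exp (2 * x) := by
        have := Real.add_one_le_exp (2 * x)
        linarith
      rw [Real.exp_neg]
      have h5 : (Real.exp (2 * x))⁻¹ ≤ (1 + 2 * x)⁻¹ := by
        apply inv_anti₀ (by positivity) h4
      refine h5.trans ?_
      rw [inv_le_iff_one_le_mul₀ (by positivity)]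
      nlinarith
    have h2 : ∏ p ∈ Q, Real.exp (-(2 * f p)) ≤ ∏ p ∈ Q, (1 - 1 / (N p : ℝ)) :=
      Finset.prod_le_prod (fun _ _ => (Real.exp_pos _).le) h1
    refine le_trans ?_ h2
    rw [← Real.exp_sum]
    apply Real.exp_le_exp.mpr
    rw [Finset.sum_neg_distrib, ← Finset.mul_sum]
    have h3 : ∑ p ∈ Q, f p ≤ S := hfs.sum_le_tsum Q (fun p _ => hfnn p)
    linarith
  -- upper bound for the count
  have hup : ∀ X : ℕ, ctm N {s | (∀ p ∈ Q, p ∉ s) ∧ cls c s = g} X ≤ C * δ * X := by
    intro X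
    -- the primes of norm at most X
    have hfinp : {p : P | N p ≤ X}.Finite := by
      refine Set.Finite.of_finite_image (f := fun p => ({p} : Multiset P)) ?_ ?_
      · refine (hfin X).subset ?_
        rintro _ ⟨p, hp, rfl⟩
        simpa [nrm] using hp
      · intro p _ q _ h
        simpa using h
    set J := hfinp.toFinset.filter (fun p => c p ∉ H ∧ p ∉ Q₁) with hJ
    have hcov : ∀ s : Multiset P, ((∀ p ∈ Q, p ∉ s) ∧ cls c s = g) → nrm N s ≤ X →
        ∃ p ∈ J, p ∈ s := by
      intro s hs hX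
      by_contra hcon
      push Not at hcon
      apply hg
      rw [← hs.2]
      unfold cls
      apply Subgroup.multiset_prod_mem
      intro x hx
      rw [Multiset.mem_map] at hx
      obtain ⟨p, hp, rfl⟩ := hx
      by_contra hpH
      have hpQ₁ : p ∉ Q₁ := by
        intro h
        exact hs.1 p (by rw [hQ, Finset.mem_filter]; exact ⟨h, hpH⟩) hp
      have hNp : N p ≤ X := by
        obtain ⟨s', rfl⟩ := Multiset.exists_cons_of_mem hp
        rw [nrm_cons] at hX
        have := nrm_pos hN s'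
        exact le_trans (Nat.le_mul_of_pos_right _ this) hX
      exact hcon p (by
        rw [hJ, Finset.mem_filter]
        exact ⟨by simpa using hNp, hpH, hpQ₁⟩) hp
    have h1 : ctm N {s | (∀ p ∈ Q, p ∉ s) ∧ cls c s = g} X ≤ ∑ p ∈ J, ctm N {s | p ∈ s} X := by
      have h2 : ctm N {s | (∀ p ∈ Q, p ∉ s) ∧ cls c s = g} X ≤
          ctm N (⋃ p ∈ J, {s | p ∈ s}) X := by
        unfold ctm
        rw [Nat.cast_le]
        apply Set.ncard_le_ncard _ (ctm_fin hfin _ X)
        rintro s ⟨hs, hX⟩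
        obtain ⟨p, hpJ, hps⟩ := hcov s hs hX
        refine ⟨?_, hX⟩
        rw [Set.mem_iUnion₂]
        exact ⟨p, hpJ, hps⟩
      exact h2.trans (ctm_biUnion hfin J _ X)
    have h3 : ∀ p : P, ctm N {s | p ∈ s} X ≤ C * X * (1 / (N p : ℝ)) := by
      intro p
      have hNp : 0 < N p := lt_of_lt_of_le two_pos (hN p)
      have h4 : ctm N {s | p ∈ s} X ≤ ctm N Set.univ (X / N p) := by
        unfold ctm
        rw [Nat.cast_le]
        have himg : {s : Multiset P | s ∈ {s | p ∈ s} ∧ nrm N s ≤ X} ⊆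
            (fun s => p ::ₘ s) '' {s : Multiset P | s ∈ Set.univ ∧ nrm N s ≤ X / N p} := by
          rintro s ⟨hs, hX⟩
          obtain ⟨s', rfl⟩ := Multiset.exists_cons_of_mem hs
          rw [nrm_cons, mul_comm] at hX
          exact ⟨s', ⟨Set.mem_univ _, (Nat.le_div_iff_mul_le hNp).mpr hX⟩, rfl⟩
        refine (Set.ncard_le_ncard himg ((ctm_fin hfin _ _).image _)).trans ?_
        exact Set.ncard_image_le (ctm_fin hfin _ _)
      refine h4.trans ((hC _).trans ?_)
      rw [mul_assoc, mul_one_div]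
      exact mul_le_mul_of_nonneg_left Nat.cast_div_le hC0.le
    have h5 : ∑ p ∈ J, ctm N {s | p ∈ s} X ≤ C * X * ∑ p ∈ J, f p := by
      rw [Finset.mul_sum]
      apply Finset.sum_le_sum
      intro p hp
      rw [hJ, Finset.mem_filter] at hp
      have h6 : f p = 1 / (N p : ℝ) := by simp [hf, hp.2.1]
      rw [h6]
      exact h3 p
    have h6 : ∑ p ∈ J, f p ≤ δ := by
      have h7 := hQ₁ J (by
        rw [Finset.disjoint_left]
        intro p hp
        rw [hJ, Finset.mem_filter] at hp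
        exact hp.2.2)
      exact ((le_abs_self _).trans (by rw [← Real.norm_eq_abs]; exact h7.le))
    calc _ ≤ C * X * ∑ p ∈ J, f p := h1.trans h5
      _ ≤ C * X * δ := mul_le_mul_of_nonneg_left h6 (by positivity)
      _ = _ := by ring
  have hlim := step0 hN hfin hρ Q g
  have hle : ρ * ∏ p ∈ Q, (1 - 1 / (N p : ℝ)) ≤ C * δ := by
    refine le_of_tendsto hlim ?_
    filter_upwards [eventually_gt_atTop 0] with X hX
    have hX' : (0 : ℝ) < X := by exact_mod_cast hX
    rw [div_le_iff₀ hX']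
    exact hup X
  have h8 : ρ * Real.exp (-(2 * S)) ≤ C * δ :=
    (mul_le_mul_of_nonneg_left hE hρ0.le).trans hle
  have h9 : C * δ = ρ * Real.exp (-(2 * S)) / 2 := by
    rw [hδ]; field_simp
  have h10 : 0 < ρ * Real.exp (-(2 * S)) := by positivity
  linarith

open scoped Classical in
/-- finite sets of primes with small product -/
theorem small_prod {b : G} (hb : ¬ Summable (fun p : P => if c p = b then 1 / (N p : ℝ) else 0))
    (hN : ∀ p, 2 ≤ N p) (F : Finset P) {δ : ℝ} (hδ : 0 < δ) :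
    ∃ F' : Finset P, Disjoint F F' ∧ (∀ p ∈ F', c p = b) ∧
      ∏ p ∈ F', (1 - 1 / (N p : ℝ)) ≤ δ := by
  classical
  by_contra hcon
  push Not at hcon
  apply hb
  refine summable_of_sum_le (c := -Real.log δ + ∑ p ∈ F, 1 / (N p : ℝ)) ?_ ?_
  · intro p
    simp only
    split_ifs
    · positivity
    · exact le_refl _
  · intro u
    set F' := u.filter (fun p => c p = b ∧ p ∉ F) with hF'
    have h1 := hcon F' (by
      rw [Finset.disjoint_right]
      intro p hp
      rw [hF', Finset.mem_filter] at hp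
      exact hp.2.2) (by
      intro p hp
      rw [hF', Finset.mem_filter] at hp
      exact hp.2.1)
    have h2 : ∏ p ∈ F', (1 - 1 / (N p : ℝ)) ≤ Real.exp (-∑ p ∈ F', 1 / (N p : ℝ)) := by
      rw [← Finset.sum_neg_distrib, Real.exp_sum]
      apply Finset.prod_le_prod
      · intro p _
        have h3 : (2 : ℝ) ≤ N p := by exact_mod_cast hN p
        have : 1 / (N p : ℝ) ≤ 1 / 1 := one_div_le_one_div_of_le (by norm_num) (by linarith)
        linarith
      · intro p _
        have := Real.add_one_le_exp (-(1 / (N p : ℝ)))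
        linarith
    have h3 : ∑ p ∈ F', 1 / (N p : ℝ) ≤ -Real.log δ := by
      have h4 := lt_of_lt_of_le h1 h2
      have h5 := (Real.log_lt_iff_lt_exp hδ).mpr h4
      linarith
    have h6 : ∑ p ∈ u, (if c p = b then 1 / (N p : ℝ) else 0) ≤
        ∑ p ∈ F', 1 / (N p : ℝ) + ∑ p ∈ F, 1 / (N p : ℝ) := by
      rw [← Finset.sum_filter]
      have h7 : u.filter (fun p => c p = b) ⊆ F' ∪ F := by
        intro p hp
        rw [Finset.mem_filter] at hp
        rw [Finset.mem_union]
        by_cases hpF : p ∈ F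
        · exact Or.inr hpF
        · left
          rw [hF', Finset.mem_filter]
          exact ⟨hp.1, hp.2, hpF⟩
      refine (Finset.sum_le_sum_of_subset_of_nonneg h7 (fun p _ _ => by positivity)).trans ?_
      have h8 := Finset.sum_union_inter (s₁ := F') (s₂ := F) (f := fun p => 1 / (N p : ℝ))
      have h9 : 0 ≤ ∑ p ∈ F' ∩ F, 1 / (N p : ℝ) := Finset.sum_nonneg fun p _ => by positivity
      linarith
    linarith

/-- almost all multisets have a divisor of class `g` from a finite set away from `F` -/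
def Phi (N : P → ℕ) (c : P → G) (g : G) : Prop := ∀ (F : Finset P) (ε : ℝ), 0 < ε →
  ∃ F' : Finset P, Disjoint F F' ∧ ∀ᶠ X : ℕ in atTop,
    ctm N {s | ¬ ∃ t ≤ s, (∀ p ∈ t, p ∈ F') ∧ cls c t = g} X / X ≤ ε

theorem Phi.one : Phi N c (1 : G) := by
  intro F ε hε
  refine ⟨∅, Finset.disjoint_empty_right _, ?_⟩
  filter_upwards with X
  have : {s : Multiset P | ¬ ∃ t ≤ s, (∀ p ∈ t, p ∈ (∅ : Finset P)) ∧ cls c t = 1} = ∅ := by
    ext s
    simp only [Set.mem_ofPred_eq, Set.mem_empty_iff_false, iff_false, not_not]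
    exact ⟨0, Multiset.zero_le _, by simp, by simp [cls]⟩
  rw [this]
  simp only [ctm, Set.mem_empty_iff_false, false_and]
  have e : {s : Multiset P | False} = ∅ := by ext; simp
  rw [e, Set.ncard_empty]
  simp only [Nat.cast_zero, zero_div]
  exact hε.le

theorem Phi.mul (hfin : ∀ X : ℕ, {s : Multiset P | nrm N s ≤ X}.Finite) {g h : G}
    (hg : Phi N c g) (hh : Phi N c h) : Phi N c (g * h) := by
  classical
  intro F ε hε
  obtain ⟨F₁, hF₁, h1⟩ := hg F (ε / 2) (by positivity)
  obtain ⟨F₂, hF₂, h2⟩ := hh (F ∪ F₁) (ε / 2) (by positivity)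
  rw [Finset.disjoint_union_left] at hF₂
  refine ⟨F₁ ∪ F₂, ?_, ?_⟩
  · rw [Finset.disjoint_union_right]
    exact ⟨hF₁, hF₂.1⟩
  filter_upwards [h1, h2] with X hX1 hX2
  have hsub : {s : Multiset P | ¬ ∃ t ≤ s, (∀ p ∈ t, p ∈ F₁ ∪ F₂) ∧ cls c t = g * h} ⊆
      {s | ¬ ∃ t ≤ s, (∀ p ∈ t, p ∈ F₁) ∧ cls c t = g} ∪
      {s | ¬ ∃ t ≤ s, (∀ p ∈ t, p ∈ F₂) ∧ cls c t = h} := by
    intro s hs
    by_contra hcon
    simp only [Set.mem_union, not_or, Set.mem_ofPred_eq, not_not] at hcon
    obtain ⟨⟨t₁, ht₁, ht₁F, ht₁g⟩, ⟨t₂, ht₂, ht₂F, ht₂h⟩⟩ := hcon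
    apply hs
    refine ⟨t₁ + t₂, ?_, ?_, ?_⟩
    · have hd : Disjoint t₁ t₂ := by
        rw [Multiset.disjoint_left]
        intro p hp1 hp2
        exact (Finset.disjoint_left.mp hF₂.2) (ht₁F p hp1) (ht₂F p hp2)
      rw [Multiset.le_iff_count]
      intro p
      rw [Multiset.count_add]
      by_cases hp : p ∈ t₁
      · have : p ∉ t₂ := Multiset.disjoint_left.mp hd hp
        rw [Multiset.count_eq_zero_of_notMem this, add_zero]
        exact Multiset.le_iff_count.mp ht₁ p
      · rw [Multiset.count_eq_zero_of_notMem hp, zero_add]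
        exact Multiset.le_iff_count.mp ht₂ p
    · intro p hp
      rw [Multiset.mem_add] at hp
      rw [Finset.mem_union]
      rcases hp with hp | hp
      · exact Or.inl (ht₁F p hp)
      · exact Or.inr (ht₂F p hp)
    · rw [cls_add, ht₁g, ht₂h]
  have h3 := (ctm_mono hfin hsub X).trans (ctm_union hfin _ _ X)
  have h4 := div_le_div_of_nonneg_right h3 (Nat.cast_nonneg X : (0 : ℝ) ≤ X)
  rw [add_div] at h4
  linarith

theorem Phi.pow (hfin : ∀ X : ℕ, {s : Multiset P | nrm N s ≤ X}.Finite) {g : G}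
    (hg : Phi N c g) (n : ℕ) : Phi N c (g ^ n) := by
  induction n with
  | zero => rw [pow_zero]; exact Phi.one
  | succ n ih => rw [pow_succ]; exact ih.mul hfin hg

end

theorem stmC1 : StmC1 := by
  classical
  intro P G _ _ N c ρ hN hρ0 hfin hρ g
  have hfin' : ∀ X : ℕ, {s : Multiset P | nrm N s ≤ X}.Finite := hfin
  have hρ' : ∀ g : G, Tendsto (fun X : ℕ => ctm N {s | cls c s = g} X / X) atTop (𝓝 ρ) := hρ
  have hgen := step1 (c := c) hN hfin' hρ0 hρ'
  have hcardG : (0 : ℝ) < Nat.card G := by exact_mod_cast Nat.card_pos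
  have hPhi : ∀ g : G, Phi N c g := by
    intro g
    have hg : g ∈ Subgroup.closure {b : G | ¬ Summable (fun p : P =>
        if c p = b then 1 / (N p : ℝ) else 0)} := by rw [hgen]; trivial
    induction hg using Subgroup.closure_induction with
    | mem b hb =>
      intro F ε hε
      obtain ⟨F', hF', hF'b, hprod⟩ := small_prod hb hN F
        (δ := ε / (2 * (Nat.card G * ρ))) (by positivity)
      refine ⟨F', hF', ?_⟩
      have h1 := total hfin' F' (step0 hN hfin' hρ' F')
      have h2 : Nat.card G * (ρ * ∏ p ∈ F', (1 - 1 / (N p : ℝ))) < ε := by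
        have h3 := mul_le_mul_of_nonneg_left hprod (by positivity : 0 ≤ Nat.card G * ρ)
        have h4 : Nat.card G * ρ * (ε / (2 * (Nat.card G * ρ))) = ε / 2 := by field_simp
        rw [h4] at h3
        have h5 : Nat.card G * (ρ * ∏ p ∈ F', (1 - 1 / (N p : ℝ))) =
          Nat.card G * ρ * ∏ p ∈ F', (1 - 1 / (N p : ℝ)) := by ring
        rw [h5]
        linarith
      filter_upwards [(tendsto_order.mp h1).2 ε h2] with X hX
      refine le_trans ?_ hX.le
      apply div_le_div_of_nonneg_right _ (Nat.cast_nonneg X)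
      apply ctm_mono hfin'
      intro s hs p hp hps
      apply hs
      refine ⟨{p}, Multiset.singleton_le.mpr hps, ?_, ?_⟩
      · intro q hq
        rw [Multiset.mem_singleton] at hq
        rw [hq]; exact hp
      · simp [cls, hF'b p hp]
    | one => exact Phi.one
    | mul x y _ _ hx hy => exact hx.mul hfin' hy
    | inv x _ hx =>
      have : x⁻¹ = x ^ (orderOf x - 1) := by
        rw [eq_comm, eq_inv_iff_mul_eq_one, ← pow_succ,
          Nat.sub_add_cancel (orderOf_pos x), pow_orderOf_eq_one]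
      rw [this]
      exact hx.pow hfin' _
  -- conclusion
  change Tendsto (fun X : ℕ => ctm N {s | ∀ t ≤ s, cls c t ≠ g} X / X) atTop (𝓝 0)
  rw [tendsto_order]
  constructor
  · intro a ha
    filter_upwards with X
    exact lt_of_lt_of_le ha (div_nonneg (ctm_nonneg _ _) (Nat.cast_nonneg _))
  · intro ε hε
    obtain ⟨F', -, hF'⟩ := hPhi g ∅ (ε / 2) (by positivity)
    filter_upwards [hF'] with X hX
    refine lt_of_le_of_lt ?_ (lt_of_le_of_lt hX (by linarith))
    apply div_le_div_of_nonneg_right _ (Nat.cast_nonneg X)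
    apply ctm_mono hfin'
    rintro s hs ⟨t, hts, -, htg⟩
    exact hs t hts htg

end Pool.Agent.N530.LS
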