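import Pool.Agent.N530.LS.C2c

/-!
# C2: equidistribution of the ideals in the ray classes
-/

set_option autoImplicit false

namespace Pool.Agent.N530.LS

open NumberField Filter Topology

section

variable {K : Type} [Field K] [NumberField K]

theorem absNorm_idl {ν : 𝓞 K} (s : Multiset (Pr K ν)) :
    (s.map fun p => Ideal.absNorm p.1).prod = Ideal.absNorm (idl K ν s) := by
  unfold idl
  rw [map_multiset_prod, Multiset.map_map]
  rfl

/-- units congruent to `1` -/
def Un (ν : 𝓞 K) : Set (𝓞 K) := {u | IsUnit u ∧ ν ∣ u - 1}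

theorem card_eq_mul {α β : Type} [DecidableEq β] (s : Finset α) (t : Finset β) (f : α → β) (w : ℕ)
    (hf : ∀ x ∈ s, f x ∈ t) (hw : ∀ y ∈ t, (s.filter (fun x => f x = y)).card = w) :
    s.card = t.card * w := by
  rw [Finset.card_eq_sum_card_fiberwise (f := f) (t := t) (fun x hx => hf x hx),
    Finset.sum_congr rfl hw, Finset.sum_const, smul_eq_mul]

theorem count_class (φ : K →+* ℂ) (h2 : Module.finrank ℚ K = 2) (hφ : ∃ x, (φ x).im ≠ 0)
    (hfinR : ∀ R : ℝ, {x : 𝓞 K | ‖φ x‖ ≤ R}.Finite) {ν : 𝓞 K}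
    (g : Gq K ν) (sJ : Multiset (Pr K ν)) (hsJ : ∀ s, clq s = g ↔ clq (s + sJ) = 1)
    (hfin : ∀ X : ℕ, {s : Multiset (Pr K ν) |
      (s.map fun p => Ideal.absNorm p.1).prod ≤ X}.Finite) (X : ℕ) :
    Set.ncard {x : 𝓞 K | (x ∈ idl K ν sJ ∧ ν ∣ x - 1 ∧
      ‖φ x‖ ≤ Real.sqrt (X * Ideal.absNorm (idl K ν sJ))) ∧ x ≠ 0} =
    Set.ncard {s : Multiset (Pr K ν) | clq s = g ∧
      (s.map fun p => Ideal.absNorm p.1).prod ≤ X} * (Un ν).ncard := by
  classical
  set J := idl K ν sJ with hJ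
  have hJ0 : J ≠ 0 := idl_ne_zero sJ
  have hNJ : 0 < Ideal.absNorm J := by
    rw [Nat.pos_iff_ne_zero, Ne, Ideal.absNorm_eq_zero_iff]
    exact hJ0
  have hfY : {x : 𝓞 K | (x ∈ J ∧ ν ∣ x - 1 ∧
      ‖φ x‖ ≤ Real.sqrt (X * Ideal.absNorm J)) ∧ x ≠ 0}.Finite :=
    (hfinR (Real.sqrt (X * Ideal.absNorm J))).subset fun x hx => hx.1.2.2
  have hfS : {s : Multiset (Pr K ν) | clq s = g ∧
      (s.map fun p => Ideal.absNorm p.1).prod ≤ X}.Finite :=
    (hfin X).subset fun s hs => hs.2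
  rw [Set.ncard_eq_toFinset_card _ hfY, Set.ncard_eq_toFinset_card _ hfS]
  let f : 𝓞 K → Multiset (Pr K ν) := fun x =>
    if h : ∃ s, idl K ν s * J = Ideal.span {x} then h.choose else 0
  have hfx : ∀ x : 𝓞 K, x ∈ J → ν ∣ x - 1 → x ≠ 0 → idl K ν (f x) * J = Ideal.span {x} := by
    intro x hxJ hxν hx0
    have h : ∃ s, idl K ν s * J = Ideal.span {x} := by
      have h3 : J ∣ Ideal.span {x} := Ideal.dvd_span_singleton.mpr hxJ
      obtain ⟨I, hI⟩ := h3
      have hspan : Ideal.span {x} ≠ 0 := by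
        rwa [Ne, Ideal.zero_eq_bot, Ideal.span_singleton_eq_bot]
      have hI0 : I ≠ 0 := by
        rintro rfl
        rw [mul_zero] at hI
        exact hspan hI
      have hcop : IsCoprime (Ideal.span {x}) (Ideal.span {ν}) := by
        rw [Ideal.isCoprime_span_singleton_iff]
        obtain ⟨k, hk⟩ := hxν
        exact ⟨1, -k, by linear_combination hk⟩
      rw [hI] at hcop
      obtain ⟨s, hs⟩ := idl_surj I hI0 hcop.of_mul_left_right
      exact ⟨s, by rw [hs, hI, mul_comm]⟩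
    simp only [f, h, dif_pos]
    exact h.choose_spec
  have hnormeq : ∀ (s : Multiset (Pr K ν)) (x : 𝓞 K), idl K ν s * J = Ideal.span {x} →
      ((Ideal.absNorm (idl K ν s) : ℕ) : ℝ) * Ideal.absNorm J = ‖φ x‖ ^ 2 := by
    intro s x h
    rw [← absNorm_eq φ h2 hφ x, ← h, map_mul]
    push_cast
    ring
  have hcl : ∀ (s : Multiset (Pr K ν)) (x : 𝓞 K), x ≠ 0 → ν ∣ x - 1 →
      idl K ν s * J = Ideal.span {x} → clq s = g := by
    intro s x hx0 hxν h
    rw [hsJ, clq_eq_one]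
    exact ⟨x, hx0, hxν, by rw [idl_add]; exact h⟩
  have hNJ' : (0 : ℝ) < Ideal.absNorm J := by exact_mod_cast hNJ
  have hle : ∀ (s : Multiset (Pr K ν)) (x : 𝓞 K), idl K ν s * J = Ideal.span {x} →
      (Ideal.absNorm (idl K ν s) ≤ X ↔ ‖φ x‖ ≤ Real.sqrt (X * Ideal.absNorm J)) := by
    intro s x h
    have h3 := hnormeq s x h
    rw [Real.le_sqrt (norm_nonneg _) (by positivity), ← h3]
    rw [mul_le_mul_iff_left₀ hNJ']
    exact Nat.cast_le.symm
  apply card_eq_mul (f := f)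
  · intro x hx
    rw [Set.Finite.mem_toFinset] at hx ⊢
    obtain ⟨⟨hxJ, hxν, hxX⟩, hx0⟩ := hx
    have h := hfx x hxJ hxν hx0
    refine ⟨hcl _ x hx0 hxν h, ?_⟩
    rw [absNorm_idl]
    exact (hle _ x h).mpr hxX
  · intro s hs
    rw [Set.Finite.mem_toFinset] at hs
    obtain ⟨hsg, hsX⟩ := hs
    rw [absNorm_idl] at hsX
    obtain ⟨x₁, hx₁0, hx₁ν, hx₁⟩ := clq_eq_one.mp ((hsJ s).mp hsg)
    rw [idl_add, ← hJ] at hx₁
    rw [← Set.ncard_coe_finset]
    symm
    refine Set.ncard_congr (fun u _ => u * x₁) ?_ ?_ ?_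
    · rintro u ⟨hu, huν⟩
      have hspan : Ideal.span {u * x₁} = Ideal.span {x₁} := by
        rw [← Ideal.span_singleton_mul_span_singleton, Ideal.span_singleton_eq_top.mpr hu,
          Ideal.top_mul]
      have hux0 : u * x₁ ≠ 0 := mul_ne_zero hu.ne_zero hx₁0
      have huxν : ν ∣ u * x₁ - 1 := dvd_mul_sub_one huν hx₁ν
      have hidl : idl K ν s * J = Ideal.span {u * x₁} := by rw [hx₁, hspan]
      have huxJ : u * x₁ ∈ J := by
        have : u * x₁ ∈ idl K ν s * J := by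
          rw [hidl]; exact Ideal.mem_span_singleton_self _
        exact Ideal.mul_le_right this
      have hfu := hfx _ huxJ huxν hux0
      rw [Finset.mem_coe, Finset.mem_filter, Set.Finite.mem_toFinset]
      refine ⟨⟨⟨huxJ, huxν, (hle s _ hidl).mp hsX⟩, hux0⟩, ?_⟩
      apply idl_injective
      apply mul_right_cancel₀ hJ0
      rw [hfu, hidl]
    · intro u v _ _ h
      exact mul_right_cancel₀ hx₁0 h
    · intro x hx
      rw [Finset.mem_coe, Finset.mem_filter, Set.Finite.mem_toFinset] at hx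
      obtain ⟨⟨⟨hxJ, hxν, hxX⟩, hx0⟩, hfs⟩ := hx
      have h := hfx x hxJ hxν hx0
      rw [hfs, hx₁] at h
      rw [Ideal.span_singleton_eq_span_singleton] at h
      obtain ⟨u, hu⟩ := h
      refine ⟨u, ⟨u.isUnit, ?_⟩, ?_⟩
      · have h3 : (u : 𝓞 K) - 1 = (x₁ * u - 1) - u * (x₁ - 1) := by ring
        rw [h3, hu]
        exact dvd_sub hxν (Dvd.dvd.mul_left hx₁ν _)
      · rw [mul_comm]
        exact hu

end

theorem stmC2 (h1 : StmA1) : StmC2 := by
  classical
  intro K _ _ φ h2 hφ ν hν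
  obtain ⟨κ, hκ, hfinR, hcount⟩ := coset_count h1 φ h2 hφ
  have hν' : Ideal.span {ν} ≠ 0 := by
    rwa [Ne, Ideal.zero_eq_bot, Ideal.span_singleton_eq_bot]
  have hNν : 0 < Ideal.absNorm (Ideal.span {ν}) := by
    rw [Nat.pos_iff_ne_zero, Ne, Ideal.absNorm_eq_zero_iff]
    exact hν'
  have hNν' : (0 : ℝ) < Ideal.absNorm (Ideal.span {ν}) := by exact_mod_cast hNν
  have hUfin : (Un ν).Finite := by
    refine (hfinR 1).subset ?_
    rintro u ⟨hu, -⟩
    have h3 := absNorm_eq φ h2 hφ u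
    rw [Ideal.span_singleton_eq_top.mpr hu, Ideal.absNorm_top, Nat.cast_one] at h3
    rw [Set.mem_ofPred_eq]
    have h4 : ‖φ u‖ ^ 2 ≤ 1 ^ 2 := by rw [← h3]; norm_num
    exact (sq_le_sq₀ (norm_nonneg _) zero_le_one).mp h4
  have hw : 0 < (Un ν).ncard := by
    rw [Set.ncard_pos hUfin]
    exact ⟨1, isUnit_one, by simp⟩
  have hw' : (0 : ℝ) < (Un ν).ncard := by exact_mod_cast hw
  have hfin : ∀ X : ℕ, {s : Multiset (Pr K ν) |
      (s.map fun p => Ideal.absNorm p.1).prod ≤ X}.Finite := by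
    intro X
    have h3 := Ideal.finite_setOfPred_absNorm_le (S := 𝓞 K) X
    refine (h3.preimage (f := idl K ν) (fun a _ b _ h => idl_injective h)).subset ?_
    intro s hs
    rw [Set.mem_ofPred_eq, absNorm_idl] at hs
    exact hs
  obtain ⟨n, hn, hexp⟩ := exists_exponent (K := K) hν
  refine ⟨Gq K ν, instGq hν, finite_Gq hν, fun p => clq {p},
    κ / ((Un ν).ncard * Ideal.absNorm (Ideal.span {ν})), by positivity, hfin, ?_, ?_⟩
  · intro g
    have hprod : ∀ s : Multiset (Pr K ν), (s.map fun p => clq {p}).prod = clq s := clq_eq_prod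
    obtain ⟨s₀, hs₀⟩ := clq_surj g
    set sJ := (n - 1) • s₀ with hsJdef
    have hsJ : ∀ s, clq s = g ↔ clq (s + sJ) = 1 := by
      intro s
      rw [clq_add, hsJdef, clq_nsmul, hs₀]
      constructor
      · rintro rfl
        rw [← pow_succ', Nat.sub_add_cancel hn]
        exact hexp _
      · intro h
        have h3 := congrArg (fun y => y * g) h
        simp only [one_mul] at h3
        rw [mul_assoc, ← pow_succ, Nat.sub_add_cancel hn, hexp, mul_one] at h3
        exact h3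
    set J := idl K ν sJ with hJ
    have hJ0 : J ≠ 0 := idl_ne_zero sJ
    have hNJ : 0 < Ideal.absNorm J := by
      rw [Nat.pos_iff_ne_zero, Ne, Ideal.absNorm_eq_zero_iff]
      exact hJ0
    have hNJ' : (0 : ℝ) < Ideal.absNorm J := by exact_mod_cast hNJ
    have h3 := hcount ν J hν hJ0 (idl_coprime sJ)
    have hRlim : Tendsto (fun X : ℕ => Real.sqrt (X * Ideal.absNorm J)) atTop atTop :=
      Real.tendsto_sqrt_atTop.comp
        ((tendsto_natCast_atTop_atTop (R := ℝ)).atTop_mul_const hNJ')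
    have h4 := h3.comp hRlim
    -- the correction for zero
    set δ : ℝ := if ν ∣ (0 : 𝓞 K) - 1 then 1 else 0 with hδ
    have hsplit : ∀ X : ℕ, (Set.ncard {x : 𝓞 K | x ∈ J ∧ ν ∣ x - 1 ∧
        ‖φ x‖ ≤ Real.sqrt (X * Ideal.absNorm J)} : ℝ) =
        (Set.ncard {s : Multiset (Pr K ν) | clq s = g ∧
          (s.map fun p => Ideal.absNorm p.1).prod ≤ X} : ℝ) * (Un ν).ncard + δ := by
      intro X
      have h5 := count_class φ h2 hφ hfinR g sJ hsJ hfin X
      rw [← hJ] at h5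
      have h5r : (Set.ncard {s : Multiset (Pr K ν) | clq s = g ∧
          (s.map fun p => Ideal.absNorm p.1).prod ≤ X} : ℝ) * (Un ν).ncard =
          (Set.ncard {x : 𝓞 K | (x ∈ J ∧ ν ∣ x - 1 ∧
            ‖φ x‖ ≤ Real.sqrt (X * Ideal.absNorm J)) ∧ x ≠ 0} : ℝ) := by
        rw [h5, Nat.cast_mul]
      rw [h5r]
      have hfY : {x : 𝓞 K | (x ∈ J ∧ ν ∣ x - 1 ∧
          ‖φ x‖ ≤ Real.sqrt (X * Ideal.absNorm J)) ∧ x ≠ 0}.Finite :=
        (hfinR (Real.sqrt (X * Ideal.absNorm J))).subset fun x hx => hx.1.2.2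
      by_cases h0 : ν ∣ (0 : 𝓞 K) - 1
      · have h6 : {x : 𝓞 K | x ∈ J ∧ ν ∣ x - 1 ∧ ‖φ x‖ ≤ Real.sqrt (X * Ideal.absNorm J)} =
            insert 0 {x : 𝓞 K | (x ∈ J ∧ ν ∣ x - 1 ∧
              ‖φ x‖ ≤ Real.sqrt (X * Ideal.absNorm J)) ∧ x ≠ 0} := by
          ext x
          simp only [Set.mem_ofPred_eq, Set.mem_insert_iff]
          constructor
          · intro hx
            by_cases hx0 : x = 0
            · exact Or.inl hx0
            · exact Or.inr ⟨hx, hx0⟩
          · rintro (rfl | ⟨hx, -⟩)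
            · refine ⟨J.zero_mem, h0, ?_⟩
              have h7 : φ (((0 : 𝓞 K) : K)) = 0 := by simp
              rw [h7, norm_zero]
              exact Real.sqrt_nonneg _
            · exact hx
        rw [h6, Set.ncard_insert_of_notMem (by simp) hfY, hδ, if_pos h0]
        push_cast
        ring
      · have h6 : {x : 𝓞 K | x ∈ J ∧ ν ∣ x - 1 ∧ ‖φ x‖ ≤ Real.sqrt (X * Ideal.absNorm J)} =
            {x : 𝓞 K | (x ∈ J ∧ ν ∣ x - 1 ∧
              ‖φ x‖ ≤ Real.sqrt (X * Ideal.absNorm J)) ∧ x ≠ 0} := by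
          ext x
          simp only [Set.mem_ofPred_eq]
          constructor
          · intro hx
            refine ⟨hx, ?_⟩
            rintro rfl
            exact h0 hx.2.1
          · exact fun hx => hx.1
        rw [h6, hδ, if_neg h0, add_zero]
    have h5 : Tendsto (fun X : ℕ => δ / (X : ℝ)) atTop (𝓝 0) :=
      tendsto_const_nhds.div_atTop tendsto_natCast_atTop_atTop
    have h6 : Tendsto (fun X : ℕ => ((Set.ncard {x : 𝓞 K | x ∈ J ∧ ν ∣ x - 1 ∧
        ‖φ x‖ ≤ Real.sqrt (X * Ideal.absNorm J)} : ℝ) /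
        (Real.sqrt (X * Ideal.absNorm J)) ^ 2 * Ideal.absNorm J - δ / X) / (Un ν).ncard) atTop
        (𝓝 ((κ / (Ideal.absNorm J * Ideal.absNorm (Ideal.span {ν}) : ℕ) *
          Ideal.absNorm J - 0) / (Un ν).ncard)) :=
      ((h4.mul_const _).sub h5).div_const _
    have h7 : (κ / (Ideal.absNorm J * Ideal.absNorm (Ideal.span {ν}) : ℕ) *
        Ideal.absNorm J - 0) / (Un ν).ncard = κ / ((Un ν).ncard *
        Ideal.absNorm (Ideal.span {ν})) := by
      push_cast
      field_simp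
      ring
    rw [h7] at h6
    refine h6.congr' ?_
    filter_upwards [eventually_gt_atTop 0] with X hX
    have hX' : (0 : ℝ) < X := by exact_mod_cast hX
    rw [hsplit X, Real.sq_sqrt (by positivity)]
    have h8 : {s : Multiset (Pr K ν) | (s.map fun p => clq {p}).prod = g ∧
        (s.map fun p => Ideal.absNorm p.1).prod ≤ X} = {s : Multiset (Pr K ν) | clq s = g ∧
        (s.map fun p => Ideal.absNorm p.1).prod ≤ X} := by
      ext s
      simp only [Set.mem_ofPred_eq, hprod]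
    have h9 : {s : Multiset (Pr K ν) |
        @Multiset.prod (Gq K ν) (instGq hν).toCommMonoid (s.map fun p => clq {p}) = g ∧
        (s.map fun p => Ideal.absNorm p.1).prod ≤ X} = {s : Multiset (Pr K ν) | clq s = g ∧
        (s.map fun p => Ideal.absNorm p.1).prod ≤ X} := h8
    rw [h9]
    field_simp
    ring
  · intro r hr
    -- a nonzero representative
    obtain ⟨r', hr'0, hr'ν, hr'⟩ : ∃ r' : 𝓞 K, r' ≠ 0 ∧ ν ∣ r' - r ∧ IsCoprime r' ν := by
      by_cases hr0 : r = 0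
      · subst hr0
        rw [isCoprime_zero_left] at hr
        exact ⟨1, one_ne_zero, hr.dvd, isCoprime_one_left⟩
      · exact ⟨r, hr0, by simp, hr⟩
    obtain ⟨sr, hsr⟩ := idl_surj (ν := ν) (Ideal.span {r'})
      (by rwa [Ne, Ideal.zero_eq_bot, Ideal.span_singleton_eq_bot])
      ((Ideal.isCoprime_span_singleton_iff _ _).mpr hr')
    refine ⟨clq sr, ?_⟩
    intro s hs
    have hs' : clq s = clq sr := by
      rw [← clq_eq_prod s]
      exact hs
    rw [clq_eq] at hs'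
    obtain ⟨a, b, ha, hb, h3, h4, h5⟩ := hs'
    rw [hsr, Ideal.span_singleton_mul_span_singleton] at h5
    have h6 : b * r' ∈ Ideal.span {a} * idl K ν s := by
      rw [h5]; exact Ideal.mem_span_singleton_self _
    have hle : Ideal.span {a} * idl K ν s ≤ Ideal.span {a} := Ideal.mul_le_left
    obtain ⟨y, hy⟩ := Ideal.mem_span_singleton.mp (hle h6)
    refine ⟨y, ?_, ?_⟩
    · have h7 : y - r = (r' - r) + (b - 1) * r' - (a - 1) * y := by linear_combination -hy
      rw [h7]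
      exact dvd_sub (dvd_add hr'ν (Dvd.dvd.mul_right h4 _)) (Dvd.dvd.mul_right h3 _)
    · have ha' : Ideal.span {a} ≠ 0 := by
        rwa [Ne, Ideal.zero_eq_bot, Ideal.span_singleton_eq_bot]
      apply mul_left_cancel₀ ha'
      rw [Ideal.span_singleton_mul_span_singleton, ← hy]
      exact h5.symm

end Pool.Agent.N530.LS
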