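import Pool.Agent.N530.LS.Stm2

/-!
# C2, algebraic part: the ray class group of integral ideals prime to `ν`
-/

set_option autoImplicit false
set_option linter.unusedSectionVars false

namespace Pool.Agent.N530.LS

open NumberField

section

variable (K : Type) [Field K] [NumberField K] (ν : 𝓞 K)

/-- the ideal of a multiset of primes -/
noncomputable def idl (s : Multiset (Pr K ν)) : Ideal (𝓞 K) := (s.map fun p => p.1).prod

variable {K ν}

theorem idl_zero : idl K ν 0 = 1 := by simp [idl]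

theorem idl_add (s t : Multiset (Pr K ν)) : idl K ν (s + t) = idl K ν s * idl K ν t := by
  simp [idl]

theorem idl_cons (p : Pr K ν) (s : Multiset (Pr K ν)) : idl K ν (p ::ₘ s) = p.1 * idl K ν s := by
  simp [idl]

theorem Pr.prime (p : Pr K ν) : Prime p.1 := Ideal.prime_of_isPrime p.2.2.1 p.2.1

theorem idl_ne_zero (s : Multiset (Pr K ν)) : idl K ν s ≠ 0 := by
  induction s using Multiset.induction_on with
  | empty => rw [idl_zero]; exact one_ne_zero
  | cons p s ih =>
    rw [idl_cons]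
    exact mul_ne_zero p.prime.ne_zero ih

theorem Pr.coprime (p : Pr K ν) : IsCoprime p.1 (Ideal.span {ν}) := by
  have hmax : p.1.IsMaximal := Ring.DimensionLEOne.maximalOfPrime p.2.2.1 p.2.1
  rw [Ideal.isCoprime_iff_sup_eq]
  apply hmax.1.2
  refine lt_of_le_of_ne le_sup_left ?_
  intro h
  apply p.2.2.2
  have : ν ∈ p.1 ⊔ Ideal.span {ν} := Ideal.mem_sup_right (Ideal.mem_span_singleton_self ν)
  rwa [← h] at this

theorem idl_coprime (s : Multiset (Pr K ν)) : IsCoprime (idl K ν s) (Ideal.span {ν}) := by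
  induction s using Multiset.induction_on with
  | empty => rw [idl_zero]; exact isCoprime_one_left
  | cons p s ih =>
    rw [idl_cons]
    exact p.coprime.mul_left ih

theorem idl_injective : Function.Injective (idl K ν) := by
  intro s t h
  have key : ∀ u : Multiset (Pr K ν),
      UniqueFactorizationMonoid.normalizedFactors (idl K ν u) = u.map fun p => p.1 := by
    intro u
    unfold idl
    apply UniqueFactorizationMonoid.normalizedFactors_prod_of_prime
    intro p hp
    rw [Multiset.mem_map] at hp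
    obtain ⟨q, -, rfl⟩ := hp
    exact q.prime
  have h1 := key s
  rw [h, key t] at h1
  exact (Multiset.map_injective Subtype.val_injective h1).symm

theorem idl_surj (I : Ideal (𝓞 K)) (hI : I ≠ 0) (hc : IsCoprime I (Ideal.span {ν})) :
    ∃ s, idl K ν s = I := by
  classical
  have h1 := Ideal.prod_normalizedFactors_eq_self hI
  have h2 : ∀ p ∈ UniqueFactorizationMonoid.normalizedFactors I,
      p.IsPrime ∧ p ≠ ⊥ ∧ ν ∉ p := by
    intro p hp
    have hpp := UniqueFactorizationMonoid.prime_of_normalized_factor p hp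
    have hdvd := UniqueFactorizationMonoid.dvd_of_mem_normalizedFactors hp
    refine ⟨Ideal.isPrime_of_prime hpp, hpp.ne_zero, ?_⟩
    intro hν
    have h3 : IsCoprime p (Ideal.span {ν}) := hc.of_isCoprime_of_dvd_left hdvd
    rw [Ideal.isCoprime_iff_sup_eq] at h3
    have h4 : Ideal.span {ν} ≤ p := by
      rw [Ideal.span_le, Set.singleton_subset_iff]; exact hν
    rw [sup_eq_left.mpr h4] at h3
    exact (Ideal.isPrime_of_prime hpp).ne_top h3
  refine ⟨(UniqueFactorizationMonoid.normalizedFactors I).attach.map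
    (fun p => ⟨p.1, h2 p.1 p.2⟩), ?_⟩
  unfold idl
  rw [Multiset.map_map]
  simp only [Function.comp_def]
  rw [Multiset.attach_map_val]
  exact h1

/-! ## the equivalence relation -/

/-- ray equivalence -/
def Rel (s t : Multiset (Pr K ν)) : Prop := ∃ a b : 𝓞 K, a ≠ 0 ∧ b ≠ 0 ∧ ν ∣ a - 1 ∧ ν ∣ b - 1 ∧
  Ideal.span {a} * idl K ν s = Ideal.span {b} * idl K ν t

theorem dvd_mul_sub_one {a b : 𝓞 K} (ha : ν ∣ a - 1) (hb : ν ∣ b - 1) : ν ∣ a * b - 1 := by
  have : a * b - 1 = (a - 1) * b + (b - 1) := by ring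
  rw [this]
  exact dvd_add (Dvd.dvd.mul_right ha _) hb

variable (K ν)

/-- the congruence relation -/
def conR : AddCon (Multiset (Pr K ν)) where
  r := Rel
  iseqv := by
    refine ⟨fun s => ⟨1, 1, one_ne_zero, one_ne_zero, by simp, by simp, rfl⟩, ?_, ?_⟩
    · rintro s t ⟨a, b, ha, hb, h1, h2, h⟩
      exact ⟨b, a, hb, ha, h2, h1, h.symm⟩
    · rintro s t u ⟨a, b, ha, hb, h1, h2, h⟩ ⟨a', b', ha', hb', h1', h2', h'⟩
      refine ⟨a * a', b * b', mul_ne_zero ha ha', mul_ne_zero hb hb', dvd_mul_sub_one h1 h1',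
        dvd_mul_sub_one h2 h2', ?_⟩
      rw [← Ideal.span_singleton_mul_span_singleton, ← Ideal.span_singleton_mul_span_singleton]
      calc Ideal.span {a} * Ideal.span {a'} * idl K ν s
          = Ideal.span {a'} * (Ideal.span {a} * idl K ν s) := by ring
        _ = Ideal.span {b} * (Ideal.span {a'} * idl K ν t) := by rw [h]; ring
        _ = _ := by rw [h']; ring
  add' := by
    rintro s t u v ⟨a, b, ha, hb, h1, h2, h⟩ ⟨a', b', ha', hb', h1', h2', h'⟩
    refine ⟨a * a', b * b', mul_ne_zero ha ha', mul_ne_zero hb hb', dvd_mul_sub_one h1 h1',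
        dvd_mul_sub_one h2 h2', ?_⟩
    rw [← Ideal.span_singleton_mul_span_singleton, ← Ideal.span_singleton_mul_span_singleton,
      idl_add, idl_add]
    calc Ideal.span {a} * Ideal.span {a'} * (idl K ν s * idl K ν u)
        = (Ideal.span {a} * idl K ν s) * (Ideal.span {a'} * idl K ν u) := by ring
      _ = _ := by rw [h, h']; ring

/-- the monoid of classes -/
abbrev Gq : Type := Multiplicative (conR K ν).Quotient

variable {K ν}

/-- the class of a multiset -/
def clq (s : Multiset (Pr K ν)) : Gq K ν := Multiplicative.ofAdd ((s : (conR K ν).Quotient))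

theorem clq_eq {s t : Multiset (Pr K ν)} : clq s = clq t ↔ Rel s t := by
  unfold clq
  rw [Multiplicative.ofAdd.injective.eq_iff]
  exact (conR K ν).eq

theorem clq_add (s t : Multiset (Pr K ν)) : clq (s + t) = clq s * clq t := rfl

theorem clq_zero : clq (0 : Multiset (Pr K ν)) = 1 := rfl

theorem clq_surj (x : Gq K ν) : ∃ s, clq s = x := by
  obtain ⟨s, hs⟩ := AddCon.mk'_surjective (c := conR K ν) (Multiplicative.toAdd x)
  exact ⟨s, by rw [← ofAdd_toAdd x, ← hs]; rfl⟩

theorem clq_eq_prod (s : Multiset (Pr K ν)) : (s.map fun p => clq {p}).prod = clq s := by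
  induction s using Multiset.induction_on with
  | empty => simp [clq_zero]
  | cons p s ih =>
    rw [Multiset.map_cons, Multiset.prod_cons, ih, ← clq_add, Multiset.singleton_add]

theorem clq_nsmul (n : ℕ) (s : Multiset (Pr K ν)) : clq (n • s) = clq s ^ n := by
  induction n with
  | zero => simp [clq_zero]
  | succ n ih => rw [succ_nsmul, clq_add, ih, pow_succ]

theorem idl_nsmul (n : ℕ) (s : Multiset (Pr K ν)) : idl K ν (n • s) = idl K ν s ^ n := by
  induction n with
  | zero => simp [idl_zero]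
  | succ n ih => rw [succ_nsmul, idl_add, ih, pow_succ]

theorem clq_eq_one_aux {a b ν : 𝓞 K} {I : Ideal (𝓞 K)} (ha : a ≠ 0) (hb : b ≠ 0)
    (h1 : ν ∣ a - 1) (h2 : ν ∣ b - 1) (h : Ideal.span {a} * I = Ideal.span {b}) :
    ∃ x : 𝓞 K, x ≠ 0 ∧ ν ∣ x - 1 ∧ I = Ideal.span {x} := by
  have hb' : b ∈ Ideal.span {a} * I := by
    rw [h]; exact Ideal.mem_span_singleton_self b
  have hle : Ideal.span {a} * I ≤ Ideal.span {a} := Ideal.mul_le_left
  have hb'' : a ∣ b := Ideal.mem_span_singleton.mp (hle hb')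
  obtain ⟨x, hx⟩ := hb''
  rw [hx] at hb h2 h
  refine ⟨x, right_ne_zero_of_mul hb, ?_, ?_⟩
  · have : x - 1 = (a * x - 1) - (a - 1) * x := by ring
    rw [this]
    exact dvd_sub h2 (Dvd.dvd.mul_right h1 _)
  · rw [← Ideal.span_singleton_mul_span_singleton] at h
    have ha' : Ideal.span {a} ≠ 0 := by
      rwa [Ne, Ideal.zero_eq_bot, Ideal.span_singleton_eq_bot]
    exact mul_left_cancel₀ ha' h

theorem clq_eq_one {s : Multiset (Pr K ν)} :
    clq s = 1 ↔ ∃ x : 𝓞 K, x ≠ 0 ∧ ν ∣ x - 1 ∧ idl K ν s = Ideal.span {x} := by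
  rw [← clq_zero, clq_eq]
  constructor
  · rintro ⟨a, b, ha, hb, h1, h2, h⟩
    rw [idl_zero, mul_one] at h
    exact clq_eq_one_aux ha hb h1 h2 h
  · rintro ⟨x, hx, h1, h⟩
    refine ⟨1, x, one_ne_zero, hx, ?_, h1, ?_⟩
    · rw [sub_self]; exact dvd_zero _
    · rw [h, idl_zero, mul_one, Ideal.span_singleton_one, Ideal.top_mul]

/-! ## units modulo ν -/

theorem isCoprime_of_span {a : 𝓞 K} (h : IsCoprime (Ideal.span {a}) (Ideal.span {ν})) :
    IsCoprime a ν := Ideal.isCoprime_span_singleton_iff a ν |>.mp h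

theorem isUnit_mk {a : 𝓞 K} (h : IsCoprime a ν) :
    IsUnit (Ideal.Quotient.mk (Ideal.span {ν}) a) := by
  obtain ⟨x, y, hxy⟩ := h
  rw [isUnit_iff_exists_inv]
  refine ⟨Ideal.Quotient.mk _ x, ?_⟩
  rw [← map_mul, ← map_one (Ideal.Quotient.mk (Ideal.span {ν})), Ideal.Quotient.eq,
    Ideal.mem_span_singleton]
  exact ⟨-y, by linear_combination hxy⟩

theorem exists_pow_one (hν : ν ≠ 0) : ∃ m : ℕ, 0 < m ∧ ∀ a : 𝓞 K, IsCoprime a ν →
    ν ∣ a ^ m - 1 := by
  have : Finite (𝓞 K ⧸ Ideal.span {ν}) :=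
    Ideal.finiteQuotientOfFreeOfNeBot _ (by rwa [Ne, Ideal.span_singleton_eq_bot])
  refine ⟨Nat.card (𝓞 K ⧸ Ideal.span {ν})ˣ, Nat.card_pos, ?_⟩
  intro a ha
  obtain ⟨u, hu⟩ := isUnit_mk ha
  have h1 : u ^ Nat.card (𝓞 K ⧸ Ideal.span {ν})ˣ = 1 := pow_card_eq_one'
  have h2 := congrArg Units.val h1
  rw [Units.val_pow_eq_pow_val, hu, Units.val_one, ← map_pow,
    ← map_one (Ideal.Quotient.mk (Ideal.span {ν})), Ideal.Quotient.eq,
    Ideal.mem_span_singleton] at h2
  exact h2

theorem exists_exponent (hν : ν ≠ 0) : ∃ n : ℕ, 0 < n ∧ ∀ x : Gq K ν, x ^ n = 1 := by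
  obtain ⟨m, hm, h⟩ := exists_pow_one hν
  refine ⟨Fintype.card (ClassGroup (𝓞 K)) * m, Nat.mul_pos Fintype.card_pos hm, ?_⟩
  intro x
  obtain ⟨s, rfl⟩ := clq_surj x
  rw [← clq_nsmul, clq_eq_one]
  set h₀ := Fintype.card (ClassGroup (𝓞 K))
  have h1 : (ClassGroup.mk0 ⟨idl K ν s, mem_nonZeroDivisors_of_ne_zero (idl_ne_zero s)⟩) ^ h₀ = 1 :=
    pow_card_eq_one
  rw [← map_pow, SubmonoidClass.mk_pow, ClassGroup.mk0_eq_one_iff] at h1
  obtain ⟨α, hα⟩ := h1
  have hα' : idl K ν s ^ h₀ = Ideal.span {α} := hα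
  have hα0 : α ≠ 0 := by
    rintro rfl
    have := pow_ne_zero h₀ (idl_ne_zero s)
    apply this
    rw [hα']
    simp
  refine ⟨α ^ m, pow_ne_zero m hα0, h α ?_, ?_⟩
  · apply isCoprime_of_span
    rw [← hα']
    exact (idl_coprime s).pow_left
  · rw [idl_nsmul, pow_mul, hα', Ideal.span_singleton_pow]

/-- the group of classes -/
@[instance_reducible]
noncomputable def instGq (hν : ν ≠ 0) : CommGroup (Gq K ν) :=
  { (inferInstance : CommMonoid (Gq K ν)) with
    inv := fun x => x ^ ((exists_exponent hν).choose - 1)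
    inv_mul_cancel := fun x => by
      change x ^ ((exists_exponent hν).choose - 1) * x = 1
      have h := (exists_exponent (K := K) hν).choose_spec
      rw [← pow_succ, Nat.sub_add_cancel h.1]
      exact h.2 x }

theorem finite_Gq (hν : ν ≠ 0) : Finite (Gq K ν) := by
  classical
  have hfq : Finite (𝓞 K ⧸ Ideal.span {ν}) :=
    Ideal.finiteQuotientOfFreeOfNeBot _ (by rwa [Ne, Ideal.span_singleton_eq_bot])
  set h₀ := Fintype.card (ClassGroup (𝓞 K)) with hh₀
  have hh₀pos : 0 < h₀ := Fintype.card_pos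
  -- ordinary classes
  let oc : Multiset (Pr K ν) → ClassGroup (𝓞 K) := fun s =>
    ClassGroup.mk0 ⟨idl K ν s, mem_nonZeroDivisors_of_ne_zero (idl_ne_zero s)⟩
  -- representatives
  let rp : ClassGroup (𝓞 K) → Multiset (Pr K ν) := fun C =>
    if h : ∃ s, oc s = C then h.choose else 0
  have hrp : ∀ s, oc (rp (oc s)) = oc s := by
    intro s
    have h : ∃ t, oc t = oc s := ⟨s, rfl⟩
    simp only [rp, h, dif_pos]
    exact h.choose_spec
  have hocadd : ∀ s t, oc (s + t) = oc s * oc t := by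
    intro s t
    simp only [oc]
    rw [← map_mul]
    congr 1
    apply Subtype.ext
    exact idl_add s t
  have hocn : ∀ (n : ℕ) s, oc (n • s) = oc s ^ n := by
    intro n s
    simp only [oc]
    rw [← map_pow]
    congr 1
    apply Subtype.ext
    exact idl_nsmul n s
  have hprin : ∀ s, ∃ α : 𝓞 K, idl K ν (s + (h₀ - 1) • rp (oc s)) = Ideal.span {α} := by
    intro s
    have h1 : oc (s + (h₀ - 1) • rp (oc s)) = 1 := by
      rw [hocadd, hocn, hrp, ← pow_succ', Nat.sub_add_cancel hh₀pos]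
      exact pow_card_eq_one
    have h2 := (ClassGroup.mk0_eq_one_iff _).mp h1
    obtain ⟨α, hα⟩ := h2
    exact ⟨α, hα⟩
  choose α hα using hprin
  have hαcop : ∀ s, IsCoprime (α s) ν := by
    intro s
    apply isCoprime_of_span
    rw [← hα]
    exact idl_coprime _
  have hα0 : ∀ s, α s ≠ 0 := by
    intro s h
    have := hα s
    rw [h] at this
    apply idl_ne_zero (s + (h₀ - 1) • rp (oc s))
    rw [this]
    simp
  have key : ∀ s t, oc s = oc t → Ideal.Quotient.mk (Ideal.span {ν}) (α s) =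
      Ideal.Quotient.mk (Ideal.span {ν}) (α t) → clq s = clq t := by
    intro s t h1 h2
    rw [clq_eq]
    rw [Ideal.Quotient.eq, Ideal.mem_span_singleton] at h2
    obtain ⟨x, y, hxy⟩ := hαcop s
    have hs := hα s
    have ht := hα t
    rw [← h1] at ht
    -- a = α t * x', b = α s * x'
    obtain ⟨γ, hγ0, hγ1⟩ : ∃ γ : 𝓞 K, γ ≠ 0 ∧ ν ∣ α s * γ - 1 := by
      by_cases hx : x = 0
      · refine ⟨ν, hν, ?_⟩
        rw [hx, zero_mul, zero_add] at hxy
        have : IsUnit ν := IsUnit.of_mul_eq_one y (by rw [mul_comm]; exact hxy)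
        exact this.dvd
      · refine ⟨x, hx, ?_⟩
        exact ⟨-y, by linear_combination hxy⟩
    refine ⟨α t * γ, α s * γ, mul_ne_zero (hα0 t) hγ0, mul_ne_zero (hα0 s) hγ0, ?_, hγ1, ?_⟩
    · have : α t * γ - 1 = (α s * γ - 1) - (α s - α t) * γ := by ring
      rw [this]
      exact dvd_sub hγ1 (Dvd.dvd.mul_right h2 _)
    · apply mul_right_cancel₀ (idl_ne_zero ((h₀ - 1) • rp (oc s)))
      rw [mul_assoc, mul_assoc, ← idl_add, ← idl_add, hs, ht,
        Ideal.span_singleton_mul_span_singleton, Ideal.span_singleton_mul_span_singleton]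
      congr 2
      ring
  choose sec hsec using clq_surj (K := K) (ν := ν)
  refine Finite.of_injective (β := ClassGroup (𝓞 K) × (𝓞 K ⧸ Ideal.span {ν}))
    (fun x => (oc (sec x), Ideal.Quotient.mk (Ideal.span {ν}) (α (sec x)))) ?_
  intro x y hxy
  rw [Prod.ext_iff] at hxy
  have := key _ _ hxy.1 hxy.2
  rwa [hsec, hsec] at this

end

end Pool.Agent.N530.LS
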