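import Pool.Agent.N530.LS.C2a
import Pool.Agent.N530.LS.A4b

/-!
# C2, geometric part: imaginary quadratic fields, norms and lattices
-/

set_option autoImplicit false

namespace Pool.Agent.N530.LS

open NumberField Filter Topology

section

variable {K : Type} [Field K] [NumberField K]

theorem norm_im_quad (φ : K →+* ℂ) (h2 : Module.finrank ℚ K = 2) (hφ : ∃ x, (φ x).im ≠ 0)
    (x : K) : ((Algebra.norm ℚ x : ℚ) : ℂ) = φ x * (starRingEnd ℂ) (φ x) := by
  classical
  set σ₁ : K →ₐ[ℚ] ℂ := φ.toRatAlgHom with hσ₁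
  set σ₂ : K →ₐ[ℚ] ℂ := ((starRingEnd ℂ).comp φ).toRatAlgHom with hσ₂
  have hne : σ₁ ≠ σ₂ := by
    intro h
    obtain ⟨y, hy⟩ := hφ
    have h1 := congrArg (fun f : K →ₐ[ℚ] ℂ => f y) h
    change φ y = (starRingEnd ℂ) (φ y) at h1
    apply hy
    have h3 := congrArg Complex.im h1
    rw [Complex.conj_im] at h3
    linarith
  have huniv : (Finset.univ : Finset (K →ₐ[ℚ] ℂ)) = {σ₁, σ₂} := by
    symm
    apply Finset.eq_univ_of_card
    rw [Finset.card_pair hne, AlgHom.card, h2]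
  have h1 := Algebra.norm_eq_prod_embeddings (K := ℚ) (L := K) (E := ℂ) x
  rw [huniv, Finset.prod_pair hne] at h1
  exact h1

theorem absNorm_eq (φ : K →+* ℂ) (h2 : Module.finrank ℚ K = 2) (hφ : ∃ x, (φ x).im ≠ 0)
    (x : 𝓞 K) : (Ideal.absNorm (Ideal.span {x}) : ℝ) = ‖φ x‖ ^ 2 := by
  rw [Ideal.absNorm_span_singleton]
  have h1 := norm_im_quad φ h2 hφ (x : K)
  rw [← Algebra.coe_norm_int, Complex.mul_conj, Complex.normSq_eq_norm_sq] at h1
  have h3 : ((Algebra.norm ℤ x : ℤ) : ℝ) = ‖φ x‖ ^ 2 := by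
    have h4 : (((Algebra.norm ℤ x : ℤ) : ℝ) : ℂ) = ((‖φ x‖ ^ 2 : ℝ) : ℂ) := by
      rw [← h1]
      push_cast
      rfl
    exact_mod_cast h4
  have h5 : (0 : ℤ) ≤ Algebra.norm ℤ x := by
    have : (0 : ℝ) ≤ ((Algebra.norm ℤ x : ℤ) : ℝ) := by rw [h3]; positivity
    exact_mod_cast this
  rw [← h3]
  have h6 : ((Algebra.norm ℤ x).natAbs : ℤ) = Algebra.norm ℤ x := Int.natAbs_of_nonneg h5
  have h7 : (((Algebra.norm ℤ x).natAbs : ℤ) : ℝ) = ((Algebra.norm ℤ x : ℤ) : ℝ) := by rw [h6]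
  rw [← h7]
  simp

/-- a basis of the ring of integers and the corresponding lattice in `ℂ` -/
theorem exists_lattice (φ : K →+* ℂ) (h2 : Module.finrank ℚ K = 2) (hφ : ∃ x, (φ x).im ≠ 0) :
    ∃ (b₀ b₁ : 𝓞 K) (e : ℤ × ℤ ≃+ 𝓞 K), (∀ v : ℤ × ℤ, e v = v.1 * b₀ + v.2 * b₁) ∧
      (∀ v : ℤ × ℤ, φ (e v) = lv (φ b₀) (φ b₁) v) ∧ Ind (φ b₀) (φ b₁) := by
  have hr : Module.finrank ℤ (𝓞 K) = 2 := by rw [RingOfIntegers.rank, h2]
  set b := Module.finBasisOfFinrankEq ℤ (𝓞 K) hr with hb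
  let e : ℤ × ℤ ≃+ 𝓞 K :=
    { toFun := fun v => v.1 * b 0 + v.2 * b 1
      invFun := fun x => (b.repr x 0, b.repr x 1)
      left_inv := by
        intro v
        have h1 : (v.1 : 𝓞 K) * b 0 + v.2 * b 1 = v.1 • b 0 + v.2 • b 1 := by
          rw [zsmul_eq_mul, zsmul_eq_mul]
        simp only
        rw [h1]
        apply Prod.ext
        · simp only [map_add, map_smul, Module.Basis.repr_self, Finsupp.add_apply,
            Finsupp.smul_apply, Finsupp.single_apply]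
          simp
        · simp only [map_add, map_smul, Module.Basis.repr_self, Finsupp.add_apply,
            Finsupp.smul_apply, Finsupp.single_apply]
          simp
      right_inv := by
        intro x
        simp only
        rw [← zsmul_eq_mul, ← zsmul_eq_mul]
        have := b.sum_repr x
        rw [Fin.sum_univ_two] at this
        exact this
      map_add' := by
        intro v w
        simp only [Prod.fst_add, Prod.snd_add]
        push_cast
        ring }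
  have hφe : ∀ v : ℤ × ℤ, φ (e v) = lv (φ (b 0)) (φ (b 1)) v := by
    intro v
    change (φ.comp (algebraMap (𝓞 K) K)) ((v.1 : 𝓞 K) * b 0 + v.2 * b 1 : 𝓞 K) = _
    rw [map_add, map_mul, map_mul, map_intCast, map_intCast]
    rfl
  refine ⟨b 0, b 1, e, fun v => rfl, hφe, ?_⟩
  -- independence
  intro hdep
  set ω₀ := φ (b 0 : 𝓞 K) with hω₀
  set ω₁ := φ (b 1 : 𝓞 K) with hω₁
  have hω₀0 : ω₀ ≠ 0 := by
    rw [hω₀]
    intro h
    have h1 : ((b 0 : 𝓞 K) : K) = 0 := by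
      rw [← map_zero φ] at h
      exact φ.injective h
    exact b.ne_zero 0 (RingOfIntegers.coe_eq_zero_iff.mp h1)
  -- all φ x lie on the line of ω₀
  have hline : ∀ x : 𝓞 K, ((starRingEnd ℂ) ω₀ * φ x).im = 0 := by
    intro x
    obtain ⟨v, hv⟩ := e.surjective x
    rw [← hv, hφe]
    unfold lv
    have h1 : ((starRingEnd ℂ) ω₀ * ω₀).im = 0 := by
      rw [mul_comm, Complex.mul_conj]; simp
    have h3 : ((starRingEnd ℂ) ω₀ * ω₁).im = 0 := by
      have : (starRingEnd ℂ) ω₀ * ω₁ = (starRingEnd ℂ) (ω₀ * (starRingEnd ℂ) ω₁) := by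
        rw [map_mul, Complex.conj_conj]
      rw [this, Complex.conj_im, hdep, neg_zero]
    have h4 : (starRingEnd ℂ) ω₀ * (v.1 * ω₀ + v.2 * ω₁) =
        ((v.1 : ℝ) : ℂ) * ((starRingEnd ℂ) ω₀ * ω₀) + ((v.2 : ℝ) : ℂ) * ((starRingEnd ℂ) ω₀ * ω₁) := by
      push_cast; ring
    rw [h4, Complex.add_im, Complex.im_ofReal_mul, Complex.im_ofReal_mul, h1, h3]
    ring
  have hω₀real : ω₀.im = 0 := by
    have := hline 1
    simpa using this
  have hreal : ∀ x : 𝓞 K, (φ x).im = 0 := by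
    intro x
    have h1 := hline x
    rw [Complex.mul_im, Complex.conj_re, Complex.conj_im, hω₀real] at h1
    simp only [neg_zero, zero_mul, add_zero] at h1
    rcases mul_eq_zero.mp h1 with h | h
    · exfalso
      apply hω₀0
      exact Complex.ext h hω₀real
    · exact h
  obtain ⟨y, hy⟩ := hφ
  apply hy
  obtain ⟨n, d, hd, rfl⟩ := IsFractionRing.div_surjective (A := 𝓞 K) y
  rw [map_div₀]
  have h1 := hreal n
  have h3 := hreal d
  have e1 : φ (algebraMap (𝓞 K) K n) = ((φ n).re : ℂ) := Complex.ext rfl (by simpa using h1)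
  have e2 : φ (algebraMap (𝓞 K) K d) = ((φ d).re : ℂ) := Complex.ext rfl (by simpa using h3)
  rw [e1, e2, ← Complex.ofReal_div, Complex.ofReal_im]

end

end Pool.Agent.N530.LS
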