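import Pool.Agent.N530.LS.C2b

/-!
# C2: counting elements of an ideal congruent to 1
-/

set_option autoImplicit false

namespace Pool.Agent.N530.LS

open NumberField Filter Topology

section

variable {K : Type} [Field K] [NumberField K]

/-- the number of the classes modulo `M` -/
theorem card_classes (b₀ b₁ : 𝓞 K) (I : Ideal (𝓞 K)) (hI : I ≠ 0)
    (hsurj : ∀ x : 𝓞 K, ∃ v : ℤ × ℤ, x = v.1 * b₀ + v.2 * b₁) (x₀ : 𝓞 K) :
    ∃ C : Finset (ZMod (Ideal.absNorm I) × ZMod (Ideal.absNorm I)),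
      C.card = Ideal.absNorm I ∧ ∀ v : ℤ × ℤ,
        ((v.1 : ZMod (Ideal.absNorm I)), (v.2 : ZMod (Ideal.absNorm I))) ∈ C ↔
          (v.1 * b₀ + v.2 * b₁ : 𝓞 K) - x₀ ∈ I := by
  classical
  set M := Ideal.absNorm I with hM
  have hfin : Finite (𝓞 K ⧸ I) := Ideal.finiteQuotientOfFreeOfNeBot I hI
  have hM0 : M ≠ 0 := (Ideal.absNorm_ne_zero_iff I).mpr hfin
  have : NeZero M := ⟨hM0⟩
  have := Fintype.ofFinite (𝓞 K ⧸ I)
  have hMA : ((M : ℕ) : 𝓞 K ⧸ I) = 0 := by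
    rw [← map_natCast (Ideal.Quotient.mk I), Ideal.Quotient.eq_zero_iff_mem]
    exact Ideal.absNorm_mem I
  let ι : ZMod M →+* (𝓞 K ⧸ I) := ZMod.castHom (ringChar.dvd hMA) (𝓞 K ⧸ I)
  let h : ZMod M × ZMod M →+ (𝓞 K ⧸ I) :=
    { toFun := fun c => ι c.1 * Ideal.Quotient.mk I b₀ + ι c.2 * Ideal.Quotient.mk I b₁
      map_zero' := by simp
      map_add' := by
        intro c d
        simp only [Prod.fst_add, Prod.snd_add, map_add]
        ring }
  have hh : ∀ v : ℤ × ℤ, h ((v.1 : ZMod M), (v.2 : ZMod M)) =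
      Ideal.Quotient.mk I (v.1 * b₀ + v.2 * b₁) := by
    intro v
    change ι (v.1 : ZMod M) * Ideal.Quotient.mk I b₀ + ι (v.2 : ZMod M) * Ideal.Quotient.mk I b₁ = _
    rw [map_intCast, map_intCast, map_add, map_mul, map_mul, map_intCast, map_intCast]
  have hsurj' : Function.Surjective h := by
    intro y
    obtain ⟨x, rfl⟩ := Ideal.Quotient.mk_surjective y
    obtain ⟨v, rfl⟩ := hsurj x
    exact ⟨_, hh v⟩
  refine ⟨Finset.univ.filter (fun c => h c = Ideal.Quotient.mk I x₀), ?_, ?_⟩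
  · have h1 : ∀ y : 𝓞 K ⧸ I, (Finset.univ.filter (fun c => h c = y)).card =
        (Finset.univ.filter (fun c => h c = Ideal.Quotient.mk I x₀)).card := fun y =>
      AddMonoidHom.card_fiber_eq_of_mem_range h (hsurj' y) (hsurj' _)
    have h2 := Finset.card_eq_sum_card_fiberwise (f := fun c => h c) (s := Finset.univ)
      (t := Finset.univ) (fun _ _ => Finset.mem_coe.mpr (Finset.mem_univ _))
    simp only [h1] at h2
    rw [Finset.sum_const, Finset.card_univ, Finset.card_univ, Fintype.card_prod, ZMod.card,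
      smul_eq_mul] at h2
    have h3 : Fintype.card (𝓞 K ⧸ I) = M := by
      rw [← Nat.card_eq_fintype_card, hM, Ideal.absNorm_apply, Submodule.cardQuot_apply]
    rw [h3] at h2
    exact (Nat.eq_of_mul_eq_mul_left (Nat.pos_of_ne_zero hM0) h2).symm
  · intro v
    rw [Finset.mem_filter, hh, Ideal.Quotient.eq]
    simp

theorem coset_count (h1 : StmA1) (φ : K →+* ℂ) (h2 : Module.finrank ℚ K = 2)
    (hφ : ∃ x, (φ x).im ≠ 0) : ∃ κ : ℝ, 0 < κ ∧ (∀ R : ℝ, {x : 𝓞 K | ‖φ x‖ ≤ R}.Finite) ∧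
      ∀ (ν : 𝓞 K) (J : Ideal (𝓞 K)), ν ≠ 0 → J ≠ 0 → IsCoprime J (Ideal.span {ν}) →
      Tendsto (fun R : ℝ => (Set.ncard {x : 𝓞 K | x ∈ J ∧ ν ∣ x - 1 ∧ ‖φ x‖ ≤ R} : ℝ) / R ^ 2)
        atTop (𝓝 (κ / (Ideal.absNorm J * Ideal.absNorm (Ideal.span {ν}) : ℕ))) := by
  obtain ⟨b₀, b₁, e, he, hφe, hind⟩ := exists_lattice φ h2 hφ
  obtain ⟨κ, hκ, hA1⟩ := h1 _ _ hind
  have hA1 : CondA1 (φ b₀) (φ b₁) κ := hA1
  refine ⟨κ, hκ, ?_, ?_⟩
  · intro R
    have hf := hA1.fin 0 R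
    refine Set.Finite.of_preimage (f := e) ?_ e.surjective
    refine hf.subset ?_
    intro v hv
    simp only [Set.mem_preimage, Set.mem_ofPred_eq] at hv ⊢
    rw [zero_add, ← hφe]
    exact hv
  · intro ν J hν hJ hcop
    have hν' : Ideal.span {ν} ≠ 0 := by
      rwa [Ne, Ideal.zero_eq_bot, Ideal.span_singleton_eq_bot]
    have hI : J * Ideal.span {ν} ≠ 0 := mul_ne_zero hJ hν'
    obtain ⟨x₀, hx₀J, hx₀ν⟩ : ∃ x₀ ∈ J, ν ∣ x₀ - 1 := by
      rw [Ideal.isCoprime_iff_exists] at hcop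
      obtain ⟨i, hi, j, hj, hij⟩ := hcop
      refine ⟨i, hi, ?_⟩
      have : i - 1 = -j := by linear_combination hij
      rw [this]
      exact (dvd_neg).mpr (Ideal.mem_span_singleton.mp hj)
    have hsurj : ∀ x : 𝓞 K, ∃ v : ℤ × ℤ, x = v.1 * b₀ + v.2 * b₁ := by
      intro x
      obtain ⟨v, hv⟩ := e.surjective x
      exact ⟨v, by rw [← hv, he]⟩
    obtain ⟨C, hC, hCmem⟩ := card_classes b₀ b₁ (J * Ideal.span {ν}) hI hsurj x₀
    have hM0 : Ideal.absNorm (J * Ideal.span {ν}) ≠ 0 := by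
      rw [Ne, Ideal.absNorm_eq_zero_iff]; exact hI
    have hNZ : NeZero (Ideal.absNorm (J * Ideal.span {ν})) := ⟨hM0⟩
    have h3 := cnt_class hA1 (Ideal.absNorm (J * Ideal.span {ν})) C 0
    rw [hC] at h3
    have h4 : ((Ideal.absNorm (J * Ideal.span {ν}) : ℕ) : ℝ) *
        (κ / ((Ideal.absNorm (J * Ideal.span {ν}) : ℕ) : ℝ) ^ 2) =
        κ / (Ideal.absNorm J * Ideal.absNorm (Ideal.span {ν}) : ℕ) := by
      have : ((Ideal.absNorm (J * Ideal.span {ν}) : ℕ) : ℝ) ≠ 0 := by exact_mod_cast hM0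
      rw [← map_mul]
      field_simp
    rw [h4] at h3
    refine h3.congr ?_
    intro R
    congr 1
    unfold cnt
    congr 1
    refine Set.ncard_congr (fun v _ => e v) ?_ ?_ ?_
    · rintro v ⟨hv1, hv2⟩
      rw [zero_add, ← hφe] at hv2
      have hv3 : ((v.1 : 𝓞 K) * b₀ + v.2 * b₁) - x₀ ∈ J * Ideal.span {ν} := (hCmem v).mp hv1
      rw [← he] at hv3
      refine ⟨?_, ?_, hv2⟩
      · have h5 : e v - x₀ ∈ J := Ideal.mul_le_left hv3
        have := J.add_mem h5 hx₀J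
        rwa [sub_add_cancel] at this
      · have h5 : e v - x₀ ∈ Ideal.span {ν} := Ideal.mul_le_right hv3
        rw [Ideal.mem_span_singleton] at h5
        have : e v - 1 = (e v - x₀) + (x₀ - 1) := by ring
        rw [this]
        exact dvd_add h5 hx₀ν
    · intro v w _ _ h
      exact e.injective h
    · rintro x ⟨hx1, hx2, hx3⟩
      obtain ⟨v, rfl⟩ := e.surjective x
      refine ⟨v, ⟨?_, ?_⟩, rfl⟩
      · apply (hCmem v).mpr
        rw [← he, Ideal.mul_eq_inf_of_coprime (Ideal.isCoprime_iff_sup_eq.mp hcop)]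
        refine ⟨J.sub_mem hx1 hx₀J, ?_⟩
        rw [SetLike.mem_coe, Ideal.mem_span_singleton]
        have : e v - x₀ = (e v - 1) - (x₀ - 1) := by ring
        rw [this]
        exact dvd_sub hx2 hx₀ν
      · rw [zero_add, ← hφe]
        exact hx3

end

end Pool.Agent.N530.LS
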