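import Pool.Agent.N530.LS.B3

/-!
# The field `Kd d` as a number field, its ring of integers
-/

set_option autoImplicit false

namespace Pool.Agent.N530.LS

open NumberField

/-- the elements `u + v √-d` form a subfield -/
noncomputable def KdS (d : ℕ) : Subfield ℂ where
  carrier := {z | ∃ u v : ℚ, z = u + v * ((Real.sqrt (d : ℝ) : ℂ) * Complex.I)}
  one_mem' := ⟨1, 0, by simp⟩
  zero_mem' := ⟨0, 0, by simp⟩
  add_mem' := by
    rintro _ _ ⟨u, v, rfl⟩ ⟨u', v', rfl⟩
    exact ⟨u + u', v + v', by push_cast; ring⟩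
  neg_mem' := by
    rintro _ ⟨u, v, rfl⟩
    exact ⟨-u, -v, by push_cast; ring⟩
  mul_mem' := by
    rintro _ _ ⟨u, v, rfl⟩ ⟨u', v', rfl⟩
    refine ⟨u * u' - d * v * v', u * v' + v * u', ?_⟩
    have h := sqrtI_sq d
    push_cast
    linear_combination (v : ℂ) * v' * h
  inv_mem' := by
    rintro _ ⟨u, v, rfl⟩
    by_cases h0 : (u : ℂ) + v * ((Real.sqrt (d : ℝ) : ℂ) * Complex.I) = 0
    · exact ⟨0, 0, by rw [h0]; simp⟩
    · have h := sqrtI_sq d
      have h1 : ((u : ℂ) + v * ((Real.sqrt (d : ℝ) : ℂ) * Complex.I)) *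
          ((u : ℂ) - v * ((Real.sqrt (d : ℝ) : ℂ) * Complex.I)) = ((u ^ 2 + d * v ^ 2 : ℚ) : ℂ) := by
        push_cast
        linear_combination -(v : ℂ) ^ 2 * h
      by_cases h2 : (u ^ 2 + d * v ^ 2 : ℚ) = 0
      · exfalso
        -- then u = 0 and d v² = 0
        have hu : u = 0 := by
          have : 0 ≤ (d : ℚ) * v ^ 2 := by positivity
          have h3 : u ^ 2 = 0 := by nlinarith [sq_nonneg u]
          exact pow_eq_zero_iff two_ne_zero |>.mp h3
        have hdv : (d : ℚ) * v ^ 2 = 0 := by rw [hu] at h2; linarith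
        apply h0
        rcases mul_eq_zero.mp hdv with hd | hv
        · have hd' : (d : ℝ) = 0 := by exact_mod_cast hd
          rw [hu, hd']
          simp
        · have hv' : v = 0 := pow_eq_zero_iff two_ne_zero |>.mp hv
          rw [hu, hv']
          simp
      · refine ⟨u / (u ^ 2 + d * v ^ 2), -v / (u ^ 2 + d * v ^ 2), ?_⟩
        apply inv_eq_of_mul_eq_one_right
        have h2' : ((u ^ 2 + d * v ^ 2 : ℚ) : ℂ) ≠ 0 := by exact_mod_cast h2
        rw [Rat.cast_div, Rat.cast_div]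
        field_simp
        push_cast at h1 ⊢
        linear_combination h1

theorem Kd_eq (d : ℕ) : Kd d = KdS d := by
  apply le_antisymm
  · unfold Kd
    rw [Subfield.closure_le]
    rintro _ rfl
    exact ⟨0, 1, by simp⟩
  · rintro _ ⟨u, v, rfl⟩
    exact (Kd d).add_mem (SubfieldClass.ratCast_mem _ _)
      ((Kd d).mul_mem (SubfieldClass.ratCast_mem _ _) (sqrtI_mem d))

theorem mem_Kd {d : ℕ} {z : ℂ} : z ∈ Kd d ↔
    ∃ u v : ℚ, z = u + v * ((Real.sqrt (d : ℝ) : ℂ) * Complex.I) := by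
  rw [Kd_eq]
  exact Iff.rfl

/-- coordinates -/
noncomputable def KdE (d : ℕ) (hd : 0 < d) : (ℚ × ℚ) ≃ₗ[ℚ] Kd d :=
  LinearEquiv.ofBijective
    { toFun := fun w => ⟨w.1 + w.2 * ((Real.sqrt (d : ℝ) : ℂ) * Complex.I), mem_Kd.mpr ⟨_, _, rfl⟩⟩
      map_add' := by
        intro w w'
        apply Subtype.ext
        simp only [Prod.fst_add, Prod.snd_add, Subfield.coe_add]
        push_cast
        ring
      map_smul' := by
        intro q w
        apply Subtype.ext
        simp only [Prod.smul_fst, Prod.smul_snd, smul_eq_mul, RingHom.id_apply]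
        rw [Rat.smul_def, Subfield.coe_mul]
        have : (((q : Kd d)) : ℂ) = (q : ℂ) := by simp
        rw [this]
        push_cast
        ring }
    (by
      constructor
      · intro w w' h
        have h1 := congrArg Subtype.val h
        simp only [LinearMap.coe_mk, AddHom.coe_mk] at h1
        have hs : Real.sqrt (d : ℝ) ≠ 0 := by
          rw [Real.sqrt_ne_zero (Nat.cast_nonneg d)]
          exact_mod_cast hd.ne'
        have h2 := congrArg Complex.im h1
        have h3 := congrArg Complex.re h1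
        simp at h2 h3
        apply Prod.ext
        · exact_mod_cast h3
        · rcases h2 with h2 | h2
          · exact_mod_cast h2
          · omega
      · rintro ⟨z, hz⟩
        obtain ⟨u, v, rfl⟩ := mem_Kd.mp hz
        exact ⟨(u, v), rfl⟩)

theorem Kd_finrank (d : ℕ) (hd : 0 < d) : Module.finrank ℚ (Kd d) = 2 := by
  rw [← (KdE d hd).finrank_eq, Module.finrank_prod, Module.finrank_self]

theorem Kd_numberField (d : ℕ) (hd : 0 < d) : NumberField (Kd d) where
  to_charZero := inferInstance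
  to_finiteDimensional := Module.Finite.equiv (KdE d hd)

theorem Kd_im (d : ℕ) (hd : 0 < d) : ∃ x : Kd d, ((Kd d).subtype x).im ≠ 0 := by
  refine ⟨⟨_, sqrtI_mem d⟩, ?_⟩
  have hs : Real.sqrt (d : ℝ) ≠ 0 := by
    rw [Real.sqrt_ne_zero (Nat.cast_nonneg d)]
    exact_mod_cast hd.ne'
  simp
  omega

theorem OK_mem (d : ℕ) (x : 𝓞 (Kd d)) : (((x : Kd d)) : ℂ) ∈ Od d := by
  refine ⟨?_, (x : Kd d).2⟩
  have h1 : IsIntegral ℤ (x : Kd d) := RingOfIntegers.isIntegral_coe x
  have h2 : IsIntegral ℤ ((Kd d).subtype (x : Kd d)) := h1.map (Kd d).subtype.toIntAlgHom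
  exact h2

theorem OK_lift (d : ℕ) {z : ℂ} (hz : z ∈ Od d) : ∃ x : 𝓞 (Kd d), (((x : Kd d)) : ℂ) = z := by
  obtain ⟨h1, h2⟩ := hz
  have h1' : IsIntegral ℤ z := h1
  have h3 : IsIntegral ℤ ((Kd d).subtype.toIntAlgHom (⟨z, h2⟩ : Kd d)) := h1'
  have h4 : IsIntegral ℤ (⟨z, h2⟩ : Kd d) :=
    (isIntegral_algHom_iff (Kd d).subtype.toIntAlgHom Subtype.val_injective).mp h3
  exact ⟨⟨_, h4⟩, rfl⟩

end Pool.Agent.N530.LS
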