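import Pool.Agent.N530.LS.C2
import Pool.Agent.N530.LS.KdL

/-!
# C3: almost all integers congruent to `s` have a divisor congruent to `r`
-/

set_option autoImplicit false

namespace Pool.Agent.N530.LS

open NumberField Filter Topology

section

variable {K : Type} [Field K] [NumberField K]

theorem two_le_absNorm {ν : 𝓞 K} (p : Pr K ν) : 2 ≤ Ideal.absNorm p.1 := by
  have h0 : Ideal.absNorm p.1 ≠ 0 := by
    rw [Ne, Ideal.absNorm_eq_zero_iff]; exact p.2.2.1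
  have h1 : Ideal.absNorm p.1 ≠ 1 := by
    rw [Ne, Ideal.absNorm_eq_one_iff]; exact p.2.1.ne_top
  omega

/-- the number field version -/
theorem c3_field (h1 : StmA1) (hC1 : StmC1) (hC2 : StmC2) (φ : K →+* ℂ)
    (h2 : Module.finrank ℚ K = 2) (hφ : ∃ x, (φ x).im ≠ 0) (r s ν : 𝓞 K) (hν : ν ≠ 0)
    (hr : IsCoprime r ν) (hs : IsCoprime s ν) :
    (∀ R : ℝ, {x : 𝓞 K | ‖φ x‖ ≤ R}.Finite) ∧
    Tendsto (fun R : ℝ => (Set.ncard {x : 𝓞 K | ν ∣ x - s ∧ ‖φ x‖ ≤ R ∧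
      ¬ ∃ a b : 𝓞 K, x = a * b ∧ ν ∣ a - r} : ℝ) / R ^ 2) atTop (𝓝 0) := by
  classical
  obtain ⟨κ, hκ, hfinR, -⟩ := coset_count h1 φ h2 hφ
  refine ⟨hfinR, ?_⟩
  obtain ⟨G, iG, fG, c, ρ, hρ, hfin, hdens, hlast⟩ := hC2 K φ h2 hφ ν hν
  obtain ⟨g, hg⟩ := hlast r hr
  have hbad := hC1 (Pr K ν) G (fun p => Ideal.absNorm p.1) c ρ two_le_absNorm hρ hfin hdens g
  set Bad : ℕ → ℝ := fun X => (Set.ncard {t : Multiset (Pr K ν) |
    (∀ t' ≤ t, (t'.map c).prod ≠ g) ∧ (t.map fun p => Ideal.absNorm p.1).prod ≤ X} : ℝ) with hBad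
  have hUfin : {u : 𝓞 K | IsUnit u}.Finite := by
    refine (hfinR 1).subset ?_
    intro u hu
    have h3 := absNorm_eq φ h2 hφ u
    rw [Ideal.span_singleton_eq_top.mpr hu, Ideal.absNorm_top, Nat.cast_one] at h3
    rw [Set.mem_ofPred_eq]
    have h4 : ‖φ u‖ ^ 2 ≤ 1 ^ 2 := by rw [← h3]; norm_num
    exact (sq_le_sq₀ (norm_nonneg _) zero_le_one).mp h4
  set w := hUfin.toFinset.card with hw
  -- the ideal of x
  have hidl : ∀ x : 𝓞 K, x ≠ 0 → ν ∣ x - s → ∃ t, idl K ν t = Ideal.span {x} := by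
    intro x hx0 hxν
    apply idl_surj
    · rwa [Ne, Ideal.zero_eq_bot, Ideal.span_singleton_eq_bot]
    · rw [Ideal.isCoprime_span_singleton_iff]
      obtain ⟨k, hk⟩ := hxν
      obtain ⟨a, b, hab⟩ := hs
      exact ⟨a, b - a * k, by linear_combination hab + a * hk⟩
  let f : 𝓞 K → Multiset (Pr K ν) := fun x =>
    if h : ∃ t, idl K ν t = Ideal.span {x} then h.choose else 0
  have hf : ∀ x : 𝓞 K, x ≠ 0 → ν ∣ x - s → idl K ν (f x) = Ideal.span {x} := by
    intro x hx0 hxν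
    have h := hidl x hx0 hxν
    simp only [f, h, dif_pos]
    exact h.choose_spec
  have hmain : ∀ R : ℝ, (Set.ncard {x : 𝓞 K | ν ∣ x - s ∧ ‖φ x‖ ≤ R ∧
      ¬ ∃ a b : 𝓞 K, x = a * b ∧ ν ∣ a - r} : ℝ) ≤ w * Bad ⌊R ^ 2⌋₊ + 1 := by
    intro R
    have hfE : {x : 𝓞 K | (ν ∣ x - s ∧ ‖φ x‖ ≤ R ∧
      ¬ ∃ a b : 𝓞 K, x = a * b ∧ ν ∣ a - r) ∧ x ≠ 0}.Finite :=
      (hfinR R).subset fun x hx => hx.1.2.1
    have h3 : Set.ncard {x : 𝓞 K | ν ∣ x - s ∧ ‖φ x‖ ≤ R ∧
      ¬ ∃ a b : 𝓞 K, x = a * b ∧ ν ∣ a - r} ≤ hfE.toFinset.card + 1 := by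
      rw [← Set.ncard_eq_toFinset_card _ hfE]
      refine (Set.ncard_le_ncard (t := insert 0 _) ?_ (hfE.insert 0)).trans
        (Set.ncard_insert_le _ _)
      intro x hx
      by_cases hx0 : x = 0
      · exact Or.inl hx0
      · exact Or.inr ⟨hx, hx0⟩
    have h4 : hfE.toFinset.card ≤ w * (hfE.toFinset.image f).card := by
      apply Finset.card_le_mul_card_image
      intro t ht
      rw [Finset.mem_image] at ht
      obtain ⟨x₁, hx₁, hx₁t⟩ := ht
      rw [Set.Finite.mem_toFinset] at hx₁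
      have hsub : hfE.toFinset.filter (fun x => f x = t) ⊆
          hUfin.toFinset.image (fun u => x₁ * u) := by
        intro x hx
        rw [Finset.mem_filter, Set.Finite.mem_toFinset] at hx
        obtain ⟨⟨⟨hxν, hxR, hxab⟩, hx0⟩, hxt⟩ := hx
        have e1 := hf x hx0 hxν
        have e2 := hf x₁ hx₁.2 hx₁.1.1
        rw [hx₁t] at e2
        rw [hxt, e2] at e1
        rw [Ideal.span_singleton_eq_span_singleton] at e1
        obtain ⟨u, hu⟩ := e1
        rw [Finset.mem_image]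
        refine ⟨u, ?_, hu⟩
        rw [Set.Finite.mem_toFinset]
        exact u.isUnit
      exact (Finset.card_le_card hsub).trans Finset.card_image_le
    have h5 : ((hfE.toFinset.image f).card : ℝ) ≤ Bad ⌊R ^ 2⌋₊ := by
      rw [hBad]
      simp only
      rw [Nat.cast_le, ← Set.ncard_coe_finset]
      apply Set.ncard_le_ncard _ ((hfin ⌊R ^ 2⌋₊).subset fun t ht => ht.2)
      intro t ht
      rw [Finset.mem_coe, Finset.mem_image] at ht
      obtain ⟨x, hx, rfl⟩ := ht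
      rw [Set.Finite.mem_toFinset] at hx
      obtain ⟨⟨hxν, hxR, hxab⟩, hx0⟩ := hx
      have e1 := hf x hx0 hxν
      refine ⟨?_, ?_⟩
      · intro t' ht' hgt'
        obtain ⟨a, haν, haspan⟩ := hg t' hgt'
        apply hxab
        obtain ⟨t'', ht''⟩ := Multiset.le_iff_exists_add.mp ht'
        have e2 : Ideal.span {x} = Ideal.span {a} * idl K ν t'' := by
          rw [← e1, ht'', idl_add, haspan]
          rfl
        have e3 : x ∈ Ideal.span {a} * idl K ν t'' := by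
          rw [← e2]; exact Ideal.mem_span_singleton_self x
        have hle : Ideal.span {a} * idl K ν t'' ≤ Ideal.span {a} := Ideal.mul_le_left
        obtain ⟨b, hb⟩ := Ideal.mem_span_singleton.mp (hle e3)
        exact ⟨a, b, hb, haν⟩
      · rw [absNorm_idl, e1]
        apply Nat.le_floor
        rw [absNorm_eq φ h2 hφ x]
        have := norm_nonneg (φ (x : K))
        nlinarith
    have h6 : (hfE.toFinset.card : ℝ) ≤ w * (hfE.toFinset.image f).card := by exact_mod_cast h4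
    have h7 : (Set.ncard {x : 𝓞 K | ν ∣ x - s ∧ ‖φ x‖ ≤ R ∧
      ¬ ∃ a b : 𝓞 K, x = a * b ∧ ν ∣ a - r} : ℝ) ≤ hfE.toFinset.card + 1 := by exact_mod_cast h3
    have h8 : (w : ℝ) * (hfE.toFinset.image f).card ≤ w * Bad ⌊R ^ 2⌋₊ :=
      mul_le_mul_of_nonneg_left h5 (Nat.cast_nonneg _)
    linarith
  -- limits
  have hfl : Tendsto (fun R : ℝ => ⌊R ^ 2⌋₊) atTop atTop :=
    tendsto_nat_floor_atTop.comp (tendsto_pow_atTop two_ne_zero)
  have hb2 : Tendsto (fun R : ℝ => Bad ⌊R ^ 2⌋₊ / (⌊R ^ 2⌋₊ : ℝ)) atTop (𝓝 0) := hbad.comp hfl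
  have hb3 : Tendsto (fun R : ℝ => w * (Bad ⌊R ^ 2⌋₊ / (⌊R ^ 2⌋₊ : ℝ)) + 1 / R ^ 2) atTop
      (𝓝 ((w : ℝ) * 0 + 0)) := by
    refine (hb2.const_mul _).add ?_
    exact tendsto_const_nhds.div_atTop (tendsto_pow_atTop two_ne_zero)
  rw [mul_zero, add_zero] at hb3
  refine tendsto_of_tendsto_of_tendsto_of_le_of_le' tendsto_const_nhds hb3 ?_ ?_
  · filter_upwards with R
    positivity
  · filter_upwards [eventually_ge_atTop 1] with R hR
    have hR2 : (0 : ℝ) < R ^ 2 := by positivity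
    have h3 := div_le_div_of_nonneg_right (hmain R) hR2.le
    refine h3.trans ?_
    rw [add_div]
    apply add_le_add_left
    rw [mul_div_assoc]
    apply mul_le_mul_of_nonneg_left _ (Nat.cast_nonneg _)
    have h4 : (1 : ℝ) ≤ ⌊R ^ 2⌋₊ := by
      have : 1 ≤ ⌊R ^ 2⌋₊ := by
        rw [Nat.one_le_floor_iff]
        nlinarith
      exact_mod_cast this
    have h5 : (⌊R ^ 2⌋₊ : ℝ) ≤ R ^ 2 := Nat.floor_le hR2.le
    apply div_le_div_of_nonneg_left _ (by linarith) h5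
    rw [hBad]
    exact Nat.cast_nonneg _

end

theorem stmC3 (h1 : StmA1) (hC1 : StmC1) (hC2 : StmC2) : StmC3 := by
  intro d hd r hr s hs ν hν hν0 hrc hsc
  have := Kd_numberField d hd
  obtain ⟨r', rfl⟩ := OK_lift d hr
  obtain ⟨s', rfl⟩ := OK_lift d hs
  obtain ⟨ν', rfl⟩ := OK_lift d hν
  have hinj : Function.Injective (fun x : 𝓞 (Kd d) => (((x : Kd d)) : ℂ)) := by
    intro x y h
    exact RingOfIntegers.ext (Subtype.ext h)
  have hν' : ν' ≠ 0 := by
    rintro rfl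
    exact hν0 (by simp)
  have hcop : ∀ y : 𝓞 (Kd d), (∃ e ∈ Od d, ∃ f ∈ Od d,
      (((y : Kd d)) : ℂ) * e + (((ν' : Kd d)) : ℂ) * f = 1) → IsCoprime y ν' := by
    rintro y ⟨e, he, f, hf, h⟩
    obtain ⟨e', rfl⟩ := OK_lift d he
    obtain ⟨f', rfl⟩ := OK_lift d hf
    refine ⟨e', f', ?_⟩
    apply hinj
    simp only
    push_cast
    linear_combination h
  obtain ⟨hfinR, hlim⟩ := c3_field h1 hC1 hC2 (Kd d).subtype (Kd_finrank d hd) (Kd_im d hd) r' s' ν'
    hν' (hcop r' hrc) (hcop s' hsc)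
  refine hlim.congr ?_
  intro R
  congr 2
  refine Set.ncard_congr (fun x _ => (((x : Kd d)) : ℂ)) ?_ ?_ ?_
  · rintro x ⟨⟨y, hy⟩, hxR, hxab⟩
    refine ⟨⟨_, OK_mem d y, ?_⟩, hxR, ?_⟩
    · have : x = s' + ν' * y := by linear_combination hy
      rw [this]
      push_cast
      rfl
    · rintro ⟨a, ha, b, hb, hab, y', hy', hay'⟩
      obtain ⟨a', rfl⟩ := OK_lift d ha
      obtain ⟨b', rfl⟩ := OK_lift d hb
      obtain ⟨y'', rfl⟩ := OK_lift d hy'
      apply hxab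
      refine ⟨a', b', ?_, y'', ?_⟩
      · apply hinj
        simp only
        push_cast
        exact hab
      · apply hinj
        simp only
        push_cast
        linear_combination hay'
  · intro x y _ _ h
    exact hinj h
  · rintro z ⟨⟨y, hy, rfl⟩, hzR, hzab⟩
    obtain ⟨y', rfl⟩ := OK_lift d hy
    have e : (((s' + ν' * y' : 𝓞 (Kd d)) : Kd d) : ℂ) =
        (((s' : Kd d)) : ℂ) + (((ν' : Kd d)) : ℂ) * (((y' : Kd d)) : ℂ) := by
      push_cast
      rfl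
    refine ⟨s' + ν' * y', ⟨⟨y', by ring⟩, ?_, ?_⟩, e⟩
    · change ‖(((s' + ν' * y' : 𝓞 (Kd d)) : Kd d) : ℂ)‖ ≤ R
      rw [e]
      exact hzR
    · rintro ⟨a, b, hab, y'', hy''⟩
      apply hzab
      refine ⟨_, OK_mem d a, _, OK_mem d b, ?_, _, OK_mem d y'', ?_⟩
      · rw [← e, hab]
        push_cast
        rfl
      · have : a = r' + ν' * y'' := by linear_combination hy''
        rw [this]
        push_cast
        rfl

end Pool.Agent.N530.LS
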