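import Pool.Agent.N530.LS.KdL

/-!
# C4, algebraic preliminaries: coprime representations and Lucas sequences
-/

set_option autoImplicit false

namespace Pool.Agent.N530.LS

open NumberField

section

variable {R : Type} [CommRing R]

/-- the homogeneous Chebyshev polynomials of the first kind -/
def Wq (p q : R) : ℕ → R
  | 0 => 2
  | 1 => p
  | (n + 2) => p * Wq p q (n + 1) - q ^ 2 * Wq p q n

/-- the homogeneous Chebyshev polynomials of the second kind -/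
def Pq (p q : R) : ℕ → R
  | 0 => 1
  | 1 => p
  | (n + 2) => p * Pq p q (n + 1) - q ^ 2 * Pq p q n

theorem Pq_coprime {p q : R} (h : IsCoprime p q) (n : ℕ) : IsCoprime (Pq p q n) q := by
  induction n using Nat.strong_induction_on with
  | _ n ih =>
    match n, ih with
    | 0, _ => exact isCoprime_one_left
    | 1, _ => exact h
    | (n + 2), ih =>
      have h1 : IsCoprime (p * Pq p q (n + 1)) q := h.mul_left (ih (n + 1) (by omega))
      have h2 : Pq p q (n + 2) = p * Pq p q (n + 1) + q * (-(q * Pq p q n)) := by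
        change p * Pq p q (n + 1) - q ^ 2 * Pq p q n = _
        ring
      rw [h2]
      exact h1.add_mul_left_left _

theorem Pq_det (p q : R) (n : ℕ) :
    Pq p q (n + 1) ^ 2 - Pq p q (n + 2) * Pq p q n = q ^ (2 * (n + 1)) := by
  induction n with
  | zero =>
    change p ^ 2 - (p * p - q ^ 2 * 1) * 1 = _
    ring
  | succ n ih =>
    have e1 : Pq p q (n + 3) = p * Pq p q (n + 2) - q ^ 2 * Pq p q (n + 1) := rfl
    have e2 : Pq p q (n + 2) = p * Pq p q (n + 1) - q ^ 2 * Pq p q n := rfl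
    have e3 : n + 1 + 2 = n + 3 := rfl
    have e4 : n + 1 + 1 = n + 2 := rfl
    rw [e3, e4, e1]
    have e5 : q ^ (2 * (n + 1 + 1)) = q ^ 2 * q ^ (2 * (n + 1)) := by ring
    rw [← e4, e5, ← ih]
    rw [show n + 1 + 1 = n + 2 from rfl]
    linear_combination (Pq p q (n + 2)) * e2

theorem Pq_coprime_succ {p q : R} (h : IsCoprime p q) (n : ℕ) :
    IsCoprime (Pq p q (n + 1)) (Pq p q n) := by
  obtain ⟨a, b, hab⟩ := (Pq_coprime h (n + 1)).pow_right (n := 2 * (n + 1))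
  have h1 := Pq_det p q n
  refine ⟨a + b * Pq p q (n + 1), -(b * Pq p q (n + 2)), ?_⟩
  rw [← h1] at hab
  linear_combination hab

/-- infinitely many terms prime to a given number -/
theorem Pq_inf {p q N : R} (h : IsCoprime p q) [Finite (R ⧸ Ideal.span {N})] (B : ℕ) :
    ∃ n, B < n ∧ IsCoprime (Pq p q n) N := by
  classical
  obtain ⟨y, hy⟩ := Finite.exists_infinite_fiber (fun n : ℕ =>
    ((Ideal.Quotient.mk (Ideal.span {N}) (Pq p q n),
      Ideal.Quotient.mk (Ideal.span {N}) (Pq p q (n + 1))) :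
      (R ⧸ Ideal.span {N}) × (R ⧸ Ideal.span {N})))
  rw [Set.infinite_coe_iff] at hy
  obtain ⟨k, hk⟩ := hy.nonempty
  obtain ⟨m, hm, hmk⟩ := hy.exists_gt (k + B)
  simp only [Set.mem_preimage, Set.mem_singleton_iff] at hk hm
  rw [← hk, Prod.ext_iff] at hm
  obtain ⟨h1, h2⟩ := hm
  simp only at h1 h2
  rw [Ideal.Quotient.eq, Ideal.mem_span_singleton] at h1 h2
  obtain ⟨n, rfl⟩ : ∃ n, m = k + n := ⟨m - k, by omega⟩
  refine ⟨n, by omega, ?_⟩
  have key : ∀ i, i ≤ k → N ∣ q ^ (2 * i) * (Pq p q (k - i + n) - Pq p q (k - i)) ∧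
      N ∣ q ^ (2 * i) * (Pq p q (k - i + n + 1) - Pq p q (k - i + 1)) := by
    intro i
    induction i with
    | zero =>
      intro _
      simp only [Nat.mul_zero, pow_zero, one_mul, Nat.sub_zero]
      exact ⟨h1, h2⟩
    | succ i ih =>
      intro hi
      obtain ⟨h3, h4⟩ := ih (by omega)
      obtain ⟨j, hj⟩ : ∃ j, k - i = j + 1 := ⟨k - i - 1, by omega⟩
      have hj' : k - (i + 1) = j := by omega
      rw [hj] at h3 h4
      rw [hj']
      have e1 : j + 1 + n = j + n + 1 := by ring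
      rw [e1] at h3 h4
      have e2 : Pq p q (j + n + 1 + 1) = p * Pq p q (j + n + 1) - q ^ 2 * Pq p q (j + n) := rfl
      have e3 : Pq p q (j + 1 + 1) = p * Pq p q (j + 1) - q ^ 2 * Pq p q j := rfl
      refine ⟨?_, ?_⟩
      · have e4 : q ^ (2 * (i + 1)) * (Pq p q (j + n) - Pq p q j) =
            p * (q ^ (2 * i) * (Pq p q (j + n + 1) - Pq p q (j + 1))) -
            q ^ (2 * i) * (Pq p q (j + n + 1 + 1) - Pq p q (j + 1 + 1)) := by
          rw [e2, e3]; ring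
        rw [e4]
        exact dvd_sub (Dvd.dvd.mul_left h3 _) h4
      · have e4 : q ^ (2 * (i + 1)) * (Pq p q (j + n + 1) - Pq p q (j + 1)) =
            q ^ 2 * (q ^ (2 * i) * (Pq p q (j + n + 1) - Pq p q (j + 1))) := by ring
        rw [e4]
        exact Dvd.dvd.mul_left h3 _
  obtain ⟨⟨z, hz⟩, -⟩ := key k le_rfl
  rw [Nat.sub_self, Nat.zero_add] at hz
  have e0 : Pq p q 0 = 1 := rfl
  rw [e0] at hz
  obtain ⟨a, b, hab⟩ := (Pq_coprime h n).pow_right (n := 2 * k)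
  refine ⟨a + b * q ^ (2 * k), -(b * z), ?_⟩
  linear_combination hab + b * hz

end

section

variable {K : Type} [Field K] [NumberField K]

theorem exists_coprime_power (p₀ q₀ : 𝓞 K) (hq₀ : q₀ ≠ 0) (hnd : ¬ q₀ ∣ p₀) :
    ∃ (h : ℕ) (p q : 𝓞 K), 0 < h ∧ q ≠ 0 ∧ IsCoprime p q ∧ ¬ IsUnit q ∧
      Wq p₀ q₀ h * q = p * q₀ ^ h := by
  set g : Ideal (𝓞 K) := Ideal.span {p₀} ⊔ Ideal.span {q₀} with hg
  have hp₀g : p₀ ∈ g := Ideal.mem_sup_left (Ideal.mem_span_singleton_self _)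
  have hq₀g : q₀ ∈ g := Ideal.mem_sup_right (Ideal.mem_span_singleton_self _)
  have hg0 : g ≠ 0 := by
    intro h
    rw [h] at hq₀g
    exact hq₀ hq₀g
  obtain ⟨𝔞, h𝔞⟩ : g ∣ Ideal.span {p₀} := Ideal.dvd_iff_le.mpr le_sup_left
  obtain ⟨𝔟, h𝔟⟩ : g ∣ Ideal.span {q₀} := Ideal.dvd_iff_le.mpr le_sup_right
  have hab : 𝔞 ⊔ 𝔟 = ⊤ := by
    have h1 : g * (𝔞 ⊔ 𝔟) = g * ⊤ := by
      rw [Ideal.mul_sup, ← h𝔞, ← h𝔟, ← hg, Ideal.mul_top]
    exact mul_left_cancel₀ hg0 h1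
  set h := Fintype.card (ClassGroup (𝓞 K)) with hh
  have hpos : 0 < h := Fintype.card_pos
  obtain ⟨γ, hγ⟩ : ∃ γ : 𝓞 K, g ^ h = Ideal.span {γ} := by
    have h1 : (ClassGroup.mk0 ⟨g, mem_nonZeroDivisors_of_ne_zero hg0⟩) ^ h = 1 := pow_card_eq_one
    rw [← map_pow, SubmonoidClass.mk_pow, ClassGroup.mk0_eq_one_iff] at h1
    obtain ⟨γ, hγ⟩ := h1
    exact ⟨γ, hγ⟩
  have hγ0 : Ideal.span {γ} ≠ 0 := by
    rw [← hγ]; exact pow_ne_zero h hg0
  have hγ0' : γ ≠ 0 := by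
    rintro rfl
    exact hγ0 (by simp)
  -- membership
  have hW : ∀ n, Wq p₀ q₀ n ∈ g ^ n ∧ Wq p₀ q₀ (n + 1) ∈ g ^ (n + 1) ∧
      Wq p₀ q₀ (n + 1) - p₀ ^ (n + 1) ∈ 𝔟 * g ^ (n + 1) := by
    intro n
    induction n with
    | zero =>
      refine ⟨?_, ?_, ?_⟩
      · rw [pow_zero, Ideal.one_eq_top]; trivial
      · rw [zero_add, pow_one]; exact hp₀g
      · have e0 : Wq p₀ q₀ (0 + 1) - p₀ ^ (0 + 1) = 0 := by
          change p₀ - p₀ ^ 1 = 0
          ring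
        rw [e0]
        exact Ideal.zero_mem _
    | succ n ih =>
      obtain ⟨h1, h2, h3⟩ := ih
      have e1 : Wq p₀ q₀ (n + 1 + 1) = p₀ * Wq p₀ q₀ (n + 1) - q₀ ^ 2 * Wq p₀ q₀ n := rfl
      refine ⟨h2, ?_, ?_⟩
      · rw [e1]
        apply Ideal.sub_mem
        · rw [pow_succ' g (n + 1)]
          exact Ideal.mul_mem_mul hp₀g h2
        · have : g ^ (n + 1 + 1) = g ^ 2 * g ^ n := by ring
          rw [this]
          exact Ideal.mul_mem_mul (Ideal.pow_mem_pow hq₀g 2) h1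
      · have e2 : Wq p₀ q₀ (n + 1 + 1) - p₀ ^ (n + 1 + 1) =
            (Wq p₀ q₀ (n + 1) - p₀ ^ (n + 1)) * p₀ - q₀ * (q₀ * Wq p₀ q₀ n) := by
          rw [e1]; ring
        rw [e2]
        apply Ideal.sub_mem
        · have : 𝔟 * g ^ (n + 1 + 1) = (𝔟 * g ^ (n + 1)) * g := by ring
          rw [this]
          exact Ideal.mul_mem_mul h3 hp₀g
        · have : 𝔟 * g ^ (n + 1 + 1) = (g * 𝔟) * (g * g ^ n) := by ring
          rw [this, ← h𝔟]
          exact Ideal.mul_mem_mul (Ideal.mem_span_singleton_self _) (Ideal.mul_mem_mul hq₀g h1)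
  obtain ⟨n, hn⟩ : ∃ n, h = n + 1 := ⟨h - 1, by omega⟩
  obtain ⟨-, hWh, hWd⟩ := hW n
  rw [← hn] at hWh hWd
  rw [hγ] at hWh hWd
  obtain ⟨p, hp⟩ := Ideal.mem_span_singleton.mp hWh
  have hq₀h : q₀ ^ h ∈ Ideal.span {γ} := by
    rw [← hγ]; exact Ideal.pow_mem_pow hq₀g h
  have hp₀h : p₀ ^ h ∈ Ideal.span {γ} := by
    rw [← hγ]; exact Ideal.pow_mem_pow hp₀g h
  obtain ⟨q, hq⟩ := Ideal.mem_span_singleton.mp hq₀h
  obtain ⟨p₁, hp₁⟩ := Ideal.mem_span_singleton.mp hp₀h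
  have hspanq : Ideal.span {q} = 𝔟 ^ h := by
    apply mul_left_cancel₀ hγ0
    rw [Ideal.span_singleton_mul_span_singleton, ← hq, ← Ideal.span_singleton_pow, h𝔟, mul_pow, hγ]
  have hspanp₁ : Ideal.span {p₁} = 𝔞 ^ h := by
    apply mul_left_cancel₀ hγ0
    rw [Ideal.span_singleton_mul_span_singleton, ← hp₁, ← Ideal.span_singleton_pow, h𝔞, mul_pow, hγ]
  have hq0 : q ≠ 0 := by
    rintro rfl
    rw [mul_zero] at hq
    exact pow_ne_zero h hq₀ hq
  have hz : p - p₁ ∈ 𝔟 := by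
    rw [Ideal.mem_mul_span_singleton] at hWd
    obtain ⟨z, hz, hzγ⟩ := hWd
    have : p - p₁ = z := by
      apply mul_right_cancel₀ hγ0'
      rw [hzγ, hp, hp₁]
      ring
    rw [this]
    exact hz
  have hcop1 : IsCoprime (Ideal.span {p₁}) 𝔟 := by
    rw [hspanp₁]
    exact (Ideal.isCoprime_iff_sup_eq.mpr hab).pow_left
  have hcop2 : IsCoprime (Ideal.span {p}) 𝔟 := by
    rw [Ideal.isCoprime_iff_exists] at hcop1 ⊢
    obtain ⟨i, hi, j, hj, hij⟩ := hcop1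
    obtain ⟨x, rfl⟩ := Ideal.mem_span_singleton.mp hi
    refine ⟨p * x, Ideal.mul_mem_right _ _ (Ideal.mem_span_singleton_self _), j - (p - p₁) * x,
      Ideal.sub_mem _ hj (Ideal.mul_mem_right _ _ hz), ?_⟩
    linear_combination hij
  refine ⟨h, p, q, hpos, hq0, ?_, ?_, ?_⟩
  · rw [← Ideal.isCoprime_span_singleton_iff, hspanq]
    exact hcop2.pow_right
  · intro hu
    apply hnd
    have h1 : 𝔟 ^ h = ⊤ := by rw [← hspanq]; exact Ideal.span_singleton_eq_top.mpr hu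
    have h2 : 𝔟 = ⊤ := by
      by_contra hne
      have h3 : 𝔟 ^ h ≤ 𝔟 := Ideal.pow_le_self hpos.ne'
      rw [h1] at h3
      exact hne (top_le_iff.mp h3)
    rw [h2, Ideal.mul_top] at h𝔟
    rw [← h𝔟] at hp₀g
    exact Ideal.mem_span_singleton.mp hp₀g
  · rw [hp, hq]
    ring

end

end Pool.Agent.N530.LS
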