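import Pool.Agent.N530.LS.C3
import Pool.Agent.N530.LS.C4a

/-!
# C4: integrality of the traces of rational elements
-/

set_option autoImplicit false
set_option linter.unusedSimpArgs false

namespace Pool.Agent.N530.LS

open NumberField Filter Topology

theorem pow_entries (A : SL2C) (n : ℕ) :
    (A ^ (n + 2)) 0 0 = Pq (trc A) 1 (n + 1) * A 0 0 - Pq (trc A) 1 n ∧
    (A ^ (n + 2)) 0 1 = Pq (trc A) 1 (n + 1) * A 0 1 ∧
    (A ^ (n + 2)) 1 0 = Pq (trc A) 1 (n + 1) * A 1 0 ∧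
    (A ^ (n + 2)) 1 1 = Pq (trc A) 1 (n + 1) * A 1 1 - Pq (trc A) 1 n := by
  have hd := det_eq A
  induction n with
  | zero =>
    have e : A ^ (0 + 2) = A * A := by rw [zero_add, pow_two]
    have e1 : Pq (trc A) 1 (0 + 1) = trc A := rfl
    have e0 : Pq (trc A) 1 0 = 1 := rfl
    rw [e, e1, e0]
    unfold trc
    simp only [mul00, mul01, mul10, mul11]
    refine ⟨?_, ?_, ?_, ?_⟩
    · linear_combination -hd
    · ring
    · ring
    · linear_combination -hd
  | succ n ih =>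
    obtain ⟨h1, h2, h3, h4⟩ := ih
    have e : A ^ (n + 1 + 2) = A ^ (n + 2) * A := by
      rw [← pow_succ]
    have e2 : Pq (trc A) 1 (n + 1 + 1) = trc A * Pq (trc A) 1 (n + 1) - 1 ^ 2 * Pq (trc A) 1 n := rfl
    rw [e, e2]
    set u := Pq (trc A) 1 n
    set u' := Pq (trc A) 1 (n + 1)
    unfold trc
    simp only [mul00, mul01, mul10, mul11, h1, h2, h3, h4]
    refine ⟨?_, ?_, ?_, ?_⟩
    · linear_combination -u' * hd
    · ring
    · ring
    · linear_combination -u' * hd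

theorem trc_pow (A : SL2C) (n : ℕ) : trc (A ^ n) = Wq (trc A) 1 n := by
  induction n using Nat.strong_induction_on with
  | _ n ih =>
    match n, ih with
    | 0, _ =>
      change trc (A ^ 0) = 2
      rw [pow_zero]
      unfold trc
      simp
      norm_num
    | 1, _ =>
      change trc (A ^ 1) = trc A
      rw [pow_one]
    | (n + 2), ih =>
      have h1 := ih n (by omega)
      have h2 := ih (n + 1) (by omega)
      change trc (A ^ (n + 2)) = trc A * Wq (trc A) 1 (n + 1) - 1 ^ 2 * Wq (trc A) 1 n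
      rw [← h1, ← h2]
      have hd := det_eq A
      have e1 : A ^ (n + 1) = A ^ n * A := pow_succ A n
      have e2 : A ^ (n + 2) = A ^ n * A * A := by rw [← pow_succ, ← pow_succ]
      rw [e1, e2]
      set X := A ^ n
      unfold trc
      simp only [mul00, mul01, mul10, mul11]
      linear_combination (-(X 0 0) - X 1 1) * hd

theorem Pq_hom (p q : ℂ) (hq : q ≠ 0) (n : ℕ) : Pq p q n = q ^ n * Pq (p / q) 1 n := by
  induction n using Nat.strong_induction_on with
  | _ n ih =>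
    match n, ih with
    | 0, _ => simp [Pq]
    | 1, _ =>
      change p = q ^ 1 * (p / q)
      field_simp
    | (n + 2), ih =>
      change p * Pq p q (n + 1) - q ^ 2 * Pq p q n =
        q ^ (n + 2) * (p / q * Pq (p / q) 1 (n + 1) - 1 ^ 2 * Pq (p / q) 1 n)
      rw [ih (n + 1) (by omega), ih n (by omega)]
      field_simp
      ring

theorem Wq_hom (p q : ℂ) (hq : q ≠ 0) (n : ℕ) : Wq p q n = q ^ n * Wq (p / q) 1 n := by
  induction n using Nat.strong_induction_on with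
  | _ n ih =>
    match n, ih with
    | 0, _ => simp [Wq]
    | 1, _ =>
      change p = q ^ 1 * (p / q)
      field_simp
    | (n + 2), ih =>
      change p * Wq p q (n + 1) - q ^ 2 * Wq p q n =
        q ^ (n + 2) * (p / q * Wq (p / q) 1 (n + 1) - 1 ^ 2 * Wq (p / q) 1 n)
      rw [ih (n + 1) (by omega), ih n (by omega)]
      field_simp
      ring

theorem Pq_map {R S : Type} [CommRing R] [CommRing S] (f : R →+* S) (p q : R) (n : ℕ) :
    f (Pq p q n) = Pq (f p) (f q) n := by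
  induction n using Nat.strong_induction_on with
  | _ n ih =>
    match n, ih with
    | 0, _ => exact map_one f
    | 1, _ => rfl
    | (n + 2), ih =>
      change f (p * Pq p q (n + 1) - q ^ 2 * Pq p q n) = _
      rw [map_sub, map_mul, map_mul, map_pow, ih (n + 1) (by omega), ih n (by omega)]
      rfl

theorem Wq_map {R S : Type} [CommRing R] [CommRing S] (f : R →+* S) (p q : R) (n : ℕ) :
    f (Wq p q n) = Wq (f p) (f q) n := by
  induction n using Nat.strong_induction_on with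
  | _ n ih =>
    match n, ih with
    | 0, _ => exact map_ofNat f 2
    | 1, _ => rfl
    | (n + 2), ih =>
      change f (p * Wq p q (n + 1) - q ^ 2 * Wq p q n) = _
      rw [map_sub, map_mul, map_mul, map_pow, ih (n + 1) (by omega), ih n (by omega)]
      rfl

/-- coordinates of the elements of the field with respect to `1`, `τ` -/
theorem Kd_coord {d : ℕ} {τ : ℂ} (hτ : τ ∈ Kd d) (hτi : τ.im ≠ 0) {z : ℂ} (hz : z ∈ Kd d) :
    ∃ u v : ℚ, z = u + v * τ := by
  obtain ⟨u₀, v₀, h₀⟩ := mem_Kd.mp hτ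
  obtain ⟨u, v, rfl⟩ := mem_Kd.mp hz
  have hv₀ : v₀ ≠ 0 := by
    rintro rfl
    apply hτi
    rw [h₀]
    simp
  refine ⟨u - v / v₀ * u₀, v / v₀, ?_⟩
  rw [h₀]
  have : (v₀ : ℂ) ≠ 0 := by exact_mod_cast hv₀
  push_cast
  field_simp
  ring

theorem Kd_den {d : ℕ} {τ : ℂ} (hτ : τ ∈ Kd d) (hτi : τ.im ≠ 0) {z : ℂ} (hz : z ∈ Kd d) :
    ∃ N : ℕ, 0 < N ∧ ∃ v : ℤ × ℤ, N * z = lv 1 τ v := by
  obtain ⟨u, v, rfl⟩ := Kd_coord hτ hτi hz
  refine ⟨u.den * v.den, Nat.mul_pos u.den_pos v.den_pos, (u.num * v.den, v.num * u.den), ?_⟩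
  have hu : (u : ℂ) * u.den = u.num := by
    have := Rat.mul_den_eq_num u
    exact_mod_cast this
  have hv : (v : ℂ) * v.den = v.num := by
    have := Rat.mul_den_eq_num v
    exact_mod_cast this
  unfold lv
  push_cast
  linear_combination (v.den : ℂ) * hu + (u.den : ℂ) * τ * hv

theorem c4_main (h1 : StmA1) (h4 : StmA4) (hC1 : StmC1) (hC2 : StmC2) (G : Subgroup SL2C) (τ : ℂ)
    (d : ℕ) [NumberField (Kd d)] (hd : 0 < d) (hτ : τ ∈ Kd d) (hG : Good G 1 τ) (A : SL2C)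
    (hA : A ∈ G) (hAK : ∀ i j, A i j ∈ Kd d) (p q : 𝓞 (Kd d)) (hcop : IsCoprime p q)
    (hq0 : q ≠ 0) (hqu : ¬ IsUnit q)
    (htr : trc A * (((q : Kd d)) : ℂ) = (((p : Kd d)) : ℂ)) : False := by
  classical
  set ι : 𝓞 (Kd d) →+* ℂ := (Kd d).subtype.comp (algebraMap (𝓞 (Kd d)) (Kd d)) with hι
  have hιinj : Function.Injective ι := by
    intro x y h
    exact RingOfIntegers.ext (Subtype.ext h)
  have htr' : trc A * ι q = ι p := htr
  have hιq : ι q ≠ 0 := by
    intro h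
    exact hq0 (hιinj (by rw [h, map_zero]))
  obtain ⟨hind, hT1, hTτ, hneg, hstab, -, C, hQG⟩ := hG
  have hτi : τ.im ≠ 0 := by
    intro h
    apply hind
    simp [h]
  set c := A 1 0 with hc
  -- c ≠ 0
  have hc0 : c ≠ 0 := by
    intro h0
    have hdet := det_eq A
    rw [← hc, h0, mul_zero, sub_zero] at hdet
    have : q ∣ p := by
      rcases hstab A hA h0 with h | h
      · rw [h, one_mul] at hdet
        have ht : trc A = 2 := by unfold trc; rw [h, hdet]; norm_num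
        refine ⟨2, hιinj ?_⟩
        rw [← htr', ht, map_mul, map_ofNat, mul_comm]
      · have h11 : A 1 1 = -1 := by rw [h] at hdet; linear_combination -hdet
        have ht : trc A = -2 := by unfold trc; rw [h, h11]; norm_num
        refine ⟨-2, hιinj ?_⟩
        rw [← htr', ht, map_mul, map_neg, map_ofNat, mul_comm]
    exact hqu ((hcop.symm).isUnit_of_dvd this)
  have hcK : c ∈ Kd d := hAK 1 0
  -- the lattice of the integers
  set φ := (Kd d).subtype with hφ
  obtain ⟨b₀, b₁, e, he, hφe, hindO⟩ := exists_lattice φ (Kd_finrank d hd) (Kd_im d hd)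
  have hιe : ∀ v, ι (e v) = lv (ι b₀) (ι b₁) v := hφe
  have hindO' : Ind (ι b₀) (ι b₁) := hindO
  -- N₁
  obtain ⟨N₁, hN₁, hN₁L⟩ : ∃ N : ℕ, 0 < N ∧ ∀ x : 𝓞 (Kd d), ∃ v : ℤ × ℤ,
      (N : ℂ) * ι x / c = lv 1 τ v := by
    obtain ⟨M₀, hM₀, v₀, hv₀⟩ := Kd_den hτ hτi ((Kd d).div_mem (b₀ : Kd d).2 hcK)
    obtain ⟨M₁, hM₁, v₁, hv₁⟩ := Kd_den hτ hτi ((Kd d).div_mem (b₁ : Kd d).2 hcK)
    have hv₀' : (M₀ : ℂ) * (ι b₀ / c) = lv 1 τ v₀ := hv₀
    have hv₁' : (M₁ : ℂ) * (ι b₁ / c) = lv 1 τ v₁ := hv₁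
    refine ⟨M₀ * M₁, Nat.mul_pos hM₀ hM₁, fun x => ?_⟩
    obtain ⟨w, rfl⟩ := e.surjective x
    refine ⟨(w.1 * M₁) • v₀ + (w.2 * M₀) • v₁, ?_⟩
    rw [hιe, lv_add, lv_smul, lv_smul, ← hv₀', ← hv₁']
    unfold lv
    push_cast
    ring
  -- the counting principle
  obtain ⟨C', hC'⟩ := h4.gen hindO' hQG
  -- the size of q
  have hqnorm : 1 < ‖ι q‖ := by
    have h2 := absNorm_eq φ (Kd_finrank d hd) (Kd_im d hd) q
    have h3 : Ideal.absNorm (Ideal.span {q}) ≠ 0 := by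
      rw [Ne, Ideal.absNorm_eq_zero_iff, Ideal.span_singleton_eq_bot]; exact hq0
    have h5 : Ideal.absNorm (Ideal.span {q}) ≠ 1 := by
      rw [Ne, Ideal.absNorm_eq_one_iff, Ideal.span_singleton_eq_top]; exact hqu
    have h6 : 2 ≤ Ideal.absNorm (Ideal.span {q}) := by omega
    have h7 : (2 : ℝ) ≤ Ideal.absNorm (Ideal.span {q}) := by exact_mod_cast h6
    have h8 : (2 : ℝ) ≤ ‖ι q‖ ^ 2 := h7.trans h2.le
    by_contra hcon
    push Not at hcon
    nlinarith [norm_nonneg (ι q)]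
  obtain ⟨B, hB⟩ : ∃ B : ℕ, ∀ m, B < m → C' * N₁ ^ 2 < (‖ι q‖ ^ m) ^ 2 := by
    have h2 : Tendsto (fun m : ℕ => (‖ι q‖ ^ m) ^ 2) atTop atTop :=
      (tendsto_pow_atTop two_ne_zero).comp (tendsto_pow_atTop_atTop_of_one_lt hqnorm)
    obtain ⟨B, hB⟩ := (h2.eventually_gt_atTop (C' * N₁ ^ 2)).exists_forall_of_atTop
    exact ⟨B, fun m hm => hB m hm.le⟩
  have hN₁0 : ((N₁ : ℕ) : 𝓞 (Kd d)) ≠ 0 := by exact_mod_cast hN₁.ne'
  have hfinq : Finite (𝓞 (Kd d) ⧸ Ideal.span {((N₁ : ℕ) : 𝓞 (Kd d))}) :=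
    Ideal.finiteQuotientOfFreeOfNeBot _ (by rwa [Ne, Ideal.span_singleton_eq_bot])
  obtain ⟨m, hm, hmcop⟩ := Pq_inf (N := ((N₁ : ℕ) : 𝓞 (Kd d))) hcop (B + 2)
  obtain ⟨n, rfl⟩ : ∃ n, m = n + 2 := ⟨m - 2, by omega⟩
  set r := Pq p q (n + 2) with hr
  set ν := (N₁ : 𝓞 (Kd d)) * q * Pq p q (n + 1) with hν
  have hrν : IsCoprime r ν :=
    (hmcop.mul_right (Pq_coprime hcop (n + 2))).mul_right (Pq_coprime_succ hcop (n + 1))
  have hP0 : Pq p q (n + 1) ≠ 0 := by
    intro h0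
    have h2 := Pq_coprime hcop (n + 1)
    rw [h0, isCoprime_zero_left] at h2
    exact hqu h2
  have hν0 : ν ≠ 0 := mul_ne_zero (mul_ne_zero hN₁0 hq0) hP0
  obtain ⟨hfinR, hexc⟩ := c3_field h1 hC1 hC2 φ (Kd_finrank d hd) (Kd_im d hd) r (r ^ 2) ν hν0 hrν
    hrν.pow_left
  -- complex numbers
  have hpq : ι p / ι q = trc A := by rw [← htr']; field_simp
  set u' := Pq (trc A) 1 (n + 1) with hu'
  set u'' := Pq (trc A) 1 n with hu''
  set um := Pq (trc A) 1 (n + 2) with hum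
  have humrec : um = trc A * u' - u'' := by
    rw [hum, hu', hu'']
    change trc A * Pq (trc A) 1 (n + 1) - 1 ^ 2 * Pq (trc A) 1 n = _
    ring
  have hrC : ι r = (ι q) ^ (n + 2) * um := by
    rw [hr, Pq_map, Pq_hom _ _ hιq, hpq]
  have hνC : ι ν = N₁ * (ι q) ^ (n + 2) * u' := by
    rw [hν, map_mul, map_mul, map_natCast, Pq_map, Pq_hom _ _ hιq, hpq]
    ring
  have hu'0 : u' ≠ 0 := by
    intro h0
    have h2 : ι (Pq p q (n + 1)) = 0 := by
      rw [Pq_map, Pq_hom _ _ hιq, hpq, ← hu', h0, mul_zero]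
    exact hP0 (hιinj (by rw [h2, map_zero]))
  obtain ⟨hA00, hA01, hA10, hA11⟩ := pow_entries A n
  rw [← hu', ← hu''] at hA00 hA11
  rw [← hu', ← hc] at hA10
  have hA10' : (A ^ (n + 2)) 1 0 ≠ 0 := by rw [hA10]; exact mul_ne_zero hu'0 hc0
  -- the good vectors
  set P : Set (ℤ × ℤ) := {v | ∃ a b : 𝓞 (Kd d), r ^ 2 + ν * e v = a * b ∧ ν ∣ a - r} with hP
  set D := (ι q) ^ (n + 2) with hD
  have hD0 : D ≠ 0 := pow_ne_zero _ hιq
  have hN₁C : (N₁ : ℂ) ≠ 0 := by exact_mod_cast hN₁.ne'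
  have hsum := hC' Unit {()} (fun _ => N₁ / D) (fun _ => (ι r) ^ 2 / (D ^ 2 * u') - u' - 1 / u')
    (fun _ => P) ?_ ?_ ?_ ?_
  · rw [Finset.sum_singleton, norm_div, Complex.norm_natCast, hD, norm_pow] at hsum
    have h2 := hB (n + 2) (by omega)
    have hNpos : (0 : ℝ) < N₁ := by exact_mod_cast hN₁
    have h3 : 1 / ((N₁ : ℝ) / ‖ι q‖ ^ (n + 2)) ^ 2 = (‖ι q‖ ^ (n + 2)) ^ 2 / N₁ ^ 2 := by
      field_simp
    rw [h3, div_le_iff₀ (by positivity)] at hsum
    linarith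
  · intro _ _
    exact div_ne_zero hN₁C hD0
  · rintro _ _ v ⟨a, b, hab, x', hx'⟩
    have ha : a = r + ν * x' := by linear_combination hx'
    obtain ⟨y', hy'⟩ : ν ∣ b - r := by
      have h2 : ν ∣ r * (b - r) := ⟨-(x' * b) + e v, by
        rw [ha] at hab
        linear_combination -hab⟩
      exact hrν.symm.dvd_of_dvd_mul_left h2
    have hb : b = r + ν * y' := by linear_combination hy'
    obtain ⟨v', hv'⟩ := hN₁L x'
    obtain ⟨v'', hv''⟩ := hN₁L y'
    have hmem : T (lv 1 τ v') * A ^ (n + 2) * T (lv 1 τ v'') * A ∈ G :=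
      G.mul_mem (G.mul_mem (G.mul_mem (T_lv_mem hT1 hTτ _) (G.pow_mem hA _))
        (T_lv_mem hT1 hTτ _)) hA
    have h2 := mem_trc hmem
    rw [trc_T_T _ _ hA10' hc0, hA10, hA00, hA11, ← hc, ← hv', ← hv''] at h2
    have habC : ι r ^ 2 + ι ν * ι (e v) = (ι r + ι ν * ι x') * (ι r + ι ν * ι y') := by
      have := congrArg ι hab
      rw [ha, hb] at this
      simpa only [map_add, map_mul, map_pow] using this
    have e1 : trc A = A 0 0 + A 1 1 := rfl
    have key : ι r ^ 2 / (D ^ 2 * u') - u' - 1 / u' + N₁ / D * lv (ι b₀) (ι b₁) v =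
        u' * c * c * (N₁ * ι x' / c + ((u' * A 0 0 - u'') / (u' * c) + A 1 1 / c)) *
          (N₁ * ι y' / c + (A 0 0 / c + (u' * A 1 1 - u'') / (u' * c))) -
        (u' * c / c + c / (u' * c)) := by
      rw [← hιe]
      have e2 : (u' * A 0 0 - u'') / (u' * c) + A 1 1 / c = um / (u' * c) := by
        rw [humrec, e1]; field_simp; ring
      have e3 : A 0 0 / c + (u' * A 1 1 - u'') / (u' * c) = um / (u' * c) := by
        rw [humrec, e1]; field_simp; ring
      rw [e2, e3]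
      rw [hrC, hνC] at habC
      rw [hrC]
      have e4 : N₁ / D * ι (e v) = (N₁ * D * u' * ι (e v)) / (D ^ 2 * u') := by
        field_simp
      have e5 : N₁ * D * u' * ι (e v) = (D * um + N₁ * D * u' * ι x') *
          (D * um + N₁ * D * u' * ι y') - (D * um) ^ 2 := by
        linear_combination habC
      rw [e4, e5]
      field_simp
      ring
    rw [key]
    exact h2
  · intro _ _
    have hνn : 0 < ‖ι ν‖ := by
      rw [norm_pos_iff]
      intro h
      exact hν0 (hιinj (by rw [h, map_zero]))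
    have h2 := tendsto_scale _ _ (‖ι ν‖⁻¹) (inv_pos.mpr hνn) (tendsto_shift _ _ (‖ι r‖ ^ 2) hexc)
    rw [zero_div] at h2
    refine tendsto_of_tendsto_of_tendsto_of_le_of_le tendsto_const_nhds h2 ?_ ?_
    · intro R
      positivity
    · intro R
      simp only
      apply div_le_div_of_nonneg_right _ (by positivity)
      rw [Nat.cast_le]
      have hfin : {x : 𝓞 (Kd d) | ν ∣ x - r ^ 2 ∧ ‖φ x‖ ≤ R / ‖ι ν‖⁻¹ + ‖ι r‖ ^ 2 ∧
          ¬ ∃ a b : 𝓞 (Kd d), x = a * b ∧ ν ∣ a - r}.Finite :=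
        (hfinR (R / ‖ι ν‖⁻¹ + ‖ι r‖ ^ 2)).subset fun x hx => hx.2.1
      refine Set.ncard_le_ncard_of_injOn (fun v => r ^ 2 + ν * e v) ?_ ?_ hfin
      · rintro v ⟨hvP, hvR⟩
        refine ⟨⟨e v, by ring⟩, ?_, ?_⟩
        · have e6 : φ (((r ^ 2 + ν * e v : 𝓞 (Kd d)) : Kd d)) = ι r ^ 2 + ι ν * lv (ι b₀) (ι b₁) v := by
            rw [← hιe, ← map_pow, ← map_mul, ← map_add]
            rfl
          rw [e6]
          refine (norm_add_le _ _).trans ?_
          rw [norm_pow, norm_mul, div_inv_eq_mul]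
          have := mul_le_mul_of_nonneg_left hvR hνn.le
          linarith
        · rintro ⟨a, b, hab, hνa⟩
          exact hvP ⟨a, b, hab, hνa⟩
      · intro v _ w _ h
        simp only at h
        exact e.injective (mul_left_cancel₀ hν0 (add_left_cancel h))
  · intro i _ j _ hij
    exact absurd (Subsingleton.elim i j) hij

theorem stmC4 (h1 : StmA1) (h4 : StmA4) (hC1 : StmC1) (hC2 : StmC2) : StmC4 := by
  intro G τ d hd hτ hG hrat A hA hAK
  have := Kd_numberField d hd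
  by_contra hcon
  set ι : 𝓞 (Kd d) →+* ℂ := (Kd d).subtype.comp (algebraMap (𝓞 (Kd d)) (Kd d)) with hι
  have hιinj : Function.Injective ι := by
    intro x y h
    exact RingOfIntegers.ext (Subtype.ext h)
  -- the trace as a fraction
  have htK : trc A ∈ Kd d := (Kd d).add_mem (hAK 0 0) (hAK 1 1)
  obtain ⟨p₀, q₀, hq₀, hpq⟩ := IsFractionRing.div_surjective (A := 𝓞 (Kd d))
    (⟨trc A, htK⟩ : Kd d)
  have hq₀0 : q₀ ≠ 0 := nonZeroDivisors.ne_zero hq₀
  have hιq₀ : ι q₀ ≠ 0 := by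
    intro h
    exact hq₀0 (hιinj (by rw [h, map_zero]))
  have htr : trc A = ι p₀ / ι q₀ := by
    have := congrArg (fun x : Kd d => (x : ℂ)) hpq
    simp only at this
    rw [← this]
    rfl
  have hnd : ¬ q₀ ∣ p₀ := by
    rintro ⟨z, rfl⟩
    apply hcon
    rw [htr, map_mul, mul_div_cancel_left₀ _ hιq₀]
    exact OK_mem d z
  obtain ⟨h, p, q, hpos, hq0, hcop, hqu, hW⟩ := exists_coprime_power p₀ q₀ hq₀0 hnd
  refine c4_main h1 h4 hC1 hC2 G τ d hd hτ hG (A ^ h) (G.pow_mem hA h) ?_ p q hcop hq0 hqu ?_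
  · -- entries of the power
    have hpow : ∀ n : ℕ, ∀ i j, (A ^ n) i j ∈ Kd d := by
      intro n
      induction n with
      | zero =>
        intro i j
        rw [pow_zero]
        fin_cases i <;> fin_cases j <;> simp [(Kd d).one_mem, (Kd d).zero_mem]
      | succ n ih =>
        intro i j
        rw [pow_succ]
        fin_cases i <;> fin_cases j
        · change (A ^ n * A) 0 0 ∈ Kd d
          rw [mul00]
          exact (Kd d).add_mem ((Kd d).mul_mem (ih _ _) (hAK _ _))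
            ((Kd d).mul_mem (ih _ _) (hAK _ _))
        · change (A ^ n * A) 0 1 ∈ Kd d
          rw [mul01]
          exact (Kd d).add_mem ((Kd d).mul_mem (ih _ _) (hAK _ _))
            ((Kd d).mul_mem (ih _ _) (hAK _ _))
        · change (A ^ n * A) 1 0 ∈ Kd d
          rw [mul10]
          exact (Kd d).add_mem ((Kd d).mul_mem (ih _ _) (hAK _ _))
            ((Kd d).mul_mem (ih _ _) (hAK _ _))
        · change (A ^ n * A) 1 1 ∈ Kd d
          rw [mul11]
          exact (Kd d).add_mem ((Kd d).mul_mem (ih _ _) (hAK _ _))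
            ((Kd d).mul_mem (ih _ _) (hAK _ _))
    exact hpow h
  · change trc (A ^ h) * ι q = ι p
    have h2 := congrArg ι hW
    rw [map_mul, map_mul, map_pow, Wq_map, Wq_hom _ _ hιq₀, ← htr, ← trc_pow] at h2
    apply mul_left_cancel₀ (pow_ne_zero h hιq₀)
    linear_combination h2

end Pool.Agent.N530.LS
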