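import Pool.Agent.N530.LS.KdL

/-!
# D1: bounded denominators
-/

set_option autoImplicit false
set_option linter.unusedSimpArgs false

namespace Pool.Agent.N530.LS

theorem sqrtI_Od (d : ℕ) : ((Real.sqrt (d : ℝ) : ℂ) * Complex.I) ∈ Od d := by
  refine ⟨?_, sqrtI_mem d⟩
  change IsIntegral ℤ _
  refine ⟨Polynomial.X ^ 2 + Polynomial.C (d : ℤ), ?_, ?_⟩
  · exact Polynomial.monic_X_pow_add_C _ two_ne_zero
  · rw [Polynomial.eval₂_add, Polynomial.eval₂_pow, Polynomial.eval₂_X, Polynomial.eval₂_C,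
      sqrtI_sq]
    simp

theorem natCast_Od (d n : ℕ) : (n : ℂ) ∈ Od d := natCast_mem (Od d) n

theorem Kd_denO {d : ℕ} {z : ℂ} (hz : z ∈ Kd d) : ∃ N : ℕ, 0 < N ∧ (N : ℂ) * z ∈ Od d := by
  obtain ⟨u, v, rfl⟩ := mem_Kd.mp hz
  refine ⟨u.den * v.den, Nat.mul_pos u.den_pos v.den_pos, ?_⟩
  have hu : (u : ℂ) * u.den = u.num := by
    have := Rat.mul_den_eq_num u
    exact_mod_cast this
  have hv : (v : ℂ) * v.den = v.num := by
    have := Rat.mul_den_eq_num v
    exact_mod_cast this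
  have e : ((u.den * v.den : ℕ) : ℂ) * (u + v * ((Real.sqrt (d : ℝ) : ℂ) * Complex.I)) =
      ((u.num * v.den : ℤ) : ℂ) + ((v.num * u.den : ℤ) : ℂ) *
        ((Real.sqrt (d : ℝ) : ℂ) * Complex.I) := by
    push_cast
    linear_combination (v.den : ℂ) * hu + (u.den : ℂ) * ((Real.sqrt (d : ℝ) : ℂ) * Complex.I) * hv
  rw [e]
  exact (Od d).add_mem (intCast_mem _ _) ((Od d).mul_mem (intCast_mem _ _) (sqrtI_Od d))

theorem Rat'.prod {d : ℕ} {G : Subgroup SL2C} (h : Rat' d G) {A : SL2C} (hA : A ∈ G)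
    (i j k l : Fin 2) : A i j * A k l ∈ Kd d := by
  obtain ⟨x, hx0, hx2, hx⟩ := h A hA
  have : A i j * A k l = (A i j / x) * (A k l / x) * x ^ 2 := by field_simp
  rw [this]
  exact (Kd d).mul_mem ((Kd d).mul_mem (hx i j) (hx k l)) hx2

theorem mul_entries_K {d : ℕ} {A B : SL2C} (hA : ∀ i j, A i j ∈ Kd d) (hB : ∀ i j, B i j ∈ Kd d) :
    ∀ i j, (A * B) i j ∈ Kd d := by
  intro i j
  fin_cases i <;> fin_cases j
  · change (A * B) 0 0 ∈ Kd d
    rw [mul00]
    exact (Kd d).add_mem ((Kd d).mul_mem (hA _ _) (hB _ _)) ((Kd d).mul_mem (hA _ _) (hB _ _))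
  · change (A * B) 0 1 ∈ Kd d
    rw [mul01]
    exact (Kd d).add_mem ((Kd d).mul_mem (hA _ _) (hB _ _)) ((Kd d).mul_mem (hA _ _) (hB _ _))
  · change (A * B) 1 0 ∈ Kd d
    rw [mul10]
    exact (Kd d).add_mem ((Kd d).mul_mem (hA _ _) (hB _ _)) ((Kd d).mul_mem (hA _ _) (hB _ _))
  · change (A * B) 1 1 ∈ Kd d
    rw [mul11]
    exact (Kd d).add_mem ((Kd d).mul_mem (hA _ _) (hB _ _)) ((Kd d).mul_mem (hA _ _) (hB _ _))

/-- conjugate of `T 1` -/
noncomputable def cT (A : SL2C) : SL2C := A * T 1 * A⁻¹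

theorem cT_00 (A : SL2C) : cT A 0 0 = 1 - A 0 0 * A 1 0 := by
  have h := det_eq A
  unfold cT
  simp only [mul00, mul01, mul10, mul11, inv00, inv01, inv10, inv11, T00, T01, T10, T11]
  linear_combination h

theorem cT_01 (A : SL2C) : cT A 0 1 = A 0 0 ^ 2 := by
  unfold cT
  simp only [mul00, mul01, mul10, mul11, inv00, inv01, inv10, inv11, T00, T01, T10, T11]
  ring

theorem cT_10 (A : SL2C) : cT A 1 0 = -A 1 0 ^ 2 := by
  unfold cT
  simp only [mul00, mul01, mul10, mul11, inv00, inv01, inv10, inv11, T00, T01, T10, T11]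
  ring

theorem cT_11 (A : SL2C) : cT A 1 1 = 1 + A 0 0 * A 1 0 := by
  have h := det_eq A
  unfold cT
  simp only [mul00, mul01, mul10, mul11, inv00, inv01, inv10, inv11, T00, T01, T10, T11]
  linear_combination h

theorem cT_K {d : ℕ} {G : Subgroup SL2C} (h : Rat' d G) {A : SL2C} (hA : A ∈ G) :
    ∀ i j, cT A i j ∈ Kd d := by
  intro i j
  fin_cases i <;> fin_cases j
  · change cT A 0 0 ∈ Kd d
    rw [cT_00]
    exact (Kd d).sub_mem (Kd d).one_mem (h.prod hA _ _ _ _)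
  · change cT A 0 1 ∈ Kd d
    rw [cT_01, pow_two]
    exact h.prod hA _ _ _ _
  · change cT A 1 0 ∈ Kd d
    rw [cT_10, pow_two]
    exact (Kd d).neg_mem (h.prod hA _ _ _ _)
  · change cT A 1 1 ∈ Kd d
    rw [cT_11]
    exact (Kd d).add_mem (Kd d).one_mem (h.prod hA _ _ _ _)

theorem stmD1 : StmD1 := by
  intro G τ d hd hτ hG hrat htr
  obtain ⟨hind, hT1, hTτ, hneg, hstab, ⟨A₀, hA₀, hc₀⟩, C, hQG⟩ := hG
  set O := Od d with hO
  set a := A₀ 0 0 with ha
  set c := A₀ 1 0 with hc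
  set α := a / c with hα
  set κ := 1 / c ^ 2 with hκ
  have hαK : α ∈ Kd d := by
    have : α = (a * c) / (c * c) := by rw [hα]; field_simp
    rw [this]
    exact (Kd d).div_mem (hrat.prod hA₀ _ _ _ _) (hrat.prod hA₀ _ _ _ _)
  have hκK : κ ∈ Kd d := by
    rw [hκ, pow_two]
    exact (Kd d).div_mem (Kd d).one_mem (hrat.prod hA₀ _ _ _ _)
  obtain ⟨M₁, hM₁, hM₁α⟩ := Kd_denO hαK
  obtain ⟨M₂, hM₂, hM₂κ⟩ := Kd_denO hκK
  set N : ℕ := M₁ * M₂ with hN
  have hNpos : 0 < N := Nat.mul_pos hM₁ hM₂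
  have hNα : (N : ℂ) * α ∈ O := by
    have : (N : ℂ) * α = (M₂ : ℂ) * ((M₁ : ℂ) * α) := by rw [hN]; push_cast; ring
    rw [this]
    exact O.mul_mem (natCast_Od d _) hM₁α
  have hNκ : (N : ℂ) * κ ∈ O := by
    have : (N : ℂ) * κ = (M₁ : ℂ) * ((M₂ : ℂ) * κ) := by rw [hN]; push_cast; ring
    rw [this]
    exact O.mul_mem (natCast_Od d _) hM₂κ
  have hNO : (N : ℂ) ∈ O := natCast_Od d N
  -- elements of the group
  set g₃ := cT A₀ with hg₃
  have hg₃G : g₃ ∈ G := G.mul_mem (G.mul_mem hA₀ hT1) (G.inv_mem hA₀)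
  have hT1K : ∀ i j, T 1 i j ∈ Kd d := by
    intro i j
    fin_cases i <;> fin_cases j
    · exact (Kd d).one_mem
    · exact (Kd d).one_mem
    · exact (Kd d).zero_mem
    · exact (Kd d).one_mem
  have hg₃K := cT_K hrat hA₀
  -- entries of rational elements
  have key : ∀ B ∈ G, (∀ i j, B i j ∈ Kd d) → ∀ i j, ((N ^ 2 : ℕ) : ℂ) * B i j ∈ O := by
    intro B hB hBK
    have t1 := htr B hB hBK
    have t2 := htr (B * T 1) (G.mul_mem hB hT1) (mul_entries_K hBK hT1K)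
    have t3 := htr (B * g₃) (G.mul_mem hB hg₃G) (mul_entries_K hBK hg₃K)
    have t4 := htr (B * T 1 * g₃) (G.mul_mem (G.mul_mem hB hT1) hg₃G)
      (mul_entries_K (mul_entries_K hBK hT1K) hg₃K)
    have h10 : B 1 0 ∈ O := by
      have : B 1 0 = trc (B * T 1) - trc B := by
        unfold trc
        simp only [mul00, mul01, mul10, mul11, T00, T01, T10, T11]
        ring
      rw [this]
      exact O.sub_mem t2 t1
    have e1 : B 0 0 = α * B 1 0 - κ * (trc (B * T 1 * g₃) - trc (B * T 1) - trc (B * g₃) + trc B) := by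
      unfold trc
      simp only [mul00, mul01, mul10, mul11, T00, T01, T10, T11, hg₃, cT_00, cT_01, cT_10, cT_11]
      rw [hα, hκ, ← ha, ← hc]
      field_simp
      ring
    have h00 : (N : ℂ) * B 0 0 ∈ O := by
      rw [e1, mul_sub, ← mul_assoc, ← mul_assoc]
      exact O.sub_mem (O.mul_mem hNα h10) (O.mul_mem hNκ
        (O.add_mem (O.sub_mem (O.sub_mem t4 t2) t3) t1))
    have h11 : (N : ℂ) * B 1 1 ∈ O := by
      have : (N : ℂ) * B 1 1 = N * trc B - N * B 0 0 := by unfold trc; ring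
      rw [this]
      exact O.sub_mem (O.mul_mem hNO t1) h00
    have e2 : B 0 1 = -(α * B 0 0) + α ^ 2 * B 1 0 + α * B 1 1 - κ * (trc (B * g₃) - trc B) := by
      unfold trc
      simp only [mul00, mul01, mul10, mul11, hg₃, cT_00, cT_01, cT_10, cT_11]
      rw [hα, hκ, ← ha, ← hc]
      field_simp
      ring
    have h01 : ((N ^ 2 : ℕ) : ℂ) * B 0 1 ∈ O := by
      have : ((N ^ 2 : ℕ) : ℂ) * B 0 1 = -((N * α) * (N * B 0 0)) + (N * α) * (N * α) * B 1 0 +
          (N * α) * (N * B 1 1) - N * ((N * κ) * (trc (B * g₃) - trc B)) := by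
        rw [e2]; push_cast; ring
      rw [this]
      exact O.sub_mem (O.add_mem (O.add_mem (O.neg_mem (O.mul_mem hNα h00))
        (O.mul_mem (O.mul_mem hNα hNα) h10)) (O.mul_mem hNα h11))
        (O.mul_mem hNO (O.mul_mem hNκ (O.sub_mem t3 t1)))
    have hup : ∀ z : ℂ, (N : ℂ) * z ∈ O → ((N ^ 2 : ℕ) : ℂ) * z ∈ O := by
      intro z hz
      have : ((N ^ 2 : ℕ) : ℂ) * z = N * (N * z) := by push_cast; ring
      rw [this]
      exact O.mul_mem hNO hz
    intro i j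
    fin_cases i <;> fin_cases j
    · exact hup _ h00
    · exact h01
    · exact hup _ (O.mul_mem hNO h10)
    · exact hup _ h11
  -- the products
  set M : ℂ := ((N ^ 2 : ℕ) : ℂ) with hM
  have hMO : M ∈ O := natCast_Od d _
  have col : ∀ A ∈ G, M * (A 0 0 * A 1 0) ∈ O ∧ M * (A 0 0 ^ 2) ∈ O ∧ M * (A 1 0 ^ 2) ∈ O := by
    intro A hA
    have hcG : cT A ∈ G := G.mul_mem (G.mul_mem hA hT1) (G.inv_mem hA)
    have h1 := key (cT A) hcG (cT_K hrat hA)
    refine ⟨?_, ?_, ?_⟩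
    · have h2 := h1 1 1
      rw [cT_11] at h2
      have : M * (A 0 0 * A 1 0) = M * (1 + A 0 0 * A 1 0) - M := by ring
      rw [this]
      exact O.sub_mem h2 hMO
    · have h2 := h1 0 1
      rwa [cT_01] at h2
    · have h2 := h1 1 0
      rw [cT_10] at h2
      have : M * (A 1 0 ^ 2) = -(M * (-A 1 0 ^ 2)) := by ring
      rw [this]
      exact O.neg_mem h2
  refine ⟨N ^ 4, by positivity, ?_⟩
  intro A hA
  set p := A 0 0 with hp
  set r := A 0 1 with hr
  set s := A 1 0 with hs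
  set u := A 1 1 with hu
  have hdet : p * u - r * s = 1 := det_eq A
  obtain ⟨hps, hpp, hss⟩ := col A hA
  obtain ⟨hxy, hxx, hyy⟩ := col (A * A₀) (G.mul_mem hA hA₀)
  have ex : (A * A₀) 0 0 = p * a + r * c := mul00 A A₀
  have ey : (A * A₀) 1 0 = s * a + u * c := mul10 A A₀
  set x := p * a + r * c with hx
  set y := s * a + u * c with hy
  rw [ex, ey] at hxy
  rw [ex] at hxx
  rw [ey] at hyy
  have hc1 : s * x - p * y = -c := by
    rw [hx, hy]
    linear_combination (-c) * hdet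
  -- the mixed products
  have hcG : cT A * cT (A * A₀) ∈ G := G.mul_mem (G.mul_mem (G.mul_mem hA hT1) (G.inv_mem hA))
    (G.mul_mem (G.mul_mem (G.mul_mem hA hA₀) hT1) (G.inv_mem (G.mul_mem hA hA₀)))
  have hmix := key _ hcG (mul_entries_K (cT_K hrat hA) (cT_K hrat (G.mul_mem hA hA₀)))
  have m00 : M * (c * p * y) ∈ O := by
    have h1 := hmix 0 0
    rw [mul00, cT_00, cT_01, cT_00, cT_10, ex, ey] at h1
    have : M * (c * p * y) = M - M * (p * s) - M * (x * y) - M * ((1 - p * s) * (1 - x * y) +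
        p ^ 2 * -y ^ 2) := by
      linear_combination (M * p * y) * hc1
    rw [this]
    exact O.sub_mem (O.sub_mem (O.sub_mem hMO hps) hxy) h1
  have m01 : M * (c * p * x) ∈ O := by
    have h1 := hmix 0 1
    rw [mul01, cT_00, cT_01, cT_01, cT_11, ex, ey] at h1
    have : M * (c * p * x) = M * ((1 - p * s) * x ^ 2 + p ^ 2 * (1 + x * y)) - M * x ^ 2 -
        M * p ^ 2 := by
      linear_combination (M * p * x) * hc1
    rw [this]
    exact O.sub_mem (O.sub_mem h1 hxx) hpp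
  have m10 : M * (c * s * y) ∈ O := by
    have h1 := hmix 1 0
    rw [mul10, cT_10, cT_11, cT_00, cT_10, ex, ey] at h1
    have : M * (c * s * y) = -(M * s ^ 2) - M * y ^ 2 - M * (-s ^ 2 * (1 - x * y) +
        (1 + p * s) * -y ^ 2) := by
      linear_combination (M * s * y) * hc1
    rw [this]
    exact O.sub_mem (O.sub_mem (O.neg_mem hss) hyy) h1
  have m11 : M * (c * s * x) ∈ O := by
    have h1 := hmix 1 1
    rw [mul11, cT_10, cT_11, cT_01, cT_11, ex, ey] at h1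
    have : M * (c * s * x) = M * (-s ^ 2 * x ^ 2 + (1 + p * s) * (1 + x * y)) - M - M * (x * y) -
        M * (p * s) := by
      linear_combination (M * s * x) * hc1
    rw [this]
    exact O.sub_mem (O.sub_mem (O.sub_mem h1 hMO) hxy) hps
  -- products with the second column
  have hacc : α * c = a := by rw [hα]; field_simp
  have hκc : κ * c ^ 2 = 1 := by rw [hκ]; field_simp
  have lin : ∀ z w : ℂ, M * z ∈ O → M * w ∈ O → (N : ℂ) * (M * (κ * z - α * w)) ∈ O := by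
    intro z w hz hw
    have : (N : ℂ) * (M * (κ * z - α * w)) = (N * κ) * (M * z) - (N * α) * (M * w) := by ring
    rw [this]
    exact O.sub_mem (O.mul_mem hNκ hz) (O.mul_mem hNα hw)
  have hpr : (N : ℂ) * (M * (p * r)) ∈ O := by
    have e : p * r = κ * (c * p * x) - α * p ^ 2 := by
      rw [hx]
      linear_combination (-(p * r)) * hκc + (-(κ * c * p ^ 2)) * hacc.symm +
        (-(α * p ^ 2)) * hκc
    rw [e]
    exact lin _ _ m01 hpp
  have hpu : (N : ℂ) * (M * (p * u)) ∈ O := by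
    have e : p * u = κ * (c * p * y) - α * (p * s) := by
      rw [hy]
      linear_combination (-(p * u)) * hκc + (-(κ * c * p * s)) * hacc.symm +
        (-(α * p * s)) * hκc
    rw [e]
    exact lin _ _ m00 hps
  have hsr : (N : ℂ) * (M * (s * r)) ∈ O := by
    have e : s * r = κ * (c * s * x) - α * (p * s) := by
      rw [hx]
      linear_combination (-(s * r)) * hκc + (-(κ * c * p * s)) * hacc.symm +
        (-(α * p * s)) * hκc
    rw [e]
    exact lin _ _ m11 hps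
  have hsu : (N : ℂ) * (M * (s * u)) ∈ O := by
    have e : s * u = κ * (c * s * y) - α * s ^ 2 := by
      rw [hy]
      linear_combination (-(s * u)) * hκc + (-(κ * c * s ^ 2)) * hacc.symm +
        (-(α * s ^ 2)) * hκc
    rw [e]
    exact lin _ _ m10 hss
  have hrr : (N : ℂ) * ((N : ℂ) * (M * (r * r))) ∈ O := by
    have e : r * r = κ * x ^ 2 - α ^ 2 * p ^ 2 - 2 * α * (p * r) := by
      rw [hx, ← hacc]
      linear_combination (-(α ^ 2 * p ^ 2 + 2 * α * p * r + r ^ 2)) * hκc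
    have : (N : ℂ) * ((N : ℂ) * (M * (r * r))) = N * ((N * κ) * (M * x ^ 2)) -
        (N * α) * ((N * α) * (M * p ^ 2)) - 2 * ((N * α) * (N * (M * (p * r)))) := by
      rw [e]; ring
    rw [this]
    exact O.sub_mem (O.sub_mem (O.mul_mem hNO (O.mul_mem hNκ hxx))
      (O.mul_mem hNα (O.mul_mem hNα hpp))) (O.mul_mem (ofNat_mem O 2) (O.mul_mem hNα hpr))
  have huu : (N : ℂ) * ((N : ℂ) * (M * (u * u))) ∈ O := by
    have e : u * u = κ * y ^ 2 - α ^ 2 * s ^ 2 - 2 * α * (s * u) := by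
      rw [hy, ← hacc]
      linear_combination (-(α ^ 2 * s ^ 2 + 2 * α * s * u + u ^ 2)) * hκc
    have : (N : ℂ) * ((N : ℂ) * (M * (u * u))) = N * ((N * κ) * (M * y ^ 2)) -
        (N * α) * ((N * α) * (M * s ^ 2)) - 2 * ((N * α) * (N * (M * (s * u)))) := by
      rw [e]; ring
    rw [this]
    exact O.sub_mem (O.sub_mem (O.mul_mem hNO (O.mul_mem hNκ hyy))
      (O.mul_mem hNα (O.mul_mem hNα hss))) (O.mul_mem (ofNat_mem O 2) (O.mul_mem hNα hsu))
  have hru : (N : ℂ) * ((N : ℂ) * (M * (r * u))) ∈ O := by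
    have e : r * u = κ * (x * y) - α ^ 2 * (p * s) - α * (p * u) - α * (s * r) := by
      rw [hx, hy, ← hacc]
      linear_combination (-(α ^ 2 * p * s + α * p * u + α * r * s + r * u)) * hκc
    have : (N : ℂ) * ((N : ℂ) * (M * (r * u))) = N * ((N * κ) * (M * (x * y))) -
        (N * α) * ((N * α) * (M * (p * s))) - (N * α) * (N * (M * (p * u))) -
        (N * α) * (N * (M * (s * r))) := by
      rw [e]; ring
    rw [this]
    exact O.sub_mem (O.sub_mem (O.sub_mem (O.mul_mem hNO (O.mul_mem hNκ hxy))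
      (O.mul_mem hNα (O.mul_mem hNα hps))) (O.mul_mem hNα hpu)) (O.mul_mem hNα hsr)
  -- conclusion
  have f0 : ∀ z : ℂ, M * z ∈ O → ((N ^ 4 : ℕ) : ℂ) * z ∈ O := by
    intro z hz
    have : ((N ^ 4 : ℕ) : ℂ) * z = M * (M * z) := by rw [hM]; push_cast; ring
    rw [this]
    exact O.mul_mem hMO hz
  have f1 : ∀ z : ℂ, (N : ℂ) * (M * z) ∈ O → ((N ^ 4 : ℕ) : ℂ) * z ∈ O := by
    intro z hz
    have : ((N ^ 4 : ℕ) : ℂ) * z = N * (N * (M * z)) := by rw [hM]; push_cast; ring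
    rw [this]
    exact O.mul_mem hNO hz
  have f2 : ∀ z : ℂ, (N : ℂ) * ((N : ℂ) * (M * z)) ∈ O → ((N ^ 4 : ℕ) : ℂ) * z ∈ O := by
    intro z hz
    have : ((N ^ 4 : ℕ) : ℂ) * z = N * (N * (M * z)) := by rw [hM]; push_cast; ring
    rw [this]
    exact hz
  have c00 : ((N ^ 4 : ℕ) : ℂ) * (p * p) ∈ O := f0 _ (by rw [← pow_two]; exact hpp)
  have c01 : ((N ^ 4 : ℕ) : ℂ) * (p * r) ∈ O := f1 _ hpr
  have c02 : ((N ^ 4 : ℕ) : ℂ) * (p * s) ∈ O := f0 _ hps
  have c03 : ((N ^ 4 : ℕ) : ℂ) * (p * u) ∈ O := f1 _ hpu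
  have c11 : ((N ^ 4 : ℕ) : ℂ) * (r * r) ∈ O := f2 _ hrr
  have c12 : ((N ^ 4 : ℕ) : ℂ) * (s * r) ∈ O := f1 _ hsr
  have c13 : ((N ^ 4 : ℕ) : ℂ) * (r * u) ∈ O := f2 _ hru
  have c22 : ((N ^ 4 : ℕ) : ℂ) * (s * s) ∈ O := f0 _ (by rw [← pow_two]; exact hss)
  have c23 : ((N ^ 4 : ℕ) : ℂ) * (s * u) ∈ O := f1 _ hsu
  have c33 : ((N ^ 4 : ℕ) : ℂ) * (u * u) ∈ O := f2 _ huu
  intro i j k l
  fin_cases i <;> fin_cases j <;> fin_cases k <;> fin_cases l
  · exact c00
  · exact c01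
  · exact c02
  · exact c03
  · change ((N ^ 4 : ℕ) : ℂ) * (r * p) ∈ O; rw [mul_comm r p]; exact c01
  · exact c11
  · change ((N ^ 4 : ℕ) : ℂ) * (r * s) ∈ O; rw [mul_comm r s]; exact c12
  · exact c13
  · change ((N ^ 4 : ℕ) : ℂ) * (s * p) ∈ O; rw [mul_comm s p]; exact c02
  · exact c12
  · exact c22
  · exact c23
  · change ((N ^ 4 : ℕ) : ℂ) * (u * p) ∈ O; rw [mul_comm u p]; exact c03
  · change ((N ^ 4 : ℕ) : ℂ) * (u * r) ∈ O; rw [mul_comm u r]; exact c13
  · change ((N ^ 4 : ℕ) : ℂ) * (u * s) ∈ O; rw [mul_comm u s]; exact c23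
  · exact c33

end Pool.Agent.N530.LS
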