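import Pool.Agent.N530.LS.D1
import Pool.Agent.N530.LS.C2b
import Pool.Agent.N530.LS.A1

/-!
# D2: finite index by class group and units
-/

set_option autoImplicit false

namespace Pool.Agent.N530.LS

open NumberField

theorem fin_rep {α ι : Type} [Finite ι] (p : α → ι → Prop) (hp : ∀ a, ∃ i, p a i) :
    ∃ S : Finset α, ∀ a, ∃ s ∈ S, ∃ i, p s i ∧ p a i := by
  classical
  have := Fintype.ofFinite ι
  rcases isEmpty_or_nonempty α with hα | ⟨⟨a₀⟩⟩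
  · exact ⟨∅, fun a => (hα.false a).elim⟩
  · let g : ι → α := fun i => if h : ∃ a, p a i then h.choose else a₀
    refine ⟨Finset.univ.image g, fun a => ?_⟩
    obtain ⟨i, hi⟩ := hp a
    refine ⟨g i, Finset.mem_image_of_mem _ (Finset.mem_univ _), i, ?_, hi⟩
    have h : ∃ a, p a i := ⟨a, hi⟩
    simp only [g, h, dif_pos]
    exact h.choose_spec

/-- an entry of a matrix -/
def en2 (A : SL2C) (e : Fin 2 × Fin 2) : ℂ := A e.1 e.2

theorem exists_en2 (A : SL2C) : ∃ e, en2 A e ≠ 0 := by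
  by_contra h
  push Not at h
  have h0 := det_eq A
  have h1 : A 0 0 = 0 := h (0, 0)
  have h2 : A 0 1 = 0 := h (0, 1)
  rw [h1, h2] at h0
  simp at h0

theorem inv_en2 (A : SL2C) (i j : Fin 2) : ∃ e, A⁻¹ i j = en2 A e ∨ A⁻¹ i j = -en2 A e := by
  fin_cases i <;> fin_cases j
  · exact ⟨(1, 1), Or.inl (inv00 A)⟩
  · exact ⟨(0, 1), Or.inr (inv01 A)⟩
  · exact ⟨(1, 0), Or.inr (inv10 A)⟩
  · exact ⟨(0, 0), Or.inl (inv11 A)⟩

theorem mul_ij (A B : SL2C) (i j : Fin 2) : (A * B) i j = A i 0 * B 0 j + A i 1 * B 1 j := by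
  fin_cases i <;> fin_cases j
  · exact mul00 A B
  · exact mul01 A B
  · exact mul10 A B
  · exact mul11 A B

theorem finite_units {K : Type} [Field K] [NumberField K] (φ : K →+* ℂ)
    (h2 : Module.finrank ℚ K = 2) (hφ : ∃ x, (φ x).im ≠ 0) : Finite (𝓞 K)ˣ := by
  obtain ⟨b₀, b₁, e, he, hφe, hind⟩ := exists_lattice φ h2 hφ
  have hf := lv_finite _ _ hind 0 1
  have hb : ∀ u : (𝓞 K)ˣ, ‖φ ((u : 𝓞 K) : K)‖ ≤ 1 := by
    intro u
    have h3 := absNorm_eq φ h2 hφ (u : 𝓞 K)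
    rw [Ideal.span_singleton_eq_top.mpr u.isUnit, Ideal.absNorm_top, Nat.cast_one] at h3
    have h4 : ‖φ ((u : 𝓞 K) : K)‖ ^ 2 ≤ 1 ^ 2 := by rw [← h3]; norm_num
    exact (sq_le_sq₀ (norm_nonneg _) zero_le_one).mp h4
  have hf' : Finite {v : ℤ × ℤ | ‖0 + lv (φ b₀) (φ b₁) v‖ ≤ 1} := hf
  refine Finite.of_injective (β := {v : ℤ × ℤ | ‖0 + lv (φ b₀) (φ b₁) v‖ ≤ 1})
    (fun u => ⟨e.symm (u : 𝓞 K), ?_⟩) ?_
  · rw [Set.mem_ofPred_eq, zero_add, ← hφe, AddEquiv.apply_symm_apply]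
    exact hb u
  · intro u v h
    have h3 := congrArg Subtype.val h
    exact Units.ext (e.symm.injective h3)

theorem stmD2 : StmD2 := by
  classical
  intro G d hd hrat hN
  obtain ⟨N, hN0, hN⟩ := hN
  have := Kd_numberField d hd
  set ι : 𝓞 (Kd d) →+* ℂ := (Kd d).subtype.comp (algebraMap (𝓞 (Kd d)) (Kd d)) with hι
  have hιinj : Function.Injective ι := by
    intro x y h
    exact RingOfIntegers.ext (Subtype.ext h)
  have hιO : ∀ x, ι x ∈ Od d := OK_mem d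
  have hιK : ∀ x, ι x ∈ Kd d := fun x => (OK_mem d x).2
  have hfinU : Finite (𝓞 (Kd d))ˣ := finite_units (Kd d).subtype (Kd_finrank d hd) (Kd_im d hd)
  have hNC : (N : ℂ) ≠ 0 := by exact_mod_cast hN0.ne'
  have hN0' : ((N : ℕ) : 𝓞 (Kd d)) ≠ 0 := by exact_mod_cast hN0.ne'
  -- the products as integers
  have hW : ∀ A : G, ∀ e e' : Fin 2 × Fin 2, ∃ x : 𝓞 (Kd d),
      ι x = N * (en2 A.1 e * en2 A.1 e') := fun A e e' =>
    OK_lift d (hN A.1 A.2 e.1 e.2 e'.1 e'.2)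
  choose W hW using hW
  have hez : ∀ A : G, ∃ e, en2 A.1 e ≠ 0 := fun A => exists_en2 A.1
  choose ez hez using hez
  let w : G → 𝓞 (Kd d) := fun A => W A (ez A) (ez A)
  have hw0 : ∀ A, w A ≠ 0 := by
    intro A h
    have h1 := hW A (ez A) (ez A)
    have h2 : ι (W A (ez A) (ez A)) = 0 := by
      have : W A (ez A) (ez A) = 0 := h
      rw [this, map_zero]
    rw [h2] at h1
    exact mul_ne_zero hNC (mul_ne_zero (hez A) (hez A)) h1.symm
  let cI : G → Ideal (𝓞 (Kd d)) := fun A =>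
    Ideal.span (Set.range fun x : (Fin 2 × Fin 2) × (Fin 2 × Fin 2) => W A x.1 x.2)
  let bI : G → Ideal (𝓞 (Kd d)) := fun A => Ideal.span (Set.range fun e => W A (ez A) e)
  have hNc : ∀ A, ((N : ℕ) : 𝓞 (Kd d)) ∈ cI A := by
    intro A
    have : ((N : ℕ) : 𝓞 (Kd d)) = W A (0, 0) (1, 1) - W A (0, 1) (1, 0) := by
      apply hιinj
      rw [map_natCast, map_sub, hW, hW]
      have := det_eq A.1
      unfold en2
      linear_combination (-(N : ℂ)) * this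
    rw [this]
    exact Ideal.sub_mem _ (Ideal.subset_span ⟨((0, 0), (1, 1)), rfl⟩)
      (Ideal.subset_span ⟨((0, 1), (1, 0)), rfl⟩)
  have hc0 : ∀ A, cI A ≠ 0 := by
    intro A h
    have := hNc A
    rw [h] at this
    exact hN0' this
  have hb0 : ∀ A, bI A ≠ 0 := by
    intro A h
    have : w A ∈ bI A := Ideal.subset_span ⟨ez A, rfl⟩
    rw [h] at this
    exact hw0 A this
  have hrel : ∀ A, bI A * bI A = Ideal.span {w A} * cI A := by
    intro A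
    have hprod : ∀ e e', W A (ez A) e * W A (ez A) e' = w A * W A e e' := by
      intro e e'
      apply hιinj
      rw [map_mul, map_mul, hW, hW, hW, hW]
      ring
    apply le_antisymm
    · rw [Ideal.span_mul_span, Ideal.span_le]
      intro z hz
      obtain ⟨_, ⟨e, rfl⟩, _, ⟨e', rfl⟩, rfl⟩ := Set.mem_mul.mp hz
      rw [hprod]
      exact Ideal.mul_mem_mul (Ideal.mem_span_singleton_self _)
        (Ideal.subset_span ⟨(e, e'), rfl⟩)
    · rw [Ideal.span_mul_span, Ideal.span_le]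
      intro z hz
      obtain ⟨_, rfl, _, ⟨⟨e, e'⟩, rfl⟩, rfl⟩ := Set.mem_mul.mp hz
      simp only
      rw [← hprod]
      exact Ideal.mul_mem_mul (Ideal.subset_span ⟨e, rfl⟩) (Ideal.subset_span ⟨e', rfl⟩)
  -- step 1
  have hfinI : {I : Ideal (𝓞 (Kd d)) | ((N : ℕ) : 𝓞 (Kd d)) ∈ I}.Finite := by
    refine (Ideal.finite_setOfPred_absNorm_le (S := 𝓞 (Kd d))
      (Ideal.absNorm (Ideal.span {((N : ℕ) : 𝓞 (Kd d))}))).subset ?_
    intro I hI
    apply Nat.le_of_dvd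
    · rw [Nat.pos_iff_ne_zero, Ne, Ideal.absNorm_eq_zero_iff, Ideal.span_singleton_eq_bot]
      exact hN0'
    · apply Ideal.absNorm_dvd_absNorm_of_le
      rw [Ideal.span_le, Set.singleton_subset_iff]
      exact hI
  have hfinI' : Finite {I : Ideal (𝓞 (Kd d)) | ((N : ℕ) : 𝓞 (Kd d)) ∈ I} := hfinI
  obtain ⟨S₁, hS₁⟩ := fin_rep (α := G)
    (ι := {I : Ideal (𝓞 (Kd d)) | ((N : ℕ) : 𝓞 (Kd d)) ∈ I} × ClassGroup (𝓞 (Kd d)))
    (fun A i => cI A = i.1 ∧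
      ClassGroup.mk0 ⟨bI A, mem_nonZeroDivisors_of_ne_zero (hb0 A)⟩ = i.2)
    (fun A => ⟨(⟨cI A, hNc A⟩, _), rfl, rfl⟩)
  -- step 2
  have hstep : ∀ A : G, ∃ i : S₁ × (𝓞 (Kd d))ˣ, ∃ x y : 𝓞 (Kd d), x ≠ 0 ∧ y ≠ 0 ∧
      w i.1 * y ^ 2 = i.2 * x ^ 2 * w A := by
    intro A
    obtain ⟨s, hs, ⟨I, Cl⟩, ⟨h1, h2⟩, ⟨h3, h4⟩⟩ := hS₁ A
    have h5 : ClassGroup.mk0 ⟨bI A, mem_nonZeroDivisors_of_ne_zero (hb0 A)⟩ =
        ClassGroup.mk0 ⟨bI s, mem_nonZeroDivisors_of_ne_zero (hb0 s)⟩ := by rw [h2, h4]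
    obtain ⟨x, y, hx, hy, hxy⟩ := ClassGroup.mk0_eq_mk0_iff.mp h5
    have hxy' : Ideal.span {x} * bI A = Ideal.span {y} * bI s := hxy
    have h6 : Ideal.span {x ^ 2 * w A} * cI A = Ideal.span {y ^ 2 * w s} * cI A := by
      have e1 : Ideal.span {x ^ 2 * w A} * cI A =
          (Ideal.span {x} * bI A) * (Ideal.span {x} * bI A) := by
        rw [← Ideal.span_singleton_mul_span_singleton, mul_assoc, ← hrel, ← Ideal.span_singleton_pow]
        ring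
      have e2 : Ideal.span {y ^ 2 * w s} * cI s =
          (Ideal.span {y} * bI s) * (Ideal.span {y} * bI s) := by
        rw [← Ideal.span_singleton_mul_span_singleton, mul_assoc, ← hrel, ← Ideal.span_singleton_pow]
        ring
      have e3 : cI A = cI s := by rw [h1, h3]
      rw [e1, hxy', e3, ← e2]
    have h7 := mul_right_cancel₀ (hc0 A) h6
    rw [Ideal.span_singleton_eq_span_singleton] at h7
    obtain ⟨u, hu⟩ := h7
    refine ⟨(⟨s, hs⟩, u), x, y, hx, hy, ?_⟩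
    simp only
    linear_combination -hu
  obtain ⟨S₂, hS₂⟩ := fin_rep (α := G) (ι := S₁ × (𝓞 (Kd d))ˣ)
    (fun A i => ∃ x y : 𝓞 (Kd d), x ≠ 0 ∧ y ≠ 0 ∧ w i.1 * y ^ 2 = i.2 * x ^ 2 * w A) hstep
  have hK : ∀ A : G, ∃ s ∈ S₂, ∀ i j, (s.1⁻¹ * A.1) i j ∈ Kd d := by
    intro A
    obtain ⟨s, hs, ⟨s₁, u⟩, ⟨x₂, y₂, hx₂, hy₂, h2⟩, ⟨x, y, hx, hy, h1⟩⟩ := hS₂ A
    refine ⟨s, hs, ?_⟩
    simp only at h1 h2
    -- the ratio of the nonzero entries
    set a := en2 A.1 (ez A) with ha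
    set b := en2 s.1 (ez s) with hb
    have ha0 : a ≠ 0 := hez A
    have hb0' : b ≠ 0 := hez s
    have hwA : ι (w A) = N * (a * a) := hW A _ _
    have hws : ι (w s) = N * (b * b) := hW s _ _
    have h1' := congrArg ι h1
    have h2' := congrArg ι h2
    rw [map_mul, map_mul, map_mul, map_pow, map_pow] at h1' h2'
    rw [hwA] at h1'
    rw [hws] at h2'
    have hne : ∀ z : 𝓞 (Kd d), z ≠ 0 → ι z ≠ 0 := by
      intro z hz h
      exact hz (hιinj (by rw [h, map_zero]))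
    have hxC := hne x hx
    have hyC := hne y hy
    have hx₂C := hne x₂ hx₂
    have hy₂C := hne y₂ hy₂
    have huC := hne u u.ne_zero
    have hw₁C := hne _ (hw0 s₁)
    have hratio : a / b ∈ Kd d := by
      have e1 : (a * ι x * ι y₂) ^ 2 = (b * ι x₂ * ι y) ^ 2 := by
        have e2 : (N : ℂ) * ι u * ι (w s₁) ≠ 0 := mul_ne_zero (mul_ne_zero hNC huC) hw₁C
        apply mul_left_cancel₀ e2
        linear_combination (-(ι (w s₁)) * ι y₂ ^ 2) * h1' + (ι (w s₁) * ι y ^ 2) * h2'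
      have e3 : (a * ι x * ι y₂ - b * ι x₂ * ι y) * (a * ι x * ι y₂ + b * ι x₂ * ι y) = 0 := by
        linear_combination e1
      rcases mul_eq_zero.mp e3 with h | h
      · have : a / b = (ι x₂ * ι y) / (ι x * ι y₂) := by
          rw [div_eq_div_iff hb0' (mul_ne_zero hxC hy₂C)]
          linear_combination h
        rw [this]
        exact (Kd d).div_mem ((Kd d).mul_mem (hιK _) (hιK _)) ((Kd d).mul_mem (hιK _) (hιK _))
      · have : a / b = -((ι x₂ * ι y) / (ι x * ι y₂)) := by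
          rw [← neg_div, div_eq_div_iff hb0' (mul_ne_zero hxC hy₂C)]
          linear_combination h
        rw [this]
        exact (Kd d).neg_mem
          ((Kd d).div_mem ((Kd d).mul_mem (hιK _) (hιK _)) ((Kd d).mul_mem (hιK _) (hιK _)))
    have hprod : ∀ e e', en2 s.1 e * en2 A.1 e' ∈ Kd d := by
      intro e e'
      have e1 : en2 s.1 e * en2 A.1 e' = (en2 s.1 e * b) * (a / b) * ((en2 A.1 e' * a) / (a * a)) := by
        field_simp
      rw [e1]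
      refine (Kd d).mul_mem ((Kd d).mul_mem (hrat.prod s.2 _ _ _ _) hratio) ?_
      exact (Kd d).div_mem (hrat.prod A.2 _ _ _ _) (hrat.prod A.2 _ _ _ _)
    have hterm : ∀ i j k l, s.1⁻¹ i j * A.1 k l ∈ Kd d := by
      intro i j k l
      obtain ⟨e, he | he⟩ := inv_en2 s.1 i j
      · rw [he]; exact hprod e (k, l)
      · rw [he, neg_mul]; exact (Kd d).neg_mem (hprod e (k, l))
    intro i j
    rw [mul_ij]
    exact (Kd d).add_mem (hterm _ _ _ _) (hterm _ _ _ _)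
  -- step 3
  set M : 𝓞 (Kd d) := ((N ^ 2 : ℕ) : 𝓞 (Kd d)) with hM
  have hM0 : M ≠ 0 := by
    rw [hM]; exact_mod_cast (pow_pos hN0 2).ne'
  have hfinq : Finite (𝓞 (Kd d) ⧸ Ideal.span {M}) :=
    Ideal.finiteQuotientOfFreeOfNeBot _ (by rwa [Ne, Ideal.span_singleton_eq_bot])
  let Γ := {B : SL2C // B ∈ G ∧ ∀ i j, B i j ∈ Kd d}
  have hent : ∀ B : Γ, ∀ e : Fin 2 × Fin 2, ∃ x : 𝓞 (Kd d), ι x = N * en2 B.1 e := by
    intro B e
    apply OK_lift d
    refine ⟨?_, (Kd d).mul_mem (natCast_mem _ _) (B.2.2 _ _)⟩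
    change IsIntegral ℤ _
    have h1 : IsIntegral ℤ (((N : ℂ) * en2 B.1 e) ^ 2) := by
      have h2 : (N : ℂ) * (en2 B.1 e * en2 B.1 e) ∈ Od d := hN B.1 B.2.1 _ _ _ _
      have h3 : ((N : ℂ) * en2 B.1 e) ^ 2 = N * (N * (en2 B.1 e * en2 B.1 e)) := by ring
      rw [h3]
      exact ((Od d).mul_mem (natCast_Od d N) h2).1
    exact IsIntegral.of_pow two_pos h1
  choose E hE using hent
  obtain ⟨S₃, hS₃⟩ := fin_rep (α := Γ) (ι := (Fin 2 × Fin 2) → 𝓞 (Kd d) ⧸ Ideal.span {M})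
    (fun B i => ∀ e, Ideal.Quotient.mk (Ideal.span {M}) (E B e) = i e)
    (fun B => ⟨fun e => Ideal.Quotient.mk (Ideal.span {M}) (E B e), fun e => rfl⟩)
  refine ⟨(S₂ ×ˢ S₃).image (fun x => x.1.1 * x.2.1), ?_⟩
  intro A hA
  obtain ⟨s, hs, hsK⟩ := hK ⟨A, hA⟩
  obtain ⟨b, hb, i, hbi, hAi⟩ := hS₃ ⟨s.1⁻¹ * A, G.mul_mem (G.inv_mem s.2) hA, hsK⟩
  refine ⟨s.1 * b.1, Finset.mem_image.mpr ⟨(s, b), Finset.mem_product.mpr ⟨hs, hb⟩, rfl⟩,
    G.mul_mem s.2 b.2.1, ?_⟩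
  set B : Γ := ⟨s.1⁻¹ * A, G.mul_mem (G.inv_mem s.2) hA, hsK⟩ with hB
  have hBA : (s.1 * b.1)⁻¹ * A = b.1⁻¹ * B.1 := by
    rw [mul_inv_rev, mul_assoc]
  rw [hBA]
  -- differences
  have hdiff : ∀ e, ∃ z ∈ Od d, en2 B.1 e = en2 b.1 e + N * z := by
    intro e
    have h1 : Ideal.Quotient.mk (Ideal.span {M}) (E B e) =
        Ideal.Quotient.mk (Ideal.span {M}) (E b e) := by rw [hAi e, hbi e]
    rw [Ideal.Quotient.eq, Ideal.mem_span_singleton] at h1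
    obtain ⟨z, hz⟩ := h1
    refine ⟨ι z, hιO z, ?_⟩
    have h2 := congrArg ι hz
    rw [map_sub, map_mul, hE, hE, hM, map_natCast] at h2
    apply mul_left_cancel₀ hNC
    push_cast at h2
    linear_combination h2
  have hbinv : ∀ i j, (N : ℂ) * b.1⁻¹ i j ∈ Od d := by
    intro i j
    obtain ⟨e, he | he⟩ := inv_en2 b.1 i j
    · rw [he, ← hE]; exact hιO _
    · rw [he, mul_neg, ← hE]; exact (Od d).neg_mem (hιO _)
  have hone : ∀ i j, (b.1⁻¹ * b.1) i j ∈ Od d := by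
    intro i j
    rw [inv_mul_cancel]
    fin_cases i <;> fin_cases j <;> simp [(Od d).one_mem, (Od d).zero_mem]
  intro i j
  obtain ⟨z₀, hz₀, h0⟩ := hdiff (0, j)
  obtain ⟨z₁, hz₁, h1⟩ := hdiff (1, j)
  have h0' : B.1 0 j = b.1 0 j + N * z₀ := h0
  have h1' : B.1 1 j = b.1 1 j + N * z₁ := h1
  have := hone i j
  rw [mul_ij] at this ⊢
  rw [h0', h1']
  have e : b.1⁻¹ i 0 * (b.1 0 j + N * z₀) + b.1⁻¹ i 1 * (b.1 1 j + N * z₁) =
      (b.1⁻¹ i 0 * b.1 0 j + b.1⁻¹ i 1 * b.1 1 j) + (N * b.1⁻¹ i 0) * z₀ +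
        (N * b.1⁻¹ i 1) * z₁ := by ring
  rw [e]
  exact (Od d).add_mem ((Od d).add_mem this ((Od d).mul_mem (hbinv i 0) hz₀))
    ((Od d).mul_mem (hbinv i 1) hz₁)

end Pool.Agent.N530.LS
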