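import Mathlib

/-!
# Basic definitions for the project LS (MP_67f4ac_gt)

Hyperbolic 3-space in the upper half space model, the action of `SL(2, ℂ)`, length sets,
imaginary quadratic fields as subfields of `ℂ`.
-/

set_option autoImplicit false

namespace Pool.Agent.N530.LS

open Filter Topology

/-- hyperbolic 3-space -/
abbrev H3 : Type := {p : ℂ × ℝ // 0 < p.2}

/-- the group `SL(2, ℂ)` -/
abbrev SL2C : Type := Matrix.SpecialLinearGroup (Fin 2) ℂ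

/-- `2 (cosh d(x, y) - 1)` -/
noncomputable def dl (x y : H3) : ℝ :=
  (‖x.1.1 - y.1.1‖ ^ 2 + (x.1.2 - y.1.2) ^ 2) / (x.1.2 * y.1.2)

/-- the denominator in the action of a matrix -/
noncomputable def dn (A : SL2C) (p : ℂ × ℝ) : ℝ :=
  ‖A 1 0 * p.1 + A 1 1‖ ^ 2 + ‖A 1 0‖ ^ 2 * p.2 ^ 2

/-- the complex coordinate in the action of a matrix -/
noncomputable def nz (A : SL2C) (p : ℂ × ℝ) : ℂ :=
  ((A 0 0 * p.1 + A 0 1) * (starRingEnd ℂ) (A 1 0 * p.1 + A 1 1) +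
    A 0 0 * (starRingEnd ℂ) (A 1 0) * ((p.2 : ℂ) ^ 2)) / ((dn A p : ℝ) : ℂ)

/-- the squared Frobenius norm -/
noncomputable def fro (A : SL2C) : ℝ :=
  ‖A 0 0‖ ^ 2 + ‖A 0 1‖ ^ 2 + ‖A 1 0‖ ^ 2 + ‖A 1 1‖ ^ 2

/-- the trace -/
def trc (A : SL2C) : ℂ := A 0 0 + A 1 1

/-- `2 cosh` of the translation length of an element with trace `t`: the bigger root of
`x ^ 2 - |t| ^ 2 x + 2 Re t ^ 2 - 4` -/
noncomputable def uu (t : ℂ) : ℝ := (‖t‖ ^ 2 + ‖t ^ 2 - 4‖) / 2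

/-- the translation matrix `(1 x; 0 1)` -/
def T (x : ℂ) : SL2C := ⟨!![1, x; 0, 1], by simp [Matrix.det_fin_two]⟩

/-- The numbers `2 cosh ℓ` up to `2 cosh n` that belong to a set of traces. -/
def Us (Tr : Set ℂ) (n : ℕ) : Set ℝ := {u | ∃ t ∈ Tr, u = uu t ∧ 2 < u ∧ u ≤ 2 * Real.cosh n}

/-- Quadratic growth: the number of lengths up to `n` is frequently at most `C e ^ n`. -/
def QG (Tr : Set ℂ) (C : ℝ) : Prop :=
  ∃ᶠ n : ℕ in atTop, (Us Tr n).Finite ∧ ((Us Tr n).ncard : ℝ) ≤ C * Real.exp n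

/-- the lattice vector `m ω₁ + n ω₂` -/
noncomputable def lv (ω₁ ω₂ : ℂ) (v : ℤ × ℤ) : ℂ := v.1 * ω₁ + v.2 * ω₂

/-- `ω₁`, `ω₂` are linearly independent over `ℝ` -/
def Ind (ω₁ ω₂ : ℂ) : Prop := (ω₁ * (starRingEnd ℂ) ω₂).im ≠ 0

/-- the field `ℚ(√-d)` -/
noncomputable def Kd (d : ℕ) : Subfield ℂ :=
  Subfield.closure {((Real.sqrt (d : ℝ) : ℂ) * Complex.I)}

/-- the ring of integers of `ℚ(√-d)` -/
noncomputable def Od (d : ℕ) : Subring ℂ :=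
  (integralClosure ℤ ℂ).toSubring ⊓ (Kd d).toSubring

/-- The properties of the groups considered in the arithmetic part: translations by a lattice,
`-1`, the stabilizer of `∞` consists of elements with diagonal `± 1`, some element does not fix
`∞`, quadratic growth of the length set. -/
def Good (G : Subgroup SL2C) (ω₁ ω₂ : ℂ) : Prop :=
  Ind ω₁ ω₂ ∧ T ω₁ ∈ G ∧ T ω₂ ∈ G ∧ (-1 : SL2C) ∈ G ∧
    (∀ A ∈ G, A 1 0 = 0 → A 0 0 = 1 ∨ A 0 0 = -1) ∧ (∃ A ∈ G, A 1 0 ≠ 0) ∧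
    ∃ C : ℝ, QG (trc '' (G : Set SL2C)) C

/-- the conjugate `B G B⁻¹` -/
def cj (B : SL2C) (G : Subgroup SL2C) : Subgroup SL2C := G.map (MulAut.conj B).toMonoidHom

/-- every element is a scalar times a matrix with entries in `ℚ(√-d)` -/
def Rat' (d : ℕ) (G : Subgroup SL2C) : Prop :=
  ∀ A ∈ G, ∃ l : ℂ, l ≠ 0 ∧ l ^ 2 ∈ Kd d ∧ ∀ i j, A i j / l ∈ Kd d

end Pool.Agent.N530.LS
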