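import Pool.Agent.N530.LS.Stm3

/-!
# G2: classification of the isometries of hyperbolic 3-space
-/

set_option autoImplicit false

namespace Pool.Agent.N530.LS

open Matrix Complex

/-- the points used as references -/
def q2 : H3 := ⟨(0, 2), two_pos⟩
def q3 : H3 := ⟨(1, 1), one_pos⟩
def q4 : H3 := ⟨(I, 1), one_pos⟩

/-- isometries -/
def Iso (γ : Equiv.Perm H3) : Prop := ∀ x y, dl (γ x) (γ y) = dl x y

theorem iso_pi (A : SL2C) : Iso (pi A) := fun x y => dl_act A x y

theorem Iso.mul {γ δ : Equiv.Perm H3} (h : Iso γ) (h' : Iso δ) : Iso (γ * δ) := by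
  intro x y
  simp only [Equiv.Perm.mul_apply]
  rw [h, h']

theorem g2_norm_sq (z : ℂ) : ‖z‖ ^ 2 = z.re ^ 2 + z.im ^ 2 := by
  rw [← Complex.normSq_eq_norm_sq, Complex.normSq_apply]
  ring

theorem dl_form (x y : H3) : dl x y = ((x.1.1.re - y.1.1.re) ^ 2 + (x.1.1.im - y.1.1.im) ^ 2 +
    (x.1.2 - y.1.2) ^ 2) / (x.1.2 * y.1.2) := by
  unfold dl
  rw [g2_norm_sq]
  simp

/-- the distance equations, in a convenient form -/
theorem dl_eq_iff (x y x' y' : H3) : dl x y = dl x' y' ↔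
    ((x.1.1.re - y.1.1.re) ^ 2 + (x.1.1.im - y.1.1.im) ^ 2 + (x.1.2 - y.1.2) ^ 2) *
      (x'.1.2 * y'.1.2) =
    ((x'.1.1.re - y'.1.1.re) ^ 2 + (x'.1.1.im - y'.1.1.im) ^ 2 + (x'.1.2 - y'.1.2) ^ 2) *
      (x.1.2 * y.1.2) := by
  have hx := x.2
  have hy := y.2
  have hx' := x'.2
  have hy' := y'.2
  rw [dl_form, dl_form, div_eq_div_iff (by positivity) (by positivity)]

theorem g2_fix_two {γ : Equiv.Perm H3} (hγ : Iso γ) (h1 : γ pj = pj) (h2 : γ q2 = q2)
    (p : H3) : (γ p).1.2 = p.1.2 ∧ (γ p).1.1.re ^ 2 + (γ p).1.1.im ^ 2 =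
      p.1.1.re ^ 2 + p.1.1.im ^ 2 := by
  have e1 := hγ p pj
  have e2 := hγ p q2
  rw [h1, dl_eq_iff] at e1
  rw [h2, dl_eq_iff] at e2
  simp only [pj, q2, Complex.zero_re, Complex.zero_im, sub_zero, mul_one] at e1 e2
  have hp := p.2
  have hp' := (γ p).2
  set x := (γ p).1.1.re
  set y := (γ p).1.1.im
  set t := (γ p).1.2
  set x' := p.1.1.re
  set y' := p.1.1.im
  set t' := p.1.2
  have h3 : t = t' := by nlinarith
  refine ⟨h3, ?_⟩
  rw [h3] at e1
  have h4 : (x ^ 2 + y ^ 2 - (x' ^ 2 + y' ^ 2)) * t' = 0 := by linarith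
  rcases mul_eq_zero.mp h4 with h | h
  · linarith
  · exact absurd h hp.ne'

theorem g2_step4 {γ : Equiv.Perm H3} (hγ : Iso γ) (h1 : γ pj = pj) (h2 : γ q2 = q2)
    (h3 : γ q3 = q3) : γ = 1 ∨ γ = cc := by
  have hA : ∀ p : H3, (γ p).1.2 = p.1.2 ∧ (γ p).1.1.re = p.1.1.re ∧
      (γ p).1.1.im ^ 2 = p.1.1.im ^ 2 := by
    intro p
    obtain ⟨ha, hb⟩ := g2_fix_two hγ h1 h2 p
    have e3 := hγ p q3
    rw [h3, dl_eq_iff, ha] at e3
    simp only [q3, Complex.one_re, Complex.one_im, sub_zero, mul_one] at e3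
    have hp := p.2
    have h5 : ((γ p).1.1.re - p.1.1.re) * (2 * p.1.2) = 0 := by linear_combination p.1.2 * hb - e3
    have h6 : (γ p).1.1.re = p.1.1.re := by
      rcases mul_eq_zero.mp h5 with h | h
      · linarith
      · exact absurd h (by positivity)
    refine ⟨ha, h6, ?_⟩
    rw [h6] at hb
    linarith
  obtain ⟨ha, hb, hc⟩ := hA q4
  have hc' : (γ q4).1.1.im = 1 ∨ (γ q4).1.1.im = -1 := by
    simp only [q4, Complex.I_im, one_pow] at hc
    have h5 : ((γ q4).1.1.im - 1) * ((γ q4).1.1.im + 1) = 0 := by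
      simp only [q4]
      linear_combination hc
    rcases mul_eq_zero.mp h5 with h | h
    · left; linarith
    · right; linarith
  have hq4 : q4.1.1.re = 0 ∧ q4.1.1.im = 1 ∧ q4.1.2 = 1 := by simp [q4]
  obtain ⟨u1, u2, u3⟩ := hq4
  rcases hc' with hc' | hc'
  · left
    ext1 p
    obtain ⟨pa, pb, pc⟩ := hA p
    have e4 := hγ p q4
    rw [dl_eq_iff, pa, pb, ha, hb, hc', u1, u2, u3] at e4
    have hp := p.2
    have h5 : ((γ p).1.1.im - p.1.1.im) * (2 * p.1.2) = 0 := by
      linear_combination p.1.2 * pc - e4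
    have h6 : (γ p).1.1.im = p.1.1.im := by
      rcases mul_eq_zero.mp h5 with h | h
      · linarith
      · exact absurd h (by positivity)
    apply Subtype.ext
    apply Prod.ext
    · exact Complex.ext pb h6
    · exact pa
  · right
    ext1 p
    obtain ⟨pa, pb, pc⟩ := hA p
    have e4 := hγ p q4
    rw [dl_eq_iff, pa, pb, ha, hb, hc', u1, u2, u3] at e4
    have hp := p.2
    have h5 : ((γ p).1.1.im + p.1.1.im) * (2 * p.1.2) = 0 := by
      linear_combination -p.1.2 * pc + e4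
    have h6 : (γ p).1.1.im = -p.1.1.im := by
      rcases mul_eq_zero.mp h5 with h | h
      · linarith
      · exact absurd h (by positivity)
    apply Subtype.ext
    apply Prod.ext
    · change (γ p).1.1 = (starRingEnd ℂ) p.1.1
      exact Complex.ext (by simpa using pb) (by simpa using h6)
    · exact pa

/-- the rotations about the axis -/
theorem g2_rot (w : ℂ) (hw : ‖w‖ = 1) : ∃ A : SL2C, ∀ z : ℂ, ∀ t : ℝ, ∀ ht : 0 < t,
    act A ⟨(z, t), ht⟩ = ⟨(w * z, t), ht⟩ := by
  obtain ⟨u, hu⟩ : ∃ u : ℂ, u ^ 2 = w := IsAlgClosed.exists_pow_nat_eq w two_pos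
  have hn : ‖u‖ = 1 := by
    have h1 : ‖u‖ ^ 2 = 1 := by rw [← norm_pow, hu, hw]
    exact (pow_eq_one_iff_of_nonneg (norm_nonneg u) two_ne_zero).mp h1
  have huu : u * (starRingEnd ℂ) u = 1 := by
    rw [Complex.mul_conj, Complex.normSq_eq_norm_sq, hn]
    simp
  have huu' : (starRingEnd ℂ) u * u = 1 := by rw [mul_comm, huu]
  refine ⟨⟨!![u, 0; 0, (starRingEnd ℂ) u], by simp [Matrix.det_fin_two, huu]⟩, ?_⟩
  intro z t ht
  set A : SL2C := ⟨!![u, 0; 0, (starRingEnd ℂ) u], by simp [Matrix.det_fin_two, huu]⟩ with hA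
  have a00 : A 0 0 = u := rfl
  have a01 : A 0 1 = 0 := rfl
  have a10 : A 1 0 = 0 := rfl
  have a11 : A 1 1 = (starRingEnd ℂ) u := rfl
  have hd : dn A (z, t) = 1 := by
    unfold dn
    rw [a10, a11]
    simp [hn]
  apply Subtype.ext
  apply Prod.ext
  · change nz A (z, t) = w * z
    unfold nz
    rw [hd, a00, a01, a10, a11]
    simp only [zero_mul, zero_add, add_zero, Complex.conj_conj, map_zero, mul_zero,
      Complex.ofReal_one, div_one]
    rw [← hu]
    ring
  · change t / dn A (z, t) = t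
    rw [hd, div_one]

/-- the unitary matrices move `q2` to any point at the same distance from `pj` -/
theorem g2_sph (p : H3) (hp : dl p pj = dl q2 pj) : ∃ A : SL2C, act A pj = pj ∧ act A q2 = p := by
  obtain ⟨⟨z, t⟩, ht⟩ := p
  replace ht : 0 < t := ht
  rw [dl_eq_iff] at hp
  simp only [pj, q2, Complex.zero_re, Complex.zero_im, sub_zero, mul_one] at hp
  have h1 : z.re ^ 2 + z.im ^ 2 = (2 - t) * (t - 1 / 2) := by linarith
  have h0 : 0 ≤ (2 - t) * (t - 1 / 2) := by rw [← h1]; positivity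
  have ht2 : t ≤ 2 := by
    by_contra h
    nlinarith
  rcases ht2.eq_or_lt with h2 | h2
  · refine ⟨1, act_one _, ?_⟩
    rw [act_one]
    have h3 : z.re ^ 2 + z.im ^ 2 = 0 := by rw [h1, h2]; ring
    have h4 : z.re = 0 := by nlinarith [sq_nonneg z.re, sq_nonneg z.im]
    have h5 : z.im = 0 := by nlinarith [sq_nonneg z.re, sq_nonneg z.im]
    apply Subtype.ext
    apply Prod.ext
    · exact (Complex.ext h4 h5).symm
    · exact h2.symm
  · have h3t : 0 < (2 - t) / (3 * t) := by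
      have : 0 < 2 - t := by linarith
      positivity
    set b : ℝ := Real.sqrt ((2 - t) / (3 * t)) with hb
    have hb0 : 0 < b := Real.sqrt_pos.mpr h3t
    have hb2 : b ^ 2 = (2 - t) / (3 * t) := Real.sq_sqrt h3t.le
    set a : ℂ := ((2 / (3 * t * b) : ℝ) : ℂ) * z with ha
    have hna : ‖a‖ ^ 2 = (4 * t - 2) / (3 * t) := by
      rw [ha, norm_mul, mul_pow, g2_norm_sq z, h1, Complex.norm_real, Real.norm_of_nonneg
        (by positivity), div_pow, mul_pow, hb2]
      have h7 : 2 - t ≠ 0 := by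
        intro h
        rw [h] at h3t
        simp at h3t
      field_simp
      ring
    have hs : ‖a‖ ^ 2 + b ^ 2 = 1 := by
      rw [hna, hb2]
      field_simp
      ring
    have haa : a * (starRingEnd ℂ) a = ((‖a‖ ^ 2 : ℝ) : ℂ) := by
      rw [Complex.mul_conj, Complex.normSq_eq_norm_sq]
    have hsc : a * (starRingEnd ℂ) a + (b : ℂ) * b = 1 := by
      rw [haa, ← Complex.ofReal_mul, ← Complex.ofReal_add, ← sq, hs]
      simp
    have hdet : (!![a, -(b : ℂ); (b : ℂ), (starRingEnd ℂ) a]).det = 1 := by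
      rw [Matrix.det_fin_two]
      simp only [of_apply, cons_val', cons_val_one, cons_val_zero, cons_val_fin_one]
      linear_combination hsc
    refine ⟨⟨_, hdet⟩, ?_, ?_⟩
    · set A : SL2C := ⟨_, hdet⟩ with hA
      have a00 : A 0 0 = a := rfl
      have a01 : A 0 1 = -(b : ℂ) := rfl
      have a10 : A 1 0 = (b : ℂ) := rfl
      have a11 : A 1 1 = (starRingEnd ℂ) a := rfl
      have hd : dn A (0, 1) = 1 := by
        unfold dn
        rw [a10, a11]
        simp only [mul_zero, zero_add, RCLike.norm_conj, Complex.norm_real,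
          Real.norm_of_nonneg hb0.le]
        linarith
      apply Subtype.ext
      apply Prod.ext
      · change nz A (0, 1) = 0
        unfold nz
        rw [hd, a00, a01, a10, a11]
        simp only [mul_zero, zero_add, Complex.conj_conj, Complex.conj_ofReal,
          Complex.ofReal_one, div_one]
        ring
      · change 1 / dn A (0, 1) = 1
        rw [hd, div_one]
    · set A : SL2C := ⟨_, hdet⟩ with hA
      have a00 : A 0 0 = a := rfl
      have a01 : A 0 1 = -(b : ℂ) := rfl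
      have a10 : A 1 0 = (b : ℂ) := rfl
      have a11 : A 1 1 = (starRingEnd ℂ) a := rfl
      have hd : dn A (0, 2) = 2 / t := by
        unfold dn
        rw [a10, a11]
        simp only [mul_zero, zero_add, RCLike.norm_conj, Complex.norm_real,
          Real.norm_of_nonneg hb0.le]
        rw [hna, hb2]
        field_simp
        ring
      apply Subtype.ext
      apply Prod.ext
      · change nz A (0, 2) = z
        unfold nz
        rw [hd, a00, a01, a10, a11]
        simp only [mul_zero, zero_add, Complex.conj_conj, Complex.conj_ofReal]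
        rw [ha]
        have htc : (t : ℂ) ≠ 0 := by exact_mod_cast ht.ne'
        have hbc : (b : ℂ) ≠ 0 := by exact_mod_cast hb0.ne'
        push_cast
        field_simp
        ring
      · change 2 / dn A (0, 2) = t
        rw [hd]
        field_simp

theorem stmG2 : StmG2 := by
  intro γ hγ
  obtain ⟨A, hA⟩ := act_transitive (γ pj) pj
  have i1 : Iso (pi A * γ) := (iso_pi A).mul hγ
  have f1 : (pi A * γ) pj = pj := hA
  have d1 : dl ((pi A * γ) q2) pj = dl q2 pj := by
    have := i1 q2 pj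
    rwa [f1] at this
  obtain ⟨B, hB1, hB2⟩ := g2_sph _ d1
  have i2 : Iso (pi B⁻¹ * (pi A * γ)) := (iso_pi _).mul i1
  have f2 : (pi B⁻¹ * (pi A * γ)) pj = pj := by
    rw [Equiv.Perm.mul_apply, f1, pi_apply]
    nth_rw 1 [← hB1]
    rw [← act_mul, inv_mul_cancel, act_one]
  have g2 : (pi B⁻¹ * (pi A * γ)) q2 = q2 := by
    rw [Equiv.Perm.mul_apply, ← hB2, pi_apply, ← act_mul, inv_mul_cancel, act_one]
  set δ := pi B⁻¹ * (pi A * γ) with hδ
  obtain ⟨w1, w2⟩ := g2_fix_two i2 f2 g2 q3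
  have hq3 : q3.1.1.re = 1 ∧ q3.1.1.im = 0 ∧ q3.1.2 = 1 := by simp [q3]
  obtain ⟨u1, u2, u3⟩ := hq3
  rw [u1, u2] at w2
  rw [u3] at w1
  set w : ℂ := (δ q3).1.1 with hw
  have hwn : ‖w‖ ^ 2 = 1 := by
    rw [g2_norm_sq, w2]
    norm_num
  have hwn' : ‖w‖ = 1 := (pow_eq_one_iff_of_nonneg (norm_nonneg w) two_ne_zero).mp hwn
  obtain ⟨R, hR⟩ := g2_rot ((starRingEnd ℂ) w) (by rw [RCLike.norm_conj, hwn'])
  have i3 : Iso (pi R * δ) := (iso_pi _).mul i2
  have f3 : (pi R * δ) pj = pj := by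
    rw [Equiv.Perm.mul_apply, f2, pi_apply]
    rw [show pj = ⟨(0, 1), one_pos⟩ from rfl, hR]
    simp
  have g3 : (pi R * δ) q2 = q2 := by
    rw [Equiv.Perm.mul_apply, g2, pi_apply]
    rw [show q2 = ⟨(0, 2), two_pos⟩ from rfl, hR]
    simp
  have k3 : (pi R * δ) q3 = q3 := by
    rw [Equiv.Perm.mul_apply, pi_apply]
    have h5 : δ q3 = ⟨(w, 1), one_pos⟩ := by
      apply Subtype.ext
      apply Prod.ext
      · rfl
      · exact w1
    rw [h5, hR]
    apply Subtype.ext
    apply Prod.ext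
    · change (starRingEnd ℂ) w * w = 1
      rw [mul_comm, Complex.mul_conj, Complex.normSq_eq_norm_sq, hwn]
      simp
    · rfl
  have hfin : γ = pi (R * B⁻¹ * A)⁻¹ * (pi R * δ) := by
    rw [hδ, map_inv, map_mul, map_mul]
    group
  rcases g2_step4 i3 f3 g3 k3 with h | h
  · left
    exact ⟨(R * B⁻¹ * A)⁻¹, by rw [hfin, h, mul_one]⟩
  · right
    exact ⟨(R * B⁻¹ * A)⁻¹, by rw [hfin, h]⟩

end Pool.Agent.N530.LS
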