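import Pool.Agent.N530.LS.Geo2

/-!
# Reduction to subgroups of `SL(2, ℂ)`
-/

set_option autoImplicit false
set_option linter.unusedSimpArgs false

namespace Pool.Agent.N530.LS

open Matrix Complex MeasureTheory

/-- the complex conjugate matrix -/
noncomputable def cjm (A : SL2C) : SL2C :=
  mk2 ((starRingEnd ℂ) (A 0 0)) ((starRingEnd ℂ) (A 0 1)) ((starRingEnd ℂ) (A 1 0))
    ((starRingEnd ℂ) (A 1 1)) (by
      have h := congrArg (starRingEnd ℂ) (det_eq A)
      simpa using h)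

theorem dn_cjm (A : SL2C) (p : H3) : dn (cjm A) p.1 = dn A ((starRingEnd ℂ) p.1.1, p.1.2) := by
  unfold dn cjm
  simp only [mk2_10, mk2_11]
  have h : (starRingEnd ℂ) (A 1 0) * p.1.1 + (starRingEnd ℂ) (A 1 1) =
      (starRingEnd ℂ) (A 1 0 * (starRingEnd ℂ) p.1.1 + A 1 1) := by
    simp
  rw [h, RCLike.norm_conj, RCLike.norm_conj]

theorem cc_pi_cc (A : SL2C) : cc * pi A * cc = pi (cjm A) := by
  ext1 p
  apply Subtype.ext
  apply Prod.ext
  · change (starRingEnd ℂ) (nz A ((starRingEnd ℂ) p.1.1, p.1.2)) = nz (cjm A) p.1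
    unfold nz
    rw [dn_cjm]
    simp [cjm]
  · change p.1.2 / dn A ((starRingEnd ℂ) p.1.1, p.1.2) = p.1.2 / dn (cjm A) p.1
    rw [dn_cjm]

theorem cc_mul_cc : cc * cc = 1 := by
  ext1 p
  apply Subtype.ext
  apply Prod.ext
  · change (starRingEnd ℂ) ((starRingEnd ℂ) p.1.1) = p.1.1
    simp
  · rfl

theorem pi_neg (A : SL2C) : pi (-A) = pi A := by
  have h : (-A : SL2C) = (-1) * A := by simp
  rw [h, map_mul]
  have h1 : pi (-1) = 1 := by
    ext1 p
    exact act_neg_one p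
  rw [h1, one_mul]

theorem finite_pi_fiber (h0 : StmG0) (γ : Equiv.Perm H3) : {A : SL2C | pi A = γ}.Finite := by
  by_cases h : ∃ A₀ : SL2C, pi A₀ = γ
  · obtain ⟨A₀, hA⟩ := h
    refine Set.Finite.subset (Set.toFinite {A₀, -A₀}) ?_
    intro A hA'
    have h1 : pi (A₀⁻¹ * A) = 1 := by
      rw [map_mul, map_inv, hA, hA', inv_mul_cancel]
    rcases (h0 _).mp h1 with h2 | h2
    · left
      exact (inv_mul_eq_one.mp h2).symm
    · right
      have h3 : A = A₀ * (A₀⁻¹ * A) := by simp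
      rw [h3, h2]
      simp
  · push Not at h
    have : {A : SL2C | pi A = γ} = ∅ := by
      ext A
      simp [h A]
    rw [this]
    exact Set.finite_empty

theorem vol_preimage (F : Set (ℂ × ℝ)) (hF : MeasurableSet F) :
    vol (Subtype.val ⁻¹' F : Set H3) ≤ ∫⁻ p in F, ENNReal.ofReal (1 / p.2 ^ 3) := by
  have hm : MeasurableSet {p : ℂ × ℝ | 0 < p.2} :=
    measurableSet_lt measurable_const measurable_snd
  have hmF : MeasurableSet (Subtype.val ⁻¹' F : Set H3) := measurable_subtype_coe hF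
  have h1 : vol (Subtype.val ⁻¹' F : Set H3) =
      ((volume : Measure (ℂ × ℝ)).withDensity (fun p => ENNReal.ofReal (1 / p.2 ^ 3)))
        (Subtype.val '' (Subtype.val ⁻¹' F : Set H3)) :=
    Measure.comap_apply Subtype.val Subtype.val_injective
      (fun s hs => hm.subtype_image hs) _ hmF
  have h2 := withDensity_apply (μ := (volume : Measure (ℂ × ℝ)))
    (fun p => ENNReal.ofReal (1 / p.2 ^ 3)) (hm.subtype_image hmF)
  refine (h1.trans h2).trans_le ?_
  apply lintegral_mono_set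
  rintro _ ⟨x, hx, rfl⟩
  exact hx

theorem stmGR (h0 : StmG0) (h2 : StmG2) (h3 : StmG3) : StmGR := by
  classical
  intro Γ hΓ
  obtain ⟨hiso, hdisc, htf, ⟨F, hF, hFpos, hFfin, hFcov⟩, hnc⟩ := hΓ
  have hm1 : (-1 : SL2C) ∈ Γ.comap pi := by
    rw [Subgroup.mem_comap]
    have : pi (-1) = 1 := by
      ext1 p
      exact act_neg_one p
    rw [this]
    exact one_mem _
  -- a set of representatives
  obtain ⟨S, hS1, hS⟩ : ∃ S : Finset (Equiv.Perm H3), (∀ s ∈ S, s ∈ Γ ∧
      MeasurePreserving s vol vol) ∧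
      ∀ γ ∈ Γ, ∃ s ∈ S, ∃ A ∈ Γ.comap pi, γ = s * pi A := by
    by_cases hex : ∃ A₀ : SL2C, pi A₀ * cc ∈ Γ
    · obtain ⟨A₀, hA₀⟩ := hex
      refine ⟨{1, pi A₀ * cc}, ?_, ?_⟩
      · intro s hs
        rw [Finset.mem_insert, Finset.mem_singleton] at hs
        rcases hs with rfl | rfl
        · exact ⟨one_mem _, MeasurePreserving.id _⟩
        · exact ⟨hA₀, (h3.1 A₀).comp h3.2⟩
      · intro γ hγ
        rcases h2 γ (hiso γ hγ) with ⟨A, rfl⟩ | ⟨A, rfl⟩
        · exact ⟨1, by simp, A, hγ, by simp⟩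
        · refine ⟨pi A₀ * cc, by simp, cjm (A₀⁻¹ * A), ?_, ?_⟩
          · rw [Subgroup.mem_comap, ← cc_pi_cc]
            have h4 : (pi A₀ * cc)⁻¹ * (pi A * cc) ∈ Γ := Γ.mul_mem (Γ.inv_mem hA₀) hγ
            have h5 : cc * pi (A₀⁻¹ * A) * cc = (pi A₀ * cc)⁻¹ * (pi A * cc) := by
              rw [_root_.mul_inv_rev, map_mul, map_inv]
              have h6 : cc⁻¹ = cc := inv_eq_of_mul_eq_one_right cc_mul_cc
              rw [h6]
              simp only [mul_assoc]
            rw [h5]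
            exact h4
          · rw [← cc_pi_cc, map_mul, map_inv]
            have h6 : pi A₀ * cc * (cc * ((pi A₀)⁻¹ * pi A) * cc) =
                pi A₀ * (cc * cc) * ((pi A₀)⁻¹ * pi A) * cc := by
              simp only [mul_assoc]
            rw [h6, cc_mul_cc]
            simp
    · push Not at hex
      refine ⟨{1}, ?_, ?_⟩
      · intro s hs
        rw [Finset.mem_singleton] at hs
        subst hs
        exact ⟨one_mem _, MeasurePreserving.id _⟩
      · intro γ hγ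
        rcases h2 γ (hiso γ hγ) with ⟨A, rfl⟩ | ⟨A, rfl⟩
        · exact ⟨1, by simp, A, hγ, by simp⟩
        · exact absurd hγ (hex A)
  refine ⟨hm1, ?_, ?_, ?_, ?_, S, fun γ hγ => ?_⟩
  · intro x R
    have hfin := hdisc x R
    refine Set.Finite.subset (hfin.biUnion fun γ _ => finite_pi_fiber h0 γ) ?_
    rintro A ⟨hA, hR⟩
    rw [Set.mem_iUnion₂]
    exact ⟨pi A, ⟨hA, hR⟩, rfl⟩
  · intro A hA n hn h
    have h1 : pi A ^ n = 1 := by
      rw [← map_pow]
      rcases h with h | h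
      · rw [h, map_one]
      · rw [h]
        ext1 p
        exact act_neg_one p
    exact (h0 A).mp (htf _ hA n hn h1)
  · have hmF : MeasurableSet (Subtype.val ⁻¹' F : Set H3) := measurable_subtype_coe hF
    refine ⟨⋃ s ∈ S, s ⁻¹' (Subtype.val ⁻¹' F : Set H3), ?_, ?_, ?_⟩
    · exact Finset.measurableSet_biUnion _ fun s hs => (hS1 s hs).2.measurable hmF
    · refine (measure_biUnion_finset_le _ _).trans_lt ?_
      apply ENNReal.sum_lt_top.mpr
      intro s hs
      rw [(hS1 s hs).2.measure_preimage hmF.nullMeasurableSet]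
      exact (vol_preimage F hF).trans_lt hFfin
    · intro x
      obtain ⟨γ, hγ, hx⟩ := hFcov x
      obtain ⟨s, hs, A, hA, hsA⟩ := hS γ hγ
      refine ⟨A, hA, ?_⟩
      rw [Set.mem_iUnion₂]
      refine ⟨s, hs, ?_⟩
      rw [hsA] at hx
      exact hx
  · rintro ⟨K, hK, hKcov⟩
    apply hnc
    refine ⟨K, hK, fun x => ?_⟩
    obtain ⟨A, hA, hx⟩ := hKcov x
    exact ⟨pi A, hA, hx⟩
  · obtain ⟨s, hs, A, hA, hsA⟩ := hS γ hγ
    exact ⟨s, hs, (hS1 s hs).1, A, hA, hsA⟩

end Pool.Agent.N530.LS
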