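import Pool.Agent.N530.LS.M2
import Pool.Agent.N530.LS.G2
import Pool.Agent.N530.LS.Geo3
import Pool.Agent.N530.LS.A2
import Pool.Agent.N530.LS.A3
import Pool.Agent.N530.LS.A4
import Pool.Agent.N530.LS.B1
import Pool.Agent.N530.LS.B2
import Pool.Agent.N530.LS.B3
import Pool.Agent.N530.LS.C1
import Pool.Agent.N530.LS.C2
import Pool.Agent.N530.LS.C4
import Pool.Agent.N530.LS.D1
import Pool.Agent.N530.LS.D2

/-!
# Final assembly of the project LS (MP_67f4ac_gt)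
-/

set_option autoImplicit false
set_option linter.unusedSimpArgs false

namespace Pool.Agent.N530.LS

open MeasureTheory Complex Matrix Filter Topology NumberField

/-- matrices with entries in the ring of integers -/
noncomputable def SO (d : ℕ) : Subgroup SL2C where
  carrier := {A | ∀ i j, A i j ∈ Od d}
  mul_mem' := by
    intro A B hA hB i j
    change ((A * B : SL2C) : Matrix (Fin 2) (Fin 2) ℂ) i j ∈ Od d
    rw [Matrix.SpecialLinearGroup.coe_mul, Matrix.mul_apply, Fin.sum_univ_two]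
    exact (Od d).add_mem ((Od d).mul_mem (hA _ _) (hB _ _)) ((Od d).mul_mem (hA _ _) (hB _ _))
  one_mem' := by
    intro i j
    change ((1 : SL2C) : Matrix (Fin 2) (Fin 2) ℂ) i j ∈ Od d
    rw [Matrix.SpecialLinearGroup.coe_one, Matrix.one_apply]
    split_ifs
    · exact (Od d).one_mem
    · exact (Od d).zero_mem
  inv_mem' := by
    intro A hA i j
    change ((A⁻¹ : SL2C) : Matrix (Fin 2) (Fin 2) ℂ) i j ∈ Od d
    have h00 := inv00 A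
    have h01 := inv01 A
    have h10 := inv10 A
    have h11 := inv11 A
    fin_cases i <;> fin_cases j
    · exact h00 ▸ hA 1 1
    · exact h01 ▸ (Od d).neg_mem (hA 0 1)
    · exact h10 ▸ (Od d).neg_mem (hA 1 0)
    · exact h11 ▸ hA 0 0

theorem Od_finite (d : ℕ) (hd : 0 < d) (R : ℝ) : {z : ℂ | z ∈ Od d ∧ ‖z‖ ≤ R}.Finite := by
  haveI := Kd_numberField d hd
  obtain ⟨b₀, b₁, e, he, hφe, hind⟩ :=
    exists_lattice (Kd d).subtype (Kd_finrank d hd) (Kd_im d hd)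
  have h1 := (lv_finite _ _ hind 0 R).image (lv ((Kd d).subtype b₀) ((Kd d).subtype b₁))
  apply h1.subset
  rintro z ⟨hz, hzR⟩
  obtain ⟨x, hx⟩ := OK_lift d hz
  obtain ⟨v, rfl⟩ := e.surjective x
  refine ⟨v, ?_, ?_⟩
  · rw [Set.mem_ofPred_eq, zero_add, ← hφe]
    change ‖(((e v : 𝓞 (Kd d)) : Kd d) : ℂ)‖ ≤ R
    rw [hx]
    exact hzR
  · rw [← hφe]
    exact hx

theorem SO_disc (d : ℕ) (hd : 0 < d) : Disc (SO d) := by
  intro x R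
  -- bound for the entries
  obtain ⟨M, hM⟩ : ∃ M : ℝ, ∀ A : SL2C, dl (act A x) x ≤ R → ∀ i j, ‖A i j‖ ≤ M := by
    set P := up x with hP
    have hPx : act P pj = x := up_pj x
    refine ⟨en (P : Matrix (Fin 2) (Fin 2) ℂ) * (4 * (3 + |R|)) *
      en ((P⁻¹ : SL2C) : Matrix (Fin 2) (Fin 2) ℂ), ?_⟩
    intro A hA i j
    have h1 : dl (act (P⁻¹ * A * P) pj) pj ≤ R := by
      rw [act_mul, act_mul, hPx]
      have h2 := dl_act P (act P⁻¹ (act A x)) pj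
      rw [← h2, ← act_mul P P⁻¹, mul_inv_cancel, act_one, hPx]
      exact hA
    have h2 : fro (P⁻¹ * A * P) ≤ 2 + |R| := by
      rw [fro_eq]
      linarith [le_abs_self R]
    have h3 : ∀ i j, ‖(P⁻¹ * A * P) i j‖ ≤ 3 + |R| := by
      intro i j
      have h4 : ‖(P⁻¹ * A * P) i j‖ ^ 2 ≤ 2 + |R| := by
        refine le_trans ?_ h2
        unfold fro
        fin_cases i <;> fin_cases j
        · change ‖(P⁻¹ * A * P) 0 0‖ ^ 2 ≤ _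
          nlinarith [sq_nonneg ‖(P⁻¹ * A * P) 0 1‖, sq_nonneg ‖(P⁻¹ * A * P) 1 0‖,
            sq_nonneg ‖(P⁻¹ * A * P) 1 1‖]
        · change ‖(P⁻¹ * A * P) 0 1‖ ^ 2 ≤ _
          nlinarith [sq_nonneg ‖(P⁻¹ * A * P) 0 0‖, sq_nonneg ‖(P⁻¹ * A * P) 1 0‖,
            sq_nonneg ‖(P⁻¹ * A * P) 1 1‖]
        · change ‖(P⁻¹ * A * P) 1 0‖ ^ 2 ≤ _
          nlinarith [sq_nonneg ‖(P⁻¹ * A * P) 0 1‖, sq_nonneg ‖(P⁻¹ * A * P) 0 0‖,
            sq_nonneg ‖(P⁻¹ * A * P) 1 1‖]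
        · change ‖(P⁻¹ * A * P) 1 1‖ ^ 2 ≤ _
          nlinarith [sq_nonneg ‖(P⁻¹ * A * P) 0 1‖, sq_nonneg ‖(P⁻¹ * A * P) 1 0‖,
            sq_nonneg ‖(P⁻¹ * A * P) 0 0‖]
      by_contra hlt
      rw [not_le] at hlt
      nlinarith [abs_nonneg R]
    have h5 : en ((P⁻¹ * A * P : SL2C) : Matrix (Fin 2) (Fin 2) ℂ) ≤ 4 * (3 + |R|) := by
      unfold en
      linarith [h3 0 0, h3 0 1, h3 1 0, h3 1 1]
    have h6 : (A : Matrix (Fin 2) (Fin 2) ℂ) = (P : Matrix (Fin 2) (Fin 2) ℂ) *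
        ((P⁻¹ * A * P : SL2C) : Matrix (Fin 2) (Fin 2) ℂ) *
        ((P⁻¹ : SL2C) : Matrix (Fin 2) (Fin 2) ℂ) := by
      rw [← Matrix.SpecialLinearGroup.coe_mul, ← Matrix.SpecialLinearGroup.coe_mul]
      congr 1
      group
    have h7 : en (A : Matrix (Fin 2) (Fin 2) ℂ) ≤ en (P : Matrix (Fin 2) (Fin 2) ℂ) *
        (4 * (3 + |R|)) * en ((P⁻¹ : SL2C) : Matrix (Fin 2) (Fin 2) ℂ) := by
      rw [h6]
      refine (en_mul _ _).trans ?_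
      have h8 := en_mul (P : Matrix (Fin 2) (Fin 2) ℂ)
        ((P⁻¹ * A * P : SL2C) : Matrix (Fin 2) (Fin 2) ℂ)
      have h9 := en_nonneg (P : Matrix (Fin 2) (Fin 2) ℂ)
      have h10 := en_nonneg ((P⁻¹ : SL2C) : Matrix (Fin 2) (Fin 2) ℂ)
      gcongr
      refine h8.trans ?_
      gcongr
    refine le_trans ?_ h7
    unfold en
    fin_cases i <;> fin_cases j
    · change ‖A 0 0‖ ≤ _
      linarith [norm_nonneg (A 0 1), norm_nonneg (A 1 0), norm_nonneg (A 1 1)]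
    · change ‖A 0 1‖ ≤ _
      linarith [norm_nonneg (A 0 0), norm_nonneg (A 1 0), norm_nonneg (A 1 1)]
    · change ‖A 1 0‖ ≤ _
      linarith [norm_nonneg (A 0 1), norm_nonneg (A 0 0), norm_nonneg (A 1 1)]
    · change ‖A 1 1‖ ≤ _
      linarith [norm_nonneg (A 0 1), norm_nonneg (A 1 0), norm_nonneg (A 0 0)]
  have hfin := Od_finite d hd M
  set Z := {z : ℂ | z ∈ Od d ∧ ‖z‖ ≤ M} with hZ
  have h2 : Set.Finite (Z ×ˢ (Z ×ˢ (Z ×ˢ Z))) := hfin.prod (hfin.prod (hfin.prod hfin))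
  apply Set.Finite.of_finite_image (f := fun A : SL2C => (A 0 0, A 0 1, A 1 0, A 1 1))
  · apply h2.subset
    rintro _ ⟨A, ⟨hA, hAR⟩, rfl⟩
    exact ⟨⟨hA 0 0, hM A hAR 0 0⟩, ⟨hA 0 1, hM A hAR 0 1⟩, ⟨hA 1 0, hM A hAR 1 0⟩,
      ⟨hA 1 1, hM A hAR 1 1⟩⟩
  · intro A _ B _ h
    simp only [Prod.mk.injEq] at h
    exact ext2 h.1 h.2.1 h.2.2.1 h.2.2.2

/-- the length set of a group of isometries -/
def Ls (Γ : Subgroup (Equiv.Perm H3)) (n : ℕ) : Set ℝ :=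
  {ℓ : ℝ | 0 < ℓ ∧ ℓ ≤ (n : ℝ) ∧ ∃ γ ∈ Γ, Real.cosh ℓ = 1 + (⨅ x : H3, dl (γ x) x) / 2}

theorem Us_subset (Γ : Subgroup (Equiv.Perm H3)) (n : ℕ) :
    Us (trc '' (Γ.comap pi : Set SL2C)) n ⊆ (fun ℓ => 2 * Real.cosh ℓ) '' Ls Γ n := by
  rintro u ⟨t, ⟨A, hA, rfl⟩, hu, hu2, hun⟩
  have h1 : 1 < u / 2 := by linarith
  refine ⟨Real.arcosh (u / 2), ⟨Real.arcosh_pos h1, ?_, pi A, hA, ?_⟩, ?_⟩
  · have h2 : Real.cosh (Real.arcosh (u / 2)) ≤ Real.cosh n := by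
      rw [Real.cosh_arcosh h1.le]
      linarith
    rw [Real.cosh_le_cosh, abs_of_pos (Real.arcosh_pos h1), Nat.abs_cast] at h2
    exact h2
  · rw [Real.cosh_arcosh h1.le, stmG4 A (by rw [← hu]; exact hu2), hu]
  · simp only
    rw [Real.cosh_arcosh h1.le]
    ring

theorem QG_of_growth (Γ : Subgroup (Equiv.Perm H3))
    (h1 : ∃ c : ℝ, 0 < c ∧ ∀ᶠ n : ℕ in atTop, c ≤ Real.exp (-(n : ℝ)) * ((Ls Γ n).ncard : ℝ))
    (h2 : ∃ C : ℝ, ∃ᶠ n : ℕ in atTop, Real.exp (-(n : ℝ)) * ((Ls Γ n).ncard : ℝ) ≤ C) :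
    ∃ C : ℝ, QG (trc '' (Γ.comap pi : Set SL2C)) C := by
  obtain ⟨c, hc, h1⟩ := h1
  obtain ⟨C, h2⟩ := h2
  refine ⟨C, ?_⟩
  apply (h2.and_eventually h1).mono
  rintro n ⟨hn2, hn1⟩
  have h0 : 0 < (Ls Γ n).ncard := by
    by_contra h
    have : (Ls Γ n).ncard = 0 := by omega
    rw [this, Nat.cast_zero, mul_zero] at hn1
    linarith
  have hfin : (Ls Γ n).Finite := Set.finite_of_ncard_pos h0
  have hsub := Us_subset Γ n
  have hfin' : ((fun ℓ => 2 * Real.cosh ℓ) '' Ls Γ n).Finite := hfin.image _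
  refine ⟨hfin'.subset hsub, ?_⟩
  have h3 : (Us (trc '' (Γ.comap pi : Set SL2C)) n).ncard ≤ (Ls Γ n).ncard :=
    (Set.ncard_le_ncard hsub hfin').trans (Set.ncard_image_le hfin)
  have h4 : ((Us (trc '' (Γ.comap pi : Set SL2C)) n).ncard : ℝ) ≤ ((Ls Γ n).ncard : ℝ) := by
    exact_mod_cast h3
  have h5 : ((Ls Γ n).ncard : ℝ) ≤ C * Real.exp n := by
    rw [Real.exp_neg] at hn2
    have he : 0 < Real.exp (n : ℝ) := Real.exp_pos _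
    rw [inv_mul_le_iff₀ he] at hn2
    linarith
  linarith

theorem cj_cj (B B' : SL2C) (G : Subgroup SL2C) : cj B' (cj B G) = cj (B' * B) G := by
  ext X
  rw [mem_cj, mem_cj, mem_cj]
  have : B⁻¹ * (B'⁻¹ * X * B') * B = (B' * B)⁻¹ * X * (B' * B) := by group
  rw [this]

theorem lsMain (hM1 : StmM1) (Γ : Subgroup (Equiv.Perm H3)) (hyp : Hyp Γ)
    (h1 : ∃ c : ℝ, 0 < c ∧ ∀ᶠ n : ℕ in atTop, c ≤ Real.exp (-(n : ℝ)) * ((Ls Γ n).ncard : ℝ))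
    (h2 : ∃ C : ℝ, ∃ᶠ n : ℕ in atTop, Real.exp (-(n : ℝ)) * ((Ls Γ n).ncard : ℝ) ≤ C) :
    ∃ d : ℕ, 0 < d ∧ ∃ φ : Equiv.Perm H3, (∀ x y, dl (φ x) (φ y) = dl x y) ∧
      (∃ S : Finset (Equiv.Perm H3), ∀ γ ∈ Γ, ∃ s ∈ S, s⁻¹ * γ ∈ Γ ∧
        ∃ A ∈ SO d, φ * (s⁻¹ * γ) * φ⁻¹ = pi A) ∧
      (∃ S : Finset (Equiv.Perm H3), ∀ δ : Equiv.Perm H3, (∃ A ∈ SO d, φ * δ * φ⁻¹ = pi A) →
        ∃ s ∈ S, s⁻¹ * δ ∈ Γ ∧ ∃ A ∈ SO d, φ * (s⁻¹ * δ) * φ⁻¹ = pi A) := by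
  classical
  obtain ⟨hneg, hdisc, htf, hfc, hncc, S₁, hS₁⟩ := stmGR stmG0 stmG2 stmG3 Γ hyp
  set G := Γ.comap pi with hG
  obtain ⟨C, hQG⟩ := QG_of_growth Γ h1 h2
  obtain ⟨B₁, ω₁, ω₂, hind, hT1, hT2, hst, hcc⟩ := stmM2 G hneg hdisc htf hfc
    (hM1 G hneg hdisc htf hfc hncc)
  have hgood : Good (cj B₁ G) ω₁ ω₂ :=
    ⟨hind, hT1, hT2, neg_one_mem_cj hneg B₁, hst, hcc, C, by rw [trc_cj]; exact hQG⟩
  have h4 : StmA4 := stmA4 stmA1 stmA2 stmA3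
  obtain ⟨d, B₂, τ, hd, hτ, hgood', hrat⟩ := stmB3 (stmB1 h4) (stmB2 h4) _ _ _ hgood
  rw [cj_cj] at hgood' hrat
  set B := B₂ * B₁ with hB
  set G' := cj B G with hG'
  have hC4 : StmC4 := stmC4 stmA1 h4 stmC1 (stmC2 stmA1)
  obtain ⟨S₂, hS₂⟩ := stmD2 G' d hd hrat
    (stmD1 G' τ d hd hτ hgood' hrat (hC4 G' τ d hd hτ hgood' hrat))
  -- finite covolume of the intersection
  have hfc' : Fc (G' ⊓ SO d) := by
    obtain ⟨F, hF, hFfin, hcov⟩ := hfc.cj B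
    refine ⟨⋃ s ∈ S₂, act s ⁻¹' F, ?_, ?_, ?_⟩
    · exact Finset.measurableSet_biUnion _ fun s _ => measurable_act _ hF
    · refine (measure_biUnion_finset_le _ _).trans_lt ?_
      simp_rw [vol_act _ hF]
      rw [Finset.sum_const, nsmul_eq_mul]
      exact ENNReal.mul_lt_top (ENNReal.natCast_lt_top _) hFfin
    · intro x
      obtain ⟨A, hA, hx⟩ := hcov x
      obtain ⟨s, hs, hsG, hsA⟩ := hS₂ A hA
      refine ⟨s⁻¹ * A, ⟨G'.mul_mem (G'.inv_mem hsG) hA, hsA⟩, ?_⟩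
      rw [Set.mem_iUnion₂]
      refine ⟨s, hs, ?_⟩
      rw [Set.mem_preimage, ← act_mul, mul_inv_cancel_left]
      exact hx
  obtain ⟨S₃, hS₃⟩ := stmGI (G' ⊓ SO d) (SO d) inf_le_right (SO_disc d hd) hfc'
  refine ⟨d, hd, pi B, iso_pi B, ?_, ?_⟩
  · refine ⟨(S₁ ×ˢ S₂).image (fun p => p.1 * pi (B⁻¹ * p.2 * B)), ?_⟩
    intro γ hγ
    obtain ⟨s₁, hs₁, hs₁Γ, A, hA, hγA⟩ := hS₁ γ hγ
    obtain ⟨s₂, hs₂, hs₂G, hs₂A⟩ := hS₂ (B * A * B⁻¹) (conj_mem_cj hA)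
    have h5 : B⁻¹ * s₂ * B ∈ G := mem_cj.mp hs₂G
    have h6 : pi (B⁻¹ * s₂ * B) ∈ Γ := h5
    refine ⟨s₁ * pi (B⁻¹ * s₂ * B), ?_, ?_, ?_⟩
    · rw [Finset.mem_image]
      exact ⟨(s₁, s₂), Finset.mem_product.mpr ⟨hs₁, hs₂⟩, rfl⟩
    · exact Γ.mul_mem (Γ.inv_mem (Γ.mul_mem hs₁Γ h6)) hγ
    · refine ⟨s₂⁻¹ * (B * A * B⁻¹), hs₂A, ?_⟩
      rw [hγA]
      simp only [map_mul, map_inv]
      group
  · refine ⟨S₃.image (fun s => pi (B⁻¹ * s * B)), ?_⟩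
    rintro δ ⟨A, hA, hδA⟩
    obtain ⟨s, hs, hsO, hsA⟩ := hS₃ A hA
    have hδ : δ = pi (B⁻¹ * A * B) := by
      have : δ = (pi B)⁻¹ * (pi B * δ * (pi B)⁻¹) * pi B := by group
      rw [this, hδA]
      simp only [map_mul, map_inv]
    refine ⟨pi (B⁻¹ * s * B), Finset.mem_image.mpr ⟨s, hs, rfl⟩, ?_, ?_⟩
    · have h5 : B⁻¹ * (s⁻¹ * A) * B ∈ G := mem_cj.mp hsA.1
      have h6 : pi (B⁻¹ * (s⁻¹ * A) * B) ∈ Γ := h5
      have h7 : (pi (B⁻¹ * s * B))⁻¹ * δ = pi (B⁻¹ * (s⁻¹ * A) * B) := by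
        rw [hδ]
        simp only [map_mul, map_inv]
        group
      rw [h7]
      exact h6
    · refine ⟨s⁻¹ * A, hsA.2, ?_⟩
      rw [hδ]
      simp only [map_mul, map_inv]
      group

/-- the form of the frozen statement -/
theorem OP_iff (d : ℕ) (ψ : Equiv.Perm H3) : (∃ A ∈ SO d, ψ = pi A) ↔
    ∃ a b c e : ℂ, (∀ z ∈ ({a, b, c, e} : Set ℂ), IsIntegral ℤ z ∧
      ∃ u v : ℚ, z = (u : ℂ) + (v : ℂ) * ((Real.sqrt (d : ℝ) : ℂ) * Complex.I)) ∧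
      a * e - b * c = 1 ∧ ∀ p : {p : ℂ × ℝ // 0 < p.2},
        (ψ p).1.1 = ((a * p.1.1 + b) * (starRingEnd ℂ) (c * p.1.1 + e) +
          a * (starRingEnd ℂ) c * ((p.1.2 : ℂ) ^ 2)) /
            (((‖c * p.1.1 + e‖ ^ 2 + ‖c‖ ^ 2 * p.1.2 ^ 2 : ℝ)) : ℂ) ∧
        (ψ p).1.2 = p.1.2 / (‖c * p.1.1 + e‖ ^ 2 + ‖c‖ ^ 2 * p.1.2 ^ 2) := by
  have hmem : ∀ z : ℂ, z ∈ Od d ↔ IsIntegral ℤ z ∧
      ∃ u v : ℚ, z = (u : ℂ) + (v : ℂ) * ((Real.sqrt (d : ℝ) : ℂ) * Complex.I) := by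
    intro z
    rw [← mem_Kd]
    exact Iff.rfl
  constructor
  · rintro ⟨A, hA, rfl⟩
    refine ⟨A 0 0, A 0 1, A 1 0, A 1 1, ?_, det_eq A, fun p => ⟨rfl, rfl⟩⟩
    intro z hz
    rw [← hmem]
    rcases hz with rfl | rfl | rfl | rfl
    · exact hA 0 0
    · exact hA 0 1
    · exact hA 1 0
    · exact hA 1 1
  · rintro ⟨a, b, c, e, hz, hdet, hp⟩
    refine ⟨mk2 a b c e hdet, ?_, ?_⟩
    · have ha : a ∈ Od d := (hmem a).mpr (hz a (by simp))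
      have hb : b ∈ Od d := (hmem b).mpr (hz b (by simp))
      have hc : c ∈ Od d := (hmem c).mpr (hz c (by simp))
      have he : e ∈ Od d := (hmem e).mpr (hz e (by simp))
      intro i j
      fin_cases i <;> fin_cases j
      · exact ha
      · exact hb
      · exact hc
      · exact he
    · ext1 p
      apply Subtype.ext
      apply Prod.ext
      · exact (hp p).1
      · exact (hp p).2

end Pool.Agent.N530.LS
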