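import Pool.Agent.N530.LS.Geo1

/-!
# G3: invariance of the volume
-/

set_option autoImplicit false

namespace Pool.Agent.N530.LS

open MeasureTheory Complex Matrix

theorem measurableSet_H3 : MeasurableSet {p : ℂ × ℝ | 0 < p.2} :=
  measurableSet_lt measurable_const measurable_snd

theorem vol_apply {s : Set H3} (hs : MeasurableSet s) :
    vol s = ∫⁻ p in (Subtype.val '' s : Set (ℂ × ℝ)), ENNReal.ofReal (1 / p.2 ^ 3) := by
  have h1 : vol s = ((volume : Measure (ℂ × ℝ)).withDensity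
      (fun p => ENNReal.ofReal (1 / p.2 ^ 3))) (Subtype.val '' s) :=
    Measure.comap_apply Subtype.val Subtype.val_injective
      (fun s hs => measurableSet_H3.subtype_image hs) _ hs
  exact h1.trans (withDensity_apply _ (measurableSet_H3.subtype_image hs))

theorem continuous_of_deriv (g : H3 → H3) (φ : ℂ × ℝ → ℂ × ℝ)
    (φ' : ℂ × ℝ → (ℂ × ℝ →L[ℝ] ℂ × ℝ)) (h1 : ∀ p : H3, (g p).1 = φ p.1)
    (h2 : ∀ p : ℂ × ℝ, 0 < p.2 → HasFDerivAt φ (φ' p) p) : Continuous g := by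
  have h3 : (fun p : H3 => (g p).1) = fun p : H3 => φ p.1 := funext h1
  have h4 : Continuous (fun p : H3 => (g p).1) := by
    rw [h3, continuous_iff_continuousAt]
    intro p
    exact ContinuousAt.comp (h2 p.1 p.2).continuousAt continuousAt_subtype_val
  exact Topology.IsInducing.subtypeVal.continuous_iff.mpr h4

theorem mp_of_deriv (g : Equiv.Perm H3) (φ : ℂ × ℝ → ℂ × ℝ)
    (φ' : ℂ × ℝ → (ℂ × ℝ →L[ℝ] ℂ × ℝ)) (h1 : ∀ p : H3, (g p).1 = φ p.1)
    (h2 : ∀ p : ℂ × ℝ, 0 < p.2 → HasFDerivAt φ (φ' p) p)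
    (h3 : ∀ p : ℂ × ℝ, 0 < p.2 → |(φ' p).det| = ((φ p).2 / p.2) ^ 3) :
    MeasurePreserving g vol vol := by
  have hm : Measurable g := (continuous_of_deriv g φ φ' h1 h2).measurable
  refine ⟨hm, ?_⟩
  ext s hs
  rw [Measure.map_apply hm hs, vol_apply hs, vol_apply (hm hs)]
  have h4 : (Subtype.val '' s : Set (ℂ × ℝ)) = φ '' (Subtype.val '' (g ⁻¹' s)) := by
    ext p
    constructor
    · rintro ⟨x, hx, rfl⟩
      obtain ⟨y, rfl⟩ := g.surjective x
      exact ⟨y.1, ⟨y, hx, rfl⟩, (h1 y).symm⟩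
    · rintro ⟨_, ⟨y, hy, rfl⟩, rfl⟩
      exact ⟨g y, hy, h1 y⟩
  rw [h4]
  haveI : (volume : Measure (ℂ × ℝ)).IsAddHaarMeasure :=
    inferInstanceAs ((volume : Measure ℂ).prod (volume : Measure ℝ)).IsAddHaarMeasure
  have h5 := lintegral_image_eq_lintegral_abs_det_fderiv_mul (μ := (volume : Measure (ℂ × ℝ)))
    (s := Subtype.val '' (g ⁻¹' s)) (f := φ) (f' := φ')
    (measurableSet_H3.subtype_image (hm hs))
    (by
      rintro _ ⟨y, hy, rfl⟩
      exact (h2 y.1 y.2).hasFDerivWithinAt)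
    (by
      rintro _ ⟨y, hy, rfl⟩ _ ⟨x, hx, rfl⟩ h
      rw [← h1, ← h1] at h
      exact congrArg _ (g.injective (Subtype.ext h)))
    (fun p => ENNReal.ofReal (1 / p.2 ^ 3))
  rw [h5]
  apply setLIntegral_congr_fun (measurableSet_H3.subtype_image (hm hs))
  rintro _ ⟨y, hy, rfl⟩
  have hy2 := y.2
  have h6 : 0 < (φ y.1).2 := by
    rw [← h1]
    exact (g y).2
  change ENNReal.ofReal (1 / y.1.2 ^ 3) = ENNReal.ofReal |(φ' y.1).det| *
    ENNReal.ofReal (1 / (φ y.1).2 ^ 3)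
  have h7 : 0 ≤ ((φ y.1).2 / y.1.2) ^ 3 := pow_nonneg (div_nonneg h6.le hy2.le) 3
  rw [h3 _ y.2, ← ENNReal.ofReal_mul h7]
  congr 1
  field_simp

/-- complex conjugation -/
theorem cc_mp : MeasurePreserving cc vol vol := by
  set L : ℂ × ℝ →L[ℝ] ℂ × ℝ :=
    (conjCLE : ℂ →L[ℝ] ℂ).prodMap (ContinuousLinearMap.id ℝ ℝ) with hL
  apply mp_of_deriv cc (fun p => L p) (fun _ => L)
  · intro p
    rfl
  · intro p hp
    exact L.hasFDerivAt
  · intro p hp
    have h2 : L.det * L.det = 1 := by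
      have : (L : ℂ × ℝ →ₗ[ℝ] ℂ × ℝ) * (L : ℂ × ℝ →ₗ[ℝ] ℂ × ℝ) = 1 := by
        apply LinearMap.ext
        rintro ⟨z, t⟩
        change L (L (z, t)) = (z, t)
        simp [hL]
      have h3 := congrArg LinearMap.det this
      rw [map_mul, map_one] at h3
      exact h3
    have h3 : |L.det| = 1 := by
      have : |L.det| * |L.det| = 1 := by rw [← abs_mul, h2, abs_one]
      nlinarith [abs_nonneg L.det]
    rw [h3]
    have : (L p).2 = p.2 := rfl
    rw [this, div_self hp.ne', one_pow]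

/-- upper triangular matrices -/
theorem up_mp (A : SL2C) (hA : A 1 0 = 0) : MeasurePreserving (pi A) vol vol := by
  have hd := det_eq A
  rw [hA, mul_zero, sub_zero] at hd
  have ha : A 0 0 ≠ 0 := left_ne_zero_of_mul_eq_one hd
  have he : A 1 1 ≠ 0 := right_ne_zero_of_mul_eq_one hd
  have hn : ‖A 0 0‖ * ‖A 1 1‖ = 1 := by rw [← norm_mul, hd, norm_one]
  have ha' : 0 < ‖A 0 0‖ := norm_pos_iff.mpr ha
  have he' : 0 < ‖A 1 1‖ := norm_pos_iff.mpr he
  set L : ℂ × ℝ →L[ℝ] ℂ × ℝ := (ContinuousLinearMap.mul ℝ ℂ (A 0 0 ^ 2)).prodMap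
    (‖A 0 0‖ ^ 2 • ContinuousLinearMap.id ℝ ℝ) with hL
  apply mp_of_deriv (pi A) (fun p => L p + (A 0 0 * A 0 1, 0)) (fun _ => L)
  · intro p
    apply Prod.ext
    · change nz A p.1 = A 0 0 ^ 2 * p.1.1 + A 0 0 * A 0 1
      unfold nz dn
      rw [hA]
      simp only [zero_mul, zero_add, map_zero, mul_zero, norm_zero, add_zero, ne_eq,
        OfNat.ofNat_ne_zero, not_false_eq_true, zero_pow]
      have h1 : ((‖A 1 1‖ ^ 2 : ℝ) : ℂ) = A 1 1 * (starRingEnd ℂ) (A 1 1) := by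
        rw [Complex.mul_conj, Complex.normSq_eq_norm_sq]
      rw [h1]
      have h2 : (starRingEnd ℂ) (A 1 1) ≠ 0 := by simpa using he
      field_simp
      linear_combination (-(A 0 0 * p.1.1 + A 0 1)) * hd
    · change p.1.2 / dn A p.1 = ‖A 0 0‖ ^ 2 * p.1.2 + 0
      unfold dn
      rw [hA]
      simp only [zero_mul, zero_add, norm_zero, add_zero, ne_eq,
        OfNat.ofNat_ne_zero, not_false_eq_true, zero_pow]
      field_simp
      have : (‖A 0 0‖ * ‖A 1 1‖) ^ 2 = 1 := by rw [hn, one_pow]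
      linear_combination -(p.1.2) * this
  · intro p hp
    exact L.hasFDerivAt.add_const _
  · intro p hp
    have h1 : L.det = ‖A 0 0‖ ^ 6 := by
      have h2 : (L : ℂ × ℝ →ₗ[ℝ] ℂ × ℝ) = (Algebra.lmul ℝ ℂ (A 0 0 ^ 2)).prodMap
          (‖A 0 0‖ ^ 2 • LinearMap.id) := by
        apply LinearMap.ext
        rintro ⟨z, t⟩
        rfl
      rw [ContinuousLinearMap.det, h2, LinearMap.det_prodMap, ← Algebra.norm_apply,
        Algebra.norm_complex_apply, LinearMap.det_smul, Complex.normSq_eq_norm_sq, norm_pow]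
      simp
      ring
    rw [h1]
    have h3 : (L p + (A 0 0 * A 0 1, (0 : ℝ))).2 = ‖A 0 0‖ ^ 2 * p.2 := by
      simp [hL]
    rw [h3, mul_div_assoc, div_self hp.ne', mul_one, abs_of_pos (by positivity)]
    ring

/-- the inversion matrix -/
def Jm : SL2C := ⟨!![0, -1; 1, 0], by simp [Matrix.det_fin_two]⟩

theorem Jm_mp : MeasurePreserving (pi Jm) vol vol := by
  have a00 : Jm 0 0 = 0 := rfl
  have a01 : Jm 0 1 = -1 := rfl
  have a10 : Jm 1 0 = 1 := rfl
  have a11 : Jm 1 1 = 0 := rfl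
  set ρ : ℂ × ℝ →L[ℝ] ℂ × ℝ :=
    (-(conjCLE : ℂ →L[ℝ] ℂ)).prodMap (ContinuousLinearMap.id ℝ ℝ) with hρ
  set Rl : ℂ × ℝ →L[ℝ] ℝ := reCLM.comp (ContinuousLinearMap.fst ℝ ℂ ℝ) with hRl
  set Il : ℂ × ℝ →L[ℝ] ℝ := imCLM.comp (ContinuousLinearMap.fst ℝ ℂ ℝ) with hIl
  set Sl : ℂ × ℝ →L[ℝ] ℝ := ContinuousLinearMap.snd ℝ ℂ ℝ with hSl
  set N : ℂ × ℝ → ℝ := fun p => Rl p ^ 2 + Il p ^ 2 + Sl p ^ 2 with hN
  set N' : ℂ × ℝ → (ℂ × ℝ →L[ℝ] ℝ) := fun p => (2 * Rl p) • Rl + (2 * Il p) • Il +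
    (2 * Sl p) • Sl with hN'
  have hder : ∀ p, HasFDerivAt N (N' p) p := by
    intro p
    have := ((Rl.hasFDerivAt (x := p)).pow 2).add ((Il.hasFDerivAt (x := p)).pow 2)
      |>.add ((Sl.hasFDerivAt (x := p)).pow 2)
    exact this.congr_fderiv (by simp [hN'])
  have hNp : ∀ p : ℂ × ℝ, 0 < p.2 → 0 < N p := by
    intro p hp
    have : 0 < Sl p := hp
    positivity
  have hNd : ∀ p : ℂ × ℝ, dn Jm p = N p := by
    intro p
    unfold dn
    rw [a10, a11]
    simp only [hN, hRl, hIl, hSl, one_mul, add_zero, norm_one, one_pow,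
      ContinuousLinearMap.comp_apply, ContinuousLinearMap.coe_fst', ContinuousLinearMap.coe_snd',
      reCLM_apply, imCLM_apply]
    rw [← Complex.normSq_eq_norm_sq, Complex.normSq_apply]
    ring
  apply mp_of_deriv (pi Jm) (fun p => (N p)⁻¹ • ρ p)
    (fun p => (N p)⁻¹ • ρ + (-(N p ^ 2)⁻¹ • N' p).smulRight (ρ p))
  · intro p
    have h0 := hNp p.1 p.2
    apply Prod.ext
    · change nz Jm p.1 = (N p.1)⁻¹ • (-(starRingEnd ℂ) p.1.1)
      unfold nz
      rw [hNd, a00, a01, a10, a11]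
      simp only [zero_mul, zero_add, one_mul, add_zero, map_one]
      rw [Complex.real_smul]
      push_cast
      ring
    · change p.1.2 / dn Jm p.1 = (N p.1)⁻¹ • p.1.2
      rw [hNd, smul_eq_mul]
      field_simp
  · intro p hp
    have h0 := hNp p hp
    have h1 : HasFDerivAt (fun p => (N p)⁻¹) (-(N p ^ 2)⁻¹ • N' p) p := by
      have := (hasDerivAt_inv h0.ne').comp_hasFDerivAt p (hder p)
      exact this
    exact h1.smul ρ.hasFDerivAt
  · intro p hp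
    have h0 := hNp p hp
    have hρ2 : |LinearMap.det (ρ : ℂ × ℝ →ₗ[ℝ] ℂ × ℝ)| = 1 := by
      have h1 : (ρ : ℂ × ℝ →ₗ[ℝ] ℂ × ℝ) * (ρ : ℂ × ℝ →ₗ[ℝ] ℂ × ℝ) = 1 := by
        apply LinearMap.ext
        rintro ⟨z, t⟩
        change ρ (ρ (z, t)) = (z, t)
        simp [hρ]
      have h2 := congrArg LinearMap.det h1
      rw [map_mul, map_one] at h2
      have h3 : |LinearMap.det (ρ : ℂ × ℝ →ₗ[ℝ] ℂ × ℝ)| *
          |LinearMap.det (ρ : ℂ × ℝ →ₗ[ℝ] ℂ × ℝ)| = 1 := by rw [← abs_mul, h2, abs_one]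
      nlinarith [abs_nonneg (LinearMap.det (ρ : ℂ × ℝ →ₗ[ℝ] ℂ × ℝ))]
    set f : Module.Dual ℝ (ℂ × ℝ) := (-(N p)⁻¹) • (N' p : ℂ × ℝ →ₗ[ℝ] ℝ) with hf
    have hdec : (((N p)⁻¹ • ρ + (-(N p ^ 2)⁻¹ • N' p).smulRight (ρ p) :
        ℂ × ℝ →L[ℝ] ℂ × ℝ) : ℂ × ℝ →ₗ[ℝ] ℂ × ℝ) =
        (N p)⁻¹ • ((ρ : ℂ × ℝ →ₗ[ℝ] ℂ × ℝ) * LinearMap.transvection f p) := by
      apply LinearMap.ext
      intro v
      have e1 : ((ρ : ℂ × ℝ →ₗ[ℝ] ℂ × ℝ) * LinearMap.transvection f p) v =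
          ρ v + f v • ρ p := by
        change ρ (v + f v • p) = _
        rw [map_add, map_smul]
      rw [LinearMap.smul_apply, e1]
      change (N p)⁻¹ • ρ v + (-(N p ^ 2)⁻¹ • N' p v) • ρ p = _
      have e2 : f v = (-(N p)⁻¹) * N' p v := rfl
      rw [e2, smul_add, smul_smul, smul_eq_mul]
      congr 2
      field_simp
    have hfr : Module.finrank ℝ (ℂ × ℝ) = 3 := by
      rw [Module.finrank_prod, Complex.finrank_real_complex, Module.finrank_self]
    have hfp : f p = -2 := by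
      have e2 : f p = (-(N p)⁻¹) * N' p p := rfl
      have e3 : N' p p = 2 * N p := by
        change (2 * Rl p) * Rl p + (2 * Il p) * Il p + (2 * Sl p) * Sl p =
          2 * (Rl p ^ 2 + Il p ^ 2 + Sl p ^ 2)
        ring
      rw [e2, e3]
      field_simp
    rw [ContinuousLinearMap.det, hdec, LinearMap.det_smul, map_mul, hfr,
      LinearMap.transvection.det, hfp, abs_mul, abs_mul, hρ2]
    have h4 : ((N p)⁻¹ • ρ p).2 = (N p)⁻¹ * p.2 := rfl
    rw [h4, mul_div_assoc, div_self hp.ne', abs_of_pos (by positivity)]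
    norm_num

theorem pi_decomp (A : SL2C) (hA : A 1 0 ≠ 0) : ∃ U V : SL2C, U 1 0 = 0 ∧ V 1 0 = 0 ∧
    A = U * Jm * V := by
  have hd := det_eq A
  refine ⟨mk2 (1 / A 1 0) (A 0 0) 0 (A 1 0) (by field_simp; ring), mk2 1 (A 1 1 / A 1 0) 0 1
    (by ring), rfl, rfl, ?_⟩
  have j00 : Jm 0 0 = 0 := rfl
  have j01 : Jm 0 1 = -1 := rfl
  have j10 : Jm 1 0 = 1 := rfl
  have j11 : Jm 1 1 = 0 := rfl
  apply ext2
  · simp only [mul00, mul01, mk2_00, mk2_01, mk2_10, mk2_11, j00, j01, j10, j11]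
    ring
  · simp only [mul00, mul01, mk2_00, mk2_01, mk2_10, mk2_11, j00, j01, j10, j11]
    field_simp
    linear_combination -(A 1 0) * hd
  · simp only [mul10, mul11, mk2_00, mk2_01, mk2_10, mk2_11, j00, j01, j10, j11]
    ring
  · simp only [mul10, mul11, mk2_00, mk2_01, mk2_10, mk2_11, j00, j01, j10, j11]
    field_simp
    ring

theorem stmG3 : StmG3 := by
  refine ⟨fun A => ?_, cc_mp⟩
  by_cases hA : A 1 0 = 0
  · exact up_mp A hA
  · obtain ⟨U, V, hU, hV, rfl⟩ := pi_decomp A hA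
    have h1 : (pi (U * Jm * V) : H3 → H3) = pi U ∘ pi Jm ∘ pi V := by
      rw [map_mul, map_mul]
      rfl
    rw [h1]
    exact (up_mp U hU).comp (Jm_mp.comp (up_mp V hV))

theorem continuous_act (A : SL2C) : Continuous (act A) := by
  rw [Topology.IsInducing.subtypeVal.continuous_iff]
  apply Continuous.prodMk
  · change Continuous (fun p : H3 => nz A p.1)
    unfold nz
    apply Continuous.div
    · fun_prop
    · apply Complex.continuous_ofReal.comp
      unfold dn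
      fun_prop
    · intro p
      exact_mod_cast (dn_pos A p).ne'
  · change Continuous (fun p : H3 => p.1.2 / dn A p.1)
    apply Continuous.div
    · fun_prop
    · unfold dn
      fun_prop
    · intro p
      exact (dn_pos A p).ne'

end Pool.Agent.N530.LS
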