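import Pool.Agent.N530.LS.Geo1

/-!
# Commutators close to the identity, powers close to the identity
-/

set_option autoImplicit false
set_option linter.unusedSimpArgs false

namespace Pool.Agent.N530.LS

open Matrix Complex

/-- entrywise norm -/
noncomputable def en (M : Matrix (Fin 2) (Fin 2) ℂ) : ℝ := ‖M 0 0‖ + ‖M 0 1‖ + ‖M 1 0‖ + ‖M 1 1‖

theorem en_nonneg (M : Matrix (Fin 2) (Fin 2) ℂ) : 0 ≤ en M := by unfold en; positivity

theorem en_mul (M N : Matrix (Fin 2) (Fin 2) ℂ) : en (M * N) ≤ en M * en N := by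
  unfold en
  simp only [Matrix.mul_apply, Fin.sum_univ_two]
  have h00 := norm_add_le (M 0 0 * N 0 0) (M 0 1 * N 1 0)
  have h01 := norm_add_le (M 0 0 * N 0 1) (M 0 1 * N 1 1)
  have h10 := norm_add_le (M 1 0 * N 0 0) (M 1 1 * N 1 0)
  have h11 := norm_add_le (M 1 0 * N 0 1) (M 1 1 * N 1 1)
  simp only [norm_mul] at h00 h01 h10 h11
  have a := norm_nonneg (M 0 0)
  have b := norm_nonneg (M 0 1)
  have c := norm_nonneg (M 1 0)
  have d := norm_nonneg (M 1 1)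
  have a' := norm_nonneg (N 0 0)
  have b' := norm_nonneg (N 0 1)
  have c' := norm_nonneg (N 1 0)
  have d' := norm_nonneg (N 1 1)
  nlinarith [mul_nonneg a c', mul_nonneg a d', mul_nonneg b a', mul_nonneg b b',
    mul_nonneg c c', mul_nonneg c d', mul_nonneg d a', mul_nonneg d b']

theorem en_add (M N : Matrix (Fin 2) (Fin 2) ℂ) : en (M + N) ≤ en M + en N := by
  unfold en
  simp only [Matrix.add_apply]
  have h00 := norm_add_le (M 0 0) (N 0 0)
  have h01 := norm_add_le (M 0 1) (N 0 1)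
  have h10 := norm_add_le (M 1 0) (N 1 0)
  have h11 := norm_add_le (M 1 1) (N 1 1)
  linarith

theorem en_neg (M : Matrix (Fin 2) (Fin 2) ℂ) : en (-M) = en M := by
  simp [en]

theorem en_sub (M N : Matrix (Fin 2) (Fin 2) ℂ) : en (M - N) ≤ en M + en N := by
  rw [sub_eq_add_neg]
  exact (en_add _ _).trans (by rw [en_neg])

theorem ds_eq (A : SL2C) : ds A = en ((A : Matrix (Fin 2) (Fin 2) ℂ) - 1) := by
  simp [ds, en]

theorem ds_nonneg (A : SL2C) : 0 ≤ ds A := by unfold ds; positivity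

theorem en_one : en (1 : Matrix (Fin 2) (Fin 2) ℂ) = 2 := by
  simp [en]
  norm_num

theorem en_coe (A : SL2C) : en (A : Matrix (Fin 2) (Fin 2) ℂ) ≤ 2 + ds A := by
  rw [ds_eq]
  have h : (A : Matrix (Fin 2) (Fin 2) ℂ) = 1 + ((A : Matrix (Fin 2) (Fin 2) ℂ) - 1) := by abel
  calc en (A : Matrix (Fin 2) (Fin 2) ℂ)
      = en (1 + ((A : Matrix (Fin 2) (Fin 2) ℂ) - 1)) := by rw [← h]
    _ ≤ _ := (en_add _ _).trans (by rw [en_one])

theorem en_inv (A : SL2C) : en ((A⁻¹ : SL2C) : Matrix (Fin 2) (Fin 2) ℂ) =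
    en (A : Matrix (Fin 2) (Fin 2) ℂ) := by
  have h00 := inv00 A
  have h01 := inv01 A
  have h10 := inv10 A
  have h11 := inv11 A
  unfold en
  rw [h00, h01, h10, h11, norm_neg, norm_neg]
  ring

theorem ds_eq_zero {A : SL2C} (h : ds A = 0) : A = 1 := by
  unfold ds at h
  have h1 := norm_nonneg (A 0 0 - 1)
  have h2 := norm_nonneg (A 0 1)
  have h3 := norm_nonneg (A 1 0)
  have h4 := norm_nonneg (A 1 1 - 1)
  apply ext2
  · rw [sub_eq_zero.mp (norm_eq_zero.mp (show ‖A 0 0 - 1‖ = 0 by linarith))]; simp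
  · rw [norm_eq_zero.mp (show ‖A 0 1‖ = 0 by linarith)]; simp
  · rw [norm_eq_zero.mp (show ‖A 1 0‖ = 0 by linarith)]; simp
  · rw [sub_eq_zero.mp (norm_eq_zero.mp (show ‖A 1 1 - 1‖ = 0 by linarith))]; simp

theorem stmMa : StmMa := by
  refine ⟨1 / 20, by norm_num, fun P Q hP hQ => ?_⟩
  have hP0 := ds_nonneg P
  have hQ0 := ds_nonneg Q
  set p : Matrix (Fin 2) (Fin 2) ℂ := (P : Matrix (Fin 2) (Fin 2) ℂ) with hp
  set q : Matrix (Fin 2) (Fin 2) ℂ := (Q : Matrix (Fin 2) (Fin 2) ℂ) with hq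
  set p' : Matrix (Fin 2) (Fin 2) ℂ := ((P⁻¹ : SL2C) : Matrix (Fin 2) (Fin 2) ℂ) with hp'
  set q' : Matrix (Fin 2) (Fin 2) ℂ := ((Q⁻¹ : SL2C) : Matrix (Fin 2) (Fin 2) ℂ) with hq'
  have hpp : p * p' = 1 := by
    rw [hp, hp', ← Matrix.SpecialLinearGroup.coe_mul, mul_inv_cancel]
    rfl
  have hqq : q * q' = 1 := by
    rw [hq, hq', ← Matrix.SpecialLinearGroup.coe_mul, mul_inv_cancel]
    rfl
  have e1 : q * p * p' * q' = 1 := by
    rw [Matrix.mul_assoc q p p', hpp, Matrix.mul_one, hqq]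
  have key : ((P * Q * P⁻¹ * Q⁻¹ : SL2C) : Matrix (Fin 2) (Fin 2) ℂ) - 1 =
      ((p - 1) * (q - 1) - (q - 1) * (p - 1)) * p' * q' := by
    have : ((P * Q * P⁻¹ * Q⁻¹ : SL2C) : Matrix (Fin 2) (Fin 2) ℂ) = p * q * p' * q' := by
      simp only [Matrix.SpecialLinearGroup.coe_mul, hp, hq, hp', hq']
    rw [this]
    have e2 : (p - 1) * (q - 1) - (q - 1) * (p - 1) = p * q - q * p := by
      noncomm_ring
    rw [e2, Matrix.sub_mul, Matrix.sub_mul, e1]
  have b1 : en ((p - 1) * (q - 1) - (q - 1) * (p - 1)) ≤ 2 * (ds P * ds Q) := by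
    refine (en_sub _ _).trans ?_
    have h1 := en_mul (p - 1) (q - 1)
    have h2 := en_mul (q - 1) (p - 1)
    rw [← ds_eq, ← ds_eq] at h1 h2
    linarith
  have b2 : en p' ≤ 41 / 20 := by
    rw [hp', en_inv]
    linarith [en_coe P]
  have b3 : en q' ≤ 41 / 20 := by
    rw [hq', en_inv]
    linarith [en_coe Q]
  rw [ds_eq, key]
  calc en (((p - 1) * (q - 1) - (q - 1) * (p - 1)) * p' * q')
      ≤ en (((p - 1) * (q - 1) - (q - 1) * (p - 1)) * p') * en q' := en_mul _ _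
    _ ≤ (en ((p - 1) * (q - 1) - (q - 1) * (p - 1)) * en p') * en q' :=
        mul_le_mul_of_nonneg_right (en_mul _ _) (en_nonneg _)
    _ ≤ (2 * (ds P * ds Q) * (41 / 20)) * (41 / 20) := by
        have h0 : 0 ≤ 2 * (ds P * ds Q) := by positivity
        have hn := en_nonneg p'
        have hn' := en_nonneg q'
        exact mul_le_mul (mul_le_mul b1 b2 hn h0) b3 hn' (by positivity)
    _ ≤ ds P / 2 := by nlinarith

/-- matrices of the form `(a b; -conj b, conj a)` -/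
def IsU (M : Matrix (Fin 2) (Fin 2) ℂ) : Prop :=
  M 1 1 = (starRingEnd ℂ) (M 0 0) ∧ M 1 0 = -(starRingEnd ℂ) (M 0 1) ∧ M.det = 1

theorem IsU.mul {M N : Matrix (Fin 2) (Fin 2) ℂ} (hM : IsU M) (hN : IsU N) : IsU (M * N) := by
  refine ⟨?_, ?_, by rw [Matrix.det_mul, hM.2.2, hN.2.2, mul_one]⟩
  · simp only [Matrix.mul_apply, Fin.sum_univ_two, hM.1, hM.2.1, hN.1, hN.2.1, map_add, map_mul,
      map_neg, Complex.conj_conj]
    ring
  · simp only [Matrix.mul_apply, Fin.sum_univ_two, hM.1, hM.2.1, hN.1, hN.2.1, map_add, map_mul,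
      map_neg, Complex.conj_conj]
    ring

theorem IsU.one : IsU (1 : Matrix (Fin 2) (Fin 2) ℂ) := by
  refine ⟨?_, ?_, Matrix.det_one⟩ <;> simp

theorem IsU.pow {M : Matrix (Fin 2) (Fin 2) ℂ} (hM : IsU M) (k : ℕ) : IsU (M ^ k) := by
  induction k with
  | zero => simpa using IsU.one
  | succ k ih => rw [pow_succ]; exact ih.mul hM

theorem IsU.norm_le {M : Matrix (Fin 2) (Fin 2) ℂ} (hM : IsU M) (i j : Fin 2) : ‖M i j‖ ≤ 1 := by
  have h := hM.2.2
  rw [Matrix.det_fin_two, hM.1, hM.2.1] at h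
  have h1 : ‖M 0 0‖ ^ 2 + ‖M 0 1‖ ^ 2 = 1 := by
    have h2 : ((‖M 0 0‖ ^ 2 + ‖M 0 1‖ ^ 2 : ℝ) : ℂ) = 1 := by
      rw [← h]
      push_cast
      rw [mul_neg, Complex.mul_conj, Complex.mul_conj, Complex.normSq_eq_norm_sq,
        Complex.normSq_eq_norm_sq]
      push_cast
      ring
    exact_mod_cast h2
  have h00 : ‖M 0 0‖ ≤ 1 := by nlinarith [norm_nonneg (M 0 0), sq_nonneg ‖M 0 1‖]
  have h01 : ‖M 0 1‖ ≤ 1 := by nlinarith [norm_nonneg (M 0 1), sq_nonneg ‖M 0 0‖]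
  have h10 : ‖M 1 0‖ ≤ 1 := by rw [hM.2.1, norm_neg, RCLike.norm_conj]; exact h01
  have h11 : ‖M 1 1‖ ≤ 1 := by rw [hM.1, RCLike.norm_conj]; exact h00
  fin_cases i <;> fin_cases j <;> assumption

/-- Frobenius norm squared of a matrix -/
noncomputable def fr (M : Matrix (Fin 2) (Fin 2) ℂ) : ℝ :=
  ‖M 0 0‖ ^ 2 + ‖M 0 1‖ ^ 2 + ‖M 1 0‖ ^ 2 + ‖M 1 1‖ ^ 2

theorem isU_of_fr {M : Matrix (Fin 2) (Fin 2) ℂ} (hd : M.det = 1) (h : fr M ≤ 2) : IsU M := by
  have hns : ∀ z : ℂ, ((‖z‖ : ℂ)) ^ 2 = z * (starRingEnd ℂ) z := by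
    intro z
    rw [Complex.mul_conj, Complex.normSq_eq_norm_sq]
    push_cast
    ring
  have e : ((‖M 1 1 - (starRingEnd ℂ) (M 0 0)‖ ^ 2 + ‖M 1 0 + (starRingEnd ℂ) (M 0 1)‖ ^ 2 : ℝ)
      : ℂ) = ((fr M - 2 : ℝ) : ℂ) := by
    rw [Matrix.det_fin_two] at hd
    have hd' : (starRingEnd ℂ) (M 0 0) * (starRingEnd ℂ) (M 1 1) -
        (starRingEnd ℂ) (M 0 1) * (starRingEnd ℂ) (M 1 0) = 1 := by
      have := congrArg (starRingEnd ℂ) hd
      simpa using this
    unfold fr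
    push_cast
    rw [hns, hns, hns, hns, hns, hns, map_sub, map_add, Complex.conj_conj, Complex.conj_conj]
    linear_combination -hd - hd'
  have e' : ‖M 1 1 - (starRingEnd ℂ) (M 0 0)‖ ^ 2 + ‖M 1 0 + (starRingEnd ℂ) (M 0 1)‖ ^ 2 =
      fr M - 2 := by exact_mod_cast e
  have h1 := sq_nonneg ‖M 1 1 - (starRingEnd ℂ) (M 0 0)‖
  have h2 := sq_nonneg ‖M 1 0 + (starRingEnd ℂ) (M 0 1)‖
  have h3 : ‖M 1 1 - (starRingEnd ℂ) (M 0 0)‖ ^ 2 = 0 := by linarith
  have h4 : ‖M 1 0 + (starRingEnd ℂ) (M 0 1)‖ ^ 2 = 0 := by linarith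
  refine ⟨?_, ?_, hd⟩
  · exact sub_eq_zero.mp (norm_eq_zero.mp ((pow_eq_zero_iff two_ne_zero).mp h3))
  · exact eq_neg_of_add_eq_zero_left (norm_eq_zero.mp ((pow_eq_zero_iff two_ne_zero).mp h4))

theorem continuous_en : Continuous en := by
  unfold en
  fun_prop

theorem continuous_fr : Continuous fr := by
  unfold fr
  fun_prop

/-- a bounded sequence of powers comes close to the identity -/
theorem IsU.exists_pow {M : Matrix (Fin 2) (Fin 2) ℂ} (hM : IsU M) {c : ℝ} (hc : 0 < c) :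
    ∃ k : ℕ, 0 < k ∧ en (M ^ k - 1) < c := by
  have hb : ∀ k : ℕ, M ^ k ∈ Set.pi Set.univ
      (fun _ : Fin 2 => Set.pi Set.univ (fun _ : Fin 2 => Metric.closedBall (0 : ℂ) 1)) := by
    intro k i _ j _
    rw [mem_closedBall_zero_iff]
    exact (hM.pow k).norm_le i j
  have hcomp : IsCompact (Set.pi Set.univ
      (fun _ : Fin 2 => Set.pi Set.univ (fun _ : Fin 2 => Metric.closedBall (0 : ℂ) 1))) :=
    isCompact_univ_pi fun _ => isCompact_univ_pi fun _ => isCompact_closedBall _ _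
  obtain ⟨L, -, φ, hφ, hlim⟩ := hcomp.tendsto_subseq hb
  have hlim2 : Filter.Tendsto (fun n => en (M ^ φ (n + 1) - M ^ φ n)) Filter.atTop
      (nhds (en (L - L))) := by
    apply (continuous_en.tendsto _).comp
    exact Filter.Tendsto.sub (hlim.comp (Filter.tendsto_add_atTop_nat 1)) hlim
  rw [sub_self] at hlim2
  change Filter.Tendsto (fun n => en (M ^ φ (n + 1) - M ^ φ n)) Filter.atTop
      (nhds (en (0 : Matrix (Fin 2) (Fin 2) ℂ))) at hlim2
  have h0 : en (0 : Matrix (Fin 2) (Fin 2) ℂ) = 0 := by simp [en]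
  rw [h0] at hlim2
  obtain ⟨n, hn⟩ := ((hlim2.eventually (gt_mem_nhds (show (0 : ℝ) < c / 4 by positivity)))).exists
  have hlt : φ n < φ (n + 1) := hφ (Nat.lt_succ_self n)
  refine ⟨φ (n + 1) - φ n, by omega, ?_⟩
  -- `M^(k) - 1 = (adj M)^(φ n) (M^(φ(n+1)) - M^(φ n))`
  have hdet : (M ^ φ n).det = 1 := by rw [Matrix.det_pow, hM.2.2, one_pow]
  have hadj : (M ^ φ n).adjugate * (M ^ φ n) = 1 := by
    rw [Matrix.adjugate_mul, hdet, one_smul]
  have e1 : M ^ (φ (n + 1) - φ n) - 1 =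
      (M ^ φ n).adjugate * (M ^ φ (n + 1) - M ^ φ n) := by
    have e2 : M ^ φ (n + 1) = M ^ φ n * M ^ (φ (n + 1) - φ n) := by
      rw [← pow_add]
      congr 1
      omega
    rw [Matrix.mul_sub, hadj, e2, ← Matrix.mul_assoc, hadj, Matrix.one_mul]
  have hen : en (M ^ φ n).adjugate ≤ 4 := by
    have hU := hM.pow (φ n)
    unfold en
    rw [Matrix.adjugate_fin_two]
    simp only [of_apply, cons_val', cons_val_one, cons_val_zero, cons_val_fin_one, norm_neg]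
    linarith [hU.norm_le 0 0, hU.norm_le 0 1, hU.norm_le 1 0, hU.norm_le 1 1]
  rw [e1]
  calc en ((M ^ φ n).adjugate * (M ^ φ (n + 1) - M ^ φ n))
      ≤ en (M ^ φ n).adjugate * en (M ^ φ (n + 1) - M ^ φ n) := en_mul _ _
    _ ≤ 4 * en (M ^ φ (n + 1) - M ^ φ n) := mul_le_mul_of_nonneg_right hen (en_nonneg _)
    _ < c := by linarith

theorem stmMb : StmMb := by
  intro c hc
  by_contra hcon
  push Not at hcon
  let S : ℕ → Set (Matrix (Fin 2) (Fin 2) ℂ) := fun m =>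
    {M | M.det = 1 ∧ fr M ≤ 2 + 1 / ((m : ℝ) + 1) ∧ ∀ k : ℕ, 0 < k → k ≤ m → c ≤ en (M ^ k - 1)}
  have hne : ∀ m, (S m).Nonempty := by
    intro m
    obtain ⟨A, hA1, hA2⟩ := hcon (1 / ((m : ℝ) + 1)) (by positivity) m
    refine ⟨A, A.2, hA1, fun k hk hkm => ?_⟩
    have h := hA2 k hk hkm
    rw [ds_eq, Matrix.SpecialLinearGroup.coe_pow] at h
    exact h.le
  have hclosed : ∀ m, IsClosed (S m) := by
    intro m
    have h1 : IsClosed {M : Matrix (Fin 2) (Fin 2) ℂ | M.det = 1} :=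
      isClosed_eq (Continuous.matrix_det continuous_id) continuous_const
    have h2 : IsClosed {M : Matrix (Fin 2) (Fin 2) ℂ | fr M ≤ 2 + 1 / ((m : ℝ) + 1)} :=
      isClosed_le continuous_fr continuous_const
    have h3 : IsClosed {M : Matrix (Fin 2) (Fin 2) ℂ | ∀ k : ℕ, 0 < k → k ≤ m →
        c ≤ en (M ^ k - 1)} := by
      simp only [Set.ofPred_forall]
      refine isClosed_iInter fun k => isClosed_iInter fun _ => isClosed_iInter fun _ => ?_
      exact isClosed_le continuous_const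
        (continuous_en.comp ((continuous_pow k).sub continuous_const))
    exact h1.inter (h2.inter h3)
  have hmono : ∀ m, S (m + 1) ⊆ S m := by
    intro m M hM
    refine ⟨hM.1, hM.2.1.trans ?_, fun k hk hkm => hM.2.2 k hk (by omega)⟩
    have : (1 : ℝ) / (((m + 1 : ℕ) : ℝ) + 1) ≤ 1 / ((m : ℝ) + 1) := by
      apply one_div_le_one_div_of_le (by positivity)
      push_cast
      linarith
    linarith
  have hcomp : IsCompact (S 0) := by
    have hK : IsCompact (Set.pi Set.univ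
        (fun _ : Fin 2 => Set.pi Set.univ (fun _ : Fin 2 => Metric.closedBall (0 : ℂ) 2))) :=
      isCompact_univ_pi fun _ => isCompact_univ_pi fun _ => isCompact_closedBall _ _
    refine hK.of_isClosed_subset (hclosed 0) ?_
    intro M hM i _ j _
    rw [mem_closedBall_zero_iff]
    have h := hM.2.1
    simp only [Nat.cast_zero, zero_add, div_one] at h
    unfold fr at h
    have a := sq_nonneg ‖M 0 0‖
    have b := sq_nonneg ‖M 0 1‖
    have c' := sq_nonneg ‖M 1 0‖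
    have d := sq_nonneg ‖M 1 1‖
    apply le_of_sq_le_sq ?_ (by norm_num : (0 : ℝ) ≤ 2)
    fin_cases i <;> fin_cases j <;> simp <;> linarith
  obtain ⟨M, hM⟩ := IsCompact.nonempty_iInter_of_sequence_nonempty_isCompact_isClosed S
    hmono hne hcomp hclosed
  rw [Set.mem_iInter] at hM
  have hfr : fr M ≤ 2 := by
    apply le_of_forall_pos_le_add
    intro e he
    obtain ⟨m, hm⟩ := exists_nat_one_div_lt he
    exact (hM m).2.1.trans (by linarith)
  have hU : IsU M := isU_of_fr (hM 0).1 hfr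
  obtain ⟨k, hk, hlt⟩ := hU.exists_pow hc
  exact absurd ((hM k).2.2 k hk le_rfl) (not_le.mpr hlt)

end Pool.Agent.N530.LS
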