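import Pool.Agent.N530.LS.G3
import Pool.Agent.N530.LS.Geo2

/-!
# GV: the measure inequality, finite index, the thick part
-/

set_option autoImplicit false

namespace Pool.Agent.N530.LS

open MeasureTheory Complex Matrix

theorem measurable_act (A : SL2C) : Measurable (act A) := (continuous_act A).measurable

theorem vol_act (A : SL2C) {s : Set H3} (hs : MeasurableSet s) : vol (act A ⁻¹' s) = vol s :=
  (stmG3.1 A).measure_preimage hs.nullMeasurableSet

theorem Disc.countable {G : Subgroup SL2C} (hG : Disc G) : Countable G := by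
  have h1 : (G : Set SL2C) = ⋃ n : ℕ, {A : SL2C | A ∈ G ∧ dl (act A pj) pj ≤ n} := by
    ext A
    simp only [SetLike.mem_coe, Set.mem_iUnion, Set.mem_ofPred_eq]
    constructor
    · intro hA
      obtain ⟨n, hn⟩ := exists_nat_ge (dl (act A pj) pj)
      exact ⟨n, hA, hn⟩
    · rintro ⟨n, hA, _⟩
      exact hA
  have h2 : (G : Set SL2C).Countable := by
    rw [h1]
    exact Set.countable_iUnion fun n => (hG pj n).countable
  exact h2.to_subtype

/-- the bounded multiplicity lemma -/
theorem mult_bound (D : Subgroup SL2C) (hD : Disc D) (B F : Set H3) (hB : MeasurableSet B)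
    (M : Finset SL2C) (hM : ∀ E ∈ D, ∀ x ∈ B, act E x ∈ B → E ∈ M) :
    ∑' E : D, vol (act E.1 ⁻¹' B ∩ F) ≤ M.card * vol F := by
  classical
  have := hD.countable
  have h1 : ∀ E : D, vol (act E.1 ⁻¹' B ∩ F) =
      ∫⁻ x in F, (act E.1 ⁻¹' B).indicator (fun _ => (1 : ENNReal)) x ∂vol := by
    intro E
    rw [lintegral_indicator (measurable_act _ hB)]
    simp only [lintegral_const, one_mul, Measure.restrict_apply MeasurableSet.univ,
      Set.univ_inter]
    rw [Measure.restrict_apply (measurable_act _ hB)]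
  simp_rw [h1]
  rw [← lintegral_tsum]
  · calc ∫⁻ x in F, ∑' E : D, (act E.1 ⁻¹' B).indicator (fun _ => (1 : ENNReal)) x ∂vol
        ≤ ∫⁻ _ in F, (M.card : ENNReal) ∂vol := by
          apply lintegral_mono
          intro x
          change ∑' E : D, (act E.1 ⁻¹' B).indicator (fun _ => (1 : ENNReal)) x ≤ M.card
          rw [ENNReal.tsum_eq_iSup_sum]
          apply iSup_le
          intro s
          have h2 : ∑ E ∈ s, (act E.1 ⁻¹' B).indicator (fun _ => (1 : ENNReal)) x =
              ((s.filter fun E => act E.1 x ∈ B).card : ENNReal) := by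
            rw [Finset.card_filter]
            push_cast
            apply Finset.sum_congr rfl
            intro E _
            by_cases h : act E.1 x ∈ B
            · simp [h]
            · simp [h]
          rw [h2]
          norm_cast
          rcases (s.filter fun E => act E.1 x ∈ B).eq_empty_or_nonempty with h3 | ⟨E₀, h3⟩
          · rw [h3]
            simp
          · rw [Finset.mem_filter] at h3
            apply Finset.card_le_card_of_injOn (fun E => E.1 * E₀.1⁻¹)
            · intro E hE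
              rw [Finset.mem_coe, Finset.mem_filter] at hE
              apply hM _ (D.mul_mem E.2 (D.inv_mem E₀.2)) (act E₀.1 x) h3.2
              rw [← act_mul, inv_mul_cancel_right]
              exact hE.2
            · intro E _ E' _ h
              have h4 : E.1 * E₀.1⁻¹ = E'.1 * E₀.1⁻¹ := h
              exact Subtype.ext (mul_right_cancel h4)
      _ = M.card * vol F := by
          rw [lintegral_const, Measure.restrict_apply MeasurableSet.univ, Set.univ_inter]
  · intro E
    exact (measurable_const.indicator (measurable_act _ hB)).aemeasurable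

theorem gv2 (G : Subgroup SL2C) (hG : Disc G) (F U : Set H3) (hF : MeasurableSet F)
    (hcov : ∀ x : H3, ∃ A ∈ G, act A x ∈ F) (hU : MeasurableSet U)
    (hdis : ∀ A ∈ G, A ≠ 1 → A ≠ -1 → ∀ x ∈ U, act A x ∉ U) : vol U ≤ 2 * vol F := by
  classical
  have := hG.countable
  have h1 := mult_bound G hG U F hU {1, -1} (by
    intro E hE x hx hEx
    by_contra h
    simp only [Finset.mem_insert, Finset.mem_singleton, not_or] at h
    exact hdis E hE h.1 h.2 x hx hEx)
  have h2 : vol U ≤ ∑' E : G, vol (act E.1 ⁻¹' U ∩ F) := by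
    have h3 : U ⊆ ⋃ E : G, U ∩ act E.1 ⁻¹' F := by
      intro x hx
      obtain ⟨A, hA, hAx⟩ := hcov x
      exact Set.mem_iUnion.mpr ⟨⟨A, hA⟩, hx, hAx⟩
    calc vol U ≤ vol (⋃ E : G, U ∩ act E.1 ⁻¹' F) := measure_mono h3
      _ ≤ ∑' E : G, vol (U ∩ act E.1 ⁻¹' F) := measure_iUnion_le _
      _ = ∑' E : G, vol (act (E⁻¹ : G).1 ⁻¹' U ∩ F) := by
          apply tsum_congr
          intro E
          rw [← vol_act (E⁻¹ : G).1 (hU.inter (measurable_act _ hF)), Set.preimage_inter,
            ← Set.preimage_comp]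
          congr 2
          have : act E.1 ∘ act (E⁻¹ : G).1 = id := by
            funext x
            rw [Function.comp_apply, ← act_mul]
            have : E.1 * (E⁻¹ : G).1 = 1 := by
              rw [← Subgroup.coe_mul, mul_inv_cancel, Subgroup.coe_one]
            rw [this, act_one]
            rfl
          rw [this]
          rfl
      _ = ∑' E : G, vol (act E.1 ⁻¹' U ∩ F) :=
          (Equiv.inv G).tsum_eq (fun E : G => vol (act E.1 ⁻¹' U ∩ F))
  refine h2.trans (h1.trans ?_)
  gcongr
  have h5 : ({1, -1} : Finset SL2C).card ≤ 2 := Finset.card_le_two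
  exact_mod_cast h5

/-- the quasi-triangle inequality -/
theorem dl_tri {x y z : H3} {δ : ℝ} (hδ' : δ ≤ 1 / 2) (h1 : dl x y ≤ δ)
    (h2 : dl y z ≤ δ) : dl x z ≤ 8 * δ := by
  have hx := x.2
  have hy := y.2
  have hz := z.2
  unfold dl at h1 h2 ⊢
  rw [div_le_iff₀ (by positivity)] at h1 h2 ⊢
  set a := x.1.2
  set b := y.1.2
  set c := z.1.2
  have hδ : 0 ≤ δ := by
    by_contra h
    have : δ * (a * b) < 0 := mul_neg_of_neg_of_pos (not_le.mp h) (by positivity)
    have := sq_nonneg ‖x.1.1 - y.1.1‖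
    have := sq_nonneg (a - b)
    linarith
  have h3 : ‖x.1.1 - z.1.1‖ ≤ ‖x.1.1 - y.1.1‖ + ‖y.1.1 - z.1.1‖ := by
    have := norm_add_le (x.1.1 - y.1.1) (y.1.1 - z.1.1)
    rwa [sub_add_sub_cancel] at this
  have h4 : ‖x.1.1 - z.1.1‖ ^ 2 ≤ 2 * ‖x.1.1 - y.1.1‖ ^ 2 + 2 * ‖y.1.1 - z.1.1‖ ^ 2 := by
    have h5 : ‖x.1.1 - z.1.1‖ ^ 2 ≤ (‖x.1.1 - y.1.1‖ + ‖y.1.1 - z.1.1‖) ^ 2 := by gcongr
    nlinarith [sq_nonneg (‖x.1.1 - y.1.1‖ - ‖y.1.1 - z.1.1‖)]
  have h5 : (a - c) ^ 2 ≤ 2 * (a - b) ^ 2 + 2 * (b - c) ^ 2 := by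
    nlinarith [sq_nonneg (a - b - (b - c))]
  have hb1 : b ≤ 2 * a := by
    by_contra h
    have : (a - b) ^ 2 ≤ 1 / 2 * (a * b) := by
      nlinarith [sq_nonneg ‖x.1.1 - y.1.1‖, mul_pos hx hy]
    nlinarith
  have hb2 : b ≤ 2 * c := by
    by_contra h
    have : (b - c) ^ 2 ≤ 1 / 2 * (b * c) := by
      nlinarith [sq_nonneg ‖y.1.1 - z.1.1‖, mul_pos hy hz]
    nlinarith
  have h6 : δ * (a * b) ≤ δ * (a * (2 * c)) := by gcongr
  have h7 : δ * (b * c) ≤ δ * (2 * a * c) := by gcongr
  nlinarith

theorem continuous_dl (y : H3) : Continuous fun x : H3 => dl x y := by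
  unfold dl
  apply Continuous.div
  · fun_prop
  · fun_prop
  · intro x
    have hx := x.2
    have hy := y.2
    positivity

theorem dl_self (x : H3) : dl x x = 0 := by
  unfold dl
  simp

/-- balls -/
def bal (y : H3) (δ : ℝ) : Set H3 := {x | dl x y < δ}

theorem isOpen_bal (y : H3) (δ : ℝ) : IsOpen (bal y δ) :=
  isOpen_lt (continuous_dl y) continuous_const

theorem bal_preimage (A : SL2C) (y : H3) (δ : ℝ) : act A ⁻¹' (bal (act A y) δ) = bal y δ := by
  ext x
  change dl (act A x) (act A y) < δ ↔ dl x y < δ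
  rw [dl_act]

theorem vol_bal (y : H3) (δ : ℝ) : vol (bal y δ) = vol (bal pj δ) := by
  obtain ⟨A, hA⟩ := act_transitive y pj
  rw [← bal_preimage A y, vol_act A (isOpen_bal _ _).measurableSet, hA]

theorem vol_pos {U : Set H3} (hU : IsOpen U) (hne : U.Nonempty) : 0 < vol U := by
  rw [vol_apply hU.measurableSet]
  have hm : Measurable fun p : ℂ × ℝ => ENNReal.ofReal (1 / p.2 ^ 3) := by fun_prop
  rw [setLIntegral_pos_iff hm]
  have ho : IsOpen {p : ℂ × ℝ | 0 < p.2} := isOpen_lt continuous_const continuous_snd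
  have h1 : IsOpen (Subtype.val '' U : Set (ℂ × ℝ)) := ho.isOpenMap_subtype_val U hU
  have h2 : (Subtype.val '' U : Set (ℂ × ℝ)) ⊆
      Function.support (fun p : ℂ × ℝ => ENNReal.ofReal (1 / p.2 ^ 3)) := by
    rintro _ ⟨x, hx, rfl⟩
    have hx2 := x.2
    rw [Function.mem_support]
    apply ne_of_gt
    rw [ENNReal.ofReal_pos]
    positivity
  rw [Set.inter_eq_self_of_subset_right h2]
  have : (volume : Measure (ℂ × ℝ)).IsOpenPosMeasure :=
    inferInstanceAs ((volume : Measure ℂ).prod (volume : Measure ℝ)).IsOpenPosMeasure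
  exact h1.measure_pos _ (hne.image _)

theorem isCompact_ball (y : H3) (R : ℝ) : IsCompact {x : H3 | dl x y ≤ R} := by
  rcases lt_or_ge R 0 with hR | hR
  · have : {x : H3 | dl x y ≤ R} = ∅ := by
      ext x
      simp only [Set.mem_ofPred_eq, Set.mem_empty_iff_false, iff_false, not_le]
      exact hR.trans_le (dl_nonneg _ _)
    rw [this]
    exact isCompact_empty
  · rw [Topology.IsEmbedding.subtypeVal.isCompact_iff]
    have hy := y.2
    set c := y.1.2 with hc
    have h1 : IsCompact ((Metric.closedBall y.1.1 (Real.sqrt (R * (R + 2) * c ^ 2))) ×ˢ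
        (Set.Icc (c / (R + 2)) ((R + 2) * c))) :=
      (isCompact_closedBall _ _).prod isCompact_Icc
    have h2 : (Subtype.val '' {x : H3 | dl x y ≤ R} : Set (ℂ × ℝ)) =
        ((Metric.closedBall y.1.1 (Real.sqrt (R * (R + 2) * c ^ 2))) ×ˢ
        (Set.Icc (c / (R + 2)) ((R + 2) * c))) ∩
          {p : ℂ × ℝ | ‖p.1 - y.1.1‖ ^ 2 + (p.2 - c) ^ 2 ≤ R * (p.2 * c)} := by
      ext p
      constructor
      · rintro ⟨x, hx, rfl⟩
        have hx2 := x.2
        have hx3 : ‖x.1.1 - y.1.1‖ ^ 2 + (x.1.2 - c) ^ 2 ≤ R * (x.1.2 * c) := by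
          have hx4 : dl x y ≤ R := hx
          unfold dl at hx4
          rwa [div_le_iff₀ (by positivity)] at hx4
        have h5 := sq_nonneg ‖x.1.1 - y.1.1‖
        have h6 : (x.1.2 - c) ^ 2 ≤ R * (x.1.2 * c) := by linarith
        have h7 : x.1.2 ≤ (R + 2) * c := by
          have : x.1.2 * x.1.2 ≤ x.1.2 * ((R + 2) * c) := by nlinarith [sq_nonneg c]
          exact le_of_mul_le_mul_left this hx2
        have h8 : c ≤ (R + 2) * x.1.2 := by
          have : c * c ≤ c * ((R + 2) * x.1.2) := by nlinarith [sq_nonneg x.1.2]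
          exact le_of_mul_le_mul_left this hy
        refine ⟨⟨?_, ?_, ?_⟩, hx3⟩
        · rw [Metric.mem_closedBall, dist_eq_norm]
          apply Real.le_sqrt_of_sq_le
          have h9 : R * (x.1.2 * c) ≤ R * ((R + 2) * c * c) := by gcongr
          have h10 := sq_nonneg (x.1.2 - c)
          nlinarith
        · rw [div_le_iff₀ (by positivity)]
          linarith
        · exact h7
      · rintro ⟨⟨hp1, hp2, hp3⟩, hp4⟩
        have hp5 : 0 < p.2 := lt_of_lt_of_le (by positivity) hp2
        refine ⟨⟨p, hp5⟩, ?_, rfl⟩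
        change dl ⟨p, hp5⟩ y ≤ R
        unfold dl
        rw [div_le_iff₀ (by positivity)]
        exact hp4
    rw [h2]
    apply h1.inter_right
    apply isClosed_le
    · fun_prop
    · fun_prop

theorem bal_nonempty (y : H3) {δ : ℝ} (hδ : 0 < δ) : (bal y δ).Nonempty :=
  ⟨y, by change dl y y < δ; rw [dl_self]; exact hδ⟩

theorem stmGI : StmGI := by
  classical
  intro G D hGD hD hF
  obtain ⟨F, hF, hFfin, hcov⟩ := hF
  have hcG : Countable G := by
    have := hD.countable
    exact (Set.inclusion_injective (s := (G : Set SL2C)) (t := (D : Set SL2C)) hGD).countable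
  set B : Set H3 := bal pj (1 / 2) with hB
  have hBm : MeasurableSet B := (isOpen_bal _ _).measurableSet
  have hBpos : 0 < vol B := vol_pos (isOpen_bal _ _) (bal_nonempty _ (by norm_num))
  have hMfin := hD pj (8 * (1 / 2))
  set M : Finset SL2C := hMfin.toFinset with hM
  have hM' : ∀ E ∈ D, ∀ x ∈ B, act E x ∈ B → E ∈ M := by
    intro E hE x hx hEx
    rw [hM, Set.Finite.mem_toFinset]
    refine ⟨hE, ?_⟩
    apply dl_tri (y := act E x) le_rfl
    · rw [dl_act, dl_comm]
      exact le_of_lt hx
    · exact le_of_lt hEx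
  have key : ∀ S : Finset SL2C, (∀ s ∈ S, s ∈ D) → (∀ s ∈ S, ∀ t ∈ S, s ≠ t → s⁻¹ * t ∉ G) →
      (S.card : ENNReal) * vol B ≤ M.card * vol F := by
    intro S hS hSd
    have h1 := mult_bound D hD B F hBm M hM'
    refine le_trans ?_ h1
    have h2 : ∀ s ∈ S, vol B ≤ ∑' A : G, vol (act (s * A.1) ⁻¹' B ∩ F) := by
      intro s hs
      have h3 : act s ⁻¹' B ⊆ ⋃ A : G, act s ⁻¹' B ∩ act A.1 ⁻¹' F := by
        intro x hx
        obtain ⟨A, hA, hAx⟩ := hcov x
        exact Set.mem_iUnion.mpr ⟨⟨A, hA⟩, hx, hAx⟩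
      calc vol B = vol (act s ⁻¹' B) := (vol_act s hBm).symm
        _ ≤ vol (⋃ A : G, act s ⁻¹' B ∩ act A.1 ⁻¹' F) := measure_mono h3
        _ ≤ ∑' A : G, vol (act s ⁻¹' B ∩ act A.1 ⁻¹' F) := measure_iUnion_le _
        _ = ∑' A : G, vol (act (s * (A⁻¹ : G).1) ⁻¹' B ∩ F) := by
            apply tsum_congr
            intro A
            rw [← vol_act (A⁻¹ : G).1 ((measurable_act _ hBm).inter (measurable_act _ hF)),
              Set.preimage_inter, ← Set.preimage_comp, ← Set.preimage_comp]
            congr 2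
            · congr 1
              funext x
              rw [Function.comp_apply, ← act_mul]
            · have : act A.1 ∘ act (A⁻¹ : G).1 = id := by
                funext x
                rw [Function.comp_apply, ← act_mul]
                have : A.1 * (A⁻¹ : G).1 = 1 := by
                  rw [← Subgroup.coe_mul, mul_inv_cancel, Subgroup.coe_one]
                rw [this, act_one]
                rfl
              rw [this]
              rfl
        _ = ∑' A : G, vol (act (s * A.1) ⁻¹' B ∩ F) :=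
            (Equiv.inv G).tsum_eq (fun A : G => vol (act (s * A.1) ⁻¹' B ∩ F))
    have h4 : (S.card : ENNReal) * vol B ≤
        ∑' p : S × G, vol (act (p.1.1 * p.2.1) ⁻¹' B ∩ F) := by
      rw [ENNReal.tsum_prod (f := fun (s : S) (A : G) => vol (act (s.1 * A.1) ⁻¹' B ∩ F)),
        tsum_fintype]
      calc (S.card : ENNReal) * vol B = ∑ _s : S, vol B := by
            rw [Finset.sum_const, nsmul_eq_mul, Finset.card_univ, Fintype.card_coe]
        _ ≤ _ := Finset.sum_le_sum fun s _ => h2 s.1 s.2
    refine h4.trans ?_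
    have hinj : Function.Injective (fun p : S × G =>
        (⟨p.1.1 * p.2.1, D.mul_mem (hS _ p.1.2) (hGD p.2.2)⟩ : D)) := by
      rintro ⟨⟨s, hs⟩, ⟨A, hA⟩⟩ ⟨⟨t, ht⟩, ⟨A', hA'⟩⟩ h
      have h5 : s * A = t * A' := congrArg Subtype.val h
      have h6 : s = t := by
        by_contra hne
        apply hSd s hs t ht hne
        have : s⁻¹ * t = A * A'⁻¹ := by
          rw [inv_mul_eq_iff_eq_mul, ← mul_assoc, h5, mul_inv_cancel_right]
        rw [this]
        exact G.mul_mem hA (G.inv_mem hA')
      subst h6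
      have h7 : A = A' := mul_left_cancel h5
      subst h7
      rfl
    exact ENNReal.tsum_comp_le_tsum_of_injective hinj
      (fun E : D => vol (act E.1 ⁻¹' B ∩ F))
  by_contra hcon
  push Not at hcon
  have hgrow : ∀ n : ℕ, ∃ S : Finset SL2C, S.card = n ∧ (∀ s ∈ S, s ∈ D) ∧
      (∀ s ∈ S, ∀ t ∈ S, s ≠ t → s⁻¹ * t ∉ G) := by
    intro n
    induction n with
    | zero => exact ⟨∅, rfl, by simp, by simp⟩
    | succ n ih =>
      obtain ⟨S, hc, h1, h2⟩ := ih
      obtain ⟨A, hA, hA'⟩ := hcon S
      have hAS : A ∉ S := by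
        intro h
        apply hA' A h hA
        rw [inv_mul_cancel]
        exact G.one_mem
      refine ⟨insert A S, by rw [Finset.card_insert_of_notMem hAS, hc], ?_, ?_⟩
      · intro s hs
        rcases Finset.mem_insert.mp hs with rfl | hs
        · exact hA
        · exact h1 s hs
      · intro s hs t ht hst
        rcases Finset.mem_insert.mp hs with h | hs
        · rcases Finset.mem_insert.mp ht with h' | ht
          · exact absurd (h.trans h'.symm) hst
          · intro hc
            rw [h] at hc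
            apply hA' t ht (h1 t ht)
            have : t⁻¹ * A = (A⁻¹ * t)⁻¹ := by group
            rw [this]
            exact G.inv_mem hc
        · rcases Finset.mem_insert.mp ht with h' | ht
          · rw [h']
            exact hA' s hs (h1 s hs)
          · exact h2 s hs t ht hst
  have hb : (M.card : ENNReal) * vol F ≠ ⊤ :=
    ENNReal.mul_ne_top (ENNReal.natCast_ne_top _) hFfin.ne
  obtain ⟨n, hn⟩ := ENNReal.exists_nat_mul_gt hBpos.ne' hb
  obtain ⟨S, hc, h1, h2⟩ := hgrow n
  have h3 := key S h1 h2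
  rw [hc] at h3
  exact absurd h3 (not_le.mpr hn)

theorem stmMc : StmMc := by
  classical
  intro G hG hTF hFc ε hε
  obtain ⟨F, hF, hFfin, hcov⟩ := hFc
  set η : ℝ := min ε 1 with hη
  have hη0 : 0 < η := lt_min hε one_pos
  set δ : ℝ := η / 16 with hδ
  have hδ0 : 0 < δ := by positivity
  have hδ1 : δ ≤ 1 / 2 := by
    have : η ≤ 1 := min_le_right _ _
    rw [hδ]
    linarith
  have hδη : 8 * δ < η := by
    rw [hδ]
    linarith
  set thick : Set H3 := {x | ∀ A ∈ G, A ≠ 1 → A ≠ -1 → ε ≤ dl (act A x) x} with hthick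
  set good : Finset H3 → Prop := fun Y => (∀ y ∈ Y, y ∈ thick) ∧
    ∀ y ∈ Y, ∀ y' ∈ Y, y ≠ y' → ∀ A ∈ G, η ≤ dl (act A y) y' with hgood
  have hB0 : 0 < vol (bal pj δ) := vol_pos (isOpen_bal _ _) (bal_nonempty _ hδ0)
  have key : ∀ Y : Finset H3, good Y → (Y.card : ENNReal) * vol (bal pj δ) ≤ 2 * vol F := by
    intro Y hY
    have h1 : (Y.card : ENNReal) * vol (bal pj δ) = vol (⋃ y ∈ Y, bal y δ) := by
      rw [measure_biUnion_finset]
      · simp_rw [vol_bal]
        rw [Finset.sum_const, nsmul_eq_mul]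
      · intro y hy y' hy' hne
        change Disjoint (bal y δ) (bal y' δ)
        rw [Set.disjoint_left]
        intro x hx hx'
        have h2 := hY.2 y hy y' hy' hne 1 G.one_mem
        rw [act_one] at h2
        have h3 : dl y y' ≤ 8 * δ := dl_tri (y := x) hδ1 (by rw [dl_comm]; exact le_of_lt hx)
          (le_of_lt hx')
        linarith
      · intro y _
        exact (isOpen_bal _ _).measurableSet
    rw [h1]
    apply gv2 G hG F _ hF hcov
    · exact Finset.measurableSet_biUnion _ fun y _ => (isOpen_bal _ _).measurableSet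
    · intro A hA h1 h2 x hx hAx
      simp only [Set.mem_iUnion, exists_prop] at hx hAx
      obtain ⟨y, hy, hxy⟩ := hx
      obtain ⟨y', hy', hxy'⟩ := hAx
      have h3 : dl (act A y) y' ≤ 8 * δ := dl_tri (y := act A x) hδ1
        (by rw [dl_act, dl_comm]; exact le_of_lt hxy) (le_of_lt hxy')
      by_cases hyy : y = y'
      · subst hyy
        have h4 := hY.1 y hy A hA h1 h2
        have h5 : η ≤ ε := min_le_left _ _
        linarith
      · have h4 := hY.2 y hy y' hy' hyy A hA
        linarith
  have hmax : ∃ Y : Finset H3, good Y ∧ ∀ x ∈ thick, ∃ y ∈ Y, ∃ A ∈ G, dl (act A x) y ≤ η := by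
    by_contra hcon
    push Not at hcon
    have hgrow : ∀ n : ℕ, ∃ Y : Finset H3, Y.card = n ∧ good Y := by
      intro n
      induction n with
      | zero => exact ⟨∅, rfl, by simp [hgood]⟩
      | succ n ih =>
        obtain ⟨Y, hc, hY⟩ := ih
        obtain ⟨x, hx, hx'⟩ := hcon Y hY
        have hxY : x ∉ Y := by
          intro h
          have := hx' x h 1 G.one_mem
          rw [act_one, dl_self] at this
          linarith
        refine ⟨insert x Y, by rw [Finset.card_insert_of_notMem hxY, hc], ?_, ?_⟩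
        · intro y hy
          rcases Finset.mem_insert.mp hy with rfl | hy
          · exact hx
          · exact hY.1 y hy
        · intro y hy y' hy' hne A hA
          rcases Finset.mem_insert.mp hy with h | hy
          · rcases Finset.mem_insert.mp hy' with h' | hy'
            · exact absurd (h.trans h'.symm) hne
            · rw [h]
              exact (hx' y' hy' A hA).le
          · rcases Finset.mem_insert.mp hy' with h' | hy'
            · rw [h']
              have h3 := (hx' y hy A⁻¹ (G.inv_mem hA)).le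
              have h4 : dl (act A⁻¹ x) y = dl (act A y) x := by
                rw [← dl_act A, ← act_mul, mul_inv_cancel, act_one, dl_comm]
              rwa [h4] at h3
            · exact hY.2 y hy y' hy' hne A hA
    have hb : (2 : ENNReal) * vol F ≠ ⊤ := ENNReal.mul_ne_top (by simp) hFfin.ne
    obtain ⟨n, hn⟩ := ENNReal.exists_nat_mul_gt hB0.ne' hb
    obtain ⟨Y, hc, hY⟩ := hgrow n
    have h3 := key Y hY
    rw [hc] at h3
    exact absurd h3 (not_le.mpr hn)
  obtain ⟨Y, hY, hY'⟩ := hmax
  refine ⟨⋃ y ∈ Y, {x | dl x y ≤ η}, ?_, ?_⟩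
  · exact Y.isCompact_biUnion fun y _ => isCompact_ball y η
  · intro x hx
    obtain ⟨y, hy, A, hA, h⟩ := hY' x hx
    exact ⟨A, hA, Set.mem_iUnion₂.mpr ⟨y, hy, h⟩⟩

end Pool.Agent.N530.LS
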