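import Pool.Agent.N530.LS.Stm3

/-!
# The kernel of the action, diagonalization, the minimal displacement
-/

set_option autoImplicit false
set_option linter.unusedSimpArgs false

namespace Pool.Agent.N530.LS

open Matrix Complex

theorem act_neg_one (p : H3) : act (-1) p = p := by
  apply hm_inj
  rw [hm_act]
  simp

theorem stmG0 : StmG0 := by
  intro A
  constructor
  · intro h
    have h1 : ∀ p : H3, (A : Matrix (Fin 2) (Fin 2) ℂ) * hm p *
        (A : Matrix (Fin 2) (Fin 2) ℂ)ᴴ = hm p := by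
      intro p
      rw [← hm_act]
      have : act A p = p := by
        have := congrArg (fun f : Equiv.Perm H3 => f p) h
        simpa using this
      rw [this]
    have hU : (A : Matrix (Fin 2) (Fin 2) ℂ) * (A : Matrix (Fin 2) (Fin 2) ℂ)ᴴ = 1 := by
      have := h1 pj
      rwa [hm_pj, Matrix.mul_one] at this
    have hU' : (A : Matrix (Fin 2) (Fin 2) ℂ)ᴴ * (A : Matrix (Fin 2) (Fin 2) ℂ) = 1 :=
      mul_eq_one_comm.mp hU
    have h2 : ∀ p : H3, (A : Matrix (Fin 2) (Fin 2) ℂ) * hm p =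
        hm p * (A : Matrix (Fin 2) (Fin 2) ℂ) := by
      intro p
      calc (A : Matrix (Fin 2) (Fin 2) ℂ) * hm p
          = (A : Matrix (Fin 2) (Fin 2) ℂ) * hm p *
            ((A : Matrix (Fin 2) (Fin 2) ℂ)ᴴ * (A : Matrix (Fin 2) (Fin 2) ℂ)) := by
              rw [hU', Matrix.mul_one]
        _ = ((A : Matrix (Fin 2) (Fin 2) ℂ) * hm p * (A : Matrix (Fin 2) (Fin 2) ℂ)ᴴ) *
            (A : Matrix (Fin 2) (Fin 2) ℂ) := by simp only [Matrix.mul_assoc]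
        _ = _ := by rw [h1 p]
    have e1 := h2 ⟨(0, 2), two_pos⟩
    have e2 := h2 ⟨(1, 1), one_pos⟩
    have e1a := congrFun (congrFun e1 0) 1
    have e1b := congrFun (congrFun e1 1) 0
    have e2a := congrFun (congrFun e2 0) 1
    simp [Matrix.mul_apply, Fin.sum_univ_two, hm] at e1a e1b e2a
    have hb : A 0 1 = 0 := by linear_combination (-2 / 3 : ℂ) * e1a
    have hc : A 1 0 = 0 := by linear_combination (2 / 3 : ℂ) * e1b
    have hae : A 0 0 = A 1 1 := by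
      rw [hb] at e2a
      linear_combination e2a
    have hd := det_eq A
    rw [hb, ← hae] at hd
    have h3 : (A 0 0 - 1) * (A 0 0 + 1) = 0 := by linear_combination hd
    rcases mul_eq_zero.mp h3 with h4 | h4
    · left
      have h5 : A 0 0 = 1 := sub_eq_zero.mp h4
      ext i j
      fin_cases i <;> fin_cases j <;> simp [hb, hc, ← hae, h5]
    · right
      have h5 : A 0 0 = -1 := eq_neg_of_add_eq_zero_left h4
      ext i j
      fin_cases i <;> fin_cases j <;> simp [hb, hc, ← hae, h5]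
  · rintro (rfl | rfl)
    · exact map_one pi
    · ext1 p
      simp [act_neg_one]

/-- a matrix from its entries -/
def mk2 (a b c e : ℂ) (h : a * e - b * c = 1) : SL2C :=
  ⟨!![a, b; c, e], by rw [Matrix.det_fin_two]; simpa using h⟩

@[simp] theorem mk2_00 (a b c e : ℂ) (h : a * e - b * c = 1) : mk2 a b c e h 0 0 = a := rfl
@[simp] theorem mk2_01 (a b c e : ℂ) (h : a * e - b * c = 1) : mk2 a b c e h 0 1 = b := rfl
@[simp] theorem mk2_10 (a b c e : ℂ) (h : a * e - b * c = 1) : mk2 a b c e h 1 0 = c := rfl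
@[simp] theorem mk2_11 (a b c e : ℂ) (h : a * e - b * c = 1) : mk2 a b c e h 1 1 = e := rfl

theorem ext2 {A B : SL2C} (h00 : A 0 0 = B 0 0) (h01 : A 0 1 = B 0 1) (h10 : A 1 0 = B 1 0)
    (h11 : A 1 1 = B 1 1) : A = B := by
  ext i j
  fin_cases i <;> fin_cases j <;> assumption

theorem mul00 (A B : SL2C) : (A * B) 0 0 = A 0 0 * B 0 0 + A 0 1 * B 1 0 := by
  simp [Matrix.SpecialLinearGroup.coe_mul, Matrix.mul_apply, Fin.sum_univ_two]

theorem mul01 (A B : SL2C) : (A * B) 0 1 = A 0 0 * B 0 1 + A 0 1 * B 1 1 := by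
  simp [Matrix.SpecialLinearGroup.coe_mul, Matrix.mul_apply, Fin.sum_univ_two]

theorem mul10 (A B : SL2C) : (A * B) 1 0 = A 1 0 * B 0 0 + A 1 1 * B 1 0 := by
  simp [Matrix.SpecialLinearGroup.coe_mul, Matrix.mul_apply, Fin.sum_univ_two]

theorem mul11 (A B : SL2C) : (A * B) 1 1 = A 1 0 * B 0 1 + A 1 1 * B 1 1 := by
  simp [Matrix.SpecialLinearGroup.coe_mul, Matrix.mul_apply, Fin.sum_univ_two]

theorem inv00 (A : SL2C) : A⁻¹ 0 0 = A 1 1 := by
  rw [Matrix.SpecialLinearGroup.SL2_inv_expl]; rfl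

theorem inv01 (A : SL2C) : A⁻¹ 0 1 = -A 0 1 := by
  rw [Matrix.SpecialLinearGroup.SL2_inv_expl]; rfl

theorem inv10 (A : SL2C) : A⁻¹ 1 0 = -A 1 0 := by
  rw [Matrix.SpecialLinearGroup.SL2_inv_expl]; rfl

theorem inv11 (A : SL2C) : A⁻¹ 1 1 = A 0 0 := by
  rw [Matrix.SpecialLinearGroup.SL2_inv_expl]; rfl

/-- the diagonal matrix -/
noncomputable def dg (l : ℂ) (hl : l ≠ 0) : SL2C :=
  mk2 l 0 0 l⁻¹ (by simp [hl])

theorem exists_eigen (t : ℂ) : ∃ l : ℂ, l ≠ 0 ∧ t = l + l⁻¹ := by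
  obtain ⟨s, hs⟩ : ∃ s : ℂ, s ^ 2 = t ^ 2 - 4 := IsAlgClosed.exists_pow_nat_eq _ two_pos
  have h : ((t + s) / 2) * ((t - s) / 2) = 1 := by linear_combination -(1 / 4 : ℂ) * hs
  have hne : (t + s) / 2 ≠ 0 := left_ne_zero_of_mul_eq_one h
  refine ⟨(t + s) / 2, hne, ?_⟩
  have h2 : ((t + s) / 2)⁻¹ = (t - s) / 2 := inv_eq_of_mul_eq_one_right h
  rw [h2]
  ring

/-- diagonalization -/
theorem exists_diag (A : SL2C) (h : trc A ^ 2 ≠ 4) : ∃ (B : SL2C) (l : ℂ) (hl : l ≠ 0),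
    A = B * dg l hl * B⁻¹ ∧ trc A = l + l⁻¹ := by
  have hd := det_eq A
  by_cases hc : A 1 0 = 0
  · have ha : A 0 0 ≠ 0 := by
      intro h0
      rw [hc, h0] at hd
      simp at hd
    have he : A 1 1 = (A 0 0)⁻¹ := by
      rw [hc] at hd
      field_simp
      linear_combination hd
    have hne : (A 0 0)⁻¹ - A 0 0 ≠ 0 := by
      intro h0
      apply h
      unfold trc
      have h1 : A 0 0 * A 0 0 = 1 := by
        field_simp at h0
        linear_combination -h0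
      rw [he, (sub_eq_zero.mp h0)]
      linear_combination 4 * h1
    refine ⟨mk2 1 (A 0 1 / ((A 0 0)⁻¹ - A 0 0)) 0 1 (by ring),
      A 0 0, ha, ?_, by rw [← he]; rfl⟩
    rw [eq_mul_inv_iff_mul_eq]
    apply ext2
    · simp only [mul00, mk2_00, mk2_01, mk2_10, mk2_11, dg]
      ring
    · simp only [mul01, mk2_00, mk2_01, mk2_11, dg]
      have hx : A 0 1 / ((A 0 0)⁻¹ - A 0 0) * ((A 0 0)⁻¹ - A 0 0) = A 0 1 := div_mul_cancel₀ _ hne
      linear_combination -hx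
    · simp only [mul10, mk2_00, mk2_01, mk2_10, mk2_11, dg, hc, he]
      ring
    · simp only [mul11, mk2_00, mk2_01, mk2_10, mk2_11, dg, hc, he]
      ring
  · obtain ⟨l, hl, ht⟩ := exists_eigen (trc A)
    have hne : l - l⁻¹ ≠ 0 := by
      intro h0
      apply h
      have h1 : l * l = 1 := by
        field_simp at h0
        linear_combination h0
      rw [ht, ← (sub_eq_zero.mp h0)]
      linear_combination 4 * h1
    have htr : A 0 0 = l + l⁻¹ - A 1 1 := by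
      rw [← ht]
      unfold trc
      ring
    have hlm : l * l⁻¹ = 1 := mul_inv_cancel₀ hl
    have hk : (l - l⁻¹) * (l - l⁻¹)⁻¹ = 1 := mul_inv_cancel₀ hne
    have hck : A 1 0 * (A 1 0)⁻¹ = 1 := mul_inv_cancel₀ hc
    refine ⟨mk2 (l - A 1 1) ((l⁻¹ - A 1 1) * (A 1 0)⁻¹ * (l - l⁻¹)⁻¹) (A 1 0) ((l - l⁻¹)⁻¹) ?_,
      l, hl, ?_, ht⟩
    · linear_combination hk - (l⁻¹ - A 1 1) * (l - l⁻¹)⁻¹ * hck
    · rw [eq_mul_inv_iff_mul_eq]
      apply ext2
      · simp only [mul00, mk2_00, mk2_01, mk2_10, mk2_11, dg]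
        linear_combination l * htr - hd + hlm
      · simp only [mul01, mk2_00, mk2_01, mk2_10, mk2_11, dg]
        have h5 : A 0 1 = (A 0 0 * A 1 1 - 1) * (A 1 0)⁻¹ := by
          linear_combination -(A 1 0)⁻¹ * hd - A 0 1 * hck
        rw [h5, htr]
        linear_combination ((A 1 0)⁻¹ * (l - l⁻¹)⁻¹) * hlm
      · simp only [mul10, mk2_00, mk2_01, mk2_10, mk2_11, dg]
        ring
      · simp only [mul11, mk2_00, mk2_01, mk2_10, mk2_11, dg]
        linear_combination (l⁻¹ - A 1 1) * (l - l⁻¹)⁻¹ * hck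

theorem act_dg (l : ℂ) (hl : l ≠ 0) (p : H3) :
    (act (dg l hl) p).1 = (l ^ 2 * p.1.1, ‖l‖ ^ 2 * p.1.2) := by
  have hn : (‖l‖ : ℝ) ≠ 0 := norm_ne_zero_iff.mpr hl
  have hd : dn (dg l hl) p.1 = 1 / ‖l‖ ^ 2 := by
    simp [dn, dg]
  apply Prod.ext
  · change nz (dg l hl) p.1 = _
    unfold nz
    rw [hd]
    have h1 : ((‖l‖ : ℂ)) ^ 2 = l * (starRingEnd ℂ) l := by
      rw [Complex.mul_conj, Complex.normSq_eq_norm_sq]
      push_cast
      ring
    have hcl : (starRingEnd ℂ) l ≠ 0 := (map_ne_zero _).mpr hl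
    simp [dg]
    rw [h1]
    field_simp
  · change p.1.2 / dn (dg l hl) p.1 = _
    rw [hd]
    field_simp

theorem dl_dg (l : ℂ) (hl : l ≠ 0) (p : H3) : dl (act (dg l hl) p) p =
    (‖l‖ - ‖l‖⁻¹) ^ 2 + (‖p.1.1‖ / p.1.2) ^ 2 * ‖l - l⁻¹‖ ^ 2 := by
  have hn : (‖l‖ : ℝ) ≠ 0 := norm_ne_zero_iff.mpr hl
  have ht := p.2.ne'
  unfold dl
  rw [act_dg]
  simp only
  have h1 : l ^ 2 * p.1.1 - p.1.1 = l * (l - l⁻¹) * p.1.1 := by
    field_simp
  rw [h1, norm_mul, norm_mul]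
  field_simp
  ring

theorem uu_eigen (l : ℂ) (hl : l ≠ 0) : uu (l + l⁻¹) = ‖l‖ ^ 2 + (‖l‖⁻¹) ^ 2 := by
  have h1 : (l + l⁻¹) ^ 2 - 4 = (l - l⁻¹) ^ 2 := by
    field_simp
    ring
  unfold uu
  rw [h1, norm_pow]
  have h2 := parallelogram_law_with_norm ℝ l l⁻¹
  rw [norm_inv] at h2
  nlinarith

theorem stmG4 : StmG4 := by
  intro A hA
  have hne : trc A ^ 2 ≠ 4 := by
    intro h
    have h1 : uu (trc A) = ‖trc A‖ ^ 2 / 2 := by
      unfold uu
      rw [h]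
      simp
    have h2 : ‖trc A‖ ^ 2 = 4 := by
      rw [← norm_pow, h]
      simp
    rw [h1, h2] at hA
    norm_num at hA
  obtain ⟨B, l, hl, hAB, htr⟩ := exists_diag A hne
  have hn : (‖l‖ : ℝ) ≠ 0 := norm_ne_zero_iff.mpr hl
  have hval : ∀ p : H3, dl (pi A (act B p)) (act B p) =
      (‖l‖ - ‖l‖⁻¹) ^ 2 + (‖p.1.1‖ / p.1.2) ^ 2 * ‖l - l⁻¹‖ ^ 2 := by
    intro p
    rw [← dl_dg l hl p, ← dl_act B (act (dg l hl) p) p, ← act_mul, pi_apply, ← act_mul]
    congr 2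
    rw [hAB]
    simp [mul_assoc]
  have hinf : (⨅ x : H3, dl (pi A x) x) = (‖l‖ - ‖l‖⁻¹) ^ 2 := by
    apply le_antisymm
    · have h1 : dl (pi A (act B pj)) (act B pj) = (‖l‖ - ‖l‖⁻¹) ^ 2 := by
        rw [hval]
        simp [pj]
      rw [← h1]
      exact ciInf_le ⟨0, by rintro _ ⟨x, rfl⟩; exact dl_nonneg _ _⟩ _
    · have : Nonempty H3 := ⟨pj⟩
      apply le_ciInf
      intro x
      have hx : act B (act B⁻¹ x) = x := by
        rw [← act_mul, mul_inv_cancel, act_one]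
      rw [← hx, hval]
      have : 0 ≤ (‖(act B⁻¹ x).1.1‖ / (act B⁻¹ x).1.2) ^ 2 * ‖l - l⁻¹‖ ^ 2 := by positivity
      linarith
  rw [hinf, htr, uu_eigen l hl]
  have h1 : (‖l‖ - ‖l‖⁻¹) ^ 2 = ‖l‖ ^ 2 + (‖l‖⁻¹) ^ 2 - 2 := by
    field_simp
    ring
  rw [h1]
  ring

end Pool.Agent.N530.LS
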