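import Pool.Agent.N530.LS.GV
import Pool.Agent.N530.LS.B3

/-!
# M2: the cusp lattice
-/

set_option autoImplicit false
set_option linter.unusedSimpArgs false

namespace Pool.Agent.N530.LS

open MeasureTheory Complex Matrix

/-- conjugates -/
theorem Disc.cj {G : Subgroup SL2C} (h : Disc G) (B : SL2C) : Disc (cj B G) := by
  intro x R
  have h1 := (h (act B⁻¹ x) R).image (fun A => B * A * B⁻¹)
  apply h1.subset
  rintro A ⟨hA, hd⟩
  refine ⟨B⁻¹ * A * B, ⟨mem_cj.mp hA, ?_⟩, by simp only; group⟩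
  rw [← act_mul, mul_assoc, mul_inv_cancel, mul_one, act_mul, dl_act]
  exact hd

theorem TF.cj {G : Subgroup SL2C} (h : TF G) (B : SL2C) : TF (cj B G) := by
  intro A hA n hn h1
  have h2 : (B⁻¹ * A * B) ^ n = B⁻¹ * A ^ n * B := by
    have := conj_pow (a := B⁻¹) (b := A) (i := n)
    rwa [inv_inv] at this
  have h3 : (B⁻¹ * A * B) ^ n = 1 ∨ (B⁻¹ * A * B) ^ n = -1 := by
    rw [h2]
    rcases h1 with h1 | h1
    · left
      rw [h1]
      simp
    · right
      rw [h1]
      simp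
  rcases h _ (mem_cj.mp hA) n hn h3 with h4 | h4
  · left
    have : A = B * (B⁻¹ * A * B) * B⁻¹ := by group
    rw [this, h4]
    simp
  · right
    have : A = B * (B⁻¹ * A * B) * B⁻¹ := by group
    rw [this, h4]
    simp

theorem Fc.cj {G : Subgroup SL2C} (h : Fc G) (B : SL2C) : Fc (cj B G) := by
  obtain ⟨F, hF, hfin, hcov⟩ := h
  refine ⟨act B⁻¹ ⁻¹' F, measurable_act _ hF, by rwa [vol_act _ hF], fun x => ?_⟩
  obtain ⟨A, hA, hx⟩ := hcov (act B⁻¹ x)
  refine ⟨B * A * B⁻¹, conj_mem_cj hA, ?_⟩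
  rw [Set.mem_preimage, ← act_mul]
  have : B⁻¹ * (B * A * B⁻¹) = A * B⁻¹ := by group
  rw [this, act_mul]
  exact hx

theorem neg_one_mem_cj {G : Subgroup SL2C} (h : (-1 : SL2C) ∈ G) (B : SL2C) :
    (-1 : SL2C) ∈ cj B G := by
  rw [mem_cj]
  simpa using h

theorem act_T (x : ℂ) (p : H3) : (act (T x) p).1 = (p.1.1 + x, p.1.2) := by
  have hd : dn (T x) p.1 = 1 := by
    simp [dn]
  apply Prod.ext
  · change nz (T x) p.1 = _
    unfold nz
    rw [hd]
    simp
  · change p.1.2 / dn (T x) p.1 = _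
    rw [hd, div_one]

theorem dl_T (x : ℂ) : dl (act (T x) pj) pj = ‖x‖ ^ 2 := by
  unfold dl
  rw [act_T]
  simp [pj]

/-- The volume argument: there cannot be infinitely many disjoint copies. -/
theorem no_inf {G : Subgroup SL2C} (hG : Disc G) (hF : Fc G) {U : Set H3} (hU : IsOpen U)
    (hne : U.Nonempty) (C : ℕ → SL2C)
    (h1 : ∀ k l x, k ≠ l → act (C k) x ∈ U → act (C l) x ∉ U)
    (h2 : ∀ A ∈ G, A ≠ 1 → A ≠ -1 → ∀ k l x, act (C k) x ∈ U → act (C l) (act A x) ∉ U) :
    False := by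
  obtain ⟨F, hF, hfin, hcov⟩ := hF
  have hU0 : 0 < vol U := vol_pos hU hne
  have hb : (2 : ENNReal) * vol F ≠ ⊤ := ENNReal.mul_ne_top (by simp) hfin.ne
  obtain ⟨n, hn⟩ := ENNReal.exists_nat_mul_gt hU0.ne' hb
  have h3 : vol (⋃ k ∈ Finset.range n, act (C k) ⁻¹' U) = n * vol U := by
    rw [measure_biUnion_finset]
    · simp_rw [vol_act _ hU.measurableSet]
      rw [Finset.sum_const, nsmul_eq_mul, Finset.card_range]
    · intro k _ l _ hkl
      change Disjoint (act (C k) ⁻¹' U) (act (C l) ⁻¹' U)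
      rw [Set.disjoint_left]
      intro x hx hx'
      exact h1 k l x hkl hx hx'
    · intro k _
      exact measurable_act _ hU.measurableSet
  have h4 : vol (⋃ k ∈ Finset.range n, act (C k) ⁻¹' U) ≤ 2 * vol F := by
    apply gv2 G hG F _ hF hcov
    · exact Finset.measurableSet_biUnion _ fun k _ => measurable_act _ hU.measurableSet
    · intro A hA hA1 hA2 x hx hAx
      simp only [Set.mem_iUnion, exists_prop] at hx hAx
      obtain ⟨k, _, hk⟩ := hx
      obtain ⟨l, _, hl⟩ := hAx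
      exact h2 A hA hA1 hA2 k l x hk hl
  rw [h3] at h4
  exact absurd h4 (not_le.mpr hn)

/-- normal form of a parabolic matrix -/
theorem parabolic_conj (A : SL2C) (h : trc A = 2) (h1 : A ≠ 1) : ∃ B : SL2C,
    B * A * B⁻¹ = T 1 := by
  have hd := det_eq A
  have ht : A 1 1 = 2 - A 0 0 := by
    unfold trc at h
    linear_combination h
  by_cases hc : A 1 0 = 0
  · have ha : A 0 0 = 1 := by
      rw [hc, ht] at hd
      have : (A 0 0 - 1) ^ 2 = 0 := by linear_combination -hd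
      exact sub_eq_zero.mp (pow_eq_zero_iff two_ne_zero |>.mp this)
    have he : A 1 1 = 1 := by rw [ht, ha]; ring
    have hb : A 0 1 ≠ 0 := by
      intro hb
      apply h1
      apply ext2
      · rw [ha]; rfl
      · rw [hb]; rfl
      · rw [hc]; rfl
      · rw [he]; rfl
    obtain ⟨l, hl⟩ : ∃ l : ℂ, l ^ 2 = (A 0 1)⁻¹ := IsAlgClosed.exists_pow_nat_eq _ two_pos
    have hl0 : l ≠ 0 := by
      rintro rfl
      rw [zero_pow two_ne_zero] at hl
      exact inv_ne_zero hb hl.symm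
    refine ⟨dg l hl0, ?_⟩
    apply ext2
    · simp only [mul00, mul01, mul10, mul11, inv00, inv01, inv10, inv11, dg, mk2_00, mk2_01,
        mk2_10, mk2_11, T00, ha, hc, he]
      field_simp
      ring
    · simp only [mul00, mul01, mul10, mul11, inv00, inv01, inv10, inv11, dg, mk2_00, mk2_01,
        mk2_10, mk2_11, T01, ha, hc, he]
      have : l * l * A 0 1 = 1 := by
        rw [← sq, hl, inv_mul_cancel₀ hb]
      linear_combination this
    · simp only [mul00, mul01, mul10, mul11, inv00, inv01, inv10, inv11, dg, mk2_00, mk2_01,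
        mk2_10, mk2_11, T10, ha, hc, he]
      ring
    · simp only [mul00, mul01, mul10, mul11, inv00, inv01, inv10, inv11, dg, mk2_00, mk2_01,
        mk2_10, mk2_11, T11, ha, hc, he]
      field_simp
      ring
  · obtain ⟨s, hs⟩ : ∃ s : ℂ, s ^ 2 = -(A 1 0)⁻¹ := IsAlgClosed.exists_pow_nat_eq _ two_pos
    have hs1 : s ^ 2 * A 1 0 = -1 := by
      rw [hs, neg_mul, inv_mul_cancel₀ hc]
    have hd' : (A 0 0 - 1) ^ 2 = -(A 0 1 * A 1 0) := by
      rw [ht] at hd
      linear_combination -hd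
    set P : SL2C := mk2 (s * (A 0 0 - 1)) s (s * A 1 0) 0 (by linear_combination -hs1) with hP
    refine ⟨P⁻¹, ?_⟩
    rw [inv_inv]
    have hAP : A * P = P * T 1 := by
      apply ext2
      · simp only [mul00, mul01, mul10, mul11, hP, mk2_00, mk2_01, mk2_10, mk2_11, T00, T01,
          T10, T11]
        linear_combination s * hd'
      · simp only [mul00, mul01, mul10, mul11, hP, mk2_00, mk2_01, mk2_10, mk2_11, T00, T01,
          T10, T11]
        ring
      · simp only [mul00, mul01, mul10, mul11, hP, mk2_00, mk2_01, mk2_10, mk2_11, T00, T01,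
          T10, T11]
        rw [ht]
        ring
      · simp only [mul00, mul01, mul10, mul11, hP, mk2_00, mk2_01, mk2_10, mk2_11, T00, T01,
          T10, T11]
        ring
    rw [mul_assoc, hAP, ← mul_assoc, inv_mul_cancel, one_mul]

/-- the elements fixing `∞` -/
theorem stab_inf {G : Subgroup SL2C} (hG : Disc G) (hTF : TF G) (hT : T 1 ∈ G) {A : SL2C}
    (hA : A ∈ G) (hc : A 1 0 = 0) : A 0 0 = 1 ∨ A 0 0 = -1 := by
  have main : ∀ A ∈ G, A 1 0 = 0 → ¬ ‖A 0 0‖ < 1 := by
    intro A hA hc hlt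
    have hd := det_eq A
    rw [hc, mul_zero, sub_zero] at hd
    have ha : A 0 0 ≠ 0 := left_ne_zero_of_mul_eq_one hd
    have ha' : 0 < ‖A 0 0‖ := norm_pos_iff.mpr ha
    have hmem : ∀ n : ℕ, T ((A 0 0) ^ (2 * n)) ∈ G := by
      intro n
      induction n with
      | zero => simpa using hT
      | succ n ih =>
        have h1 : A * T ((A 0 0) ^ (2 * n)) * A⁻¹ ∈ G := G.mul_mem (G.mul_mem hA ih) (G.inv_mem hA)
        have h2 : A * T ((A 0 0) ^ (2 * n)) * A⁻¹ = T ((A 0 0) ^ (2 * (n + 1))) := by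
          apply ext2
          · simp only [mul00, mul01, mul10, mul11, inv00, inv01, inv10, inv11, hc, T00, T01,
              T10, T11]
            linear_combination hd
          · simp only [mul00, mul01, mul10, mul11, inv00, inv01, inv10, inv11, hc, T00, T01,
              T10, T11]
            ring
          · simp only [mul00, mul01, mul10, mul11, inv00, inv01, inv10, inv11, hc, T00, T01,
              T10, T11]
            ring
          · simp only [mul00, mul01, mul10, mul11, inv00, inv01, inv10, inv11, hc, T00, T01,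
              T10, T11]
            linear_combination hd
        rwa [h2] at h1
    have hinj : Function.Injective fun n : ℕ => T ((A 0 0) ^ (2 * n)) := by
      intro m n hmn
      have h1 : (A 0 0) ^ (2 * m) = (A 0 0) ^ (2 * n) := by
        have := congrArg (fun X : SL2C => X 0 1) hmn
        simpa using this
      have h2 : ‖A 0 0‖ ^ (2 * m) = ‖A 0 0‖ ^ (2 * n) := by
        rw [← norm_pow, ← norm_pow, h1]
      have h3 := (pow_right_injective₀ ha' hlt.ne) h2
      omega
    apply Set.infinite_of_injective_forall_mem hinj (s := {A : SL2C | A ∈ G ∧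
      dl (act A pj) pj ≤ 1})
    · intro n
      refine ⟨hmem n, ?_⟩
      rw [dl_T, norm_pow]
      have : ‖A 0 0‖ ^ (2 * n) ≤ 1 := pow_le_one₀ ha'.le hlt.le
      exact pow_le_one₀ (by positivity) this
    · exact hG pj 1
  have hd := det_eq A
  rw [hc, mul_zero, sub_zero] at hd
  have hnorm : ‖A 0 0‖ = 1 := by
    have h1 := not_lt.mp (main A hA hc)
    have h2 := not_lt.mp (main A⁻¹ (G.inv_mem hA) (by rw [inv10, hc, neg_zero]))
    rw [inv00] at h2
    have h3 : ‖A 0 0‖ * ‖A 1 1‖ = 1 := by rw [← norm_mul, hd, norm_one]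
    nlinarith
  by_contra hne
  push Not at hne
  have ha2 : 1 - (A 0 0) ^ 2 ≠ 0 := by
    intro h
    have h4 : (A 0 0 - 1) * (A 0 0 + 1) = 0 := by linear_combination -h
    rcases mul_eq_zero.mp h4 with h5 | h5
    · exact hne.1 (sub_eq_zero.mp h5)
    · exact hne.2 (eq_neg_of_add_eq_zero_left h5)
  set x : H3 := ⟨(A 0 0 * A 0 1 / (1 - (A 0 0) ^ 2), 1), one_pos⟩ with hx
  have hn1 : ‖A 1 1‖ = 1 := by
    have h3 : ‖A 0 0‖ * ‖A 1 1‖ = 1 := by rw [← norm_mul, hd, norm_one]
    rwa [hnorm, one_mul] at h3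
  have hfix : act A x = x := by
    have hdn : dn A x.1 = 1 := by
      unfold dn
      rw [hc]
      simp [hn1]
    apply Subtype.ext
    apply Prod.ext
    · change nz A x.1 = x.1.1
      unfold nz
      rw [hdn, hc]
      have h6 : (starRingEnd ℂ) (A 1 1) = A 0 0 := by
        have h7 : A 1 1 * (starRingEnd ℂ) (A 1 1) = 1 := by
          rw [Complex.mul_conj, Complex.normSq_eq_norm_sq, hn1]
          simp
        have h8 : A 1 1 ≠ 0 := right_ne_zero_of_mul_eq_one hd
        apply mul_left_cancel₀ h8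
        rw [h7, mul_comm, hd]
      simp only [zero_mul, zero_add, map_zero, mul_zero, add_zero, Complex.ofReal_one, div_one]
      rw [h6]
      simp only [hx]
      field_simp
      ring
    · change x.1.2 / dn A x.1 = x.1.2
      rw [hdn, div_one]
  have hfixn : ∀ n : ℕ, act (A ^ n) x = x := by
    intro n
    induction n with
    | zero => rw [pow_zero, act_one]
    | succ n ih => rw [pow_succ, act_mul, hfix, ih]
  have hfin := hG x 0
  have hnot : ¬ Function.Injective fun n : ℕ => A ^ n := by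
    intro hinj
    apply Set.infinite_of_injective_forall_mem hinj (s := {A : SL2C | A ∈ G ∧
      dl (act A x) x ≤ 0}) _ hfin
    intro n
    refine ⟨G.pow_mem hA n, ?_⟩
    rw [hfixn, dl_self]
  rw [Function.not_injective_iff] at hnot
  obtain ⟨m, n, hmn, hne'⟩ := hnot
  have key : ∀ m n : ℕ, m < n → A ^ m = A ^ n → False := by
    intro m n hlt h
    have h1 : A ^ (n - m) = 1 := by
      have h2 : A ^ m * A ^ (n - m) = A ^ m * 1 := by
        rw [← pow_add, mul_one, h]
        congr 1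
        omega
      exact mul_left_cancel h2
    rcases hTF A hA (n - m) (by omega) (Or.inl h1) with h3 | h3
    · apply hne.1
      rw [h3]
      rfl
    · apply hne.2
      rw [h3]
      simp
  rcases lt_or_gt_of_ne hne' with h | h
  · exact key m n h hmn
  · exact key n m h hmn.symm

/-- the sequence of Shimizu and Leutbecher -/
noncomputable def slq (A : SL2C) : ℕ → SL2C
  | 0 => A
  | n + 1 => slq A n * T 1 * (slq A n)⁻¹

theorem slq_mem {G : Subgroup SL2C} (hT : T 1 ∈ G) {A : SL2C} (hA : A ∈ G) (n : ℕ) :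
    slq A n ∈ G := by
  induction n with
  | zero => exact hA
  | succ n ih => exact G.mul_mem (G.mul_mem ih hT) (G.inv_mem ih)

theorem slq_succ (A : SL2C) (n : ℕ) : slq A (n + 1) 0 0 = 1 - slq A n 0 0 * slq A n 1 0 ∧
    slq A (n + 1) 0 1 = slq A n 0 0 ^ 2 ∧ slq A (n + 1) 1 0 = -slq A n 1 0 ^ 2 ∧
    slq A (n + 1) 1 1 = 1 + slq A n 0 0 * slq A n 1 0 := by
  have hd := det_eq (slq A n)
  have h : slq A (n + 1) = slq A n * T 1 * (slq A n)⁻¹ := rfl
  rw [h]
  refine ⟨?_, ?_, ?_, ?_⟩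
  · simp only [mul00, mul01, mul10, mul11, inv00, inv01, inv10, inv11, T00, T01, T10, T11]
    linear_combination hd
  · simp only [mul00, mul01, mul10, mul11, inv00, inv01, inv10, inv11, T00, T01, T10, T11]
    ring
  · simp only [mul00, mul01, mul10, mul11, inv00, inv01, inv10, inv11, T00, T01, T10, T11]
    ring
  · simp only [mul00, mul01, mul10, mul11, inv00, inv01, inv10, inv11, T00, T01, T10, T11]
    linear_combination hd

/-- the lemma of Shimizu and Leutbecher -/
theorem shimizu {G : Subgroup SL2C} (hG : Disc G) (hT : T 1 ∈ G) {A : SL2C}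
    (hA : A ∈ G) (hc : A 1 0 ≠ 0) : 1 ≤ ‖A 1 0‖ := by
  by_contra hlt
  rw [not_le] at hlt
  have hc0 : 0 < ‖A 1 0‖ := norm_pos_iff.mpr hc
  have hcn : ∀ n, ‖slq A n 1 0‖ = ‖A 1 0‖ ^ (2 ^ n) := by
    intro n
    induction n with
    | zero => simp [slq]
    | succ n ih =>
      rw [(slq_succ A n).2.2.1, norm_neg, norm_pow, ih, ← pow_mul, pow_succ]
  have hcle : ∀ n, ‖slq A n 1 0‖ ≤ ‖A 1 0‖ := by
    intro n
    rw [hcn]
    have h1 : 1 ≤ 2 ^ n := Nat.one_le_two_pow
    calc ‖A 1 0‖ ^ (2 ^ n) ≤ ‖A 1 0‖ ^ 1 := pow_le_pow_of_le_one hc0.le hlt.le h1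
      _ = ‖A 1 0‖ := pow_one _
  set M : ℝ := max ‖A 0 0‖ (1 / (1 - ‖A 1 0‖)) with hM
  have h1c : 0 < 1 - ‖A 1 0‖ := by linarith
  have hM1 : 1 ≤ M * (1 - ‖A 1 0‖) := by
    rw [← div_le_iff₀ h1c]
    exact le_max_right _ _
  have hM0 : 0 < M := lt_of_lt_of_le (by positivity) (le_max_right _ _)
  have hM2 : 1 ≤ M := by
    nlinarith
  have ha : ∀ n, ‖slq A n 0 0‖ ≤ M := by
    intro n
    induction n with
    | zero => exact le_max_left _ _
    | succ n ih =>
      rw [(slq_succ A n).1]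
      calc ‖1 - slq A n 0 0 * slq A n 1 0‖ ≤ ‖(1 : ℂ)‖ + ‖slq A n 0 0 * slq A n 1 0‖ :=
            norm_sub_le _ _
        _ = 1 + ‖slq A n 0 0‖ * ‖slq A n 1 0‖ := by rw [norm_one, norm_mul]
        _ ≤ 1 + M * ‖A 1 0‖ := by
            have := hcle n
            gcongr
        _ ≤ M := by linarith
  have hfro : ∀ n, dl (act (slq A (n + 1)) pj) pj ≤ 4 * M ^ 4 + 4 := by
    intro n
    have h1 := fro_eq (slq A (n + 1))
    have h2 : fro (slq A (n + 1)) ≤ 4 * M ^ 4 + 4 + 2 := by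
      unfold fro
      rw [(slq_succ A n).2.1, (slq_succ A n).2.2.2]
      have ha1 := ha (n + 1)
      have ha0 := ha n
      have hc1 := hcle (n + 1)
      have hc2 := hcle n
      have e1 : ‖slq A (n + 1) 0 0‖ ^ 2 ≤ M ^ 2 := by gcongr
      have e2 : ‖slq A n 0 0 ^ 2‖ ^ 2 ≤ M ^ 4 := by
        rw [norm_pow, ← pow_mul]
        calc ‖slq A n 0 0‖ ^ (2 * 2) ≤ M ^ (2 * 2) := by gcongr
          _ = M ^ 4 := by norm_num
      have e3 : ‖slq A (n + 1) 1 0‖ ^ 2 ≤ 1 := by
        apply pow_le_one₀ (norm_nonneg _)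
        linarith
      have e4 : ‖1 + slq A n 0 0 * slq A n 1 0‖ ^ 2 ≤ (1 + M) ^ 2 := by
        have : ‖1 + slq A n 0 0 * slq A n 1 0‖ ≤ 1 + M := by
          calc ‖1 + slq A n 0 0 * slq A n 1 0‖ ≤ ‖(1 : ℂ)‖ + ‖slq A n 0 0 * slq A n 1 0‖ :=
                norm_add_le _ _
            _ = 1 + ‖slq A n 0 0‖ * ‖slq A n 1 0‖ := by rw [norm_one, norm_mul]
            _ ≤ 1 + M * 1 := by
                have : ‖slq A n 1 0‖ ≤ 1 := by linarith
                gcongr
            _ = 1 + M := by ring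
        gcongr
      have e5 : M ^ 2 ≤ M ^ 4 := pow_le_pow_right₀ hM2 (by norm_num)
      nlinarith
    linarith
  have hinj : Function.Injective fun n : ℕ => slq A (n + 1) := by
    intro m n hmn
    have h1 : ‖slq A (m + 1) 1 0‖ = ‖slq A (n + 1) 1 0‖ := by
      have : slq A (m + 1) = slq A (n + 1) := hmn
      rw [this]
    rw [hcn, hcn] at h1
    have h2 := (pow_right_injective₀ hc0 hlt.ne) h1
    have h3 := Nat.pow_right_injective le_rfl h2
    omega
  apply Set.infinite_of_injective_forall_mem hinj (s := {A : SL2C | A ∈ G ∧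
    dl (act A pj) pj ≤ 4 * M ^ 4 + 4})
  · intro n
    exact ⟨slq_mem hT hA (n + 1), hfro n⟩
  · exact hG pj _

theorem height_lt {G : Subgroup SL2C} (hG : Disc G) (hT : T 1 ∈ G) {A : SL2C}
    (hA : A ∈ G) (hc : A 1 0 ≠ 0) {x : H3} (hx : 1 < x.1.2) : (act A x).1.2 < 1 := by
  have h1 := shimizu hG hT hA hc
  change x.1.2 / dn A x.1 < 1
  rw [div_lt_one (dn_pos A x)]
  unfold dn
  have h2 := sq_nonneg ‖A 1 0 * x.1.1 + A 1 1‖
  have h3 : 1 ≤ ‖A 1 0‖ ^ 2 := one_le_pow₀ h1
  have h4 : x.1.2 < x.1.2 ^ 2 := by nlinarith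
  have h5 : 1 * x.1.2 ^ 2 ≤ ‖A 1 0‖ ^ 2 * x.1.2 ^ 2 := by gcongr
  linarith

/-- the elements with `A 1 0 = 0` are translations up to sign -/
theorem eq_T_of_stab {G : Subgroup SL2C} (hG : Disc G) (hTF : TF G) (hT : T 1 ∈ G)
    (hneg : (-1 : SL2C) ∈ G) {A : SL2C} (hA : A ∈ G) (hc : A 1 0 = 0) :
    ∃ b : ℂ, T b ∈ G ∧ (A = T b ∨ A = -T b) := by
  have hd := det_eq A
  rw [hc, mul_zero, sub_zero] at hd
  rcases stab_inf hG hTF hT hA hc with h | h
  · rw [h, one_mul] at hd
    have : A = T (A 0 1) := ext2 h rfl hc hd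
    exact ⟨A 0 1, this ▸ hA, Or.inl this⟩
  · rw [h, neg_one_mul] at hd
    have hd' : A 1 1 = -1 := by linear_combination -hd
    have h2 : A = -T (-A 0 1) := by
      apply ext2
      · rw [h]; simp
      · simp
      · rw [hc]; simp
      · rw [hd']; simp
    refine ⟨-A 0 1, ?_, Or.inr h2⟩
    have h3 : T (-A 0 1) = (-1) * A := by
      rw [neg_one_mul]
      nth_rw 2 [h2]
      rw [neg_neg]
    rw [h3]
    exact G.mul_mem hneg hA

theorem exists_min {G : Subgroup SL2C} (hG : Disc G) : ∃ r : ℝ, 0 < r ∧ r ≤ 1 ∧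
    ∀ b : ℂ, T b ∈ G → b ≠ 0 → r ≤ ‖b‖ := by
  have h1 : {b : ℂ | T b ∈ G ∧ ‖b‖ ^ 2 ≤ 1}.Finite := by
    have h2 := (hG pj 1).preimage (f := T) (by
      intro x _ y _ h
      have := congrArg (fun X : SL2C => X 0 1) h
      simpa using this)
    apply h2.subset
    rintro b ⟨hb, hb1⟩
    refine ⟨hb, ?_⟩
    rw [dl_T]
    exact hb1
  have h2 : ∃ r : ℝ, 0 < r ∧ ∀ b ∈ {b : ℂ | T b ∈ G ∧ ‖b‖ ^ 2 ≤ 1}, b ≠ 0 → r ≤ ‖b‖ := by
    set s := (h1.toFinset.filter (· ≠ 0)) with hs
    rcases s.eq_empty_or_nonempty with he | hne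
    · refine ⟨1, one_pos, fun b hb hb0 => ?_⟩
      exfalso
      have : b ∈ s := by
        rw [hs, Finset.mem_filter, Set.Finite.mem_toFinset]
        exact ⟨hb, hb0⟩
      rw [he] at this
      simp at this
    · obtain ⟨b₀, hb₀, hmin⟩ := s.exists_min_image (fun b => ‖b‖) hne
      refine ⟨‖b₀‖, ?_, fun b hb hb0 => hmin b ?_⟩
      · rw [norm_pos_iff]
        rw [hs, Finset.mem_filter] at hb₀
        exact hb₀.2
      · rw [hs, Finset.mem_filter, Set.Finite.mem_toFinset]
        exact ⟨hb, hb0⟩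
  obtain ⟨r, hr, hr'⟩ := h2
  refine ⟨min r 1, lt_min hr one_pos, min_le_right _ _, fun b hb hb0 => ?_⟩
  by_cases hb1 : ‖b‖ ^ 2 ≤ 1
  · exact (min_le_left _ _).trans (hr' b ⟨hb, hb1⟩ hb0)
  · have : 1 < ‖b‖ := by
      by_contra h
      rw [not_lt] at h
      exact hb1 (pow_le_one₀ (norm_nonneg _) h)
    exact (min_le_right _ _).trans this.le

theorem exists_im {G : Subgroup SL2C} (hG : Disc G) (hTF : TF G) (hF : Fc G) (hT : T 1 ∈ G)
    (hneg : (-1 : SL2C) ∈ G) : ∃ b : ℂ, T b ∈ G ∧ b.im ≠ 0 := by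
  by_contra hcon
  push Not at hcon
  obtain ⟨r, hr, hr1, hmin⟩ := exists_min hG
  set U : Set H3 := {x | ‖x.1.1‖ < r / 2 ∧ 1 < x.1.2} with hU
  have hf1 : Continuous fun x : H3 => ‖x.1.1‖ := by fun_prop
  have hf2 : Continuous fun x : H3 => x.1.2 := by fun_prop
  have hUo : IsOpen U := by
    apply IsOpen.inter
    · exact isOpen_lt hf1 continuous_const
    · exact isOpen_lt continuous_const hf2
  have hUne : U.Nonempty := ⟨⟨(0, 2), two_pos⟩, by simp only [hU, Set.mem_ofPred_eq]; norm_num; linarith⟩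
  apply no_inf hG hF hUo hUne (fun k => T ((k : ℂ) * I))
  · intro k l x hkl h1 h2
    have e1 : ‖x.1.1 + (k : ℂ) * I‖ < r / 2 := by
      have := h1.1
      rwa [act_T] at this
    have e2 : ‖x.1.1 + (l : ℂ) * I‖ < r / 2 := by
      have := h2.1
      rwa [act_T] at this
    have e3 : ‖((k : ℂ) - l) * I‖ < r := by
      have : ((k : ℂ) - l) * I = (x.1.1 + (k : ℂ) * I) - (x.1.1 + (l : ℂ) * I) := by ring
      rw [this]
      linarith [norm_sub_le (x.1.1 + (k : ℂ) * I) (x.1.1 + (l : ℂ) * I)]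
    rw [norm_mul, Complex.norm_I, mul_one] at e3
    have e4 : ‖((k : ℂ) - l)‖ = |((k : ℤ) - l : ℤ)| := by
      have : ((k : ℂ) - l) = (((k : ℤ) - l : ℤ) : ℂ) := by push_cast; ring
      rw [this, Complex.norm_intCast]
      push_cast
      rfl
    have e5 : (1 : ℤ) ≤ |((k : ℤ) - l : ℤ)| := by
      apply Int.one_le_abs
      omega
    have e6 : (1 : ℝ) ≤ |((k : ℤ) - l : ℤ)| := by exact_mod_cast e5
    rw [e4] at e3
    have e7 : ((|((k : ℤ) - l : ℤ)| : ℤ) : ℝ) < 1 := by
      push_cast at e3 ⊢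
      linarith
    push_cast at e6 e7
    linarith
  · intro A hA hA1 hA2 k l x h1 h2
    have e1 : ‖x.1.1 + (k : ℂ) * I‖ < r / 2 := by
      have := h1.1
      rwa [act_T] at this
    have e1' : 1 < x.1.2 := by
      have := h1.2
      rwa [act_T] at this
    have e2 : ‖(act A x).1.1 + (l : ℂ) * I‖ < r / 2 := by
      have := h2.1
      rwa [act_T] at this
    have e2' : 1 < (act A x).1.2 := by
      have := h2.2
      rwa [act_T] at this
    by_cases hc : A 1 0 = 0
    · obtain ⟨b, hb, hAb⟩ := eq_T_of_stab hG hTF hT hneg hA hc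
      have hact : act A x = act (T b) x := by
        rcases hAb with h | h
        · rw [h]
        · rw [h]
          have : pi (-T b) = pi (T b) := by
            rw [neg_eq_neg_one_mul, map_mul, (stmG0 (-1)).mpr (Or.inr rfl), one_mul]
          exact congrArg (fun f : Equiv.Perm H3 => f x) this
      have hb0 : b ≠ 0 := by
        rintro rfl
        rw [T_zero] at hAb
        rcases hAb with h | h
        · exact hA1 h
        · exact hA2 h
      have hbim := hcon b hb
      rw [hact, act_T] at e2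
      have e3 : ‖b + ((l : ℂ) - k) * I‖ < r := by
        have : b + ((l : ℂ) - k) * I = (x.1.1 + b + (l : ℂ) * I) - (x.1.1 + (k : ℂ) * I) := by ring
        rw [this]
        linarith [norm_sub_le (x.1.1 + b + (l : ℂ) * I) (x.1.1 + (k : ℂ) * I)]
      have e4 : ‖b‖ ≤ ‖b + ((l : ℂ) - k) * I‖ := by
        have h5 : b = (b.re : ℂ) := Complex.ext (by simp) (by simp [hbim])
        have h6 : (b + ((l : ℂ) - k) * I).re = b.re := by simp
        calc ‖b‖ = |b.re| := by
              nth_rw 1 [h5]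
              rw [Complex.norm_real, Real.norm_eq_abs]
          _ = |(b + ((l : ℂ) - k) * I).re| := by rw [h6]
          _ ≤ _ := Complex.abs_re_le_norm _
      have := hmin b hb hb0
      linarith
    · have := height_lt hG hT hA hc e1'
      linarith

theorem exists_c {G : Subgroup SL2C} (hG : Disc G) (hTF : TF G) (hF : Fc G) (hT : T 1 ∈ G)
    (hneg : (-1 : SL2C) ∈ G) : ∃ A ∈ G, A 1 0 ≠ 0 := by
  by_contra hcon
  push Not at hcon
  obtain ⟨r, hr, hr1, hmin⟩ := exists_min hG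
  set U : Set H3 := {x | ‖x.1.1‖ < r / 2 ∧ 1 < x.1.2 ∧ x.1.2 < 4} with hU
  have hf1 : Continuous fun x : H3 => ‖x.1.1‖ := by fun_prop
  have hf2 : Continuous fun x : H3 => x.1.2 := by fun_prop
  have hUo : IsOpen U := by
    apply IsOpen.inter
    · exact isOpen_lt hf1 continuous_const
    · apply IsOpen.inter
      · exact isOpen_lt continuous_const hf2
      · exact isOpen_lt hf2 continuous_const
  have hUne : U.Nonempty := ⟨⟨(0, 2), two_pos⟩, by
    simp only [hU, Set.mem_ofPred_eq]; norm_num; linarith⟩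
  have h2k : ∀ k : ℕ, ((2 : ℂ) ^ k) ≠ 0 := fun k => pow_ne_zero _ two_ne_zero
  have hn2k : ∀ k : ℕ, ‖((2 : ℂ) ^ k)‖ = 2 ^ k := by
    intro k
    rw [norm_pow]
    norm_num
  have hexp : ∀ k : ℕ, ∀ x : H3, act (dg (2 ^ k) (h2k k)) x ∈ U →
      ‖x.1.1‖ < r / 2 ∧ 1 < 4 ^ k * x.1.2 ∧ 4 ^ k * x.1.2 < 4 := by
    intro k x hx
    simp only [hU, Set.mem_ofPred_eq, act_dg, norm_mul, norm_pow, hn2k] at hx
    obtain ⟨h1, h2, h3⟩ := hx
    have e : ((2 : ℝ) ^ k) ^ 2 = 4 ^ k := by
      rw [← pow_mul, mul_comm, pow_mul]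
      norm_num
    rw [e] at h1 h2 h3
    refine ⟨?_, h2, h3⟩
    have h4 : (1 : ℝ) ≤ 4 ^ k := one_le_pow₀ (by norm_num)
    nlinarith [norm_nonneg x.1.1]
  apply no_inf hG hF hUo hUne (fun k => dg (2 ^ k) (h2k k))
  · intro k l x hkl h1 h2
    obtain ⟨_, a1, a2⟩ := hexp k x h1
    obtain ⟨_, b1, b2⟩ := hexp l x h2
    have hx := x.2
    rcases lt_or_gt_of_ne hkl with h | h
    · have h5 : (4 : ℝ) ^ (k + 1) ≤ 4 ^ l := pow_le_pow_right₀ (by norm_num) h
      rw [pow_succ] at h5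
      nlinarith
    · have h5 : (4 : ℝ) ^ (l + 1) ≤ 4 ^ k := pow_le_pow_right₀ (by norm_num) h
      rw [pow_succ] at h5
      nlinarith
  · intro A hA hA1 hA2 k l x h1 h2
    obtain ⟨a0, a1, a2⟩ := hexp k x h1
    obtain ⟨b0, b1, b2⟩ := hexp l _ h2
    obtain ⟨b, hb, hAb⟩ := eq_T_of_stab hG hTF hT hneg hA (hcon A hA)
    have hact : act A x = act (T b) x := by
      rcases hAb with h | h
      · rw [h]
      · rw [h]
        have : pi (-T b) = pi (T b) := by
          rw [neg_eq_neg_one_mul, map_mul, (stmG0 (-1)).mpr (Or.inr rfl), one_mul]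
        exact congrArg (fun f : Equiv.Perm H3 => f x) this
    have hb0 : b ≠ 0 := by
      rintro rfl
      rw [T_zero] at hAb
      rcases hAb with h | h
      · exact hA1 h
      · exact hA2 h
    rw [hact, act_T] at b0
    have e3 : ‖b‖ < r := by
      have : b = (x.1.1 + b) - x.1.1 := by ring
      rw [this]
      simp only at b0
      linarith [norm_sub_le (x.1.1 + b) x.1.1]
    have := hmin b hb hb0
    linarith

theorem stmM2 : StmM2 := by
  intro G hneg hG hTF hF ⟨A, hA, hA1, hA2, htr⟩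
  -- trace 2
  obtain ⟨A', hA', hA'1, htr'⟩ : ∃ A' ∈ G, A' ≠ 1 ∧ trc A' = 2 := by
    have h1 : (trc A - 2) * (trc A + 2) = 0 := by linear_combination htr
    rcases mul_eq_zero.mp h1 with h | h
    · exact ⟨A, hA, hA1, sub_eq_zero.mp h⟩
    · refine ⟨-1 * A, G.mul_mem hneg hA, ?_, ?_⟩
      · intro h2
        apply hA2
        rw [neg_one_mul] at h2
        rw [← h2, neg_neg]
      · unfold trc at h ⊢
        rw [neg_one_mul]
        simp only [Matrix.SpecialLinearGroup.coe_neg, Matrix.neg_apply]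
        linear_combination -h
  obtain ⟨B, hB⟩ := parabolic_conj A' htr' hA'1
  have hT : T 1 ∈ cj B G := hB ▸ conj_mem_cj hA'
  have hG' := hG.cj B
  have hTF' := hTF.cj B
  have hF' := hF.cj B
  have hneg' := neg_one_mem_cj hneg B
  obtain ⟨b, hb, hbim⟩ := exists_im hG' hTF' hF' hT hneg'
  refine ⟨B, 1, b, ?_, hT, hb, fun A hA hc => stab_inf hG' hTF' hT hA hc, ?_⟩
  · unfold Ind
    simpa using hbim
  · exact exists_c hG' hTF' hF' hT hneg'

end Pool.Agent.N530.LS
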