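import Pool.Agent.N530.LS.Defs

/-!
# Statements of the parts of the project LS (MP_67f4ac_gt)
-/

set_option autoImplicit false

namespace Pool.Agent.N530.LS

open Filter Topology

/-- A1: lattice points in discs, with congruence conditions. -/
def StmA1 : Prop := ∀ ω₁ ω₂ : ℂ, Ind ω₁ ω₂ → ∃ κ : ℝ, 0 < κ ∧
  ∀ (N : ℕ), 0 < N → ∀ (r s : ℤ) (z₀ : ℂ),
    (∀ R : ℝ, {v : ℤ × ℤ | ‖z₀ + lv ω₁ ω₂ v‖ ≤ R}.Finite) ∧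
    Tendsto (fun R : ℝ => (Set.ncard {v : ℤ × ℤ | (N : ℤ) ∣ v.1 - r ∧ (N : ℤ) ∣ v.2 - s ∧
      ‖z₀ + lv ω₁ ω₂ v‖ ≤ R} : ℝ) / R ^ 2) atTop (𝓝 (κ / (N : ℝ) ^ 2))

/-- A2: Cassels' embedding theorem, with units. -/
def StmA2 : Prop := ∀ (s : Finset ℂ) (B : ℕ), ∃ (p : ℕ) (_ : Fact p.Prime), B < p ∧
  ∃ σ : Subfield.closure (s : Set ℂ) →+* ℚ_[p],
    ∀ x : Subfield.closure (s : Set ℂ), (x : ℂ) ∈ s → (x : ℂ) ≠ 0 → ‖σ x‖ = 1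

/-- A3: the number of non-squares `(X² - 4) (Y² - 4)` modulo `p`. -/
def StmA3 : Prop := ∀ (p : ℕ) [Fact p.Prime], 23 ≤ p →
  p ^ 2 ≤ 5 * Nat.card {v : ZMod p × ZMod p // ¬ IsSquare ((v.1 ^ 2 - 4) * (v.2 ^ 2 - 4))}

/-- A4: the counting principle. -/
def StmA4 : Prop := ∀ ω₁ ω₂ : ℂ, Ind ω₁ ω₂ → ∀ (Tr : Set ℂ) (C : ℝ), QG Tr C →
  ∃ C' : ℝ, ∀ (J : Finset ℕ) (a t₀ : ℕ → ℂ) (P : ℕ → Set (ℤ × ℤ)),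
    (∀ j ∈ J, a j ≠ 0) →
    (∀ j ∈ J, ∀ v ∈ P j, t₀ j + a j * lv ω₁ ω₂ v ∈ Tr) →
    (∀ j ∈ J, Tendsto (fun R : ℝ =>
      (Set.ncard {v : ℤ × ℤ | v ∉ P j ∧ ‖lv ω₁ ω₂ v‖ ≤ R} : ℝ) / R ^ 2) atTop (𝓝 0)) →
    (∀ i ∈ J, ∀ j ∈ J, i ≠ j → ∃ w : ℤ × ℤ, ∀ m : ℤ, m ≠ 0 → ∀ v : ℤ × ℤ,
      a i * (m * lv ω₁ ω₂ w) ≠ a j * lv ω₁ ω₂ v) →
    ∑ j ∈ J, 1 / ‖a j‖ ^ 2 ≤ C'

/-- B1: the cusp lattice has complex multiplication. -/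
def StmB1 : Prop := ∀ (G : Subgroup SL2C) (ω₁ ω₂ : ℂ), Good G ω₁ ω₂ →
  ∃ α β γ : ℤ, α ≠ 0 ∧ α * (ω₂ / ω₁) ^ 2 + β * (ω₂ / ω₁) + γ = 0

/-- B2: differences of cusps are in the field. -/
def StmB2 : Prop := ∀ (G : Subgroup SL2C) (τ : ℂ) (d : ℕ), 0 < d → τ ∈ Kd d → Good G 1 τ →
  ∀ A ∈ G, ∀ B ∈ G, A 1 0 ≠ 0 → B 1 0 ≠ 0 → A 0 0 / A 1 0 + B 1 1 / B 1 0 ∈ Kd d

/-- B3: after conjugation all matrices are rational up to a scalar. -/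
def StmB3 : Prop := ∀ (G : Subgroup SL2C) (ω₁ ω₂ : ℂ), Good G ω₁ ω₂ →
  ∃ (d : ℕ) (B : SL2C) (τ : ℂ), 0 < d ∧ τ ∈ Kd d ∧ Good (cj B G) 1 τ ∧ Rat' d (cj B G)

/-- C1: the abstract lemma on divisors in classes, for a free commutative monoid with norms. -/
def StmC1 : Prop := ∀ (P G : Type) [CommGroup G] [Finite G] (N : P → ℕ) (c : P → G) (ρ : ℝ),
  (∀ p, 2 ≤ N p) → 0 < ρ →
  (∀ X : ℕ, {s : Multiset P | (s.map N).prod ≤ X}.Finite) →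
  (∀ g : G, Tendsto (fun X : ℕ =>
    (Set.ncard {s : Multiset P | (s.map c).prod = g ∧ (s.map N).prod ≤ X} : ℝ) / X)
      atTop (𝓝 ρ)) →
  ∀ g : G, Tendsto (fun X : ℕ =>
    (Set.ncard {s : Multiset P | (∀ t ≤ s, (t.map c).prod ≠ g) ∧ (s.map N).prod ≤ X} : ℝ) / X)
      atTop (𝓝 0)

/-- C3: almost all integers congruent to `s` modulo `ν` have a divisor congruent to `r`. -/
def StmC3 : Prop := ∀ (d : ℕ), 0 < d → ∀ r ∈ Od d, ∀ s ∈ Od d, ∀ ν ∈ Od d, ν ≠ 0 →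
  (∃ e ∈ Od d, ∃ f ∈ Od d, r * e + ν * f = 1) → (∃ e ∈ Od d, ∃ f ∈ Od d, s * e + ν * f = 1) →
  Tendsto (fun R : ℝ => (Set.ncard {x : ℂ | (∃ y ∈ Od d, x = s + ν * y) ∧ ‖x‖ ≤ R ∧
    ¬ ∃ a ∈ Od d, ∃ b ∈ Od d, x = a * b ∧ ∃ y ∈ Od d, a = r + ν * y} : ℝ) / R ^ 2)
    atTop (𝓝 0)

/-- C4: the traces of the rational elements are integral. -/
def StmC4 : Prop := ∀ (G : Subgroup SL2C) (τ : ℂ) (d : ℕ), 0 < d → τ ∈ Kd d → Good G 1 τ →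
  Rat' d G → ∀ A ∈ G, (∀ i j, A i j ∈ Kd d) → trc A ∈ Od d

/-- D1: bounded denominators. -/
def StmD1 : Prop := ∀ (G : Subgroup SL2C) (τ : ℂ) (d : ℕ), 0 < d → τ ∈ Kd d → Good G 1 τ →
  Rat' d G → (∀ A ∈ G, (∀ i j, A i j ∈ Kd d) → trc A ∈ Od d) →
  ∃ N : ℕ, 0 < N ∧ ∀ A ∈ G, ∀ i j k l, (N : ℂ) * (A i j * A k l) ∈ Od d

/-- D2: finite index. -/
def StmD2 : Prop := ∀ (G : Subgroup SL2C) (d : ℕ), 0 < d → Rat' d G →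
  (∃ N : ℕ, 0 < N ∧ ∀ A ∈ G, ∀ i j k l, (N : ℂ) * (A i j * A k l) ∈ Od d) →
  ∃ S : Finset SL2C, ∀ A ∈ G, ∃ s ∈ S, s ∈ G ∧ ∀ i j, (s⁻¹ * A) i j ∈ Od d

end Pool.Agent.N530.LS
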