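import Pool.Agent.N530.LS.Defs

/-!
# Statements of the parts of the project LS (MP_67f4ac_gt): ray classes
-/

set_option autoImplicit false

namespace Pool.Agent.N530.LS

open Filter Topology NumberField

/-- the prime ideals not containing `ν` -/
abbrev Pr (K : Type) [Field K] [NumberField K] (ν : 𝓞 K) : Type :=
  {I : Ideal (𝓞 K) // I.IsPrime ∧ I ≠ ⊥ ∧ ν ∉ I}

/-- C2: the ideals prime to `ν` are equidistributed in the ray classes modulo `ν`, for an
imaginary quadratic field. -/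
def StmC2 : Prop := ∀ (K : Type) [Field K] [NumberField K] (φ : K →+* ℂ),
  Module.finrank ℚ K = 2 → (∃ x, (φ x).im ≠ 0) → ∀ ν : 𝓞 K, ν ≠ 0 →
  ∃ (G : Type) (_ : CommGroup G) (_ : Finite G) (c : Pr K ν → G) (ρ : ℝ), 0 < ρ ∧
    (∀ X : ℕ, {s : Multiset (Pr K ν) | (s.map fun p => Ideal.absNorm p.1).prod ≤ X}.Finite) ∧
    (∀ g : G, Tendsto (fun X : ℕ => (Set.ncard {s : Multiset (Pr K ν) | (s.map c).prod = g ∧
      (s.map fun p => Ideal.absNorm p.1).prod ≤ X} : ℝ) / X) atTop (𝓝 ρ)) ∧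
    ∀ r : 𝓞 K, IsCoprime r ν → ∃ g : G, ∀ s : Multiset (Pr K ν), (s.map c).prod = g →
      ∃ a : 𝓞 K, ν ∣ a - r ∧ Ideal.span {a} = (s.map fun p => p.1).prod

end Pool.Agent.N530.LS
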