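import Pool.Agent.N530.LS.Act

/-!
# Statements of the geometric parts of the project LS (MP_67f4ac_gt)
-/

set_option autoImplicit false

namespace Pool.Agent.N530.LS

open Filter Topology MeasureTheory

/-- the hyperbolic volume -/
noncomputable def vol : Measure H3 :=
  ((volume : Measure (ℂ × ℝ)).withDensity (fun p => ENNReal.ofReal (1 / p.2 ^ 3))).comap
    Subtype.val

/-- complex conjugation on `H3` -/
noncomputable def cc : Equiv.Perm H3 where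
  toFun p := ⟨((starRingEnd ℂ) p.1.1, p.1.2), p.2⟩
  invFun p := ⟨((starRingEnd ℂ) p.1.1, p.1.2), p.2⟩
  left_inv p := by simp
  right_inv p := by simp

/-- distance of a matrix from the identity -/
noncomputable def ds (A : SL2C) : ℝ := ‖A 0 0 - 1‖ + ‖A 0 1‖ + ‖A 1 0‖ + ‖A 1 1 - 1‖

/-- discreteness -/
def Disc (G : Subgroup SL2C) : Prop :=
  ∀ (x : H3) (R : ℝ), {A : SL2C | A ∈ G ∧ dl (act A x) x ≤ R}.Finite

/-- torsion-free modulo `± 1` -/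
def TF (G : Subgroup SL2C) : Prop :=
  ∀ A ∈ G, ∀ n : ℕ, 0 < n → (A ^ n = 1 ∨ A ^ n = -1) → A = 1 ∨ A = -1

/-- finite covolume -/
def Fc (G : Subgroup SL2C) : Prop :=
  ∃ F : Set H3, MeasurableSet F ∧ vol F < ⊤ ∧ ∀ x : H3, ∃ A ∈ G, act A x ∈ F

/-- cocompactness -/
def Cc (G : Subgroup SL2C) : Prop :=
  ∃ K : Set H3, IsCompact K ∧ ∀ x : H3, ∃ A ∈ G, act A x ∈ K

/-- the hypotheses on the group of isometries in the frozen statement -/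
def Hyp (Γ : Subgroup (Equiv.Perm H3)) : Prop :=
  (∀ γ ∈ Γ, ∀ x y : H3, dl (γ x) (γ y) = dl x y) ∧
  (∀ (x : H3) (R : ℝ), Set.Finite {γ : Equiv.Perm H3 | γ ∈ Γ ∧ dl (γ x) x ≤ R}) ∧
  (∀ γ ∈ Γ, ∀ n : ℕ, 0 < n → γ ^ n = 1 → γ = 1) ∧
  (∃ F : Set (ℂ × ℝ), MeasurableSet F ∧ (∀ p ∈ F, 0 < p.2) ∧
    (∫⁻ p in F, ENNReal.ofReal (1 / p.2 ^ 3)) < ⊤ ∧
    ∀ x : H3, ∃ γ ∈ Γ, (γ x).1 ∈ F) ∧
  ¬ ∃ K : Set H3, IsCompact K ∧ ∀ x : H3, ∃ γ ∈ Γ, γ x ∈ K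

/-- G0: the kernel of the action. -/
def StmG0 : Prop := ∀ A : SL2C, pi A = 1 ↔ A = 1 ∨ A = -1

/-- G2: classification of the isometries. -/
def StmG2 : Prop := ∀ γ : Equiv.Perm H3, (∀ x y, dl (γ x) (γ y) = dl x y) →
  (∃ A : SL2C, γ = pi A) ∨ ∃ A : SL2C, γ = pi A * cc

/-- G3: invariance of the volume. -/
def StmG3 : Prop := (∀ A : SL2C, MeasurePreserving (pi A) vol vol) ∧
  MeasurePreserving cc vol vol

/-- G4: the minimal displacement. -/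
def StmG4 : Prop := ∀ A : SL2C, 2 < uu (trc A) →
  1 + (⨅ x : H3, dl (pi A x) x) / 2 = uu (trc A) / 2

/-- GR: reduction to subgroups of `SL(2, ℂ)`. -/
def StmGR : Prop := ∀ Γ : Subgroup (Equiv.Perm H3), Hyp Γ →
  (-1 : SL2C) ∈ Γ.comap pi ∧ Disc (Γ.comap pi) ∧ TF (Γ.comap pi) ∧ Fc (Γ.comap pi) ∧
  ¬ Cc (Γ.comap pi) ∧
  ∃ S : Finset (Equiv.Perm H3), ∀ γ ∈ Γ, ∃ s ∈ S, s ∈ Γ ∧ ∃ A ∈ Γ.comap pi, γ = s * pi A

/-- GI: a subgroup of finite covolume of a discrete group has finite index. -/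
def StmGI : Prop := ∀ G D : Subgroup SL2C, G ≤ D → Disc D → Fc G →
  ∃ S : Finset SL2C, ∀ A ∈ D, ∃ s ∈ S, s ∈ D ∧ s⁻¹ * A ∈ G

/-- GV: the measure inequality. -/
def StmGV : Prop := ∀ G : Subgroup SL2C, Disc G → ∀ F U : Set H3, MeasurableSet F →
  (∀ x : H3, ∃ A ∈ G, act A x ∈ F) → MeasurableSet U →
  (∀ A ∈ G, A ≠ 1 → A ≠ -1 → ∀ x ∈ U, act A x ∉ U) → vol U ≤ vol F

/-- M1a: commutators of elements close to the identity. -/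
def StmMa : Prop := ∃ c : ℝ, 0 < c ∧ ∀ P Q : SL2C, ds P ≤ c → ds Q ≤ c →
  ds (P * Q * P⁻¹ * Q⁻¹) ≤ ds P / 2

/-- M1b: a bounded power of an element with small displacement is close to the identity. -/
def StmMb : Prop := ∀ c : ℝ, 0 < c → ∃ ε : ℝ, 0 < ε ∧ ∃ N : ℕ, ∀ A : SL2C, fro A ≤ 2 + ε →
  ∃ k : ℕ, 0 < k ∧ k ≤ N ∧ ds (A ^ k) ≤ c

/-- M1c: the thick part is compact modulo the group. -/
def StmMc : Prop := ∀ G : Subgroup SL2C, Disc G → TF G → Fc G → ∀ ε : ℝ, 0 < ε →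
  ∃ K : Set H3, IsCompact K ∧ ∀ x : H3,
    (∀ A ∈ G, A ≠ 1 → A ≠ -1 → ε ≤ dl (act A x) x) → ∃ A ∈ G, act A x ∈ K

/-- M1: a discrete torsion-free group of finite covolume which is not cocompact contains
parabolic elements. -/
def StmM1 : Prop := ∀ G : Subgroup SL2C, (-1 : SL2C) ∈ G → Disc G → TF G → Fc G → ¬ Cc G →
  ∃ A ∈ G, A ≠ 1 ∧ A ≠ -1 ∧ trc A ^ 2 = 4

/-- M2: the cusp lattice. -/
def StmM2 : Prop := ∀ G : Subgroup SL2C, (-1 : SL2C) ∈ G → Disc G → TF G → Fc G →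
  (∃ A ∈ G, A ≠ 1 ∧ A ≠ -1 ∧ trc A ^ 2 = 4) →
  ∃ (B : SL2C) (ω₁ ω₂ : ℂ), Ind ω₁ ω₂ ∧ T ω₁ ∈ cj B G ∧ T ω₂ ∈ cj B G ∧
    (∀ A ∈ cj B G, A 1 0 = 0 → A 0 0 = 1 ∨ A 0 0 = -1) ∧ ∃ A ∈ cj B G, A 1 0 ≠ 0

end Pool.Agent.N530.LS
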